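import Pool.Agent.Helper120_Alt.R3.Raw5
import Pool.Agent.Helper120_Alt.Syz

set_option autoImplicit false

/-! The ideal of a relator with finitely generated syzygies. -/

namespace Pool.Agent.Helper120_Alt.R3

open Pool.Agent.Helper895.Alt

noncomputable section

variable {F : Type} [Field F] {K : Type} [Field K] [Algebra F K] {p : Fin 10 → K}
  {f : NA F (Fin 3)}

theorem chi_cof (g : NA F (Fin 3)) : chi F g = cof (psi F (Fin 3) g) := rfl

/-- formal sums of pairs of words applied to the relator -/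
def Psi (f : NA F (Fin 3)) : ((List (Fin 3) × List (Fin 3)) →₀ F) →ₗ[F] NA F (Fin 3) :=
  Finsupp.linearCombination F fun x => G f x.1 x.2

theorem chi_G (f : NA F (Fin 3)) (P Q : List (Fin 3)) :
    chi F (G f P Q) = Finsupp.mapDomain (fun W => P ++ W ++ Q) (chi F f) := by
  unfold G
  rw [chi_Rm, chi_Lm, ← Finsupp.mapDomain_comp]
  rfl

theorem chi_Psi (s : (List (Fin 3) × List (Fin 3)) →₀ F) :
    chi F (Psi f s) = syv (psi F (Fin 3) f) s := by
  unfold Psi syv
  rw [Finsupp.linearCombination_apply, Finsupp.sum, map_sum, Finsupp.sum]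
  refine Finset.sum_congr rfl fun x _ => ?_
  rw [map_smul, chi_G, chi_cof]

theorem Psi_single (P Q : List (Fin 3)) (c : F) :
    Psi f (Finsupp.single (P, Q) c) = c • G f P Q := by
  unfold Psi
  rw [Finsupp.linearCombination_single]

theorem Psi_tsy (p : Fin 10 → K) (P V Q : List (Fin 3)) :
    Psi f (tsy (psi F (Fin 3) f) P V Q) ∈ JJ p f := by
  have h := star (p := p) (f := f) P V Q
  unfold Eqv at h
  have e : Psi f (tsy (psi F (Fin 3) f) P V Q) =
      (us f fun W => G f P (V ++ W ++ Q)) - us f fun W => G f (P ++ W ++ V) Q := by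
    unfold tsy us
    rw [← chi_cof, Finsupp.sum, map_sum, Finsupp.sum, Finsupp.sum, ← Finset.sum_sub_distrib]
    refine Finset.sum_congr rfl fun W _ => ?_
    rw [map_smul, map_sub, Psi_single, Psi_single, one_smul, one_smul, smul_sub]
  rw [e]
  exact h

theorem G_shift (A B P Q : List (Fin 3)) :
    Eqv p f (G f (A ++ P) (Q ++ B)) (Rm F B (Lm F A (G f P Q))) := by
  unfold G
  rw [Lm_append, Rm_append]
  refine Eqv.Rm ?_ B
  have hx : Lm F P f ∈ Nn p f := Lm_mem (fun a _ hx => Nn_mul a hx) P (f_Nn p f)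
  generalize Lm F P f = x at *
  induction A with
  | nil => exact Eqv.refl _
  | cons i A ih =>
    rw [Lm_cons, Lm_cons]
    exact (mul_Rm' (ge F i) (Lm_mem (fun a _ hx => Nn_mul a hx) A hx) Q).symm.trans
      (ih.mulL (ge F i))

theorem Psi_shf (p : Fin 10 → K) (A B : List (Fin 3))
    (s : (List (Fin 3) × List (Fin 3)) →₀ F) :
    Psi f (shf A B s) - Rm F B (Lm F A (Psi f s)) ∈ JJ p f := by
  induction s using Finsupp.induction_linear with
  | zero => simp [shf]
  | add s t hs ht =>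
    have e : shf A B (s + t) = shf A B s + shf A B t := Finsupp.mapDomain_add
    rw [e, map_add, map_add, map_add, map_add, add_sub_add_comm]
    exact add_mem hs ht
  | single x c =>
    obtain ⟨P, Q⟩ := x
    have e : shf A B (Finsupp.single (P, Q) c) = Finsupp.single (A ++ P, Q ++ B) c :=
      Finsupp.mapDomain_single
    rw [e, Psi_single, Psi_single, map_smul, map_smul, ← smul_sub]
    exact Submodule.smul_mem _ _ (G_shift A B P Q)

theorem JJ_le_JY {b : ℕ} (y : Fin b → Oct K) : JJ p f ≤ JY p f y :=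
  fun _ hx => ⟨hx.1, FF_le_IY y hx.2⟩

theorem JY_mul {b : ℕ} {y : Fin b → Oct K} (a : NA F (Fin 3)) {x : NA F (Fin 3)}
    (hx : x ∈ JY p f y) : a * x ∈ JY p f y ∧ x * a ∈ JY p f y := by
  rw [mem_JY] at hx
  rw [mem_JY, mem_JY, map_mul, map_mul, map_mul, map_mul, hx.1, mul_zero, zero_mul]
  have := (IY_Bim y : Bim p (IY p f y)) a _ hx.2
  exact ⟨⟨rfl, this.1⟩, ⟨rfl, this.2⟩⟩

theorem JY_le_If (hp : Gp F p) {b : ℕ} {y : Fin b → Oct K}
    (hy : ∀ t, ∃ g ∈ DD F ⊓ If f, ph F p g = y t) : JY p f y ≤ If f := by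
  have hmul : ∀ a x : NA F (Fin 3), x ∈ DD F ⊓ If f →
      a * x ∈ DD F ⊓ If f ∧ x * a ∈ DD F ⊓ If f := by
    rintro a x ⟨h1, h2⟩
    have h3 := DD_mul a h1
    have h4 := If_mul a h2
    exact ⟨⟨h3.1, h4.1⟩, ⟨h3.2, h4.2⟩⟩
  have hle : IY p f y ≤ (DD F ⊓ If f).map (ph F p : NA F (Fin 3) →ₗ[F] Oct K) := by
    apply gen_le
    · rintro x (hx | ⟨t, rfl⟩)
      · exact FF_le_map (subset_gen p hx)
      · obtain ⟨g, hg, e⟩ := hy t
        exact ⟨g, hg, e⟩
    · rintro a _ ⟨x, hx, rfl⟩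
      have := hmul a x hx
      exact ⟨⟨a * x, this.1, map_mul (ph F p) _ _⟩, ⟨x * a, this.2, map_mul (ph F p) _ _⟩⟩
  intro x hx
  rw [mem_JY] at hx
  obtain ⟨z, ⟨hz1, hz2⟩, he⟩ := hle hx.2
  have h1 : x - z ∈ I0 F := by
    rw [mem_I0_iff hp, map_sub, map_sub, hx.1, (mem_DD_iff z).mp hz1, sub_zero]
    refine ⟨rfl, ?_⟩
    have : ph F p z = ph F p x := he
    rw [this, sub_self]
  rw [← sub_add_cancel x z]
  exact add_mem (I0_le_If h1) hz2

theorem If_le_Psi (p : Fin 10 → K) :
    If f ≤ LinearMap.range (Psi f) ⊔ JJ p f := by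
  have hG : ∀ P Q, G f P Q ∈ LinearMap.range (Psi f) := fun P Q =>
    ⟨Finsupp.single (P, Q) 1, by rw [Psi_single, one_smul]⟩
  have hmul : ∀ (a : NA F (Fin 3)), ∀ x ∈ LinearMap.range (Psi f) ⊔ JJ p f,
      a * x ∈ LinearMap.range (Psi f) ⊔ JJ p f ∧ x * a ∈ LinearMap.range (Psi f) ⊔ JJ p f := by
    intro a x hx
    refine closureNA _ ((I0_le_JJ p f).trans le_sup_right) ?_ a hx
    intro l x hx
    obtain ⟨y, ⟨s, rfl⟩, z, hz, rfl⟩ := Submodule.mem_sup.mp hx
    rw [mul_add, add_mul]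
    have h2 := JJ_mul p f (ge F l) hz
    suffices h : ge F l * Psi f s ∈ LinearMap.range (Psi f) ⊔ JJ p f ∧
        Psi f s * ge F l ∈ LinearMap.range (Psi f) ⊔ JJ p f from
      ⟨add_mem h.1 (Submodule.mem_sup_right h2.1), add_mem h.2 (Submodule.mem_sup_right h2.2)⟩
    clear hx
    induction s using Finsupp.induction_linear with
    | zero => simp
    | add s t hs ht =>
      rw [map_add, mul_add, add_mul]
      exact ⟨add_mem hs.1 ht.1, add_mem hs.2 ht.2⟩
    | single x c =>
      obtain ⟨P, Q⟩ := x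
      rw [Psi_single, mul_smul_comm, smul_mul_assoc]
      refine ⟨Submodule.smul_mem _ _ ?_, Submodule.smul_mem _ _ ?_⟩
      · have h2 : Eqv p f (ge F l * G f P Q) (G f (l :: P) Q) :=
          mul_Rm' (ge F l) (Lm_mem (fun a _ hx => Nn_mul a hx) P (f_Nn p f)) Q
        exact JJ_sub _ le_sup_right h2 (Submodule.mem_sup_left (hG _ _))
      · have h2 : G f P Q * ge F l = G f P (Q ++ [l]) := by
          unfold G; rw [Rm_append]; rfl
        rw [h2]; exact Submodule.mem_sup_left (hG _ _)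
  apply idl_le
  · rintro x (hx | hx)
    · exact Submodule.mem_sup_right (I0_le_JJ p f (subset_idl _ hx))
    · rw [Set.mem_singleton_iff] at hx
      subst hx
      exact Submodule.mem_sup_left (hG [] [])
  · intro a x hx
    exact hmul a x hx

theorem psi_sec (y : AS F (Fin 3)) : psi F (Fin 3) (sec F (Fin 3) y) = y := by
  induction y using MonoidAlgebra.induction_linear with
  | zero => simp
  | add a b ha hb => rw [map_add, map_add, ha, hb]
  | single m c => rw [sec_single, psi_single, flat_ln]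

theorem mem_sup_iff (g : NA F (Fin 3)) :
    g ∈ If f ⊔ DD F ↔ psi F (Fin 3) g ∈ idl F {psi F (Fin 3) f} := by
  constructor
  · intro h
    obtain ⟨a, ha, b, hb, rfl⟩ := Submodule.mem_sup.mp h
    rw [map_add, (mem_DD_iff b).mp hb, add_zero]
    refine map_idl (psi F (Fin 3)) ?_ ha
    rintro x (hx | hx)
    · rw [psi_alts hx]; exact Submodule.zero_mem _
    · rw [Set.mem_singleton_iff] at hx
      subst hx
      exact subset_idl _ rfl
  · intro h
    rw [← Set.image_singleton] at h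
    obtain ⟨x, hx, e⟩ := lift_idl (psi F (Fin 3)) (fun y => ⟨_, psi_sec y⟩) h
    have h1 : g - x ∈ DD F := by
      rw [mem_DD_iff, map_sub, e, sub_self]
    rw [← add_sub_cancel x g]
    exact Submodule.add_mem_sup (idl_mono Set.subset_union_right hx) h1

/-- the elements of the ideal without associative part -/
theorem ideal_JY {b : ℕ} {σ : Fin b → ((List (Fin 3) × List (Fin 3)) →₀ F)}
    (hσ : ∀ s, syv (psi F (Fin 3) f) s = 0 →
      s ∈ Submodule.span F ({t | ∃ P V Q : List (Fin 3), t = tsy (psi F (Fin 3) f) P V Q} ∪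
        {t | ∃ i, ∃ A B : List (Fin 3), t = shf A B (σ i)}))
    (hσ0 : ∀ i, syv (psi F (Fin 3) f) (σ i) = 0)
    {g : NA F (Fin 3)} (hg : g ∈ If f) (h0 : psi F (Fin 3) g = 0) :
    g ∈ JY p f (fun i => ph F p (Psi f (σ i))) := by
  obtain ⟨y, ⟨s, rfl⟩, z, hz, rfl⟩ := Submodule.mem_sup.mp (If_le_Psi p hg)
  refine add_mem ?_ (JJ_le_JY _ hz)
  have h1 : psi F (Fin 3) (Psi f s) = 0 := by
    have h2 := hz.1
    have h3 : psi F (Fin 3) z = 0 := h2
    rwa [map_add, h3, add_zero] at h0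
  have h2 : syv (psi F (Fin 3) f) s = 0 := by
    rw [← chi_Psi, (chi_eq_zero _).mpr h1]
  have h3 := hσ s h2
  have h4 : Submodule.span F ({t | ∃ P V Q : List (Fin 3), t = tsy (psi F (Fin 3) f) P V Q} ∪
        {t | ∃ i, ∃ A B : List (Fin 3), t = shf A B (σ i)}) ≤
      (JY p f (fun i => ph F p (Psi f (σ i)))).comap (Psi f) := by
    rw [Submodule.span_le]
    rintro t (⟨P, V, Q, rfl⟩ | ⟨i, A, B, rfl⟩)
    · exact JJ_le_JY _ (Psi_tsy p P V Q)
    · show Psi f (shf A B (σ i)) ∈ JY p f (fun i => ph F p (Psi f (σ i)))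
      rw [← sub_add_cancel (Psi f (shf A B (σ i))) (Rm F B (Lm F A (Psi f (σ i))))]
      refine add_mem (JJ_le_JY _ (Psi_shf p A B _)) ?_
      refine Rm_mem (fun a _ hx => JY_mul a hx) B (Lm_mem (fun a _ hx => JY_mul a hx) A ?_)
      rw [mem_JY]
      refine ⟨?_, y_IY _ i⟩
      rw [← chi_eq_zero, chi_Psi]
      exact hσ0 i
  exact h4 h3

/-- the main theorem: finitely generated syzygies -/
theorem main4 [Primcodable F] (hadd : Computable₂ (fun a b : F => a + b))
    (hmul : Computable₂ (fun a b : F => a * b)) (h2 : (2 : F) ≠ 0)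
    {f : NA F (Fin 3)} (hs : FinSyz (psi F (Fin 3) f))
    (ha : AssDecidable F (Fin 3) {psi F (Fin 3) f}) : AltDecidable F (Fin 3) {f} := by
  classical
  obtain ⟨K, hK, hA, p, p1, p4, p9, p2, hli⟩ := generic F h2
  have hp : Gp F p := ⟨p1, p4, p9, h2, p2, hli⟩
  obtain ⟨S, hS0, hS⟩ := hs
  let σ : Fin S.card → ((List (Fin 3) × List (Fin 3)) →₀ F) := fun i => (S.equivFin.symm i).1
  have hσ0 : ∀ i, syv (psi F (Fin 3) f) (σ i) = 0 := fun i => hS0 _ (S.equivFin.symm i).2
  have hσ : ∀ s, syv (psi F (Fin 3) f) s = 0 →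
      s ∈ Submodule.span F ({t | ∃ P V Q : List (Fin 3), t = tsy (psi F (Fin 3) f) P V Q} ∪
        {t | ∃ i, ∃ A B : List (Fin 3), t = shf A B (σ i)}) := by
    intro s h
    refine (Submodule.span_mono ?_ : _ ≤ _) (hS s h)
    apply Set.union_subset_union_right
    rintro t ⟨τ, hτ, A, B, rfl⟩
    refine ⟨S.equivFin ⟨τ, hτ⟩, A, B, ?_⟩
    simp [σ]
  have hψ : ∀ i, psi F (Fin 3) (Psi f (σ i)) = 0 := fun i => by
    rw [← chi_eq_zero, chi_Psi]; exact hσ0 i
  have hPI : ∀ s, Psi f s ∈ If f := by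
    intro s
    unfold Psi
    rw [Finsupp.linearCombination_apply, Finsupp.sum]
    exact Submodule.sum_mem _ fun x _ => Submodule.smul_mem _ _ (G_If _ _)
  obtain ⟨k, GG, st, S2, SN, SC, S3, hB⟩ := basis_J (f := f) hp
    (y := fun i => ph F p (Psi f (σ i))) (fun i => (mem_D3 p _).mpr ⟨_, hψ i, rfl⟩)
  have hB1 : BS (If f ⊔ DD F) (If f) (vJ GG st) (okS S2 SN SC S3) := by
    refine hB.sup (JY_le_If hp fun i => ⟨_, ⟨(mem_DD_iff _).mpr (hψ i), hPI _⟩, rfl⟩) ?_
    rintro g ⟨hg1, hg2⟩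
    exact ideal_JY hσ hσ0 hg2 ((mem_DD_iff g).mp hg1)
  rw [← okJ_iff] at hB1
  obtain ⟨fr, hfr⟩ := exists_raw f
  obtain ⟨sr, rfl⟩ := exists_raw st
  have hB' : BS (If f ⊔ DD F) (If f) (fun i => Val parse (vJR (fun s => dbl (GG s)) sr i))
      {x : IxJ k | okJ S2.toList SN.toList SC.toList S3.toList x = true} := by
    have : (fun i => Val parse (vJR (fun s => dbl (GG s)) sr i)) = vJ GG (Val parse sr) := by
      funext i; exact Val_vJR GG sr i
    rw [this]; exact hB1
  have hI : If f = Submodule.span F (Set.range fun k => Val parse (Hr fr k)) := by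
    rw [← hfr]; exact If_span h2 fr
  obtain ⟨dA, hdA, hdA'⟩ := ha
  let dV : Raw F → Bool := fun L => dA (L.map fun x => (x.1, (rep x.2).filterMap fun x => x))
  have hdV : Computable dV := by
    refine hdA.comp ?_
    have h1 : Primrec (fun w : Pw => (rep w).filterMap fun x => x) :=
      Primrec.listFilterMap primrec_rep Primrec.snd.to₂
    exact (Primrec.list_map Primrec.id (Primrec.pair (Primrec.fst.comp Primrec.snd)
      (h1.comp (Primrec.snd.comp Primrec.snd))).to₂).to_comp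
  have hV : ∀ L : Raw F, dV L = true ↔ Val parse L ∈ If f ⊔ DD F := by
    intro L
    have h1 := hdA' (L.map fun x => (x.1, FreeMagma.toFreeSemigroup (parse x.2)))
    have h3 : ((L.map fun x => (x.1, FreeMagma.toFreeSemigroup (parse x.2))).map
        fun p => (p.1, p.2.head :: p.2.tail)) =
        L.map fun x => (x.1, (rep x.2).filterMap fun x => x) := by
      rw [List.map_map]
      apply List.map_congr_left
      intro x _
      show (x.1, lets (FreeMagma.toFreeSemigroup (parse x.2))) =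
        (x.1, (rep x.2).filterMap fun x => x)
      rw [← filterMap_pol, pol_parse]
    rw [h3] at h1
    show dA _ = true ↔ _
    rw [h1, mem_sup_iff]
    unfold Val
    rw [psi_val, List.map_map]
    rfl
  obtain ⟨d, hd, hL⟩ := decide_memV hadd hmul primrec_rep.to_comp parse_eq_iff
    (primrec_Hr fr).to_comp (primrec_vJR (fun s => dbl (GG s)) sr).to_comp hI
    (comp_okJ S2.toList SN.toList SC.toList S3.toList) hB' hdV hV
  refine ⟨d, hd, fun L => ?_⟩
  rw [hL]
  have : Val parse (L.map fun p => (p.1, pol p.2)) = val L := by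
    unfold Val
    rw [List.map_map]
    congr 1
    conv_rhs => rw [← List.map_id L]
    apply List.map_congr_left
    intro x _
    show (x.1, parse (pol x.2)) = x
    rw [parse_pol]
  rw [this]
  rfl

end

end Pool.Agent.Helper120_Alt.R3
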