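import Pool.Agent.Helper120_Alt.R3.Raw3

set_option autoImplicit false

/-! Raw forms of the basis elements and computability. -/

namespace Pool.Agent.Helper120_Alt.R3

open Pool.Agent.Helper895.Alt

noncomputable section

variable {F : Type} [Field F]

/-- left-normed word -/
def lwP (i : Fin 3) (W : List (Fin 3)) : Pw := W.foldl (fun m j => mP m [some j]) [some i]

/-- raw left-normed word -/
def lwR (F : Type) [Field F] (W : List (Fin 3)) : Raw F :=
  List.casesOn W [] fun i W' => [(1, lwP i W')]

theorem parse_letter (i : Fin 3) : parse [some i] = FreeMagma.of i := rfl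

theorem Val_lwR (W : List (Fin 3)) : Val parse (lwR F W) = lw F W := by
  cases W with
  | nil => rfl
  | cons i W =>
    show Val parse [((1 : F), lwP i W)] = Rm F W (ge F i)
    rw [Val_cons, Val_nil, add_zero]
    have : ∀ (W : List (Fin 3)) (m : Pw), (MonoidAlgebra.single (parse (W.foldl
        (fun m j => mP m [some j]) m)) 1 : NA F (Fin 3)) = Rm F W (MonoidAlgebra.single
        (parse m) 1) := by
      intro W
      induction W with
      | nil => intro m; rfl
      | cons j W ih =>
        intro m
        rw [List.foldl_cons, ih, Rm_cons, parse_mP, parse_letter]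
        unfold ge
        rw [MonoidAlgebra.single_mul_single, one_mul]
    exact this W [some i]

/-- contexts of the ten operators -/
def opC : Fin 10 → List Cx
  | 0 => [[(true, [some 0])], [(false, [some 0])]]
  | 1 => [[(true, [some 1])], [(false, [some 1])]]
  | 2 => [[(true, [some 2])], [(false, [some 2])]]
  | 3 => [[(true, [some 0]), (false, [some 0])]]
  | 4 => [[(true, [some 1]), (false, [some 1])]]
  | 5 => [[(true, [some 2]), (false, [some 2])]]
  | 6 => [[(true, [some 0]), (false, [some 1])], [(true, [some 1]), (false, [some 0])]]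
  | 7 => [[(true, [some 0]), (false, [some 2])], [(true, [some 2]), (false, [some 0])]]
  | 8 => [[(true, [some 1]), (false, [some 2])], [(true, [some 2]), (false, [some 1])]]
  | 9 => [[(true, mP [some 0] [some 1]), (false, [some 2])],
      [(true, [some 2]), (false, mP [some 0] [some 1])]]

/-- raw operators -/
def opR (i : Fin 10) (L : Raw F) : Raw F := (opC i).flatMap fun c => cx c L

theorem tM_letter (i : Fin 3) : tM F [some i] = ge F i := rfl

theorem Val_opR (i : Fin 10) (L : Raw F) : Val parse (opR i L) = opX (ge F) i (Val parse L) := by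
  unfold opR
  fin_cases i <;>
    simp [opC, Val_append, Val_cx, CX, tM_letter, tM_mP, opX, T, N, U, tau]

/-- raw iterated operators -/
def itR (l : List (Fin 10)) (L : Raw F) : Raw F := l.foldr (fun i L => opR i L) L

theorem Val_itR (l : List (Fin 10)) (L : Raw F) :
    Val parse (itR l L) = itX (ge F) l (Val parse L) := by
  induction l with
  | nil => rfl
  | cons i l ih =>
    show Val parse (opR i (itR l L)) = opX (ge F) i (itX (ge F) l (Val parse L))
    rw [Val_opR, ih]

/-- contexts of the eight products -/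
def lsC : Fin 8 → Cx
  | 0 => []
  | 1 => [(true, [some 0])]
  | 2 => [(true, [some 1])]
  | 3 => [(true, [some 2])]
  | 4 => [(true, [some 0]), (true, [some 1])]
  | 5 => [(true, [some 0]), (true, [some 2])]
  | 6 => [(true, [some 1]), (true, [some 2])]
  | 7 => [(true, [some 0]), (true, [some 1]), (true, [some 2])]

theorem Val_lsR (s : Fin 8) (L : Raw F) :
    Val parse (cx (lsC s) L) = Ls (ge F) s (Val parse L) := by
  rw [Val_cx]
  fin_cases s <;> simp [lsC, CX, tM_letter, Ls]

/-- raw basic associator -/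
def wR (F : Type) [Field F] : Raw F :=
  [(1, mP (mP [some 0] [some 1]) [some 2]), (-1, mP [some 0] (mP [some 1] [some 2]))]

theorem Val_wR : Val parse (wR F) = asc (ge F 0) (ge F 1) (ge F 2) := by
  unfold wR asc
  rw [Val_cons, Val_cons, Val_nil, single_mP, single_mP, tM_mP, tM_mP, tM_letter, tM_letter,
    tM_letter, one_smul, neg_one_smul]
  abel

/-- raw standard elements -/
def vR (F : Type) [Field F] (x : Fin 8 × (Fin 10 → ℕ)) : Raw F := cx (lsC x.1) (itR (cl x.2) (wR F))

theorem Val_vR (x : Fin 8 × (Fin 10 → ℕ)) : Val parse (vR F x) = vNA F x := by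
  unfold vR vNA
  rw [Val_lsR, Val_itR, Val_wR]

/-- raw lifts of the multiples of the scalar element -/
def vSR (sr : Raw F) (β : Fin 3 → ℕ) : Raw F := itR ((cl β).map i3) sr

theorem Val_vSR (sr : Raw F) (β : Fin 3 → ℕ) : Val parse (vSR sr β) = vS (Val parse sr) β := by
  unfold vSR vS
  rw [Val_itR]

/-- raw basis elements -/
def vIR (sr : Raw F) : Idx → Raw F := Sum.elim (lwR F) (Sum.elim (vR F) (vSR sr))

theorem Val_vIR (sr : Raw F) (x : Idx) : Val parse (vIR sr x) = vI (Val parse sr) x := by
  rcases x with W | (x | β)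
  · exact Val_lwR W
  · exact Val_vR x
  · exact Val_vSR sr β

section comp

variable [Primcodable F]

theorem primrec_cx : Primrec₂ (cx : Cx → Raw F → Raw F) := by
  refine Primrec.list_map Primrec.snd ?_
  exact Primrec.pair (Primrec.fst.comp Primrec.snd)
    (primrec_cxw.comp (Primrec.fst.comp Primrec.fst) (Primrec.snd.comp Primrec.snd))

theorem primrec_sing {α β : Type} [Primcodable α] [Primcodable β] {f : α → β} (hf : Primrec f) :
    Primrec fun a => [f a] := Primrec.list_cons.comp hf (Primrec.const [])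

theorem primrec_t1R : Primrec (fun y : Pw × (Pw × Pw) => t1R F y.1 y.2.1 y.2.2) := by
  have a : Primrec (fun y : Pw × (Pw × Pw) => y.1) := Primrec.fst
  have b : Primrec (fun y : Pw × (Pw × Pw) => y.2.1) := Primrec.fst.comp Primrec.snd
  have c : Primrec (fun y : Pw × (Pw × Pw) => y.2.2) := Primrec.snd.comp Primrec.snd
  unfold t1R
  refine Primrec.list_cons.comp ?_ (Primrec.list_cons.comp ?_ (Primrec.list_cons.comp ?_
    (primrec_sing ?_)))
  · exact (Primrec.const 1).pair (primrec_mP.comp (primrec_mP.comp a b) c)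
  · exact (Primrec.const (-1)).pair (primrec_mP.comp a (primrec_mP.comp b c))
  · exact (Primrec.const 1).pair (primrec_mP.comp (primrec_mP.comp b a) c)
  · exact (Primrec.const (-1)).pair (primrec_mP.comp b (primrec_mP.comp a c))

theorem primrec_t2R : Primrec (fun y : Pw × (Pw × Pw) => t2R F y.1 y.2.1 y.2.2) := by
  have a : Primrec (fun y : Pw × (Pw × Pw) => y.1) := Primrec.fst
  have b : Primrec (fun y : Pw × (Pw × Pw) => y.2.1) := Primrec.fst.comp Primrec.snd
  have c : Primrec (fun y : Pw × (Pw × Pw) => y.2.2) := Primrec.snd.comp Primrec.snd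
  unfold t2R
  refine Primrec.list_cons.comp ?_ (Primrec.list_cons.comp ?_ (Primrec.list_cons.comp ?_
    (primrec_sing ?_)))
  · exact (Primrec.const 1).pair (primrec_mP.comp (primrec_mP.comp c a) b)
  · exact (Primrec.const (-1)).pair (primrec_mP.comp c (primrec_mP.comp a b))
  · exact (Primrec.const 1).pair (primrec_mP.comp (primrec_mP.comp c b) a)
  · exact (Primrec.const (-1)).pair (primrec_mP.comp c (primrec_mP.comp b a))

theorem primrec_Hr (fr : Raw F) : Primrec (Hr fr) := by
  have e1 : Primrec₂ (fun (_ : Cx × Option (Bool × (Pw × (Pw × Pw))))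
      (y : Bool × (Pw × (Pw × Pw))) => bif y.1 then t1R F y.2.1 y.2.2.1 y.2.2.2
    else t2R F y.2.1 y.2.2.1 y.2.2.2) :=
    Primrec.cond (Primrec.fst.comp Primrec.snd)
      (primrec_t1R.comp (Primrec.snd.comp Primrec.snd))
      (primrec_t2R.comp (Primrec.snd.comp Primrec.snd))
  have e2 : Primrec (fun k : Cx × Option (Bool × (Pw × (Pw × Pw))) =>
      (Option.casesOn k.2 fr fun y => bif y.1 then t1R F y.2.1 y.2.2.1 y.2.2.2
        else t2R F y.2.1 y.2.2.1 y.2.2.2 : Raw F)) :=
    Primrec.option_casesOn Primrec.snd (Primrec.const fr) e1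
  exact primrec_cx.comp Primrec.fst e2

theorem primrec_lwR : Primrec (lwR F) := by
  have e1 : Primrec₂ (fun (_ : List (Fin 3)) (y : Fin 3 × List (Fin 3)) =>
      [((1 : F), lwP y.1 y.2)]) := by
    apply primrec_sing
    refine (Primrec.const 1).pair ?_
    refine Primrec.list_foldl (f := fun z : List (Fin 3) × (Fin 3 × List (Fin 3)) => z.2.2)
      (g := fun z => [some z.2.1]) (h := fun _ y => mP y.1 [some y.2])
      (Primrec.snd.comp Primrec.snd) ?_ ?_
    · exact primrec_sing (Primrec.option_some.comp (Primrec.fst.comp Primrec.snd))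
    · exact primrec_mP.comp (Primrec.fst.comp Primrec.snd)
        (primrec_sing (Primrec.option_some.comp (Primrec.snd.comp Primrec.snd)))
  exact Primrec.list_casesOn Primrec.id (Primrec.const []) e1

theorem primrec_itR {α : Type} [Primcodable α] {l : α → List (Fin 10)} (hl : Primrec l)
    (L : Raw F) : Primrec fun a => itR (l a) L := by
  refine Primrec.list_foldr (f := l) (g := fun _ => L) (h := fun _ y => opR y.1 y.2) hl
    (Primrec.const L) ?_
  have e1 : Primrec (fun z : α × (Fin 10 × Raw F) => opC z.2.1) :=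
    (Primrec.dom_finite opC).comp (Primrec.fst.comp Primrec.snd)
  exact Primrec.list_flatMap e1 (primrec_cx.comp Primrec.snd
    (Primrec.snd.comp (Primrec.snd.comp Primrec.fst)))

theorem primrec_cl {n : ℕ} : Primrec (cl : (Fin n → ℕ) → List (Fin n)) := by
  have e1 : Primrec₂ (fun (α : Fin n → ℕ) (i : Fin n) => List.replicate (α i) i) := by
    have e2 : Primrec (fun z : (Fin n → ℕ) × Fin n => List.range (z.1 z.2)) :=
      Primrec.list_range.comp (Primrec.fin_app.comp Primrec.fst Primrec.snd)
    have e3 : Primrec (fun z : (Fin n → ℕ) × Fin n =>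
        (List.range (z.1 z.2)).map fun _ => z.2) :=
      Primrec.list_map e2 (Primrec.snd.comp Primrec.fst)
    refine e3.of_eq fun z => ?_
    show _ = List.replicate (z.1 z.2) z.2
    simp [List.eq_replicate_iff]
  exact Primrec.list_flatMap (Primrec.const _) e1

theorem primrec_vIR (sr : Raw F) : Primrec (vIR sr) := by
  have e1 : Primrec (vR F) := by
    unfold vR
    exact primrec_cx.comp ((Primrec.dom_finite lsC).comp Primrec.fst)
      (primrec_itR (primrec_cl.comp Primrec.snd) _)
  have e2 : Primrec (vSR sr) := by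
    unfold vSR
    exact primrec_itR (Primrec.list_map primrec_cl
      ((Primrec.dom_finite i3).comp Primrec.snd).to₂) _
  have e3 : Primrec (Sum.elim (vR F) (vSR sr)) := by
    have := Primrec.sumCasesOn (f := fun z : (Fin 8 × (Fin 10 → ℕ)) ⊕ (Fin 3 → ℕ) => z)
      (g := fun _ k => vR F k) (h := fun _ i => vSR sr i) Primrec.id (e1.comp Primrec.snd).to₂
      (e2.comp Primrec.snd).to₂
    refine this.of_eq ?_
    rintro (k | i) <;> rfl
  have := Primrec.sumCasesOn (f := fun z : Idx => z)
      (g := fun _ k => lwR F k) (h := fun _ i => Sum.elim (vR F) (vSR sr) i) Primrec.id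
      (primrec_lwR.comp Primrec.snd).to₂ (e3.comp Primrec.snd).to₂
  refine this.of_eq ?_
  rintro (k | i) <;> rfl

end comp

section ok

/-- containing a fixed word -/
def isInf (m0 W : List (Fin 3)) : Bool :=
  (W.foldr (fun x s => (x :: s.1, s.2 || m0.isPrefixOf (x :: s.1)))
    (([] : List (Fin 3)), m0.isPrefixOf [])).2

theorem isInf_iff (m0 W : List (Fin 3)) : isInf m0 W = true ↔ m0 <:+: W := by
  have h1 : ∀ W : List (Fin 3), (W.foldr (fun x s => (x :: s.1, s.2 || m0.isPrefixOf (x :: s.1)))
      (([] : List (Fin 3)), m0.isPrefixOf [])).1 = W := by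
    intro W
    induction W with
    | nil => rfl
    | cons x W ih => rw [List.foldr_cons, ih]
  unfold isInf
  induction W with
  | nil => simp
  | cons x W ih =>
    rw [List.foldr_cons, h1 W, List.infix_cons_iff, Bool.or_eq_true,
      List.isPrefixOf_iff_prefix, or_comm]
    exact or_congr Iff.rfl ih

theorem primrec_isPre (m0 : List (Fin 3)) : Primrec fun l : List (Fin 3) => m0.isPrefixOf l := by
  induction m0 with
  | nil => exact (Primrec.const true).of_eq fun l => by simp
  | cons a m0 ih =>
    have e1 : Primrec₂ (fun (_ : List (Fin 3)) (y : Fin 3 × List (Fin 3)) =>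
        (decide (a = y.1) && m0.isPrefixOf y.2)) := by
      refine Primrec.and.comp ?_ (ih.comp (Primrec.snd.comp Primrec.snd))
      exact (Primrec.dom_finite (fun b : Fin 3 => decide (a = b))).comp
        (Primrec.fst.comp Primrec.snd)
    refine (Primrec.list_casesOn (f := fun l : List (Fin 3) => l) (g := fun _ => false)
      Primrec.id (Primrec.const false) e1).of_eq fun l => ?_
    cases l with
    | nil => rfl
    | cons b l =>
      simp only [List.isPrefixOf]
      rfl

theorem primrec_isInf (m0 : List (Fin 3)) : Primrec (isInf m0) := by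
  have e1 : Primrec (fun W : List (Fin 3) => W.foldr (fun x s =>
      (x :: s.1, s.2 || m0.isPrefixOf (x :: s.1))) (([] : List (Fin 3)), m0.isPrefixOf [])) := by
    refine Primrec.list_foldr (f := fun W : List (Fin 3) => W)
      (g := fun _ => (([] : List (Fin 3)), m0.isPrefixOf []))
      (h := fun _ y => (y.1 :: y.2.1, y.2.2 || m0.isPrefixOf (y.1 :: y.2.1))) Primrec.id
      (Primrec.const _) ?_
    have e2 : Primrec (fun z : List (Fin 3) × (Fin 3 × (List (Fin 3) × Bool)) =>
        z.2.1 :: z.2.2.1) :=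
      Primrec.list_cons.comp (Primrec.fst.comp Primrec.snd)
        (Primrec.fst.comp (Primrec.snd.comp Primrec.snd))
    exact e2.pair (Primrec.or.comp (Primrec.snd.comp (Primrec.snd.comp Primrec.snd))
      ((primrec_isPre m0).comp e2))
  exact Primrec.snd.comp e1

/-- comparison of exponents -/
def leq {n : ℕ} (y x : Fin n → ℕ) : Bool := (List.finRange n).all fun i => decide (y i ≤ x i)

theorem leq_iff {n : ℕ} (y x : Fin n → ℕ) : leq y x = true ↔ y ≤ x := by
  unfold leq
  simp only [List.all_eq_true, List.mem_finRange, forall_const, decide_eq_true_eq]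
  rfl

theorem comp_leq {n : ℕ} : Computable₂ (leq : (Fin n → ℕ) → (Fin n → ℕ) → Bool) := by
  refine comp_all (α := (Fin n → ℕ) × (Fin n → ℕ)) (f := fun _ => List.finRange n)
    (t := fun z i => decide (z.1 i ≤ z.2 i)) (Computable.const _) ?_
  have e1 : Primrec (fun w : ((Fin n → ℕ) × (Fin n → ℕ)) × Fin n =>
      decide (w.1.1 w.2 ≤ w.1.2 w.2)) :=
    Primrec.nat_le.decide.comp (Primrec.fin_app.comp (Primrec.fst.comp Primrec.fst) Primrec.snd)
      (Primrec.fin_app.comp (Primrec.snd.comp Primrec.fst) Primrec.snd)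
  exact e1.to_comp

/-- the set of indices of the basis -/
def okI (m0 : List (Fin 3)) (S2 : List (Fin 8 × (Fin 10 → ℕ))) (S3 : List (Fin 3 → ℕ))
    (x : Idx) : Bool :=
  Sum.casesOn x (fun W => !(W.isEmpty) && !(isInf m0 W)) fun y =>
    Sum.casesOn y (fun z => S2.all fun a => !(decide (a.1 = z.1) && leq a.2 z.2))
      fun z => S3.all fun a => !(leq a z)

theorem okI_iff (m0 : List (Fin 3)) (S2 : Finset (Fin 8 × (Fin 10 → ℕ)))
    (S3 : Finset (Fin 3 → ℕ)) : {x : Idx | okI m0 S2.toList S3.toList x = true} =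
      Sum.inl '' {W | W ≠ [] ∧ ¬ m0 <:+: W} ∪
        Sum.inr '' (Sum.inl '' {x | ∀ y ∈ S2, ¬ (y.1 = x.1 ∧ y.2 ≤ x.2)} ∪
          Sum.inr '' {x | ∀ y ∈ S3, ¬ (y ≤ x)}) := by
  ext x
  rcases x with W | (x | β)
  · simp [okI, ← isInf_iff]
  · obtain ⟨s, α⟩ := x
    have h1 : (Sum.inr (Sum.inl (s, α)) : Idx) ∈ Sum.inl '' {W | W ≠ [] ∧ ¬ m0 <:+: W} ∪
        Sum.inr '' (Sum.inl '' {x | ∀ y ∈ S2, ¬ (y.1 = x.1 ∧ y.2 ≤ x.2)} ∪
          Sum.inr '' {x | ∀ y ∈ S3, ¬ (y ≤ x)}) ↔
        ∀ y ∈ S2, ¬ (y.1 = s ∧ y.2 ≤ α) := by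
      constructor
      · rintro (⟨W, _, h⟩ | ⟨y, (⟨z, hz, rfl⟩ | ⟨z, _, rfl⟩), h⟩)
        · exact absurd h (by simp)
        · simp only [Sum.inr.injEq, Sum.inl.injEq] at h
          subst h
          exact hz
        · exact absurd h (by simp)
      · intro h
        exact Or.inr ⟨Sum.inl (s, α), Or.inl ⟨(s, α), h, rfl⟩, rfl⟩
    rw [h1, Set.mem_ofPred_eq]
    simp only [okI, List.all_eq_true, Finset.mem_toList, Bool.not_eq_true', Bool.and_eq_false_iff,
      decide_eq_false_iff_not]
    refine forall₂_congr fun y _ => ?_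
    rw [← leq_iff, Bool.eq_false_iff]
    tauto
  · simp [okI, ← leq_iff]

theorem comp_okI (m0 : List (Fin 3)) (S2 : List (Fin 8 × (Fin 10 → ℕ)))
    (S3 : List (Fin 3 → ℕ)) : Computable (okI m0 S2 S3) := by
  have e1 : Computable₂ (fun (_ : Idx) (W : List (Fin 3)) => !(W.isEmpty) && !(isInf m0 W)) := by
    have e2 : Primrec (fun W : List (Fin 3) => W.isEmpty) := by
      refine (Primrec.list_casesOn (f := fun l : List (Fin 3) => l) (g := fun _ => true)
        (h := fun _ _ => false) Primrec.id (Primrec.const true)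
        (Primrec.const false).to₂).of_eq fun l => ?_
      cases l <;> rfl
    have e3 : Primrec (fun W : List (Fin 3) => !(W.isEmpty) && !(isInf m0 W)) :=
      Primrec.and.comp (Primrec.not.comp e2) (Primrec.not.comp (primrec_isInf m0))
    exact (e3.comp Primrec.snd).to_comp
  have e4 : Computable (fun z : Fin 8 × (Fin 10 → ℕ) =>
      S2.all fun a => !(decide (a.1 = z.1) && leq a.2 z.2)) := by
    refine comp_all (Computable.const S2) ?_
    have h1 : Computable (fun w : (Fin 8 × (Fin 10 → ℕ)) × (Fin 8 × (Fin 10 → ℕ)) =>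
        decide (w.2.1 = w.1.1)) :=
      comp_eq (Computable.fst.comp Computable.snd) (Computable.fst.comp Computable.fst)
    have h2 : Computable (fun w : (Fin 8 × (Fin 10 → ℕ)) × (Fin 8 × (Fin 10 → ℕ)) =>
        leq w.2.2 w.1.2) :=
      comp_leq.comp (Computable.snd.comp Computable.snd) (Computable.snd.comp Computable.fst)
    exact Primrec.not.to_comp.comp (Primrec.and.to_comp.comp h1 h2)
  have e5 : Computable (fun z : Fin 3 → ℕ => S3.all fun a => !(leq a z)) := by
    refine comp_all (Computable.const S3) ?_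
    exact Primrec.not.to_comp.comp (comp_leq.comp Computable.snd Computable.fst)
  have e6 : Computable₂ (fun (_ : Idx) (y : (Fin 8 × (Fin 10 → ℕ)) ⊕ (Fin 3 → ℕ)) =>
      (Sum.casesOn y (fun z => S2.all fun a => !(decide (a.1 = z.1) && leq a.2 z.2))
      fun z => S3.all fun a => !(leq a z) : Bool)) :=
    Computable.sumCasesOn Computable.snd (e4.comp Computable.snd).to₂
      (e5.comp Computable.snd).to₂
  exact Computable.sumCasesOn Computable.id e1 e6

end ok

theorem exists_raw (g : NA F (Fin 3)) : ∃ r : Raw F, Val parse r = g := by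
  induction g using MonoidAlgebra.induction_linear with
  | zero => exact ⟨[], rfl⟩
  | add a b ha hb =>
    obtain ⟨r, rfl⟩ := ha
    obtain ⟨r', rfl⟩ := hb
    exact ⟨r ++ r', Val_append _ _ _⟩
  | single m c =>
    refine ⟨[(c, pol m)], ?_⟩
    rw [Val_cons, Val_nil, add_zero, parse_pol]

/-- the main theorem for three generators -/
theorem main3 [Primcodable F] (hadd : Computable₂ (fun a b : F => a + b))
    (hmul : Computable₂ (fun a b : F => a * b)) (h2 : (2 : F) ≠ 0)
    {lt : List (Fin 3) → List (Fin 3) → Prop} [IsStrictTotalOrder (List (Fin 3)) lt]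
    {m0 : List (Fin 3)} {f : NA F (Fin 3)} (h : Lead f lt m0) : AltDecidable F (Fin 3) {f} := by
  obtain ⟨K, hK, hA, p, p1, p4, p9, p2, hli⟩ := generic F h2
  have hp : Gp F p := ⟨p1, p4, p9, h2, p2, hli⟩
  obtain ⟨S2, S3, st, hB⟩ := basis3 hp h
  rw [← okI_iff] at hB
  obtain ⟨fr, hfr⟩ := exists_raw f
  obtain ⟨sr, rfl⟩ := exists_raw st
  have hB' : BS ⊤ (If f) (fun i => Val parse (vIR sr i))
      {x : Idx | okI m0 S2.toList S3.toList x = true} := by
    have : (fun i => Val parse (vIR sr i)) = vI (Val parse sr) := by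
      funext i; exact Val_vIR sr i
    rw [this]; exact hB
  have hI : If f = Submodule.span F (Set.range fun k => Val parse (Hr fr k)) := by
    rw [← hfr]; exact If_span h2 fr
  obtain ⟨d, hd, hL⟩ := decide_mem hadd hmul primrec_rep.to_comp parse_eq_iff
    (primrec_Hr fr).to_comp (primrec_vIR sr).to_comp hI (comp_okI m0 S2.toList S3.toList) hB'
  refine ⟨d, hd, fun L => ?_⟩
  rw [hL]
  have : Val parse (L.map fun p => (p.1, pol p.2)) = val L := by
    unfold Val
    rw [List.map_map]
    congr 1
    conv_rhs => rw [← List.map_id L]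
    apply List.map_congr_left
    intro x _
    show (x.1, parse (pol x.2)) = x
    rw [parse_pol]
  rw [this]
  rfl

end

end Pool.Agent.Helper120_Alt.R3
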