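import Mathlib

set_option autoImplicit false

/-! Bases modulo subspaces, leading indices. -/

namespace Pool.Agent.Helper120_Alt.R3

variable {F M ι κ : Type} [Field F] [AddCommGroup M] [Module F M]

/-- the family `v`, restricted to `s`, is a basis of `V` modulo `I` -/
structure BS (V I : Submodule F M) (v : ι → M) (s : Set ι) : Prop where
  mem : ∀ i ∈ s, v i ∈ V
  le : I ≤ V
  sp : V ≤ Submodule.span F (v '' s) ⊔ I
  li : ∀ c : ι →₀ F, (∀ i, c i ≠ 0 → i ∈ s) → (c.sum fun i a => a • v i) ∈ I → c = 0

/-- bases of two layers -/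
theorem BS.layer {V U I : Submodule F M} {a : ι → M} {b : κ → M} {s : Set ι} {t : Set κ}
    (h : BS V U a s) (h' : BS U I b t) :
    BS V I (Sum.elim a b) (Sum.inl '' s ∪ Sum.inr '' t) where
  mem := by
    rintro (i | j) hi
    · have : i ∈ s := by simpa using hi
      exact h.mem i this
    · have : j ∈ t := by simpa using hi
      exact h.le (h'.mem j this)
  le := h'.le.trans h.le
  sp := by
    refine h.sp.trans (sup_le ?_ (h'.sp.trans ?_))
    · refine le_sup_of_le_left (Submodule.span_mono ?_)
      rintro _ ⟨i, hi, rfl⟩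
      exact ⟨Sum.inl i, Or.inl ⟨i, hi, rfl⟩, rfl⟩
    · refine sup_le (le_sup_of_le_left (Submodule.span_mono ?_)) le_sup_right
      rintro _ ⟨i, hi, rfl⟩
      exact ⟨Sum.inr i, Or.inr ⟨i, hi, rfl⟩, rfl⟩
  li := by
    intro c hs hc
    have e : (c.sum fun i x => x • Sum.elim a b i) =
        ((Finsupp.sumFinsuppEquivProdFinsupp c).1.sum fun i x => x • a i) +
        ((Finsupp.sumFinsuppEquivProdFinsupp c).2.sum fun i x => x • b i) := by
      conv_lhs => rw [← Equiv.symm_apply_apply Finsupp.sumFinsuppEquivProdFinsupp c]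
      rw [Finsupp.sumFinsuppEquivProdFinsupp]
      simp only [Equiv.coe_fn_mk, Equiv.coe_fn_symm_mk]
      rw [Finsupp.sum_sumElim]
      rfl
    rw [e] at hc
    have s1 : ∀ i, (Finsupp.sumFinsuppEquivProdFinsupp c).1 i ≠ 0 → i ∈ s := by
      intro i hi
      have := hs (Sum.inl i) hi
      simpa using this
    have s2 : ∀ i, (Finsupp.sumFinsuppEquivProdFinsupp c).2 i ≠ 0 → i ∈ t := by
      intro i hi
      have := hs (Sum.inr i) hi
      simpa using this
    have h2 : ((Finsupp.sumFinsuppEquivProdFinsupp c).2.sum fun i x => x • b i) ∈ U :=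
      Submodule.sum_mem _ fun i hi => Submodule.smul_mem _ _
        (h'.mem i (s2 i (Finsupp.mem_support_iff.mp hi)))
    have h1 : ((Finsupp.sumFinsuppEquivProdFinsupp c).1.sum fun i x => x • a i) ∈ U := by
      have := Submodule.sub_mem _ (h'.le hc) h2
      rwa [add_sub_cancel_right] at this
    have h3 := h.li _ s1 h1
    rw [h3, Finsupp.sum_zero_index, zero_add] at hc
    have h4 := h'.li _ s2 hc
    apply Finsupp.sumFinsuppEquivProdFinsupp.injective
    rw [Prod.ext_iff]
    refine ⟨?_, ?_⟩
    · rw [h3]; ext; simp [Finsupp.sumFinsuppEquivProdFinsupp]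
    · rw [h4]; ext; simp [Finsupp.sumFinsuppEquivProdFinsupp]

/-- pulling back along a linear map -/
theorem BS.pull {N : Type} [AddCommGroup N] [Module F N] (g : M →ₗ[F] N) {V I : Submodule F M}
    {V' I' : Submodule F N} {v : ι → M} {s : Set ι} (h : BS V' I' (fun i => g (v i)) s)
    (hv : ∀ i ∈ s, v i ∈ V)
    (hle : I ≤ V) (hg : ∀ x ∈ V, g x ∈ V') (hI : ∀ x ∈ V, g x ∈ I' ↔ x ∈ I) : BS V I v s where
  mem := hv
  le := hle
  sp := by
    intro x hx
    obtain ⟨y, hy, z, hz, e⟩ := Submodule.mem_sup.mp (h.sp (hg x hx))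
    have hy' : y ∈ (Submodule.span F (v '' s)).map g := by
      rw [Submodule.map_span, ← Set.image_comp]
      exact hy
    obtain ⟨w, hw, rfl⟩ := hy'
    have h1 : w ∈ V := by
      have : Submodule.span F (v '' s) ≤ V := by
        rw [Submodule.span_le]
        rintro _ ⟨i, hi, rfl⟩
        exact hv i hi
      exact this hw
    have h2 : x - w ∈ I := by
      rw [← hI _ (Submodule.sub_mem _ hx h1), map_sub, ← e, add_sub_cancel_left]
      exact hz
    rw [← sub_add_cancel x w, add_comm]
    exact Submodule.add_mem_sup hw h2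
  li := by
    intro c hs hc
    apply h.li c hs
    have h1 : (c.sum fun i a => a • v i) ∈ V :=
      Submodule.sum_mem _ fun i hi => Submodule.smul_mem _ _
        (hv i (hs i (Finsupp.mem_support_iff.mp hi)))
    have := (hI _ h1).mpr hc
    rwa [Finsupp.sum, map_sum, Finset.sum_congr rfl fun i _ => map_smul g (c i) (v i)] at this

/-- changing the family modulo the smaller subspace -/
theorem BS.congr {V I : Submodule F M} {v w : ι → M} {s : Set ι} (h : BS V I v s)
    (hw : ∀ i, v i - w i ∈ I) : BS V I w s where
  mem := by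
    intro i hi
    rw [← sub_sub_cancel (v i) (w i)]
    exact Submodule.sub_mem _ (h.mem i hi) (h.le (hw i))
  le := h.le
  sp := by
    refine h.sp.trans (sup_le ?_ le_sup_right)
    rw [Submodule.span_le]
    rintro _ ⟨i, hi, rfl⟩
    show v i ∈ _
    rw [← sub_add_cancel (v i) (w i)]
    exact Submodule.add_mem _ (Submodule.mem_sup_right (hw i))
      (Submodule.mem_sup_left (Submodule.subset_span ⟨i, hi, rfl⟩))
  li := by
    intro c hs hc
    apply h.li c hs
    have e : (c.sum fun i a => a • v i) = (c.sum fun i a => a • (v i - w i)) +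
        (c.sum fun i a => a • w i) := by
      rw [Finsupp.sum, Finsupp.sum, Finsupp.sum, ← Finset.sum_add_distrib]
      refine Finset.sum_congr rfl fun i _ => ?_
      rw [← smul_add, sub_add_cancel]
    rw [e]
    exact Submodule.add_mem _ (Submodule.sum_mem _ fun i _ => Submodule.smul_mem _ _ (hw i)) hc

/-- enlarging both subspaces -/
theorem BS.sup {V J I : Submodule F M} {v : ι → M} {s : Set ι} (h : BS V J v s)
    (hJ : J ≤ I) (hVI : V ⊓ I ≤ J) : BS (I ⊔ V) I v s where
  mem := fun i hi => Submodule.mem_sup_right (h.mem i hi)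
  le := le_sup_left
  sp := by
    refine sup_le le_sup_right (h.sp.trans (sup_le le_sup_left (hJ.trans le_sup_right)))
  li := by
    intro c hs hc
    apply h.li c hs
    apply hVI
    refine ⟨?_, hc⟩
    exact Submodule.sum_mem _ fun i hi => Submodule.smul_mem _ _
        (h.mem i (hs i (Finsupp.mem_support_iff.mp hi)))

section leading

variable {Λ : Type} (r : Λ → Λ → Prop) (key : ι → Λ)

/-- leading indices of the relations between the `v i` modulo `I` -/
def LI (v : ι → M) (I : Submodule F M) : Set ι :=
  {i | ∃ c : ι →₀ F, c i ≠ 0 ∧ (∀ j, c j ≠ 0 → j ≠ i → r (key j) (key i)) ∧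
    (c.sum fun i a => a • v i) ∈ I}

theorem exists_top [IsStrictTotalOrder Λ r] (hk : Function.Injective key) {c : ι →₀ F}
    (hc : c ≠ 0) : ∃ i, c i ≠ 0 ∧ ∀ j, c j ≠ 0 → j ≠ i → r (key j) (key i) := by
  classical
  letI := linearOrderOfSTO r
  have hne : c.support.Nonempty := Finsupp.support_nonempty_iff.mpr hc
  obtain ⟨i, hi, hm⟩ := Finset.exists_max_image c.support key hne
  refine ⟨i, Finsupp.mem_support_iff.mp hi, ?_⟩
  intro j hj hji
  have h1 : key j ≤ key i := hm j (Finsupp.mem_support_iff.mpr hj)
  have h2 : key j ≠ key i := fun h => hji (hk h)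
  exact lt_of_le_of_ne h1 h2

/-- the complement of the leading indices gives a basis -/
theorem BS.of_LI [IsStrictTotalOrder Λ r] (hwf : WellFounded r) (hk : Function.Injective key)
    {v : ι → M} {V I : Submodule F M} (hv : ∀ i, v i ∈ V) (hI : I ≤ V)
    (hsp : V ≤ Submodule.span F (Set.range v) ⊔ I) : BS V I v (LI r key v I)ᶜ where
  mem := fun i _ => hv i
  le := hI
  sp := by
    refine hsp.trans (sup_le ?_ le_sup_right)
    rw [Submodule.span_le]
    rintro _ ⟨i, rfl⟩
    have hwf' : WellFounded (fun i j => r (key i) (key j)) := InvImage.wf key hwf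
    induction i using hwf'.induction with
    | _ i ih =>
      by_cases hi : i ∈ LI r key v I
      · obtain ⟨c, hci, hlt, hs⟩ := hi
        have e : v i = (c i)⁻¹ • ((c.sum fun i a => a • v i) -
            ((c.erase i).sum fun i a => a • v i)) := by
          have h1 : (c.sum fun i a => a • v i) = c i • v i +
              ((c.erase i).sum fun i a => a • v i) := by
            rw [Finsupp.add_sum_erase' c i (fun i a => a • v i)]
            intro j; exact zero_smul _ _
          rw [h1, add_sub_cancel_right, smul_smul, inv_mul_cancel₀ hci, one_smul]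
        show v i ∈ _
        rw [e]
        apply Submodule.smul_mem
        apply Submodule.sub_mem
        · exact Submodule.mem_sup_right hs
        · apply Submodule.sum_mem
          intro j hj
          apply Submodule.smul_mem
          rw [Finsupp.mem_support_iff] at hj
          have hji : j ≠ i := by
            rintro rfl
            rw [Finsupp.erase_same] at hj
            exact hj rfl
          rw [Finsupp.erase_ne hji] at hj
          exact ih j (hlt j hj hji)
      · exact Submodule.mem_sup_left (Submodule.subset_span ⟨i, hi, rfl⟩)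
  li := by
    intro c hs hc
    by_contra hne
    obtain ⟨i, hi, hm⟩ := exists_top r key hk hne
    exact hs i hi ⟨c, hi, hm, hc⟩

/-- shifts preserve the leading indices -/
theorem LI_shift {v : ι → M} {I : Submodule F M} (σ : ι → ι) (hσ : Function.Injective σ)
    (hr : ∀ i j, r (key i) (key j) → r (key (σ i)) (key (σ j)))
    (hs : ∀ c : ι →₀ F, (c.sum fun i a => a • v i) ∈ I → (c.sum fun i a => a • v (σ i)) ∈ I)
    {i : ι} (hi : i ∈ LI r key v I) : σ i ∈ LI r key v I := by
  obtain ⟨c, hci, hlt, hc⟩ := hi
  refine ⟨c.mapDomain σ, ?_, ?_, ?_⟩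
  · rw [Finsupp.mapDomain_apply hσ]; exact hci
  · intro j hj hji
    by_cases h : j ∈ Set.range σ
    · obtain ⟨k, rfl⟩ := h
      rw [Finsupp.mapDomain_apply hσ] at hj
      exact hr _ _ (hlt k hj (fun h => hji (by rw [h])))
    · exact absurd (Finsupp.mapDomain_of_notMem_range _ _ h) hj
  · rw [Finsupp.sum_mapDomain_index (by intro; exact zero_smul _ _)
      (by intro b m n; exact add_smul _ _ _)]
    exact hs c hc

end leading

/-- Dickson: upward closed sets of exponents are finitely generated -/
theorem dickson {n : ℕ} (U : Set (Fin n → ℕ)) (hU : ∀ α ∈ U, ∀ i, α + Pi.single i 1 ∈ U) :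
    ∃ S : Finset (Fin n → ℕ), ∀ α, α ∈ U ↔ ∃ β ∈ S, β ≤ α := by
  have hup : ∀ α ∈ U, ∀ β, α ≤ β → β ∈ U := by
    have key : ∀ (k : ℕ) (α β : Fin n → ℕ), α ∈ U → α ≤ β → (∑ i, (β i - α i)) = k → β ∈ U := by
      intro k
      induction k with
      | zero =>
        intro α β hα hle hk
        have : α = β := by
          funext i
          have h1 := (Finset.sum_eq_zero_iff.mp hk) i (Finset.mem_univ i)
          have h2 : α i ≤ β i := hle i
          omega
        rwa [← this]
      | succ k ih =>
        intro α β hα hle hk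
        have : ∃ i, 0 < β i - α i := by
          by_contra h
          push Not at h
          have : ∑ i, (β i - α i) = 0 := Finset.sum_eq_zero fun i _ => by
            have := h i; omega
          omega
        obtain ⟨i, hi⟩ := this
        refine ih (α + Pi.single i 1) β (hU α hα i) ?_ ?_
        · intro j
          have h2 : α j ≤ β j := hle j
          by_cases hj : j = i
          · subst hj; simp; omega
          · simp [hj]; exact h2
        · have e : ∀ j, β j - α j = (β j - (α j + (Pi.single i 1 : Fin n → ℕ) j)) +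
              (Pi.single i 1 : Fin n → ℕ) j := by
            intro j
            by_cases hj : j = i
            · subst hj; simp; omega
            · simp [hj]
          rw [Finset.sum_congr rfl fun j _ => e j, Finset.sum_add_distrib] at hk
          simp at hk
          simpa using hk
    intro α hα β hle
    exact key _ α β hα hle rfl
  have hfin : {α | Minimal (· ∈ U) α}.Finite := by
    apply WellQuasiOrderedLE.finite_of_isAntichain
    exact setOfPred_minimal_antichain _
  refine ⟨hfin.toFinset, fun α => ⟨?_, ?_⟩⟩
  · intro hα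
    obtain ⟨β, hβ, hm⟩ := exists_minimal_le_of_wellFoundedLT (· ∈ U) α hα
    exact ⟨β, by simpa using hm, hβ⟩
  · rintro ⟨β, hβ, hle⟩
    simp at hβ
    exact hup β hβ.prop α hle

end Pool.Agent.Helper120_Alt.R3
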