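import Pool.Agent.Helper120_Alt.R3.Bas3

set_option autoImplicit false

/-! A basis of the one-relator algebra, assembled. -/

namespace Pool.Agent.Helper120_Alt.R3

open Pool.Agent.Helper895.Alt

noncomputable section

variable {F : Type} [Field F] {K : Type} [Field K] [Algebra F K] {p : Fin 10 → K}
  {f : NA F (Fin 3)} {lt : List (Fin 3) → List (Fin 3) → Prop} {m0 : List (Fin 3)}

/-- lifts of the multiples of the scalar element -/
def vS (st : NA F (Fin 3)) (β : Fin 3 → ℕ) : NA F (Fin 3) := itX (ge F) ((cl β).map i3) st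

theorem psi_vS {st : NA F (Fin 3)} (h : psi F (Fin 3) st = 0) (β : Fin 3 → ℕ) :
    psi F (Fin 3) (vS st β) = 0 := by
  unfold vS
  have h1 := map_itX (psi F (Fin 3) : NA F (Fin 3) →ₙ+* AS F (Fin 3)) (ge F) ((cl β).map i3) st
  have h2 : (psi F (Fin 3) : NA F (Fin 3) →ₙ+* AS F (Fin 3)) st = 0 := h
  rw [h2] at h1
  refine Eq.trans h1 ?_
  generalize (cl β).map i3 = L
  unfold itX
  induction L with
  | nil => rfl
  | cons i L ih =>
    rw [List.foldr_cons, ih]
    fin_cases i <;> simp [opX, T, N, U, tau]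

theorem itX_sh (L : List (Fin 3)) : itX (fm p) (L.map i3) (sh p f) -
    (L.map fun j => iv p (i3 j)).prod • sh p f ∈ F1 p f := by
  induction L with
  | nil =>
    show sh p f - (1 : K) • sh p f ∈ _
    rw [one_smul, sub_self]; exact zero_mem _
  | cons l L ih =>
    have hk : ∀ x ∈ F1 p f, (L.map fun j => iv p (i3 j)).prod • x ∈ F1 p f := by
      intro x hx
      clear ih
      induction L with
      | nil => simpa using hx
      | cons i L ih =>
        rw [List.map_cons, List.prod_cons, mul_smul]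
        exact F1_PC _ _ ih
    have e0 : itX (fm p) ((l :: L).map i3) (sh p f) =
        T (fm p l) (itX (fm p) (L.map i3) (sh p f)) := by
      rw [List.map_cons]
      show opX (fm p) (i3 l) (itX (fm p) (L.map i3) (sh p f)) = _
      rw [opX_T]
    rw [e0, List.map_cons, List.prod_cons]
    generalize (L.map fun j => iv p (i3 j)).prod = k at *
    generalize itX (fm p) (L.map i3) (sh p f) = y at *
    have h1 : T (fm p l) y - (iv p (i3 l) * k) • sh p f =
        T (fm p l) (y - k • sh p f) -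
          k • (iv p (i3 l) • sh p f - (2 : F) • (fm p l * sh p f)) := by
      have h2 : T (fm p l) (k • sh p f) = k • ((2 : F) • (fm p l * sh p f)) := by
        unfold T
        rw [mul_smul_comm, smul_mul_assoc, sh_comm, two_smul, smul_add]
      rw [T_sub, h2, smul_sub, mul_comm, mul_smul]
      abel
    rw [h1]
    have h3 := fm_mem (gen_Bim p _ : Bim p (F1 p f)) l ih
    exact sub_mem (add_mem h3.1 h3.2) (hk _ (sh_T l))

/-- the index type of the basis -/
abbrev Idx : Type := List (Fin 3) ⊕ ((Fin 8 × (Fin 10 → ℕ)) ⊕ (Fin 3 → ℕ))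

/-- the basis elements -/
def vI (st : NA F (Fin 3)) : Idx → NA F (Fin 3) := Sum.elim (lw F) (Sum.elim (vNA F) (vS st))

/-- a basis of the free algebra modulo the ideal of the relator -/
theorem basis3 [IsStrictTotalOrder (List (Fin 3)) lt] (hp : Gp F p) (h : Lead f lt m0) :
    ∃ (S2 : Finset (Fin 8 × (Fin 10 → ℕ))) (S3 : Finset (Fin 3 → ℕ)) (st : NA F (Fin 3)),
      BS ⊤ (If f) (vI st) (Sum.inl '' {W | W ≠ [] ∧ ¬ m0 <:+: W} ∪
        Sum.inr '' (Sum.inl '' {x | ∀ y ∈ S2, ¬ (y.1 = x.1 ∧ y.2 ≤ x.2)} ∪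
          Sum.inr '' {x | ∀ y ∈ S3, ¬ (y ≤ x)})) := by
  obtain ⟨S2, hS2⟩ := bas_D (F := F) (p := p) (f := f) hp.h2K
  obtain ⟨S3, hS3⟩ := bas_K (p := p) (f := f) hp.h2
  obtain ⟨st, hst, hst'⟩ := (mem_D3 (F := F) p (sh p f)).mp
    (KK_le_D3 (subset_gen p (Or.inr rfl)))
  refine ⟨S2, S3, st, ?_⟩
  have h1 := hS2.layer hS3
  have h2 : BS (D3 F p) (FF p f) (fun x => (ph F p : NA F (Fin 3) →ₗ[F] Oct K)
      (Sum.elim (vNA F) (vS st) x)) _ := h1.congr (by
    rintro (x | β)
    · show mon p x.2 • dd p x.1 - ph F p (vNA F x) ∈ _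
      rw [ph_vNA, sub_self]; exact zero_mem _
    · show mo3 p β • sh p f - ph F p (vS st β) ∈ _
      have e1 : ph F p (vS st β) = itX (fm p) ((cl β).map i3) (sh p f) := by
        have e2 := map_itX (ph F p : NA F (Fin 3) →ₙ+* Oct K) (ge F) ((cl β).map i3) st
        have e3 : (fun j => (ph F p : NA F (Fin 3) →ₙ+* Oct K) (ge F j)) = fm p := by
          funext j; exact ph_ge p j
        have e4 : (ph F p : NA F (Fin 3) →ₙ+* Oct K) st = sh p f := hst'
        rw [e3, e4] at e2
        exact e2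
      have e5 : mo3 p β = ((cl β).map fun j => iv p (i3 j)).prod := by
        unfold mo3; rw [prod_cl]
      rw [e1, e5, ← neg_sub]
      exact neg_mem (F1_le_FF p f (itX_sh _)))
  have h3 : BS (DD F) (JJ p f) (Sum.elim (vNA F) (vS st)) _ := h2.pull
    (ph F p : NA F (Fin 3) →ₗ[F] Oct K) (by
      rintro (x | β) _
      · exact (mem_DD_iff _).mpr (psi_vNA x)
      · exact (mem_DD_iff _).mpr (psi_vS hst β))
    (fun x hx => (mem_DD_iff x).mpr hx.1)
    (fun x hx => (mem_D3 p _).mpr ⟨x, (mem_DD_iff x).mp hx, rfl⟩)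
    (fun x hx => ⟨fun hx' => ⟨(mem_DD_iff x).mp hx, hx'⟩, fun hx' => hx'.2⟩)
  have h4 := h3.sup (JJ_le_If hp) (fun x hx => ideal_JJ h hx.2 ((mem_DD_iff x).mp hx.1))
  exact (bas_words p h).layer h4

end

end Pool.Agent.Helper120_Alt.R3
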