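import Pool.Agent.Helper120_Alt.R3.Elm3
import Pool.Agent.Helper120_Alt.R3.Bas4

set_option autoImplicit false

/-! A basis of the kernel of `psi` modulo a finitely generated ideal. -/

namespace Pool.Agent.Helper120_Alt.R3

open Pool.Agent.Helper895.Alt

noncomputable section

variable {F : Type} [Field F] {K : Type} [Field K] [Algebra F K] {p : Fin 10 → K}
  {f : NA F (Fin 3)}

/-- the scalars preserving a subspace -/
def Sta (F : Type) [Field F] {K : Type} [Field K] [Algebra F K] (N : Submodule F (Oct K)) :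
    Subalgebra F K where
  carrier := {k | ∀ x ∈ N, k • x ∈ N}
  mul_mem' := fun {a b} ha hb x hx => by rw [mul_smul]; exact ha _ (hb x hx)
  add_mem' := fun {a b} ha hb x hx => by rw [add_smul]; exact add_mem (ha x hx) (hb x hx)
  algebraMap_mem' := fun r x hx => by rw [algebraMap_smul']; exact Submodule.smul_mem _ _ hx

theorem PC_of_tr (h2 : (2 : F) ≠ 0) {N : Submodule F (Oct K)}
    (h : ∀ c ∈ A3 F p, ∀ x ∈ N, tr c • x ∈ N) : PC p N := by
  have h2K : (2 : K) ≠ 0 := by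
    intro h
    apply h2
    apply (algebraMap F K).injective
    rw [map_ofNat, h, map_zero]
  have hs : ∀ c ∈ A3 F p, tr c ∈ Sta F N := h
  obtain ⟨t0, t1, t2, t00, t11, t22, t01, t02, t12, t012⟩ := tr_fm p
  have e0 : iv p 0 ∈ Sta F N := t0 ▸ hs _ (fm_A3 0)
  have e1 : iv p 1 ∈ Sta F N := t1 ▸ hs _ (fm_A3 1)
  have e2 : iv p 2 ∈ Sta F N := t2 ▸ hs _ (fm_A3 2)
  have q2 : ∀ (l : Fin 3) (i j : Fin 10), iv p i ∈ Sta F N →
      tr (fm p l * fm p l) = iv p i * iv p i - 2 * iv p j → iv p j ∈ Sta F N := by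
    intro l i j hi ht
    have h3 : iv p j = (algebraMap F K 2⁻¹) * (iv p i * iv p i - tr (fm p l * fm p l)) := by
      rw [ht, map_inv₀, map_ofNat]
      field_simp
      ring
    rw [h3]
    exact mul_mem (Subalgebra.algebraMap_mem _ _) (sub_mem (mul_mem hi hi)
      (hs _ (A3_mul (fm_A3 l) (fm_A3 l))))
  have q3 : ∀ (l m : Fin 3) (i i' j : Fin 10), iv p i ∈ Sta F N → iv p i' ∈ Sta F N →
      tr (fm p l * fm p m) = iv p i * iv p i' - iv p j → iv p j ∈ Sta F N := by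
    intro l m i i' j hi hi' ht
    have h3 : iv p j = iv p i * iv p i' - tr (fm p l * fm p m) := by rw [ht]; ring
    rw [h3]
    exact sub_mem (mul_mem hi hi') (hs _ (A3_mul (fm_A3 l) (fm_A3 m)))
  have e3 := q2 0 0 3 e0 t00
  have e4 := q2 1 1 4 e1 t11
  have e5 := q2 2 2 5 e2 t22
  have e6 := q3 0 1 0 1 6 e0 e1 t01
  have e7 := q3 0 2 0 2 7 e0 e2 t02
  have e8 := q3 1 2 1 2 8 e1 e2 t12
  have e9 : iv p 9 ∈ Sta F N := by
    have h3 : iv p 9 = (iv p 0 * iv p 1 - iv p 6) * iv p 2 -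
        tr ((fm p 0 * fm p 1) * fm p 2) := by rw [t012]; ring
    rw [h3]
    exact sub_mem (mul_mem (sub_mem (mul_mem e0 e1) e6) e2)
      (hs _ (A3_mul (A3_mul (fm_A3 0) (fm_A3 1)) (fm_A3 2)))
  intro i
  fin_cases i
  · exact e0
  · exact e1
  · exact e2
  · exact e3
  · exact e4
  · exact e5
  · exact e6
  · exact e7
  · exact e8
  · exact e9

theorem core_PC (h2 : (2 : F) ≠ 0) {I : Submodule F (Oct K)} : PC p (core F p I) :=
  PC_of_tr h2 fun _ hc _ hx => core_tr hc hx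

theorem KK_tr {c : Oct K} (hc : c ∈ A3 F p) {x : Oct K} (hx : x ∈ KK p f) :
    tr c • x ∈ KK p f := by
  refine gen_smul p (gen_Bim p _) _ ?_ hx
  rintro y ((hy | hy) | rfl)
  · apply F1_le_FF p f |>.trans (FF_le_KK p f)
    obtain ⟨d, hd, rfl | rfl⟩ := hy
    · exact subset_gen p ⟨_, D3_tr hc hd, Or.inl (by rw [mul_smul_comm])⟩
    · exact subset_gen p ⟨_, D3_tr hc hd, Or.inr (by rw [smul_mul_assoc])⟩
  · obtain ⟨a, rfl⟩ := hc
    exact tr_S2 a hy
  · have h := tr_fd_K1 (p := p) (f := f) (D3_tr hc (om_D3 (F := F) p))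
    rw [mul_smul_comm, tr_smul] at h
    unfold sh
    rw [smul_smul]
    exact K1_le_KK p f h

theorem KK_le_core {I : Submodule F (Oct K)} (h : KK p f ≤ I) : KK p f ≤ core F p I := by
  intro v hv l hl
  apply h
  induction l with
  | nil => simpa using hv
  | cons c l ih =>
    rw [List.map_cons, List.prod_cons, mul_smul]
    exact KK_tr (hl c (by simp)) (ih fun c hc => hl c (by simp [hc]))

/-- the octonionic part of the ideal, with some further generators -/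
def IY (p : Fin 10 → K) (f : NA F (Fin 3)) {b : ℕ} (y : Fin b → Oct K) :
    Submodule F (Oct K) := gen F p (S1 p f ∪ S2 p f ∪ Set.range y)

theorem FF_le_IY {b : ℕ} (y : Fin b → Oct K) : FF p f ≤ IY p f y :=
  gen_mono p Set.subset_union_left

theorem y_IY {b : ℕ} (y : Fin b → Oct K) (t : Fin b) : y t ∈ IY p f y :=
  subset_gen p (Or.inr ⟨t, rfl⟩)

theorem IY_Bim {b : ℕ} (y : Fin b → Oct K) : Bim p (IY p f y) := gen_Bim p _

theorem sup_Bim {M N : Submodule F (Oct K)} (hM : Bim p M) (hN : Bim p N) : Bim p (M ⊔ N) := by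
  intro a x hx
  obtain ⟨y, hy, z, hz, rfl⟩ := Submodule.mem_sup.mp hx
  rw [mul_add, add_mul]
  exact ⟨Submodule.add_mem_sup (hM a y hy).1 (hN a z hz).1,
    Submodule.add_mem_sup (hM a y hy).2 (hN a z hz).2⟩

theorem IY_le_D3 {b : ℕ} {y : Fin b → Oct K} (hy : ∀ t, y t ∈ D3 F p) : IY p f y ≤ D3 F p := by
  apply gen_le
  · rintro x ((⟨d, hd, rfl | rfl⟩ | ⟨a, b, rfl⟩) | ⟨t, rfl⟩)
    · exact (D3_Bim p f d hd).1
    · exact (D3_Bim p f d hd).2
    · exact asc_D3 p f a b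
    · exact hy t
  · exact D3_Bim p

/-- a combination of standard elements, as a list -/
def cmb (p : Fin 10 → K) (E : List (F × (Fin 8 × (Fin 10 → ℕ)))) : Oct K :=
  (E.map fun e => e.1 • (mon p e.2.2 • dd p e.2.1)).sum

theorem exists_cmb {x : Oct K} (hx : x ∈ D3 F p) : ∃ E, cmb (F := F) p E = x := by
  obtain ⟨l, rfl⟩ := Finsupp.mem_span_range_iff_exists_finsupp.mp hx
  refine ⟨l.support.toList.map fun x => (l x, x), ?_⟩
  unfold cmb
  rw [List.map_map, Finsupp.sum, ← Finset.sum_map_toList]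
  rfl

/-- lifts of the combinations, shifted by an exponent -/
def cmN (E : List (F × (Fin 8 × (Fin 10 → ℕ)))) (α : Fin 10 → ℕ) : NA F (Fin 3) :=
  (E.map fun e => e.1 • vNA F (e.2.1, e.2.2 + α)).sum

theorem mon_mul (α α' : Fin 10 → ℕ) : mon p (α' + α) = mon p α * mon p α' := by
  unfold mon
  simp only [Pi.add_apply, pow_add, Finset.prod_mul_distrib]
  rw [mul_comm]

theorem ph_cmN (E : List (F × (Fin 8 × (Fin 10 → ℕ)))) (α : Fin 10 → ℕ) :
    ph F p (cmN E α) = mon p α • cmb p E := by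
  unfold cmN cmb
  induction E with
  | nil => simp
  | cons e E ih =>
    rw [List.map_cons, List.sum_cons, List.map_cons, List.sum_cons, map_add, ih, smul_add,
      map_smul, ph_vNA, mon_mul, mul_smul, smul_comm (mon p α) e.1]

theorem psi_cmN (E : List (F × (Fin 8 × (Fin 10 → ℕ)))) (α : Fin 10 → ℕ) :
    psi F (Fin 3) (cmN E α) = 0 := by
  unfold cmN
  induction E with
  | nil => simp
  | cons e E ih =>
    rw [List.map_cons, List.sum_cons, map_add, ih, map_smul, psi_vNA, smul_zero, add_zero]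

theorem ph_Lm (l : List (Fin 3)) (x : NA F (Fin 3)) :
    ph F p (Lm F l x) = Lw F p l (ph F p x) := by
  induction l with
  | nil => rfl
  | cons i l ih => rw [Lm_cons, map_mul, ph_ge, ih, Lw_cons]

/-- lifts of the multiples of the generators -/
def vEN {k : ℕ} (G : Fin k → List (F × (Fin 8 × (Fin 10 → ℕ)))) (x : IxE k) : NA F (Fin 3) :=
  Lm F (cl x.2.2) (cmN (G x.1) x.2.1)

theorem ph_vEN {k : ℕ} (G : Fin k → List (F × (Fin 8 × (Fin 10 → ℕ)))) (x : IxE k) :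
    ph F p (vEN G x) = vE F p (fun s => cmb p (G s)) x := by
  unfold vEN vE
  rw [ph_Lm, ph_cmN, Lw_smulK]

theorem psi_vEN {k : ℕ} (G : Fin k → List (F × (Fin 8 × (Fin 10 → ℕ)))) (x : IxE k) :
    psi F (Fin 3) (vEN G x) = 0 := by
  rw [← mem_DD_iff]
  exact Lm_mem (fun a _ hx => DD_mul a hx) _ ((mem_DD_iff _).mpr (psi_cmN _ _))

/-- indices of the basis of the kernel of `psi` -/
abbrev IxJ (k : ℕ) : Type := (Fin 8 × (Fin 10 → ℕ)) ⊕ (IxE k ⊕ (Fin 3 → ℕ))

/-- the basis elements -/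
def vJ {k : ℕ} (G : Fin k → List (F × (Fin 8 × (Fin 10 → ℕ)))) (st : NA F (Fin 3)) :
    IxJ k → NA F (Fin 3) := Sum.elim (vNA F) (Sum.elim (vEN G) (vS st))

/-- the part of the ideal in the kernel of `psi`, with further generators -/
def JY (p : Fin 10 → K) (f : NA F (Fin 3)) {b : ℕ} (y : Fin b → Oct K) :
    Submodule F (NA F (Fin 3)) :=
  LinearMap.ker (psi F (Fin 3) : NA F (Fin 3) →ₗ[F] AS F (Fin 3)) ⊓
    (IY p f y).comap (ph F p : NA F (Fin 3) →ₗ[F] Oct K)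

theorem mem_JY {b : ℕ} (y : Fin b → Oct K) (g : NA F (Fin 3)) :
    g ∈ JY p f y ↔ psi F (Fin 3) g = 0 ∧ ph F p g ∈ IY p f y := Iff.rfl

/-- the set of indices -/
def okS {k : ℕ} (S2 : Finset (Fin 8 × (Fin 10 → ℕ))) (SN : Finset (Fin k × (Fin 3 → ℕ)))
    (SC : Finset (IxE k)) (S3 : Finset (Fin 3 → ℕ)) : Set (IxJ k) :=
  Sum.inl '' {x | ∀ y ∈ S2, ¬ (y.1 = x.1 ∧ y.2 ≤ x.2)} ∪
    Sum.inr '' (Sum.inl '' {x | (x.2.1 = 0 → ∀ y ∈ SN, ¬ (y.1 = x.1 ∧ y.2 ≤ x.2.2)) ∧
          (x.2.1 ≠ 0 → ∀ y ∈ SC, ¬ (y.1 = x.1 ∧ y.2 ≤ x.2))} ∪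
      Sum.inr '' {x | ∀ y ∈ S3, ¬ (y ≤ x)})

/-- a basis of the kernel of `psi` modulo the ideal -/
theorem basis_J (hp : Gp F p) {b : ℕ} {y : Fin b → Oct K} (hy : ∀ t, y t ∈ D3 F p) :
    ∃ (k : ℕ) (G : Fin k → List (F × (Fin 8 × (Fin 10 → ℕ)))) (st : NA F (Fin 3))
      (S2 : Finset (Fin 8 × (Fin 10 → ℕ))) (SN : Finset (Fin k × (Fin 3 → ℕ)))
      (SC : Finset (IxE k)) (S3 : Finset (Fin 3 → ℕ)),
      BS (DD F) (JY p f y) (vJ G st) (okS S2 SN SC S3) := by
  have h2 := hp.h2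
  let I := IY p f y ⊔ KK p f
  have hI : Bim p I := sup_Bim (IY_Bim y) (gen_Bim p _)
  have hID : I ≤ D3 F p := sup_le (IY_le_D3 hy) KK_le_D3
  have hKC : KK p f ≤ core F p I := KK_le_core le_sup_right
  obtain ⟨k, g, hgI, hspan, htri⟩ := gens h2 hI y (fun t => Submodule.mem_sup_left (y_IY y t))
    (fun N hN hyN hCN => sup_le (gen_le p (by
      rintro x (hx | ⟨t, rfl⟩)
      · exact hCN (hKC (subset_gen p (Or.inl hx)))
      · exact hyN t) hN) (hKC.trans hCN))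
  have hC : PC p (core F p I) := core_PC h2
  obtain ⟨SN, SC, hE⟩ := bas_E (C := core F p I) (N := I) hC
    (fun l x hx => (core_Bim hI).l (fm_A3 l) hx) (fun l x hx => hI.l (fm_A3 l) hx) core_le
    hspan htri
  have hVD : VE F p (core F p I) g ≤ D3 F p := by
    apply sup_le (core_le.trans hID)
    rw [Submodule.span_le]
    rintro _ ⟨x, rfl⟩
    exact (D3_PC p).mon _ (I_Lw (D3_Bim p) _ (hID (hgI _)))
  obtain ⟨S2, hS2⟩ := bas_PC (VE_PC hC g) hVD
  obtain ⟨S3, hS3⟩ := bas_sh (f := f) h2 (IY_Bim y) (FF_le_IY y)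
  obtain ⟨st, hst, hst'⟩ := (mem_D3 (F := F) p (sh p f)).mp
    (KK_le_D3 (subset_gen p (Or.inr rfl)))
  choose G hG using fun s => exists_cmb (hID (hgI s))
  refine ⟨k, G, st, S2, SN, SC, S3, ?_⟩
  have h1 := hS2.layer (hE.layer hS3)
  have hg : (fun s => cmb p (G s)) = g := funext hG
  have h3 : BS (D3 F p) (IY p f y) (fun x => (ph F p : NA F (Fin 3) →ₗ[F] Oct K)
      (vJ G st x)) (okS S2 SN SC S3) := h1.congr (by
    rintro (x | (x | β))
    · show mon p x.2 • dd p x.1 - ph F p (vNA F x) ∈ _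
      rw [ph_vNA, sub_self]; exact zero_mem _
    · show vE F p g x - ph F p (vEN G x) ∈ _
      rw [ph_vEN, hg, sub_self]; exact zero_mem _
    · show mo3 p β • sh p f - ph F p (vS st β) ∈ _
      have e1 : ph F p (vS st β) = itX (fm p) ((cl β).map i3) (sh p f) := by
        have e2 := map_itX (ph F p : NA F (Fin 3) →ₙ+* Oct K) (ge F) ((cl β).map i3) st
        have e3 : (fun j => (ph F p : NA F (Fin 3) →ₙ+* Oct K) (ge F j)) = fm p := by
          funext j; exact ph_ge p j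
        have e4 : (ph F p : NA F (Fin 3) →ₙ+* Oct K) st = sh p f := hst'
        rw [e3, e4] at e2
        exact e2
      have e5 : mo3 p β = ((cl β).map fun j => iv p (i3 j)).prod := by
        unfold mo3; rw [prod_cl]
      rw [e1, e5, ← neg_sub]
      exact neg_mem (FF_le_IY y (F1_le_FF p f (itX_sh _))))
  exact h3.pull (ph F p : NA F (Fin 3) →ₗ[F] Oct K) (by
      rintro (x | (x | β)) _
      · exact (mem_DD_iff _).mpr (psi_vNA x)
      · exact (mem_DD_iff _).mpr (psi_vEN G x)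
      · exact (mem_DD_iff _).mpr (psi_vS hst β))
    (fun x hx => (mem_DD_iff x).mpr hx.1)
    (fun x hx => (mem_D3 p _).mpr ⟨x, (mem_DD_iff x).mp hx, rfl⟩)
    (fun x hx => ⟨fun hx' => ⟨(mem_DD_iff x).mp hx, hx'⟩, fun hx' => hx'.2⟩)

end

end Pool.Agent.Helper120_Alt.R3
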