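import Pool.Agent.Helper120_Alt.R3.Ov4

set_option autoImplicit false

/-! A basis of the one-relator algebra. -/

namespace Pool.Agent.Helper120_Alt.R3

open Pool.Agent.Helper895.Alt

noncomputable section

variable {F : Type} [Field F] {K : Type} [Field K] [Algebra F K] {p : Fin 10 → K}
  {f : NA F (Fin 3)} {lt : List (Fin 3) → List (Fin 3) → Prop} {m0 : List (Fin 3)}

/-- the ideal of the relator -/
def If (f : NA F (Fin 3)) : Submodule F (NA F (Fin 3)) := altIdeal F (Fin 3) {f}

theorem If_mul (a : NA F (Fin 3)) {x : NA F (Fin 3)} (hx : x ∈ If f) :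
    a * x ∈ If f ∧ x * a ∈ If f := idl_mul a x hx

theorem f_If : f ∈ If f := subset_idl _ (Or.inr rfl)

theorem I0_le_If : I0 F ≤ If f := idl_mono Set.subset_union_left

theorem G_If (P Q : List (Fin 3)) : G f P Q ∈ If f :=
  Rm_mem (fun a _ hx => If_mul a hx) Q (Lm_mem (fun a _ hx => If_mul a hx) P f_If)

theorem FF_le_map : FF p f ≤ (DD F ⊓ If f).map (ph F p : NA F (Fin 3) →ₗ[F] Oct K) := by
  have hmul : ∀ a x : NA F (Fin 3), x ∈ DD F ⊓ If f →
      a * x ∈ DD F ⊓ If f ∧ x * a ∈ DD F ⊓ If f := by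
    rintro a x ⟨h1, h2⟩
    have h3 := DD_mul a h1
    have h4 := If_mul a h2
    exact ⟨⟨h3.1, h4.1⟩, ⟨h3.2, h4.2⟩⟩
  apply gen_le
  · rintro x (⟨d, hd, hx⟩ | ⟨a, b, rfl⟩)
    · obtain ⟨k, hk, rfl⟩ := (mem_D3 p d).mp hd
      rw [← mem_DD_iff] at hk
      have h3 := DD_mul f hk
      have h4 := If_mul k (f_If (f := f))
      rcases hx with rfl | rfl
      · exact ⟨f * k, ⟨h3.1, h4.2⟩, map_mul (ph F p) _ _⟩
      · exact ⟨k * f, ⟨h3.2, h4.1⟩, map_mul (ph F p) _ _⟩
    · refine ⟨asc f a b, ⟨?_, ?_⟩, ph_asc p f a b⟩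
      · show asc f a b ∈ DD F
        rw [mem_DD_iff]
        unfold asc
        rw [map_sub, map_mul, map_mul, map_mul, map_mul, mul_assoc, sub_self]
      · unfold asc
        exact sub_mem (If_mul b (If_mul a f_If).2).2 (If_mul (a * b) f_If).2
  · rintro a _ ⟨x, hx, rfl⟩
    have := hmul a x hx
    exact ⟨⟨a * x, this.1, map_mul (ph F p) _ _⟩, ⟨x * a, this.2, map_mul (ph F p) _ _⟩⟩

theorem JJ_le_If (hp : Gp F p) : JJ p f ≤ If f := by
  intro x hx
  rw [mem_JJ] at hx
  obtain ⟨y, ⟨hy1, hy2⟩, he⟩ := FF_le_map hx.2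
  have h1 : x - y ∈ I0 F := by
    rw [mem_I0_iff hp, map_sub, map_sub, hx.1, (mem_DD_iff y).mp hy1, sub_zero]
    refine ⟨rfl, ?_⟩
    have : ph F p y = ph F p x := he
    rw [this, sub_self]
  rw [← sub_add_cancel x y]
  exact add_mem (I0_le_If h1) hy2

/-- the layer of the words -/
theorem bas_words [IsStrictTotalOrder (List (Fin 3)) lt] (p : Fin 10 → K) (h : Lead f lt m0) :
    BS ⊤ (If f ⊔ DD F) (lw F) {W | W ≠ [] ∧ ¬ m0 <:+: W} := by
  have h1 : {W | W ≠ [] ∧ ¬ m0 <:+: W} = (LI lt id (lw F) (If f ⊔ DD F))ᶜ := by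
    ext W
    have : W ∈ LI lt id (lw F) (If f ⊔ DD F) ↔ (W = [] ∨ m0 <:+: W) := by
      constructor
      · rintro ⟨c, hc, hlt, hs⟩
        by_cases hW : W = []
        · exact Or.inl hW
        · right
          obtain ⟨g, hg, k, hk, e⟩ := Submodule.mem_sup.mp hs
          have hchi : ∀ T, T ≠ [] → chi F g T = c T := by
            intro T hT
            have h2 : chi F g = chi F (c.sum fun i a => a • lw F i) := by
              rw [← e, map_add, (chi_eq_zero k).mpr ((mem_DD_iff k).mp hk), add_zero]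
            rw [h2, Finsupp.sum, map_sum, Finsupp.finsetSum_apply]
            have h3 : ∀ i ∈ c.support, (chi F (c i • lw F i)) T = if i = T then c T else 0 := by
              intro i _
              by_cases hi : i = []
              · subst hi
                have : lw F [] = 0 := rfl
                rw [this, smul_zero, map_zero, if_neg (fun h => hT h.symm)]
                rfl
              · rw [map_smul, chi_lw hi, Finsupp.smul_single, smul_eq_mul, mul_one,
                  Finsupp.single_apply]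
                split_ifs with h
                · rw [h]
                · rfl
            rw [Finset.sum_congr rfl h3, Finset.sum_ite_eq']
            split_ifs with h
            · rfl
            · exact (Finsupp.notMem_support_iff.mp h).symm
          refine ideal_lead p h hg (T := W) ?_ ?_
          · rw [hchi W hW]; exact hc
          · intro T' hT' hne
            rw [hchi T' (ne_nil_of_chi hT')] at hT'
            exact hlt T' hT' hne
      · rintro (rfl | ⟨P, Q, rfl⟩)
        · refine ⟨Finsupp.single [] 1, by simp, ?_, ?_⟩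
          · intro j hj hne
            rw [Finsupp.single_apply, if_neg (fun h => hne h.symm)] at hj
            exact absurd rfl hj
          · rw [Finsupp.sum_single_index (by simp)]
            have : lw F [] = 0 := rfl
            rw [this, smul_zero]
            exact zero_mem _
        · have hinj : Function.Injective ((fun W => W ++ Q) ∘ fun W => P ++ W) := by
            intro a b hab
            simpa using hab
          refine ⟨chi F (G f P Q), ?_, ?_, ?_⟩
          · unfold G
            rw [chi_Rm, chi_Lm, ← Finsupp.mapDomain_comp]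
            have := Finsupp.mapDomain_apply hinj (chi F f) m0
            rw [show P ++ m0 ++ Q = ((fun W => W ++ Q) ∘ fun W => P ++ W) m0 from rfl, this]
            exact h.lead
          · intro T hT hne
            unfold G at hT
            rw [chi_Rm, chi_Lm, ← Finsupp.mapDomain_comp] at hT
            by_cases hr : T ∈ Set.range ((fun W => W ++ Q) ∘ fun W => P ++ W)
            · obtain ⟨W, rfl⟩ := hr
              rw [Finsupp.mapDomain_apply hinj] at hT
              apply h.comp
              apply h.low W hT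
              rintro rfl
              exact hne rfl
            · exact absurd (Finsupp.mapDomain_of_notMem_range _ _ hr) hT
          · have h2 : ((chi F (G f P Q)).sum fun i a => a • lw F i) =
                G f P Q - (G f P Q - (chi F (G f P Q)).sum fun i a => a • lw F i) := by abel
            rw [h2]
            exact sub_mem (Submodule.mem_sup_left (G_If P Q))
              (Submodule.mem_sup_right ((mem_DD_iff _).mpr (psi_sub_lw _)))
    rw [Set.mem_compl_iff, this, Set.mem_ofPred_eq]
    tauto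
  rw [h1]
  apply BS.of_LI lt id h.wf Function.injective_id (fun _ => Submodule.mem_top) le_top
  intro g _
  have h2 : g = ((chi F g).sum fun i a => a • lw F i) +
      (g - (chi F g).sum fun i a => a • lw F i) := by abel
  rw [h2]
  apply Submodule.add_mem_sup
  · exact Submodule.sum_mem _ fun i _ => Submodule.smul_mem _ _ (Submodule.subset_span ⟨i, rfl⟩)
  · exact Submodule.mem_sup_right ((mem_DD_iff _).mpr (psi_sub_lw _))

/-- the index order for the associator part -/
def key2 (x : Fin 8 × (Fin 10 → ℕ)) : Fin 8 ×ₗ Lex (Fin 10 → ℕ) := toLex (x.1, toLex x.2)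

theorem key2_inj : Function.Injective key2 := by
  rintro ⟨a, b⟩ ⟨c, d⟩ h
  simp only [key2, EmbeddingLike.apply_eq_iff_eq, Prod.mk.injEq] at h
  rw [h.1, h.2]

/-- the middle layer -/
theorem bas_D (h2 : (2 : K) ≠ 0) : ∃ S : Finset (Fin 8 × (Fin 10 → ℕ)),
    BS (D3 F p) (KK p f) (fun x : Fin 8 × (Fin 10 → ℕ) => mon p x.2 • dd p x.1)
      {x | ∀ y ∈ S, ¬ (y.1 = x.1 ∧ y.2 ≤ x.2)} := by
  let v : Fin 8 × (Fin 10 → ℕ) → Oct K := fun x => mon p x.2 • dd p x.1
  let r : (Fin 8 ×ₗ Lex (Fin 10 → ℕ)) → (Fin 8 ×ₗ Lex (Fin 10 → ℕ)) → Prop := (· < ·)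
  have hsh : ∀ (i : Fin 10) (x : Fin 8 × (Fin 10 → ℕ)), x ∈ LI r key2 v (KK p f) →
      (x.1, x.2 + Pi.single i 1) ∈ LI r key2 v (KK p f) := by
    intro i x hx
    refine LI_shift r key2 (fun x : Fin 8 × (Fin 10 → ℕ) => (x.1, x.2 + Pi.single i 1)) ?_ ?_ ?_ hx
    · rintro ⟨a, b⟩ ⟨c, d⟩ h
      simp only [Prod.mk.injEq, add_left_inj] at h
      rw [h.1, h.2]
    · rintro ⟨a, b⟩ ⟨c, d⟩ h
      rcases (Prod.Lex.toLex_lt_toLex.mp h) with h | ⟨h, h'⟩
      · exact Prod.Lex.toLex_lt_toLex.mpr (Or.inl h)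
      · refine Prod.Lex.toLex_lt_toLex.mpr (Or.inr ⟨h, ?_⟩)
        exact add_lt_add_left h' (toLex (Pi.single i 1))
    · intro c hc
      have e : (c.sum fun x a => a • v (x.1, x.2 + Pi.single i 1)) =
          iv p i • (c.sum fun x a => a • v x) := by
        rw [Finsupp.sum, Finsupp.sum, Finset.smul_sum]
        refine Finset.sum_congr rfl fun x _ => ?_
        show c x • mon p (x.2 + Pi.single i 1) • dd p x.1 = iv p i • c x • mon p x.2 • dd p x.1
        rw [← mon_add, mul_smul, ← smul_comm (c x) (iv p i)]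
      rw [e]
      exact KK_PC h2 i _ hc
  have hU : ∀ s : Fin 8, ∃ S : Finset (Fin 10 → ℕ), ∀ α : Fin 10 → ℕ,
      (s, α) ∈ LI r key2 v (KK p f) ↔ ∃ β ∈ S, β ≤ α := by
    intro s
    exact dickson {α | (s, α) ∈ LI r key2 v (KK p f)} (fun α hα i => hsh i (s, α) hα)
  choose S hS using hU
  classical
  refine ⟨Finset.univ.biUnion fun s => (S s).image fun β => (s, β), ?_⟩
  have h1 : {x : Fin 8 × (Fin 10 → ℕ) | ∀ y ∈ (Finset.univ.biUnion fun s => (S s).image
      fun β => (s, β)), ¬ (y.1 = x.1 ∧ y.2 ≤ x.2)} = (LI r key2 v (KK p f))ᶜ := by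
    ext ⟨s, α⟩
    rw [Set.mem_compl_iff, hS s α, Set.mem_ofPred_eq]
    constructor
    · rintro h ⟨β, hβ, hle⟩
      refine h (s, β) ?_ ⟨rfl, hle⟩
      simp only [Finset.mem_biUnion, Finset.mem_univ, true_and, Finset.mem_image]
      exact ⟨s, β, hβ, rfl⟩
    · rintro h ⟨s', β⟩ hy ⟨h3, h4⟩
      simp only at h3 h4
      subst h3
      simp only [Finset.mem_biUnion, Finset.mem_univ, true_and, Finset.mem_image,
        Prod.mk.injEq] at hy
      obtain ⟨s'', β', hβ', h5, h6⟩ := hy
      subst h5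
      subst h6
      exact h ⟨β', hβ', h4⟩
  rw [h1]
  apply BS.of_LI r key2 wellFounded_lt key2_inj
  · intro x; exact Submodule.subset_span ⟨x, rfl⟩
  · exact KK_le_D3
  · exact le_sup_left

/-- the lowest layer -/
theorem bas_K (h2 : (2 : F) ≠ 0) : ∃ S : Finset (Fin 3 → ℕ),
    BS (KK p f) (FF p f) (fun β : Fin 3 → ℕ => mo3 p β • sh p f)
      {x | ∀ y ∈ S, ¬ (y ≤ x)} := by
  let v : (Fin 3 → ℕ) → Oct K := fun β => mo3 p β • sh p f
  let r : Lex (Fin 3 → ℕ) → Lex (Fin 3 → ℕ) → Prop := (· < ·)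
  have hsh : ∀ (i : Fin 3) (x : Fin 3 → ℕ), x ∈ LI r toLex v (FF p f) →
      x + Pi.single i 1 ∈ LI r toLex v (FF p f) := by
    intro i x hx
    refine LI_shift r toLex (fun x : Fin 3 → ℕ => x + Pi.single i 1) ?_ ?_ ?_ hx
    · intro a b h
      simpa using h
    · intro a b h
      exact add_lt_add_left h (toLex (Pi.single i 1))
    · intro c hc
      exact FF_shift i c hc
  obtain ⟨S, hS⟩ := dickson {α | α ∈ LI r toLex v (FF p f)} (fun α hα i => hsh i α hα)
  refine ⟨S, ?_⟩
  have h1 : {x : Fin 3 → ℕ | ∀ y ∈ S, ¬ (y ≤ x)} = (LI r toLex v (FF p f))ᶜ := by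
    ext α
    have := hS α
    rw [Set.mem_ofPred_eq] at this
    rw [Set.mem_compl_iff, this, Set.mem_ofPred_eq]
    push Not
    rfl
  rw [h1]
  apply BS.of_LI r toLex wellFounded_lt toLex.injective
  · intro β
    refine mo3_smul (KK_PC ?_) β (subset_gen p (Or.inr rfl))
    intro h
    apply h2
    apply (algebraMap F K).injective
    rw [map_ofNat, h, map_zero]
  · exact FF_le_KK p f
  · exact KK_span h2

end

end Pool.Agent.Helper120_Alt.R3
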