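import Pool.Agent.Helper120_Alt.R3.K3

set_option autoImplicit false

/-! The core of a bimodule: its largest part closed under multiplication by traces. -/

namespace Pool.Agent.Helper120_Alt.R3

open Pool.Agent.Helper895.Alt

noncomputable section

section alt

variable {B : Type} [NonUnitalNonAssocRing B]

/-- commutator -/
def cm (a b : B) : B := a * b - b * a

theorem cm_sub (a b c : B) : cm a (b - c) = cm a b - cm a c := by
  unfold cm; simp only [mul_sub, sub_mul]; abel

theorem cm_add (a b c : B) : cm a (b + c) = cm a b + cm a c := by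
  unfold cm; simp only [mul_add, add_mul]; abel

theorem cm_neg (a b : B) : cm a b = -cm b a := by
  unfold cm; abel

variable [AltRing B]

theorem jac (x y m : B) :
    cm (cm x y) m + cm (cm y m) x + cm (cm m x) y = 6 • asc x y m := by
  have h1 : asc y m x = asc x y m := asc_cyc _ _ _
  have h2 : asc m x y = asc x y m := by rw [← asc_cyc m x y]
  have h3 : asc y x m = -asc x y m := asc_swap12 _ _ _
  have h4 : asc x m y = -asc x y m := asc_swap23 _ _ _
  have h5 : asc m y x = -asc x y m := asc_swap13 _ _ _
  have e : cm (cm x y) m + cm (cm y m) x + cm (cm m x) y = asc x y m + asc y m x + asc m x y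
      - asc y x m - asc x m y - asc m y x := by
    unfold cm asc; simp only [mul_sub, sub_mul]; abel
  rw [e, h1, h2, h3, h4, h5]; abel

theorem id1 (x y m : B) : 2 • (cm x y * m) =
    6 • asc x y m + cm x (y * m) - cm y (x * m) - y * cm x m + x * cm y m := by
  have h1 : asc y m x = asc x y m := asc_cyc _ _ _
  have h3 : asc y x m = -asc x y m := asc_swap12 _ _ _
  have h4 : asc x m y = -asc x y m := asc_swap23 _ _ _
  have e : cm x (y * m) - cm y (x * m) - y * cm x m + x * cm y m = 2 • (cm x y * m)
      - 2 • asc x y m + 2 • asc y x m - asc y m x + asc x m y := by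
    unfold cm asc; simp only [mul_sub, sub_mul]; abel
  have e2 : 6 • asc x y m + cm x (y * m) - cm y (x * m) - y * cm x m + x * cm y m =
      6 • asc x y m + (cm x (y * m) - cm y (x * m) - y * cm x m + x * cm y m) := by abel
  rw [e2, e, h1, h3, h4]; abel

theorem fK_cm (w x y z : B) : 2 • fK w x y z =
    asc (cm w x) y z + cm w (asc x y z) - cm x (asc w y z) := by
  have h := fK_swap12 w x y z
  have e : 2 • fK w x y z = fK w x y z - fK x w y z := by rw [h]; abel
  rw [e]
  unfold fK
  have e2 : asc (cm w x) y z = asc (w * x) y z - asc (x * w) y z := by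
    unfold cm; rw [asc_sub1]
  rw [e2]
  unfold cm
  abel

theorem cm_mul (a b c : B) : cm (a * b) c = a * cm b c + cm a c * b + 3 • asc a b c := by
  have h1 : asc c a b = asc a b c := by rw [← asc_cyc c a b]
  have h2 : asc a c b = -asc a b c := asc_swap23 _ _ _
  have e : cm (a * b) c = a * cm b c + cm a c * b + asc a b c + asc c a b - asc a c b := by
    unfold cm asc; simp only [mul_sub, sub_mul]; abel
  rw [e, h1, h2]; abel

end alt

variable {F : Type} [Field F] {K : Type} [Field K] [Algebra F K] {p : Fin 10 → K}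

/-- the image of the free algebra -/
def A3 (F : Type) [Field F] {K : Type} [Field K] [Algebra F K] (p : Fin 10 → K) :
    Submodule F (Oct K) := LinearMap.range (ph F p : NA F (Fin 3) →ₗ[F] Oct K)

theorem ph_A3 (a : NA F (Fin 3)) : ph F p a ∈ A3 F p := ⟨a, rfl⟩

theorem A3_mul {x y : Oct K} (hx : x ∈ A3 F p) (hy : y ∈ A3 F p) : x * y ∈ A3 F p := by
  obtain ⟨a, rfl⟩ := hx
  obtain ⟨b, rfl⟩ := hy
  exact ⟨a * b, map_mul (ph F p) a b⟩

theorem A3_T {x y : Oct K} (hx : x ∈ A3 F p) (hy : y ∈ A3 F p) : T x y ∈ A3 F p :=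
  add_mem (A3_mul hx hy) (A3_mul hy hx)

theorem A3_cm {x y : Oct K} (hx : x ∈ A3 F p) (hy : y ∈ A3 F p) : cm x y ∈ A3 F p :=
  sub_mem (A3_mul hx hy) (A3_mul hy hx)

theorem D3_le_A3 : D3 F p ≤ A3 F p := by
  intro x hx
  obtain ⟨g, _, rfl⟩ := (mem_D3 p x).mp hx
  exact ph_A3 g

theorem fm_A3 (i : Fin 3) : fm p i ∈ A3 F p := by
  rw [← ph_ge (F := F) p i]; exact ph_A3 _

theorem asc_A3 {x y z : Oct K} (hx : x ∈ A3 F p) (hy : y ∈ A3 F p) (hz : z ∈ A3 F p) :
    asc x y z ∈ D3 F p := by
  obtain ⟨a, rfl⟩ := hx
  obtain ⟨b, rfl⟩ := hy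
  obtain ⟨c, rfl⟩ := hz
  exact asc_D3 p a b c

theorem Bim.l {N : Submodule F (Oct K)} (h : Bim p N) {a x : Oct K} (ha : a ∈ A3 F p)
    (hx : x ∈ N) : a * x ∈ N := by
  obtain ⟨g, rfl⟩ := ha
  exact (h g x hx).1

theorem Bim.r {N : Submodule F (Oct K)} (h : Bim p N) {a x : Oct K} (ha : a ∈ A3 F p)
    (hx : x ∈ N) : x * a ∈ N := by
  obtain ⟨g, rfl⟩ := ha
  exact (h g x hx).2

theorem Bim.t {N : Submodule F (Oct K)} (h : Bim p N) {a x : Oct K} (ha : a ∈ A3 F p)
    (hx : x ∈ N) : T a x ∈ N := add_mem (h.l ha hx) (h.r ha hx)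

theorem Bim.c {N : Submodule F (Oct K)} (h : Bim p N) {a x : Oct K} (ha : a ∈ A3 F p)
    (hx : x ∈ N) : cm a x ∈ N := sub_mem (h.l ha hx) (h.r ha hx)

theorem Bim.a {N : Submodule F (Oct K)} (h : Bim p N) {a b x : Oct K} (ha : a ∈ A3 F p)
    (hb : b ∈ A3 F p) (hx : x ∈ N) : asc x a b ∈ N :=
  sub_mem (h.r hb (h.r ha hx)) (h.r (A3_mul ha hb) hx)

theorem one_smul_mul (k : K) (x : Oct K) : (k • one) * x = k • x := by
  rw [smul_mul_assoc, one_mul']

theorem mul_one_smul (k : K) (x : Oct K) : x * (k • one) = k • x := by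
  rw [mul_smul_comm, mul_one']

theorem T_tz {c z : Oct K} (h : tr z = 0) : T c z = tr c • z + tr (c * z) • one := by
  rw [T_eq, h, zero_smul, mul_zero, zero_sub, neg_smul]; abel

theorem tr_T (c z : Oct K) : tr (T c z) = 2 * tr (c * z) := by
  unfold T
  rw [tr_add, tr_comm z c]; ring

theorem tr_cm (a b : Oct K) : tr (cm a b) = 0 := by
  unfold cm
  rw [tr_sub, tr_comm a b, sub_self]

theorem tr_one_smul (k : K) (z : Oct K) (h : tr z = 0) (c : Oct K) :
    tr ((c + k • one) * z) = tr (c * z) := by
  rw [add_mul, one_smul_mul, tr_add, tr_smul, h, mul_zero, add_zero]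

theorem D3_tr {c d : Oct K} (hc : c ∈ A3 F p) (hd : d ∈ D3 F p) : tr c • d ∈ D3 F p := by
  have h1 := T_eq c d
  have hB := D3_Bim (F := F) p
  have h2 : tr c • d = T c d - (tr d • one) * c + (tr c * tr d) • one - tr (c * d) • one := by
    rw [h1, one_smul_mul, sub_smul]; abel
  rw [h2]
  have h3 : (tr d • one) * c ∈ D3 F p := hB.r hc (tr_D3 p hd)
  have h4 : (tr c * tr d) • one ∈ D3 F p := by
    have : tr ((tr d • one) * c) = tr c * tr d := by
      rw [one_smul_mul, tr_smul, mul_comm]
    rw [← this]
    exact tr_D3 p h3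
  exact sub_mem (add_mem (sub_mem (hB.t hc hd) h3) h4) (tr_D3 p (hB.l hc hd))

theorem D3_trs {l : List (Oct K)} (hl : ∀ c ∈ l, c ∈ A3 F p) {d : Oct K} (hd : d ∈ D3 F p) :
    (l.map tr).prod • d ∈ D3 F p := by
  induction l with
  | nil => simpa using hd
  | cons c l ih =>
    rw [List.map_cons, List.prod_cons, mul_smul]
    exact D3_tr (hl c (by simp)) (ih fun c hc => hl c (by simp [hc]))

/-- the core -/
def core (F : Type) [Field F] {K : Type} [Field K] [Algebra F K] (p : Fin 10 → K)
    (I : Submodule F (Oct K)) : Submodule F (Oct K) where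
  carrier := {v | ∀ l : List (Oct K), (∀ c ∈ l, c ∈ A3 F p) → (l.map tr).prod • v ∈ I}
  zero_mem' := fun l _ => by rw [smul_zero]; exact zero_mem _
  add_mem' := fun {a b} ha hb l hl => by
    rw [smul_add]; exact add_mem (ha l hl) (hb l hl)
  smul_mem' := fun c x hx l hl => by
    rw [smul_comm]; exact Submodule.smul_mem _ _ (hx l hl)

variable {I : Submodule F (Oct K)}

theorem core_le : core F p I ≤ I := by
  intro v hv
  have := hv [] (by simp)
  simpa using this

theorem core_tr {c v : Oct K} (hc : c ∈ A3 F p) (hv : v ∈ core F p I) :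
    tr c • v ∈ core F p I := by
  intro l hl
  have := hv (c :: l) (by
    intro d hd
    rcases List.mem_cons.mp hd with rfl | hd
    · exact hc
    · exact hl d hd)
  rw [List.map_cons, List.prod_cons, mul_comm, mul_smul] at this
  exact this

theorem core_Bim (hI : Bim p I) : Bim p (core F p I) := by
  intro a x hx
  constructor
  · intro l hl
    rw [← mul_smul_comm]; exact (hI a _ (hx l hl)).1
  · intro l hl
    rw [← smul_mul_assoc]; exact (hI a _ (hx l hl)).2

/-- criterion for membership in the core -/
theorem mem_core_of (h2 : (2 : F) ≠ 0) (hI : Bim p I) {z : Oct K} (h0 : tr z = 0) (hz : z ∈ I)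
    (h1 : ∀ c ∈ A3 F p, tr c • z ∈ I) : z ∈ core F p I := by
  have key : ∀ (n : ℕ) (l : List (Oct K)), l.length = n → (∀ c ∈ l, c ∈ A3 F p) →
      (l.map tr).prod • z ∈ I := by
    intro n
    induction n using Nat.strong_induction_on with
    | _ n ih =>
      intro l hn hl
      match l, hn, hl with
      | [], _, _ => simpa using hz
      | [c], _, hl => simpa using h1 c (hl c (by simp))
      | c :: e :: l, hn, hl =>
        have hc : c ∈ A3 F p := hl c (by simp)
        have he : e ∈ A3 F p := hl e (by simp)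
        have hl' : ∀ c ∈ l, c ∈ A3 F p := fun x hx => hl x (by simp [hx])
        have i0 := ih l.length (by rw [← hn]; simp) l rfl hl'
        have ie := ih (e :: l).length (by rw [← hn]; simp) (e :: l) rfl (by
          intro x hx
          rcases List.mem_cons.mp hx with rfl | hx
          · exact he
          · exact hl' x hx)
        have ic := ih (c :: l).length (by rw [← hn]; simp) (c :: l) rfl (by
          intro x hx
          rcases List.mem_cons.mp hx with rfl | hx
          · exact hc
          · exact hl' x hx)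
        have it := ih (T e c :: l).length (by rw [← hn]; simp) (T e c :: l) rfl (by
          intro x hx
          rcases List.mem_cons.mp hx with rfl | hx
          · exact A3_T he hc
          · exact hl' x hx)
        rw [List.map_cons, List.prod_cons] at ie ic it
        rw [List.map_cons, List.prod_cons, List.map_cons, List.prod_cons]
        generalize (l.map tr).prod = τ at *
        have ha := hI.t hc ie
        have hb := hI.t he ic
        have hd := hI.t (A3_T he hc) i0
        have z0 : ∀ k : K, tr (k • z) = 0 := by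
          intro k; rw [tr_smul, h0, mul_zero]
        rw [T_tz (z0 _)] at ha hb hd
        have e3 : tr (T e c * z) = tr e * tr (c * z) + tr c * tr (e * z) := by
          rw [T_eq, sub_eq_add_neg, ← neg_smul, tr_one_smul _ _ h0, add_mul, tr_add,
            smul_mul_assoc, smul_mul_assoc, tr_smul, tr_smul]
        have e4 : (2 : F) • (tr c * (tr e * τ)) • z =
            (tr c • (tr e * τ) • z + tr (c * (tr e * τ) • z) • one) +
            (tr e • (tr c * τ) • z + tr (e * (tr c * τ) • z) • one) -
            ((tr (T e c) • τ • z + tr (T e c * τ • z) • one) - (tr (T e c) * τ) • z) := by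
          rw [mul_smul_comm, mul_smul_comm, mul_smul_comm, tr_smul, tr_smul, tr_smul, e3,
            two_smul, smul_smul, smul_smul, smul_smul]
          have e5 : tr e * (tr c * τ) = tr c * (tr e * τ) := by ring
          have e6 : (τ * (tr e * tr (c * z) + tr c * tr (e * z))) • (one : Oct K) =
              (tr e * τ * tr (c * z)) • one + (tr c * τ * tr (e * z)) • one := by
            rw [← add_smul]; congr 1; ring
          rw [e5, e6]; abel
        have e7 : (2 : F) • (tr c * (tr e * τ)) • z ∈ I := by
          rw [e4]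
          exact sub_mem (add_mem ha hb) (sub_mem hd it)
        have e8 := Submodule.smul_mem I (2⁻¹ : F) e7
        rwa [smul_smul, inv_mul_cancel₀ h2, one_smul] at e8
  intro l hl
  exact key l.length l rfl hl

theorem two_mem {N : Submodule F (Oct K)} (h2 : (2 : F) ≠ 0) {x : Oct K} (h : 2 • x ∈ N) :
    x ∈ N := by
  have e : (2 : F) • x = 2 • x := by rw [two_smul, two_nsmul]
  rw [← e] at h
  have e8 := Submodule.smul_mem N (2⁻¹ : F) h
  rwa [smul_smul, inv_mul_cancel₀ h2, one_smul] at e8

end

end Pool.Agent.Helper120_Alt.R3
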