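import Pool.Agent.Helper120_Alt.R3.Cor3

set_option autoImplicit false

/-! Commutativity of the multiplications modulo the core. -/

namespace Pool.Agent.Helper120_Alt.R3

open Pool.Agent.Helper895.Alt

noncomputable section

variable {F : Type} [Field F] {K : Type} [Field K] [Algebra F K] {p : Fin 10 → K}
  {I : Submodule F (Oct K)}

theorem cm_smul (k : K) (a b : Oct K) : cm a (k • b) = k • cm a b := by
  unfold cm; rw [mul_smul_comm, smul_mul_assoc, smul_sub]

theorem cm_one (k : K) (a : Oct K) : cm a (k • one) = 0 := by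
  unfold cm; rw [mul_one_smul, one_smul_mul, sub_self]

theorem asc_smulK (k : K) (a b c : Oct K) : asc (k • a) b c = k • asc a b c := by
  unfold asc; rw [smul_mul_assoc, smul_mul_assoc, smul_mul_assoc, smul_sub]

theorem asc_one (k : K) (b c : Oct K) : asc (k • one) b c = 0 := by
  unfold asc; rw [one_smul_mul, smul_mul_assoc, one_smul_mul, sub_self]

theorem tz_smul {c z : Oct K} (h : tr z = 0) : tr c • z = T c z - tr (c * z) • one := by
  rw [T_tz h]; abel

theorem DI_core (hI : Bim p I) {d m : Oct K} (hd : d ∈ D3 F p) (hm : m ∈ I) :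
    d * m ∈ core F p I ∧ m * d ∈ core F p I := by
  constructor
  · intro l hl
    rw [← smul_mul_assoc]; exact hI.l (D3_le_A3 (D3_trs hl hd)) hm
  · intro l hl
    rw [← mul_smul_comm]; exact hI.r (D3_le_A3 (D3_trs hl hd)) hm

section tz

variable (h2 : (2 : F) ≠ 0) (hI : Bim p I)
include h2 hI

theorem tz_cm {a δ : Oct K} (ha : a ∈ A3 F p) (hδ : δ ∈ I) (h0 : tr δ = 0) :
    cm a δ ∈ core F p I := by
  apply mem_core_of h2 hI (tr_cm _ _) (hI.c ha hδ)
  intro c hc
  rw [← cm_smul, tz_smul h0, cm_sub, cm_one, sub_zero]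
  exact hI.c ha (hI.t hc hδ)

theorem tz_asc {a b δ : Oct K} (ha : a ∈ A3 F p) (hb : b ∈ A3 F p) (hδ : δ ∈ I)
    (h0 : tr δ = 0) : asc δ a b ∈ core F p I := by
  apply mem_core_of h2 hI (tr_asc _ _ _) (hI.a ha hb hδ)
  intro c hc
  rw [← asc_smulK, tz_smul h0, asc_sub1, asc_one, sub_zero]
  exact hI.a ha hb (hI.t hc hδ)

theorem tz_s {a b δ : Oct K} (ha : a ∈ A3 F p) (hb : b ∈ A3 F p) (hδ : δ ∈ I)
    (h0 : tr δ = 0) : cm a b * δ ∈ core F p I := by
  have hC := core_Bim hI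
  have h3 : tr (a * cm b δ) • one ∈ core F p I := by
    have h4 := tz_cm h2 hI hb hδ h0
    have h5 := hC.t ha h4
    rw [T_tz (tr_cm b δ)] at h5
    have := sub_mem h5 (core_tr ha h4)
    rwa [add_sub_cancel_left] at this
  have h4 : tr (cm a b * δ) = tr (a * cm b δ) := by
    unfold cm
    rw [sub_mul, mul_sub, tr_sub, tr_sub, tr_assoc, tr_assoc, tr_comm b (a * δ), tr_assoc]
  apply two_mem h2
  have e : 2 • (cm a b * δ) = T (cm a b) δ + cm (cm a b) δ := by
    unfold T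
    have : cm (cm a b) δ = cm a b * δ - δ * cm a b := rfl
    rw [this]; abel
  rw [e, T_tz h0, tr_cm, zero_smul, zero_add, h4]
  exact add_mem h3 (tz_cm h2 hI (A3_cm ha hb) hδ h0)

end tz

/-- the part of a bimodule on which the multiplications commute, modulo the core -/
def Zc (F : Type) [Field F] {K : Type} [Field K] [Algebra F K] (p : Fin 10 → K)
    (I : Submodule F (Oct K)) : Submodule F (Oct K) where
  carrier := {m | m ∈ I ∧ ∀ a ∈ A3 F p, ∀ b ∈ A3 F p, asc m a b ∈ core F p I ∧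
    cm a m ∈ core F p I ∧ cm a b * m ∈ core F p I}
  zero_mem' := by
    refine ⟨zero_mem _, fun a _ b _ => ?_⟩
    have e1 : asc (0 : Oct K) a b = 0 := by unfold asc; simp
    have e2 : cm a (0 : Oct K) = 0 := by unfold cm; simp
    rw [e1, e2, mul_zero]
    exact ⟨zero_mem _, zero_mem _, zero_mem _⟩
  add_mem' := by
    rintro x y ⟨hx, hx'⟩ ⟨hy, hy'⟩
    refine ⟨add_mem hx hy, fun a ha b hb => ?_⟩
    have h1 := hx' a ha b hb
    have h3 := hy' a ha b hb
    rw [asc_add1, cm_add, mul_add]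
    exact ⟨add_mem h1.1 h3.1, add_mem h1.2.1 h3.2.1, add_mem h1.2.2 h3.2.2⟩
  smul_mem' := by
    rintro c x ⟨hx, hx'⟩
    refine ⟨Submodule.smul_mem _ _ hx, fun a ha b hb => ?_⟩
    have h1 := hx' a ha b hb
    have e1 : asc (c • x) a b = c • asc x a b := by
      unfold asc; rw [smul_mul_assoc, smul_mul_assoc, smul_mul_assoc, smul_sub]
    have e2 : cm a (c • x) = c • cm a x := by
      unfold cm; rw [mul_smul_comm, smul_mul_assoc, smul_sub]
    rw [e1, e2, mul_smul_comm]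
    exact ⟨Submodule.smul_mem _ _ h1.1, Submodule.smul_mem _ _ h1.2.1,
      Submodule.smul_mem _ _ h1.2.2⟩

theorem Zc_le : Zc F p I ≤ I := fun _ hx => hx.1

theorem core_le_Zc (hI : Bim p I) : core F p I ≤ Zc F p I := by
  intro m hm
  have hC := core_Bim hI
  exact ⟨core_le hm, fun a ha b hb => ⟨hC.a ha hb hm, hC.c ha hm, hC.l (A3_cm ha hb) hm⟩⟩

theorem tz_Zc (h2 : (2 : F) ≠ 0) (hI : Bim p I) {δ : Oct K} (hδ : δ ∈ I) (h0 : tr δ = 0) :
    δ ∈ Zc F p I :=
  ⟨hδ, fun _ ha _ hb => ⟨tz_asc h2 hI ha hb hδ h0, tz_cm h2 hI ha hδ h0,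
    tz_s h2 hI ha hb hδ h0⟩⟩

theorem Zc_l (hI : Bim p I) {z m : Oct K} (hz : z ∈ A3 F p) (hm : m ∈ Zc F p I) :
    z * m ∈ Zc F p I := by
  obtain ⟨hm1, hm2⟩ := hm
  have hC := core_Bim hI
  have hA : ∀ {a b : Oct K}, a ∈ A3 F p → b ∈ A3 F p → asc m a b ∈ core F p I :=
    fun ha hb => (hm2 _ ha _ hb).1
  have hs : ∀ {a b : Oct K}, a ∈ A3 F p → b ∈ A3 F p → cm a b * m ∈ core F p I :=
    fun ha hb => (hm2 _ ha _ hb).2.2
  refine ⟨hI.l hz hm1, fun a ha b hb => ⟨?_, ?_, ?_⟩⟩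
  · rw [asc_mul]
    refine add_mem (add_mem ?_ (DI_core hI (asc_A3 hz ha hb) hm1).2) (hC.r hz (hA ha hb))
    rw [← fK_shift2 z m a b]
    unfold fK
    rw [asc_swap13 m z (a * b), asc_swap13 m z a, asc_swap13 m z b]
    simp only [mul_neg, neg_mul]
    exact sub_mem (sub_mem (neg_mem (hA hz (A3_mul ha hb))) (neg_mem (hC.l hb (hA hz ha))))
      (neg_mem (hC.r ha (hA hz hb)))
  · have e : cm a (z * m) = cm a z * m + z * cm a m - asc a z m + asc z a m - asc z m a := by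
      unfold cm asc; simp only [mul_sub, sub_mul]; abel
    rw [e]
    have e1 : asc a z m = asc m a z := by rw [asc_cyc m a z]
    have e2 : asc z a m = asc m z a := by rw [asc_cyc m z a]
    have e3 : asc z m a = -asc m z a := asc_swap12 _ _ _
    rw [e1, e2, e3]
    exact sub_mem (add_mem (sub_mem (add_mem (hs ha hz) (hC.l hz (hm2 a ha a ha).2.1))
      (hA ha hz)) (hA hz ha)) (neg_mem (hA hz ha))
  · have hab := A3_cm ha hb
    have e : cm a b * (z * m) = z * (cm a b * m) + asc z (cm a b) m + cm (cm a b) z * m -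
        asc (cm a b) z m := by
      generalize cm a b = s
      unfold cm asc; simp only [sub_mul]; abel
    rw [e]
    have e1 : asc z (cm a b) m = asc m z (cm a b) := by rw [asc_cyc m z (cm a b)]
    have e2 : asc (cm a b) z m = asc m (cm a b) z := by rw [asc_cyc m (cm a b) z]
    rw [e1, e2]
    exact sub_mem (add_mem (add_mem (hC.l hz (hs ha hb)) (hA hz hab)) (hs hab hz)) (hA hab hz)

theorem Zc_r (hI : Bim p I) {z m : Oct K} (hz : z ∈ A3 F p) (hm : m ∈ Zc F p I) :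
    m * z ∈ Zc F p I := by
  have e : m * z = z * m - cm z m := by unfold cm; abel
  rw [e]
  exact sub_mem (Zc_l hI hz hm) (core_le_Zc hI (hm.2 z hz z hz).2.1)

section I

variable (h2 : (2 : F) ≠ 0) (hI : Bim p I)
include h2 hI

theorem I_cm {a m : Oct K} (ha : a ∈ A3 F p) (hm : m ∈ I) : cm a m ∈ Zc F p I :=
  tz_Zc h2 hI (hI.c ha hm) (tr_cm _ _)

theorem I_asc {a b m : Oct K} (ha : a ∈ A3 F p) (hb : b ∈ A3 F p) (hm : m ∈ I) :
    asc m a b ∈ Zc F p I :=
  tz_Zc h2 hI (hI.a ha hb hm) (tr_asc _ _ _)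

theorem I_s {a b m : Oct K} (ha : a ∈ A3 F p) (hb : b ∈ A3 F p) (hm : m ∈ I) :
    cm a b * m ∈ Zc F p I := by
  apply two_mem h2
  rw [id1]
  have e1 : asc a b m = asc m a b := by rw [asc_cyc m a b]
  rw [e1]
  refine add_mem (sub_mem (sub_mem (add_mem ?_ ?_) ?_) ?_) ?_
  · exact nsmul_mem (I_asc h2 hI ha hb hm) 6
  · exact I_cm h2 hI ha (hI.l hb hm)
  · exact I_cm h2 hI hb (hI.l ha hm)
  · exact Zc_l hI hb (I_cm h2 hI ha hm)
  · exact Zc_l hI ha (I_cm h2 hI hb hm)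

theorem k1 {a m x y : Oct K} (ha : a ∈ A3 F p) (hm : m ∈ I) (hx : x ∈ A3 F p)
    (hy : y ∈ A3 F p) : fK a m x y ∈ core F p I := by
  apply two_mem h2
  rw [fK_cm]
  refine sub_mem (add_mem ?_ ?_) ?_
  · exact ((I_cm h2 hI ha hm).2 x hx y hy).1
  · exact ((I_asc h2 hI hx hy hm).2 a ha a ha).2.1
  · rw [cm_neg]
    have h3 := DI_core hI (asc_A3 ha hx hy) hm
    exact neg_mem (sub_mem h3.1 h3.2)

theorem k2 {a m x y : Oct K} (ha : a ∈ A3 F p) (hm : m ∈ I) (hx : x ∈ A3 F p)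
    (hy : y ∈ A3 F p) : asc (a * m) x y - a * asc m x y ∈ core F p I := by
  have e : asc (a * m) x y - a * asc m x y = fK a m x y + m * asc a x y - cm a (asc m x y) := by
    rw [asc_mul]; unfold cm; abel
  rw [e]
  exact sub_mem (add_mem (k1 h2 hI ha hm hx hy) (DI_core hI (asc_A3 ha hx hy) hm).2)
    ((I_asc h2 hI hx hy hm).2 a ha a ha).2.1

theorem k3 {b m x y : Oct K} (hb : b ∈ A3 F p) (hm : m ∈ I) (hx : x ∈ A3 F p)
    (hy : y ∈ A3 F p) : asc m (cm x y) b ∈ core F p I := by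
  have h := fK_cm x y b m
  have e : asc m (cm x y) b = 2 • fK x y b m - cm x (asc y b m) + cm y (asc x b m) := by
    rw [h, asc_cyc m (cm x y) b]; abel
  rw [e]
  have h3 : fK x y b m ∈ core F p I := by
    rw [← fK_shift2 x y b m]
    exact k1 h2 hI hb hm hx hy
  refine add_mem (sub_mem (nsmul_mem h3 2) ?_) ?_
  · rw [asc_cyc m y b]; exact ((I_asc h2 hI hy hb hm).2 x hx x hx).2.1
  · rw [asc_cyc m x b]; exact ((I_asc h2 hI hx hb hm).2 y hy y hy).2.1

theorem k4 {n x y : Oct K} (hn : n ∈ I) (hx : x ∈ A3 F p)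
    (hy : y ∈ A3 F p) : cm (cm x y) n - 6 • asc x y n ∈ core F p I := by
  rw [← jac x y n]
  have e : cm (cm x y) n - (cm (cm x y) n + cm (cm y n) x + cm (cm n x) y) =
      cm x (cm y n) - cm y (cm x n) := by
    rw [cm_neg x (cm y n), cm_neg n x]
    unfold cm; simp only [mul_sub, sub_mul, mul_neg, neg_mul]; abel
  rw [e]
  exact sub_mem ((I_cm h2 hI hy hn).2 x hx x hx).2.1 ((I_cm h2 hI hx hn).2 y hy y hy).2.1

theorem k5 {b m x y : Oct K} (hb : b ∈ A3 F p) (hm : m ∈ I) (hx : x ∈ A3 F p)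
    (hy : y ∈ A3 F p) : cm (cm x y) b * m ∈ core F p I := by
  have hC := core_Bim hI
  have hs := A3_cm hx hy
  apply two_mem h2
  have e : 2 • (cm (cm x y) b * m) = 6 • asc m (cm x y) b
      + (cm (cm x y) (b * m) - 6 • asc x y (b * m))
      + 6 • (asc (b * m) x y - b * asc m x y)
      - b * (cm (cm x y) m - 6 • asc x y m)
      - cm b (cm x y * m) + cm x y * cm b m := by
    rw [id1 (cm x y) b m, asc_cyc m (cm x y) b, asc_cyc (b * m) x y, asc_cyc m x y]
    generalize cm x y = s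
    simp only [mul_sub, smul_sub, mul_smul_comm]
    abel
  rw [e]
  refine add_mem (sub_mem (sub_mem (add_mem (add_mem ?_ ?_) ?_) ?_) ?_) ?_
  · exact nsmul_mem (k3 h2 hI hb hm hx hy) 6
  · exact k4 h2 hI (hI.l hb hm) hx hy
  · exact nsmul_mem (k2 h2 hI hb hm hx hy) 6
  · exact hC.l hb (k4 h2 hI hm hx hy)
  · exact ((I_s h2 hI hx hy hm).2 b hb b hb).2.1
  · exact ((I_cm h2 hI hb hm).2 x hx y hy).2.2

theorem k6 {b m x y : Oct K} (hb : b ∈ A3 F p) (hm : m ∈ I) (hx : x ∈ A3 F p)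
    (hy : y ∈ A3 F p) : cm x y * (b * m) - b * (cm x y * m) ∈ core F p I := by
  have e : cm x y * (b * m) - b * (cm x y * m) = cm (cm x y) b * m - 2 • asc m (cm x y) b := by
    have e1 : asc b (cm x y) m = -asc m (cm x y) b := asc_swap13 _ _ _
    have e2 : asc (cm x y) b m = asc m (cm x y) b := by rw [asc_cyc m (cm x y) b]
    have e3 : cm x y * (b * m) - b * (cm x y * m) = cm (cm x y) b * m - asc (cm x y) b m
        + asc b (cm x y) m := by
      generalize cm x y = s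
      unfold cm asc; simp only [sub_mul]; abel
    rw [e3, e1, e2]; abel
  rw [e]
  exact sub_mem (k5 h2 hI hb hm hx hy) (nsmul_mem (k3 h2 hI hb hm hx hy) 2)

end I

end

end Pool.Agent.Helper120_Alt.R3
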