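import Pool.Agent.Helper120_Alt.R3.Lin3
import Pool.Agent.Helper120_Alt.Comp1

set_option autoImplicit false

/-! Deciding membership from a computable spanning family and a computable basis. -/

namespace Pool.Agent.Helper120_Alt.R3

section fold

variable {α β σ : Type} [Primcodable α] [Primcodable β] [Primcodable σ]

theorem comp_foldl {f : α → List β} {g : α → σ} {h : α → σ × β → σ} (hf : Computable f)
    (hg : Computable g) (hh : Computable₂ h) :
    Computable fun a => (f a).foldl (fun s b => h a (s, b)) (g a) := by
  let step : α → σ × List β → σ × List β := fun a x =>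
    Option.casesOn x.2.head? x fun b => (h a (x.1, b), x.2.tail)
  have hstep : Computable₂ step := by
    have h1 : Computable (fun x : α × (σ × List β) => x.2.2.head?) :=
      (Primrec.list_head?.comp (Primrec.snd.comp Primrec.snd)).to_comp
    have h2 : Computable (fun x : α × (σ × List β) => x.2) := Computable.snd
    have h3 : Computable₂ (fun (x : α × (σ × List β)) (b : β) =>
        (h x.1 (x.2.1, b), x.2.2.tail)) := by
      apply Computable.pair
      · exact hh.comp (Computable.fst.comp Computable.fst)
          (Computable.pair (Computable.fst.comp (Computable.snd.comp Computable.fst))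
            Computable.snd)
      · exact (Primrec.list_tail.comp (Primrec.snd.comp (Primrec.snd.comp Primrec.fst))).to_comp
    exact Computable.option_casesOn h1 h2 h3
  have key : ∀ a (l : List β) (s : σ),
      (Nat.rec (motive := fun _ => σ × List β) (s, l) (fun _ x => step a x) l.length) =
        (l.foldl (fun s b => h a (s, b)) s, []) := by
    intro a l
    have hsucc : ∀ (n : ℕ) (x : σ × List β),
        (Nat.rec (motive := fun _ => σ × List β) x (fun _ x => step a x) (n + 1)) =
        (Nat.rec (motive := fun _ => σ × List β) (step a x) (fun _ x => step a x) n) := by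
      intro n
      induction n with
      | zero => intro x; rfl
      | succ n ih =>
        intro x
        show step a (Nat.rec (motive := fun _ => σ × List β) x (fun _ x => step a x) (n + 1)) = _
        rw [ih]
    induction l with
    | nil => intro s; rfl
    | cons b l ih =>
      intro s
      rw [List.length_cons, hsucc]
      exact ih (h a (s, b))
  have h1 : Computable fun a => (Nat.rec (motive := fun _ => σ × List β) (g a, f a)
      (fun _ x => step a x) (f a).length) := by
    refine Computable.nat_rec (f := fun a => (f a).length) (g := fun a => (g a, f a))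
      (h := fun a x => step a x.2) ?_ ?_ ?_
    · exact Computable.list_length.comp hf
    · exact hg.pair hf
    · exact hstep.comp Computable.fst (Computable.snd.comp Computable.snd)
  refine (Computable.fst.comp h1).of_eq ?_
  intro a
  rw [key]

/-- checking all elements of a list -/
theorem comp_all {f : α → List β} {t : α → β → Bool} (hf : Computable f) (ht : Computable₂ t) :
    Computable fun a => (f a).all (t a) := by
  have h1 := comp_foldl (f := f) (g := fun _ => true) (h := fun a x => x.1 && t a x.2) hf
    (Computable.const true) (by
      have : Computable (fun x : α × (Bool × β) => x.2.1 && t x.1 x.2.2) :=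
        (Primrec.and.to_comp).comp (Computable.fst.comp Computable.snd)
          (ht.comp Computable.fst (Computable.snd.comp Computable.snd))
      exact this)
  refine h1.of_eq fun a => ?_
  have : ∀ (l : List β) (b : Bool), l.foldl (fun s x => s && t a x) b = (b && l.all (t a)) := by
    intro l
    induction l with
    | nil => intro b; simp
    | cons x l ih => intro b; rw [List.foldl_cons, ih, List.all_cons, Bool.and_assoc]
  rw [this]; simp

end fold

noncomputable section

section dec

variable {F M : Type} [Field F]

/-- words in Polish notation -/
abbrev Pw : Type := List (Option (Fin 3))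

/-- raw polynomials -/
abbrev Raw (F : Type) : Type := List (F × Pw)

variable (parse : Pw → M) (rep : Pw → Pw)

/-- value of a raw polynomial -/
def Val (L : Raw F) : MonoidAlgebra F M := val (L.map fun x => (x.1, parse x.2))

theorem val_nil : val ([] : List (F × M)) = 0 := rfl

theorem val_cons (x : F × M) (L : List (F × M)) :
    val (x :: L) = MonoidAlgebra.single x.2 x.1 + val L := by
  simp [val]

theorem Val_nil : Val parse ([] : Raw F) = 0 := rfl

theorem Val_cons (x : F × Pw) (L : Raw F) :
    Val parse (x :: L) = MonoidAlgebra.single (parse x.2) x.1 + Val parse L := by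
  unfold Val
  rw [List.map_cons, val_cons]

theorem Val_append (L L' : Raw F) : Val parse (L ++ L') = Val parse L + Val parse L' := by
  induction L with
  | nil => rw [List.nil_append, Val_nil, zero_add]
  | cons x L ih => rw [List.cons_append, Val_cons, Val_cons, ih, add_assoc]

open Classical in
/-- coefficient of a word -/
def co (m : Pw) (L : Raw F) : F :=
  L.foldl (fun s x => if rep x.2 = rep m then s + x.1 else s) 0

variable {parse rep}

theorem co_eq (hr : ∀ a b, parse a = parse b ↔ rep a = rep b) (m : Pw) (L : Raw F) :
    co rep m L = (Val parse L).coeff (parse m) := by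
  classical
  have : ∀ (L : Raw F) (s : F), L.foldl (fun s x => if rep x.2 = rep m then s + x.1 else s) s =
      s + (Val parse L).coeff (parse m) := by
    intro L
    induction L with
    | nil => intro s; simp [Val_nil]
    | cons x L ih =>
      intro s
      rw [List.foldl_cons, ih, Val_cons]
      by_cases h : rep x.2 = rep m
      · rw [if_pos h, ← (hr _ _).mpr h]
        simp [add_assoc]
      · have h' : parse x.2 ≠ parse m := fun e => h ((hr _ _).mp e)
        rw [if_neg h]
        simp [Finsupp.single_apply, h']
  unfold co
  rw [← zero_add ((Val parse L).coeff (parse m)), ← this L 0]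

theorem coeff_mem {L : Raw F} {t : M} (h : (Val parse L).coeff t ≠ 0) :
    ∃ x ∈ L, parse x.2 = t := by
  classical
  induction L with
  | nil => simp [Val_nil] at h
  | cons x L ih =>
    rw [Val_cons] at h
    by_cases hx : parse x.2 = t
    · exact ⟨x, by simp, hx⟩
    · have : (Val parse L).coeff t ≠ 0 := by
        intro h0
        apply h
        simp [h0, Finsupp.single_apply, hx]
      obtain ⟨y, hy, e⟩ := ih this
      exact ⟨y, by simp [hy], e⟩

variable {κ : Type}

/-- value of a combination -/
def cval (parse : Pw → M) (H : κ → Raw F) (E : List (F × κ)) : MonoidAlgebra F M :=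
  (E.map fun x => x.1 • Val parse (H x.2)).sum

/-- coefficient of a combination -/
def cco (rep : Pw → Pw) (H : κ → Raw F) (m : Pw) (E : List (F × κ)) : F :=
  E.foldl (fun s x => s + x.1 * co rep m (H x.2)) 0

theorem cco_eq (hr : ∀ a b, parse a = parse b ↔ rep a = rep b) (H : κ → Raw F) (m : Pw)
    (E : List (F × κ)) : cco rep H m E = (cval parse H E).coeff (parse m) := by
  have : ∀ (E : List (F × κ)) (s : F), E.foldl (fun s x => s + x.1 * co rep m (H x.2)) s =
      s + (cval parse H E).coeff (parse m) := by
    intro E
    induction E with
    | nil => intro s; simp [cval]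
    | cons x E ih =>
      intro s
      rw [List.foldl_cons, ih, co_eq hr]
      simp [cval, add_assoc]
  unfold cco
  rw [this, zero_add]

open Classical in
/-- the equality test -/
def tst (rep : Pw → Pw) (H : κ → Raw F) (L : Raw F) (E : List (F × κ)) : Bool :=
  (L.all fun y => decide (co rep y.2 L = cco rep H y.2 E)) &&
    (E.all fun x => (H x.2).all fun y => decide (co rep y.2 L = cco rep H y.2 E))

theorem tst_iff (hr : ∀ a b, parse a = parse b ↔ rep a = rep b) (H : κ → Raw F) (L : Raw F)
    (E : List (F × κ)) : tst rep H L E = true ↔ Val parse L = cval parse H E := by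
  constructor
  · intro h
    unfold tst at h
    simp only [Bool.and_eq_true, List.all_eq_true, decide_eq_true_eq] at h
    obtain ⟨h1, h2⟩ := h
    apply MonoidAlgebra.coeff_injective
    ext t
    by_contra hne
    have key : ∀ y : Pw, parse y = t → co rep y L ≠ cco rep H y E := by
      intro y hy h0
      apply hne
      rw [← hy, ← co_eq hr, ← cco_eq hr]
      exact h0
    by_cases ht : (Val parse L).coeff t = 0
    · have h3 : (cval parse H E).coeff t ≠ 0 := by
        intro h4; exact hne (by rw [ht, h4])
      have h4 : ∃ x ∈ E, (Val parse (H x.2)).coeff t ≠ 0 := by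
        by_contra h5
        push Not at h5
        apply h3
        clear h1 h2 hne key h3 ht
        induction E with
        | nil => simp [cval]
        | cons x E ih =>
          have e1 := h5 x (by simp)
          have e2 := ih (fun y hy => h5 y (by simp [hy]))
          unfold cval at *
          simp [e1, e2]
      obtain ⟨x, hx, hx'⟩ := h4
      obtain ⟨y, hy, he⟩ := coeff_mem hx'
      exact key y.2 he (h2 x hx y hy)
    · obtain ⟨y, hy, he⟩ := coeff_mem ht
      exact key y.2 he (h1 y hy)
  · intro h
    unfold tst
    simp only [Bool.and_eq_true, List.all_eq_true, decide_eq_true_eq]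
    have : ∀ y, co rep y L = cco rep H y E := by
      intro y; rw [co_eq hr, cco_eq hr, h]
    exact ⟨fun y _ => this _, fun x _ y _ => this _⟩

variable [Primcodable F] [Primcodable κ]

theorem comp_eq {α β : Type} [Primcodable α] [Primcodable β] {f g : α → β} (hf : Computable f)
    (hg : Computable g) [∀ a, Decidable (f a = g a)] : Computable fun a => decide (f a = g a) := by
  classical
  have h1 : Computable fun a => (decide (f a = g a) : Bool) := by
    have := (Primrec.eq (α := β)).decide.to_comp.comp hf hg
    refine this.of_eq fun a => ?_
    simp
  refine h1.of_eq fun a => ?_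
  congr

theorem comp_co (hadd : Computable₂ (fun a b : F => a + b)) (hrep : Computable rep) :
    Computable₂ (co rep : Pw → Raw F → F) := by
  classical
  refine comp_foldl (α := Pw × Raw F) (f := fun x => x.2) (g := fun _ => (0 : F))
    (h := fun a x => if rep x.2.2 = rep a.1 then x.1 + x.2.1 else x.1) Computable.snd
    (Computable.const 0) ?_
  have h1 : Computable fun y : (Pw × Raw F) × (F × (F × Pw)) =>
      decide (rep y.2.2.2 = rep y.1.1) :=
    comp_eq (hrep.comp (Computable.snd.comp (Computable.snd.comp Computable.snd)))
      (hrep.comp (Computable.fst.comp Computable.fst))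
  have h2 := Computable.cond h1
    (hadd.comp (Computable.fst.comp Computable.snd)
      (Computable.fst.comp (Computable.snd.comp Computable.snd)))
    (Computable.fst.comp Computable.snd)
  refine Computable.of_eq h2 fun y => ?_
  by_cases h : rep y.2.2.2 = rep y.1.1
  · simp [h]
  · simp [h]

theorem comp_cco (hadd : Computable₂ (fun a b : F => a + b))
    (hmul : Computable₂ (fun a b : F => a * b)) (hrep : Computable rep) {H : κ → Raw F}
    (hH : Computable H) : Computable₂ (cco rep H : Pw → List (F × κ) → F) := by
  refine comp_foldl (α := Pw × List (F × κ)) (f := fun x => x.2) (g := fun _ => (0 : F))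
    (h := fun a x => x.1 + x.2.1 * co rep a.1 (H x.2.2)) Computable.snd
    (Computable.const 0) ?_
  have h3 : Computable fun y : (Pw × List (F × κ)) × (F × (F × κ)) =>
      co rep y.1.1 (H y.2.2.2) :=
    (comp_co hadd hrep).comp (Computable.fst.comp Computable.fst)
      (hH.comp (Computable.snd.comp (Computable.snd.comp Computable.snd)))
  exact hadd.comp (Computable.fst.comp Computable.snd)
    (hmul.comp (Computable.fst.comp (Computable.snd.comp Computable.snd)) h3)

theorem comp_tst (hadd : Computable₂ (fun a b : F => a + b))
    (hmul : Computable₂ (fun a b : F => a * b)) (hrep : Computable rep) {H : κ → Raw F}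
    (hH : Computable H) : Computable₂ (tst rep H : Raw F → List (F × κ) → Bool) := by
  classical
  have h0 : ∀ {α : Type} [Primcodable α] {f : α → Pw} {g : α → Raw F × List (F × κ)},
      Computable f → Computable g → Computable fun a =>
      decide (co rep (f a) (g a).1 = cco rep H (f a) (g a).2) := by
    intro α _ f g hf hg
    exact comp_eq ((comp_co hadd hrep).comp hf (Computable.fst.comp hg))
      ((comp_cco hadd hmul hrep hH).comp hf (Computable.snd.comp hg))
  have h1 : Computable fun a : Raw F × List (F × κ) =>
      (a.1.all fun y => decide (co rep y.2 a.1 = cco rep H y.2 a.2)) := by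
    apply comp_all Computable.fst
    exact h0 (Computable.snd.comp Computable.snd) Computable.fst
  have h2 : Computable fun a : Raw F × List (F × κ) =>
      (a.2.all fun x => (H x.2).all fun y => decide (co rep y.2 a.1 = cco rep H y.2 a.2)) := by
    apply comp_all Computable.snd
    apply comp_all (hH.comp (Computable.snd.comp Computable.snd))
    exact h0 (Computable.snd.comp Computable.snd) (Computable.fst.comp Computable.fst)
  refine (Primrec.and.to_comp.comp h1 h2).of_eq fun a => ?_
  unfold tst
  congr!

end dec

end

end Pool.Agent.Helper120_Alt.R3
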