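import Pool.Agent.Helper120_Alt.R3.Cpt3

set_option autoImplicit false

/-! The decision procedure. -/

namespace Pool.Agent.Helper120_Alt.R3

noncomputable section

variable {F M κ ι : Type} [Field F] {parse : Pw → M} {rep : Pw → Pw}

theorem cval_nil (H : κ → Raw F) : cval parse H [] = 0 := rfl

theorem cval_cons (H : κ → Raw F) (x : F × κ) (E : List (F × κ)) :
    cval parse H (x :: E) = x.1 • Val parse (H x.2) + cval parse H E := by
  simp [cval]

theorem cval_append (H : κ → Raw F) (E E' : List (F × κ)) :
    cval parse H (E ++ E') = cval parse H E + cval parse H E' := by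
  simp [cval]

theorem cval_smul (H : κ → Raw F) (a : F) (E : List (F × κ)) :
    cval parse H (E.map fun x => (a * x.1, x.2)) = a • cval parse H E := by
  induction E with
  | nil => simp [cval]
  | cons x E ih =>
    rw [List.map_cons, cval_cons, ih, cval_cons, smul_add, mul_smul]

theorem exists_cval (H : κ → Raw F) {z : MonoidAlgebra F M}
    (hz : z ∈ Submodule.span F (Set.range fun k => Val parse (H k))) :
    ∃ E : List (F × κ), cval parse H E = z := by
  induction hz using Submodule.span_induction with
  | mem x hx =>
    obtain ⟨k, rfl⟩ := hx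
    exact ⟨[(1, k)], by simp [cval]⟩
  | zero => exact ⟨[], rfl⟩
  | add x y _ _ hx hy =>
    obtain ⟨E, rfl⟩ := hx
    obtain ⟨E', rfl⟩ := hy
    exact ⟨E ++ E', cval_append _ _ _⟩
  | smul a x _ hx =>
    obtain ⟨E, rfl⟩ := hx
    exact ⟨E.map fun x => (a * x.1, x.2), cval_smul H a E⟩

open Classical in
/-- condition on the members of a certificate -/
def okk (ok : ι → Bool) (o : Option (F × ι)) (x : κ ⊕ ι) : Bool :=
  Sum.casesOn x (fun _ => true) fun i =>
    Option.casesOn o false fun y => ok i && !(decide (i = y.2))

open Classical in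
/-- condition on the distinguished member of a certificate -/
def oko (ok : ι → Bool) (o : Option (F × ι)) : Bool :=
  Option.casesOn o true fun y => ok y.2 && !(decide (y.1 = 0))

/-- the complete list of a certificate -/
def ful (E : List (F × (κ ⊕ ι))) (o : Option (F × ι)) : List (F × (κ ⊕ ι)) :=
  Option.casesOn o E fun y => (y.1, Sum.inr y.2) :: E

/-- the check of a certificate -/
def chk (rep : Pw → Pw) (HH : κ ⊕ ι → Raw F) (ok : ι → Bool) (L : Raw F)
    (c : List (F × (κ ⊕ ι)) × Option (F × ι)) : Bool :=
  (c.1.all fun x => okk ok c.2 x.2) && (oko ok c.2 && tst rep HH L (ful c.1 c.2))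

/-- the part of a combination in the basis elements -/
def fs (E : List (F × (κ ⊕ ι))) : ι →₀ F :=
  (E.map fun x => Sum.elim (fun _ => (0 : ι →₀ F)) (fun i => Finsupp.single i x.1) x.2).sum

theorem fs_spec {I : Submodule F (MonoidAlgebra F M)} {H : κ → Raw F} {v : ι → Raw F}
    (hH : ∀ k, Val parse (H k) ∈ I) (E : List (F × (κ ⊕ ι))) :
    cval parse (Sum.elim H v) E - ((fs E).sum fun i a => a • Val parse (v i)) ∈ I := by
  induction E with
  | nil => simp [fs, cval]
  | cons x E ih =>
    obtain ⟨c, k | i⟩ := x
    · have h1 : fs ((c, (Sum.inl k : κ ⊕ ι)) :: E) = fs E := by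
        simp [fs]
      rw [h1, cval_cons]
      have h2 : c • Val parse (Sum.elim H v (Sum.inl k)) + cval parse (Sum.elim H v) E -
          ((fs E).sum fun i a => a • Val parse (v i)) = c • Val parse (H k) +
          (cval parse (Sum.elim H v) E - ((fs E).sum fun i a => a • Val parse (v i))) := by
        simp only [Sum.elim_inl]; abel
      show c • Val parse (Sum.elim H v (Sum.inl k)) + cval parse (Sum.elim H v) E -
          ((fs E).sum fun i a => a • Val parse (v i)) ∈ I
      rw [h2]
      exact Submodule.add_mem _ (Submodule.smul_mem _ _ (hH k)) ih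
    · have h1 : fs ((c, (Sum.inr i : κ ⊕ ι)) :: E) = Finsupp.single i c + fs E := by
        simp [fs]
      rw [h1, cval_cons, Finsupp.sum_add_index' (by simp) (by intro a b b'; exact add_smul _ _ _),
        Finsupp.sum_single_index (by simp)]
      have h2 : c • Val parse (Sum.elim H v (Sum.inr i)) + cval parse (Sum.elim H v) E -
          (c • Val parse (v i) + (fs E).sum fun i a => a • Val parse (v i)) =
          (cval parse (Sum.elim H v) E - ((fs E).sum fun i a => a • Val parse (v i))) := by
        simp only [Sum.elim_inr]; abel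
      show c • Val parse (Sum.elim H v (Sum.inr i)) + cval parse (Sum.elim H v) E -
          (c • Val parse (v i) + (fs E).sum fun i a => a • Val parse (v i)) ∈ I
      rw [h2]
      exact ih

theorem fs_supp {E : List (F × (κ ⊕ ι))} {i : ι} (h : fs E i ≠ 0) :
    ∃ x ∈ E, x.2 = Sum.inr i := by
  classical
  induction E with
  | nil => simp [fs] at h
  | cons x E ih =>
    by_cases hx : x.2 = Sum.inr i
    · exact ⟨x, by simp, hx⟩
    · have h1 : fs E i ≠ 0 := by
        intro h0
        apply h
        have e : fs (x :: E) =
            Sum.elim (fun _ => (0 : ι →₀ F)) (fun i => Finsupp.single i x.1) x.2 + fs E := by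
          simp [fs]
        rw [e, Finsupp.add_apply, h0, add_zero]
        obtain ⟨c, k | j⟩ := x
        · rfl
        · have hji : j ≠ i := fun e => hx (by rw [e])
          simp [hji]
      obtain ⟨y, hy, e⟩ := ih h1
      exact ⟨y, by simp [hy], e⟩

theorem chk_sound (hr : ∀ a b, parse a = parse b ↔ rep a = rep b)
    {I : Submodule F (MonoidAlgebra F M)} {H : κ → Raw F} {v : ι → Raw F}
    (hH : ∀ k, Val parse (H k) ∈ I) {ok : ι → Bool}
    (hB : BS ⊤ I (fun i => Val parse (v i)) {i | ok i = true}) (L : Raw F)
    (c : List (F × (κ ⊕ ι)) × Option (F × ι)) (h : chk rep (Sum.elim H v) ok L c = true) :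
    c.2.isNone = true ↔ Val parse L ∈ I := by
  classical
  obtain ⟨E, o⟩ := c
  unfold chk at h
  simp only [Bool.and_eq_true, List.all_eq_true] at h
  obtain ⟨h1, h2, h3⟩ := h
  rw [tst_iff hr] at h3
  cases o with
  | none =>
    simp only [Option.isNone_none, true_iff]
    have h4 : fs E = 0 := by
      ext i
      by_contra h5
      obtain ⟨x, hx, e⟩ := fs_supp h5
      have := h1 x hx
      rw [e] at this
      simp [okk] at this
    have h5 := fs_spec (v := v) hH E
    rw [h4, Finsupp.sum_zero_index, sub_zero] at h5
    rw [h3]
    exact h5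
  | some y =>
    obtain ⟨c, j⟩ := y
    simp only [Option.isNone_some, Bool.false_eq_true, false_iff]
    intro hL
    have h4 := fs_spec (v := v) hH (ful E (some (c, j)))
    rw [← h3] at h4
    have h5 : ((fs (ful E (some (c, j)))).sum fun i a => a • Val parse (v i)) ∈ I := by
      have := Submodule.sub_mem _ hL h4
      rwa [sub_sub_cancel] at this
    have e1 : fs (ful E (some (c, j))) = Finsupp.single j c + fs E := by
      simp [fs, ful]
    simp only [oko, Bool.and_eq_true, Bool.not_eq_true', decide_eq_false_iff_not] at h2
    have h6 : ∀ i, fs E i ≠ 0 → ok i = true ∧ i ≠ j := by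
      intro i hi
      obtain ⟨x, hx, e⟩ := fs_supp hi
      have := h1 x hx
      rw [e] at this
      simpa [okk] using this
    have h7 := hB.li _ (by
      intro i hi
      rw [e1, Finsupp.add_apply] at hi
      by_cases h8 : fs E i = 0
      · rw [h8, add_zero, Finsupp.single_apply] at hi
        by_cases h9 : j = i
        · rw [← h9]; exact h2.1
        · rw [if_neg h9] at hi; exact absurd rfl hi
      · exact (h6 i h8).1) h5
    have h8 : fs (ful E (some (c, j))) j = 0 := by rw [h7]; rfl
    rw [e1, Finsupp.add_apply, Finsupp.single_eq_same] at h8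
    have h9 : fs E j = 0 := by
      by_contra h10
      exact (h6 j h10).2 rfl
    rw [h9, add_zero] at h8
    exact h2.2 h8

theorem chk_complete (hr : ∀ a b, parse a = parse b ↔ rep a = rep b)
    {I : Submodule F (MonoidAlgebra F M)} {H : κ → Raw F} {v : ι → Raw F}
    (hI : I ≤ Submodule.span F (Set.range fun k => Val parse (H k))) {ok : ι → Bool}
    (hB : BS ⊤ I (fun i => Val parse (v i)) {i | ok i = true}) (L : Raw F) :
    ∃ c, chk rep (Sum.elim H v) ok L c = true := by
  classical
  obtain ⟨y, hy, z, hz, e⟩ := Submodule.mem_sup.mp (hB.sp (Submodule.mem_top (x := Val parse L)))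
  obtain ⟨l, hl, rfl⟩ := (Finsupp.mem_span_image_iff_linearCombination F).mp hy
  obtain ⟨E, hE⟩ := exists_cval H (hI hz)
  have hE' : cval parse (Sum.elim H v) (E.map fun x => (x.1, (Sum.inl x.2 : κ ⊕ ι))) = z := by
    rw [← hE]
    simp [cval, Function.comp_def]
  by_cases hl0 : l = 0
  · refine ⟨(E.map fun x => (x.1, Sum.inl x.2), none), ?_⟩
    unfold chk
    simp only [Bool.and_eq_true, List.all_eq_true]
    refine ⟨?_, rfl, ?_⟩
    · intro x hx
      obtain ⟨y, _, rfl⟩ := List.mem_map.mp hx
      rfl
    · rw [tst_iff hr]
      show Val parse L = cval parse (Sum.elim H v) (E.map fun x => (x.1, Sum.inl x.2))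
      rw [hE', ← e, hl0, map_zero, zero_add]
  · obtain ⟨j, hj⟩ := Finsupp.ne_iff.mp hl0
    rw [Finsupp.zero_apply] at hj
    refine ⟨(((l.support.erase j).toList.map fun i => (l i, Sum.inr i)) ++
      (E.map fun x => (x.1, Sum.inl x.2)), some (l j, j)), ?_⟩
    unfold chk
    simp only [Bool.and_eq_true, List.all_eq_true]
    have hs : ∀ i ∈ l.support, ok i = true := fun i hi => hl hi
    refine ⟨?_, ?_, ?_⟩
    · intro x hx
      rw [List.mem_append] at hx
      rcases hx with hx | hx
      · obtain ⟨i, hi, rfl⟩ := List.mem_map.mp hx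
        rw [Finset.mem_toList, Finset.mem_erase] at hi
        simp [okk, hi.1, hs i hi.2]
      · obtain ⟨y, _, rfl⟩ := List.mem_map.mp hx
        rfl
    · simp [oko, hj, hs j (Finsupp.mem_support_iff.mpr hj)]
    · rw [tst_iff hr]
      show Val parse L = cval parse (Sum.elim H v) ((l j, Sum.inr j) ::
        (((l.support.erase j).toList.map fun i => (l i, Sum.inr i)) ++
        (E.map fun x => (x.1, Sum.inl x.2))))
      rw [cval_cons, cval_append, hE', ← e]
      have h1 : cval parse (Sum.elim H v) ((l.support.erase j).toList.map
          fun i => (l i, (Sum.inr i : κ ⊕ ι))) =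
          ∑ i ∈ l.support.erase j, l i • Val parse (v i) := by
        rw [← Finset.sum_map_toList]
        simp [cval, Function.comp_def]
      rw [h1, ← add_assoc]
      congr 1
      rw [Finsupp.linearCombination_apply, Finsupp.sum,
        ← Finset.add_sum_erase _ _ (Finsupp.mem_support_iff.mpr hj)]
      rfl

variable [Primcodable F] [Primcodable κ] [Primcodable ι]

theorem comp_chk (hadd : Computable₂ (fun a b : F => a + b))
    (hmul : Computable₂ (fun a b : F => a * b)) (hrep : Computable rep)
    {HH : κ ⊕ ι → Raw F} (hH : Computable HH) {ok : ι → Bool} (hok : Computable ok) :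
    Computable₂ (chk rep HH ok) := by
  classical
  have h1 : Computable₂ (fun (o : Option (F × ι)) (x : κ ⊕ ι) => okk ok o x) := by
    have e0 : Computable₂ (fun (z : Option (F × ι) × (κ ⊕ ι)) (i : ι) =>
        (Option.casesOn z.1 false fun y => ok i && !(decide (i = y.2)) : Bool)) := by
      have e1 : Computable (fun (w : (Option (F × ι) × (κ ⊕ ι)) × ι) => w.1.1) :=
        Computable.fst.comp Computable.fst
      have e2 : Computable₂ (fun (w : (Option (F × ι) × (κ ⊕ ι)) × ι) (y : F × ι) =>
          ok w.2 && !(decide (w.2 = y.2))) := by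
        have e3 : Computable (fun (w : ((Option (F × ι) × (κ ⊕ ι)) × ι) × (F × ι)) =>
            ok w.1.2) := hok.comp (Computable.snd.comp Computable.fst)
        have e4 : Computable (fun (w : ((Option (F × ι) × (κ ⊕ ι)) × ι) × (F × ι)) =>
            decide (w.1.2 = w.2.2)) :=
          comp_eq (Computable.snd.comp Computable.fst) (Computable.snd.comp Computable.snd)
        exact Primrec.and.to_comp.comp e3 (Primrec.not.to_comp.comp e4)
      exact Computable.option_casesOn e1 (Computable.const false) e2
    have e5 := Computable.sumCasesOn (f := fun z : Option (F × ι) × (κ ⊕ ι) => z.2)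
      (g := fun _ _ => true) Computable.snd (Computable.const true).to₂ e0
    exact e5
  have h2 : Computable (fun (o : Option (F × ι)) => oko ok o) := by
    have e2 : Computable₂ (fun (_ : Option (F × ι)) (y : F × ι) =>
        ok y.2 && !(decide (y.1 = 0))) := by
      have e3 : Computable (fun (w : Option (F × ι) × (F × ι)) => ok w.2.2) :=
        hok.comp (Computable.snd.comp Computable.snd)
      have e4 : Computable (fun (w : Option (F × ι) × (F × ι)) =>
          decide (w.2.1 = 0)) :=
        comp_eq (Computable.fst.comp Computable.snd) (Computable.const 0)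
      exact Primrec.and.to_comp.comp e3 (Primrec.not.to_comp.comp e4)
    refine (Computable.option_casesOn Computable.id (Computable.const true) e2).of_eq ?_
    intro o
    cases o <;> simp [oko]
  have h3 : Computable₂ (fun (E : List (F × (κ ⊕ ι))) (o : Option (F × ι)) => ful E o) := by
    have e2 : Computable₂ (fun (w : List (F × (κ ⊕ ι)) × Option (F × ι)) (y : F × ι) =>
        (y.1, (Sum.inr y.2 : κ ⊕ ι)) :: w.1) := by
      have e3 : Computable (fun (w : (List (F × (κ ⊕ ι)) × Option (F × ι)) × (F × ι)) =>
          (w.2.1, (Sum.inr w.2.2 : κ ⊕ ι))) :=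
        (Computable.fst.comp Computable.snd).pair
          (Primrec.sumInr.to_comp.comp (Computable.snd.comp Computable.snd))
      exact Computable.list_cons.comp e3 (Computable.fst.comp Computable.fst)
    exact Computable.option_casesOn Computable.snd Computable.fst e2
  have e1 : Computable (fun z : Raw F × (List (F × (κ ⊕ ι)) × Option (F × ι)) =>
      (z.2.1.all fun x => okk ok z.2.2 x.2)) := by
    apply comp_all (Computable.fst.comp Computable.snd)
    exact h1.comp (Computable.snd.comp (Computable.snd.comp Computable.fst))
      (Computable.snd.comp Computable.snd)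
  have e2 : Computable (fun z : Raw F × (List (F × (κ ⊕ ι)) × Option (F × ι)) =>
      oko ok z.2.2) := h2.comp (Computable.snd.comp Computable.snd)
  have e3 : Computable (fun z : Raw F × (List (F × (κ ⊕ ι)) × Option (F × ι)) =>
      tst rep HH z.1 (ful z.2.1 z.2.2)) :=
    (comp_tst hadd hmul hrep hH).comp Computable.fst
      (h3.comp (Computable.fst.comp Computable.snd) (Computable.snd.comp Computable.snd))
  exact Primrec.and.to_comp.comp e1 (Primrec.and.to_comp.comp e2 e3)

/-- deciding membership -/
theorem decide_mem (hadd : Computable₂ (fun a b : F => a + b))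
    (hmul : Computable₂ (fun a b : F => a * b)) (hrep : Computable rep)
    (hr : ∀ a b, parse a = parse b ↔ rep a = rep b)
    {I : Submodule F (MonoidAlgebra F M)} {H : κ → Raw F} {v : ι → Raw F} (hH : Computable H)
    (hv : Computable v) (hI : I = Submodule.span F (Set.range fun k => Val parse (H k)))
    {ok : ι → Bool} (hok : Computable ok)
    (hB : BS ⊤ I (fun i => Val parse (v i)) {i | ok i = true}) :
    ∃ d : Raw F → Bool, Computable d ∧ ∀ L, d L = true ↔ Val parse L ∈ I := by
  classical
  have hHH : Computable (Sum.elim H v) := by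
    have := Computable.sumCasesOn (f := fun z : κ ⊕ ι => z) (g := fun _ k => H k)
      (h := fun _ i => v i) Computable.id (hH.comp Computable.snd).to₂ (hv.comp Computable.snd).to₂
    refine this.of_eq ?_
    rintro (k | i) <;> rfl
  have hH' : ∀ k, Val parse (H k) ∈ I := by
    intro k; rw [hI]; exact Submodule.subset_span ⟨k, rfl⟩
  let g : Raw F → ℕ → Option Bool := fun L n =>
    (Encodable.decode (α := List (F × (κ ⊕ ι)) × Option (F × ι)) n).bind fun c =>
      bif chk rep (Sum.elim H v) ok L c then some c.2.isNone else none
  have hg : Computable₂ g := by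
    have e1 : Computable (fun z : Raw F × ℕ =>
        (Encodable.decode (α := List (F × (κ ⊕ ι)) × Option (F × ι)) z.2)) :=
      Computable.decode.comp Computable.snd
    have e2 : Computable₂ (fun (z : Raw F × ℕ) (c : List (F × (κ ⊕ ι)) × Option (F × ι)) =>
        bif chk rep (Sum.elim H v) ok z.1 c then some c.2.isNone else none) := by
      have e3 : Computable (fun w : (Raw F × ℕ) × (List (F × (κ ⊕ ι)) × Option (F × ι)) =>
          chk rep (Sum.elim H v) ok w.1.1 w.2) :=
        (comp_chk hadd hmul hrep hHH hok).comp (Computable.fst.comp Computable.fst)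
          Computable.snd
      have e5 : Computable (fun o : Option (F × ι) => o.isNone) := by
        refine (Computable.option_casesOn (f := fun _ => true) (g := fun _ _ => false)
          Computable.id (Computable.const true) (Computable.const false).to₂).of_eq ?_
        intro o; cases o <;> rfl
      have e4 : Computable (fun w : (Raw F × ℕ) × (List (F × (κ ⊕ ι)) × Option (F × ι)) =>
          some w.2.2.isNone) :=
        Computable.option_some.comp (e5.comp (Computable.snd.comp Computable.snd))
      exact Computable.cond e3 e4 (Computable.const none)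
    exact Computable.option_bind e1 e2
  refine ⟨fun L => decide (Val parse L ∈ I), ?_, fun L => by simp⟩
  apply Partrec.of_eq_tot (Partrec.rfindOpt hg)
  intro L
  have hdom : (Nat.rfindOpt (g L)).Dom := by
    rw [Nat.rfindOpt_dom]
    obtain ⟨c, hc⟩ := chk_complete (rep := rep) (v := v) hr hI.le hB L
    refine ⟨Encodable.encode c, c.2.isNone, ?_⟩
    show c.2.isNone ∈ (Encodable.decode (Encodable.encode c)).bind _
    rw [Encodable.encodek]
    simp [hc]
  obtain ⟨b, hb⟩ := Part.dom_iff_mem.mp hdom
  obtain ⟨n, hn⟩ := Nat.rfindOpt_spec hb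
  have : b = decide (Val parse L ∈ I) := by
    simp only [g, Option.mem_def, Option.bind_eq_some_iff] at hn
    obtain ⟨c, _, hc⟩ := hn
    cases hch : chk rep (Sum.elim H v) ok L c with
    | false => rw [hch] at hc; simp at hc
    | true =>
      rw [hch] at hc
      simp only [cond_true, Option.some.injEq] at hc
      have := chk_sound hr hH' hB L c hch
      rw [← hc]
      rw [Bool.eq_iff_iff, this]
      simp
  rw [← this]
  exact hb

end

end Pool.Agent.Helper120_Alt.R3
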