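import Pool.Agent.Helper120_Alt.R3.Cpt4

set_option autoImplicit false

/-! The decision procedure relative to a decidable subspace. -/

namespace Pool.Agent.Helper120_Alt.R3

noncomputable section

variable {F M κ ι : Type} [Field F] {parse : Pw → M} {rep : Pw → Pw}

theorem chk_soundV (hr : ∀ a b, parse a = parse b ↔ rep a = rep b)
    {V I : Submodule F (MonoidAlgebra F M)} {H : κ → Raw F} {v : ι → Raw F}
    (hH : ∀ k, Val parse (H k) ∈ I) {ok : ι → Bool}
    (hB : BS V I (fun i => Val parse (v i)) {i | ok i = true}) (L : Raw F)
    (c : List (F × (κ ⊕ ι)) × Option (F × ι)) (h : chk rep (Sum.elim H v) ok L c = true) :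
    c.2.isNone = true ↔ Val parse L ∈ I := by
  classical
  obtain ⟨E, o⟩ := c
  unfold chk at h
  simp only [Bool.and_eq_true, List.all_eq_true] at h
  obtain ⟨h1, h2, h3⟩ := h
  rw [tst_iff hr] at h3
  cases o with
  | none =>
    simp only [Option.isNone_none, true_iff]
    have h4 : fs E = 0 := by
      ext i
      by_contra h5
      obtain ⟨x, hx, e⟩ := fs_supp h5
      have := h1 x hx
      rw [e] at this
      simp [okk] at this
    have h5 := fs_spec (v := v) hH E
    rw [h4, Finsupp.sum_zero_index, sub_zero] at h5
    rw [h3]
    exact h5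
  | some y =>
    obtain ⟨c, j⟩ := y
    simp only [Option.isNone_some, Bool.false_eq_true, false_iff]
    intro hL
    have h4 := fs_spec (v := v) hH (ful E (some (c, j)))
    rw [← h3] at h4
    have h5 : ((fs (ful E (some (c, j)))).sum fun i a => a • Val parse (v i)) ∈ I := by
      have := Submodule.sub_mem _ hL h4
      rwa [sub_sub_cancel] at this
    have e1 : fs (ful E (some (c, j))) = Finsupp.single j c + fs E := by
      simp [fs, ful]
    simp only [oko, Bool.and_eq_true, Bool.not_eq_true', decide_eq_false_iff_not] at h2
    have h6 : ∀ i, fs E i ≠ 0 → ok i = true ∧ i ≠ j := by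
      intro i hi
      obtain ⟨x, hx, e⟩ := fs_supp hi
      have := h1 x hx
      rw [e] at this
      simpa [okk] using this
    have h7 := hB.li _ (by
      intro i hi
      rw [e1, Finsupp.add_apply] at hi
      by_cases h8 : fs E i = 0
      · rw [h8, add_zero, Finsupp.single_apply] at hi
        by_cases h9 : j = i
        · rw [← h9]; exact h2.1
        · rw [if_neg h9] at hi; exact absurd rfl hi
      · exact (h6 i h8).1) h5
    have h8 : fs (ful E (some (c, j))) j = 0 := by rw [h7]; rfl
    rw [e1, Finsupp.add_apply, Finsupp.single_eq_same] at h8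
    have h9 : fs E j = 0 := by
      by_contra h10
      exact (h6 j h10).2 rfl
    rw [h9, add_zero] at h8
    exact h2.2 h8

theorem chk_completeV (hr : ∀ a b, parse a = parse b ↔ rep a = rep b)
    {V I : Submodule F (MonoidAlgebra F M)} {H : κ → Raw F} {v : ι → Raw F}
    (hI : I ≤ Submodule.span F (Set.range fun k => Val parse (H k))) {ok : ι → Bool}
    (hB : BS V I (fun i => Val parse (v i)) {i | ok i = true}) (L : Raw F)
    (hL : Val parse L ∈ V) : ∃ c, chk rep (Sum.elim H v) ok L c = true := by
  classical
  obtain ⟨y, hy, z, hz, e⟩ := Submodule.mem_sup.mp (hB.sp hL)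
  obtain ⟨l, hl, rfl⟩ := (Finsupp.mem_span_image_iff_linearCombination F).mp hy
  obtain ⟨E, hE⟩ := exists_cval H (hI hz)
  have hE' : cval parse (Sum.elim H v) (E.map fun x => (x.1, (Sum.inl x.2 : κ ⊕ ι))) = z := by
    rw [← hE]
    simp [cval, Function.comp_def]
  by_cases hl0 : l = 0
  · refine ⟨(E.map fun x => (x.1, Sum.inl x.2), none), ?_⟩
    unfold chk
    simp only [Bool.and_eq_true, List.all_eq_true]
    refine ⟨?_, rfl, ?_⟩
    · intro x hx
      obtain ⟨y, _, rfl⟩ := List.mem_map.mp hx
      rfl
    · rw [tst_iff hr]
      show Val parse L = cval parse (Sum.elim H v) (E.map fun x => (x.1, Sum.inl x.2))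
      rw [hE', ← e, hl0, map_zero, zero_add]
  · obtain ⟨j, hj⟩ := Finsupp.ne_iff.mp hl0
    rw [Finsupp.zero_apply] at hj
    refine ⟨(((l.support.erase j).toList.map fun i => (l i, Sum.inr i)) ++
      (E.map fun x => (x.1, Sum.inl x.2)), some (l j, j)), ?_⟩
    unfold chk
    simp only [Bool.and_eq_true, List.all_eq_true]
    have hs : ∀ i ∈ l.support, ok i = true := fun i hi => hl hi
    refine ⟨?_, ?_, ?_⟩
    · intro x hx
      rw [List.mem_append] at hx
      rcases hx with hx | hx
      · obtain ⟨i, hi, rfl⟩ := List.mem_map.mp hx
        rw [Finset.mem_toList, Finset.mem_erase] at hi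
        simp [okk, hi.1, hs i hi.2]
      · obtain ⟨y, _, rfl⟩ := List.mem_map.mp hx
        rfl
    · simp [oko, hj, hs j (Finsupp.mem_support_iff.mpr hj)]
    · rw [tst_iff hr]
      show Val parse L = cval parse (Sum.elim H v) ((l j, Sum.inr j) ::
        (((l.support.erase j).toList.map fun i => (l i, Sum.inr i)) ++
        (E.map fun x => (x.1, Sum.inl x.2))))
      rw [cval_cons, cval_append, hE', ← e]
      have h1 : cval parse (Sum.elim H v) ((l.support.erase j).toList.map
          fun i => (l i, (Sum.inr i : κ ⊕ ι))) =
          ∑ i ∈ l.support.erase j, l i • Val parse (v i) := by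
        rw [← Finset.sum_map_toList]
        simp [cval, Function.comp_def]
      rw [h1, ← add_assoc]
      congr 1
      rw [Finsupp.linearCombination_apply, Finsupp.sum,
        ← Finset.add_sum_erase _ _ (Finsupp.mem_support_iff.mpr hj)]
      rfl

variable [Primcodable F] [Primcodable κ] [Primcodable ι]

/-- deciding membership, given a decidable larger subspace -/
theorem decide_memV (hadd : Computable₂ (fun a b : F => a + b))
    (hmul : Computable₂ (fun a b : F => a * b)) (hrep : Computable rep)
    (hr : ∀ a b, parse a = parse b ↔ rep a = rep b)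
    {V I : Submodule F (MonoidAlgebra F M)} {H : κ → Raw F} {v : ι → Raw F} (hH : Computable H)
    (hv : Computable v) (hI : I = Submodule.span F (Set.range fun k => Val parse (H k)))
    {ok : ι → Bool} (hok : Computable ok)
    (hB : BS V I (fun i => Val parse (v i)) {i | ok i = true})
    {dV : Raw F → Bool} (hdV : Computable dV) (hV : ∀ L, dV L = true ↔ Val parse L ∈ V) :
    ∃ d : Raw F → Bool, Computable d ∧ ∀ L, d L = true ↔ Val parse L ∈ I := by
  classical
  have hHH : Computable (Sum.elim H v) := by
    have := Computable.sumCasesOn (f := fun z : κ ⊕ ι => z) (g := fun _ k => H k)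
      (h := fun _ i => v i) Computable.id (hH.comp Computable.snd).to₂ (hv.comp Computable.snd).to₂
    refine this.of_eq ?_
    rintro (k | i) <;> rfl
  have hH' : ∀ k, Val parse (H k) ∈ I := by
    intro k; rw [hI]; exact Submodule.subset_span ⟨k, rfl⟩
  let g : Raw F → ℕ → Option Bool := fun L n => bif dV L then
    ((Encodable.decode (α := List (F × (κ ⊕ ι)) × Option (F × ι)) n).bind fun c =>
      bif chk rep (Sum.elim H v) ok L c then some c.2.isNone else none) else some false
  have hg : Computable₂ g := by
    have e1 : Computable (fun z : Raw F × ℕ =>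
        (Encodable.decode (α := List (F × (κ ⊕ ι)) × Option (F × ι)) z.2)) :=
      Computable.decode.comp Computable.snd
    have e2 : Computable₂ (fun (z : Raw F × ℕ) (c : List (F × (κ ⊕ ι)) × Option (F × ι)) =>
        bif chk rep (Sum.elim H v) ok z.1 c then some c.2.isNone else none) := by
      have e3 : Computable (fun w : (Raw F × ℕ) × (List (F × (κ ⊕ ι)) × Option (F × ι)) =>
          chk rep (Sum.elim H v) ok w.1.1 w.2) :=
        (comp_chk hadd hmul hrep hHH hok).comp (Computable.fst.comp Computable.fst)
          Computable.snd
      have e5 : Computable (fun o : Option (F × ι) => o.isNone) := by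
        refine (Computable.option_casesOn (f := fun _ => true) (g := fun _ _ => false)
          Computable.id (Computable.const true) (Computable.const false).to₂).of_eq ?_
        intro o; cases o <;> rfl
      have e4 : Computable (fun w : (Raw F × ℕ) × (List (F × (κ ⊕ ι)) × Option (F × ι)) =>
          some w.2.2.isNone) :=
        Computable.option_some.comp (e5.comp (Computable.snd.comp Computable.snd))
      exact Computable.cond e3 e4 (Computable.const none)
    exact Computable.cond (hdV.comp Computable.fst) (Computable.option_bind e1 e2)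
      (Computable.const (some false))
  refine ⟨fun L => decide (Val parse L ∈ I), ?_, fun L => by simp⟩
  apply Partrec.of_eq_tot (Partrec.rfindOpt hg)
  intro L
  have hdom : (Nat.rfindOpt (g L)).Dom := by
    rw [Nat.rfindOpt_dom]
    cases hdL : dV L with
    | true =>
      obtain ⟨c, hc⟩ := chk_completeV (rep := rep) (v := v) hr hI.le hB L ((hV L).mp hdL)
      refine ⟨Encodable.encode c, c.2.isNone, ?_⟩
      simp only [g, hdL, cond_true]
      rw [Encodable.encodek]
      simp [hc]
    | false =>
      refine ⟨0, false, ?_⟩
      simp only [g, hdL, cond_false]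
      rfl
  obtain ⟨b, hb⟩ := Part.dom_iff_mem.mp hdom
  obtain ⟨n, hn⟩ := Nat.rfindOpt_spec hb
  have : b = decide (Val parse L ∈ I) := by
    cases hdL : dV L with
    | true =>
      simp only [g, hdL, cond_true, Option.mem_def, Option.bind_eq_some_iff] at hn
      obtain ⟨c, _, hc⟩ := hn
      cases hch : chk rep (Sum.elim H v) ok L c with
      | false => rw [hch] at hc; simp at hc
      | true =>
        rw [hch] at hc
        simp only [cond_true, Option.some.injEq] at hc
        have := chk_soundV hr hH' hB L c hch
        rw [← hc]
        rw [Bool.eq_iff_iff, this]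
        simp
    | false =>
      simp only [g, hdL, cond_false, Option.mem_def, Option.some.injEq] at hn
      rw [← hn]
      have : Val parse L ∉ I := by
        intro h
        have := (hV L).mpr (hB.le h)
        rw [hdL] at this
        exact Bool.false_ne_true this
      simp [this]
  rw [← this]
  exact hb

end

end Pool.Agent.Helper120_Alt.R3
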