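import Pool.Agent.Helper120_Alt.R3.Spn3
import Pool.Agent.Helper120_Alt.R3.Lin3

set_option autoImplicit false

/-! Elimination: leading indices of a finitely generated bimodule. -/

namespace Pool.Agent.Helper120_Alt.R3

open Pool.Agent.Helper895.Alt

section abs

variable {F M ι : Type} [Field F] [AddCommGroup M] [Module F M]
variable {Λ : Type} (r : Λ → Λ → Prop) (key : ι → Λ)

theorem LI_iff [IsStrictTotalOrder Λ r] (v : ι → M) (I : Submodule F M) (i : ι) :
    i ∈ LI r key v I ↔ v i ∈ Submodule.span F (v '' {k | r (key k) (key i)}) ⊔ I := by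
  classical
  constructor
  · rintro ⟨c, hci, hlt, hs⟩
    have e : v i = (c i)⁻¹ • ((c.sum fun i a => a • v i) -
        ((c.erase i).sum fun i a => a • v i)) := by
      have h1 : (c.sum fun i a => a • v i) = c i • v i +
          ((c.erase i).sum fun i a => a • v i) := by
        rw [Finsupp.add_sum_erase' c i (fun i a => a • v i)]
        intro j; exact zero_smul _ _
      rw [h1, add_sub_cancel_right, smul_smul, inv_mul_cancel₀ hci, one_smul]
    rw [e]
    apply Submodule.smul_mem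
    apply Submodule.sub_mem
    · exact Submodule.mem_sup_right hs
    · apply Submodule.mem_sup_left
      apply Submodule.sum_mem
      intro j hj
      apply Submodule.smul_mem
      rw [Finsupp.mem_support_iff] at hj
      have hji : j ≠ i := by
        rintro rfl
        rw [Finsupp.erase_same] at hj
        exact hj rfl
      rw [Finsupp.erase_ne hji] at hj
      exact Submodule.subset_span ⟨j, hlt j hj hji, rfl⟩
  · intro h
    obtain ⟨y, hy, z, hz, e⟩ := Submodule.mem_sup.mp h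
    obtain ⟨l, hl, rfl⟩ := (Finsupp.mem_span_image_iff_linearCombination F).mp hy
    have hl' : ∀ k, l k ≠ 0 → r (key k) (key i) := fun k hk =>
      hl (Finsupp.mem_support_iff.mpr hk)
    have hli : l i = 0 := by
      by_contra h0
      exact irrefl (r := r) (key i) (hl' i h0)
    refine ⟨Finsupp.single i 1 - l, ?_, ?_, ?_⟩
    · rw [Finsupp.sub_apply, Finsupp.single_eq_same, hli, sub_zero]
      exact one_ne_zero
    · intro j hj hji
      rw [Finsupp.sub_apply, Finsupp.single_apply, if_neg (Ne.symm hji), zero_sub] at hj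
      exact hl' j (neg_ne_zero.mp hj)
    · have e2 : ((Finsupp.single i (1 : F) - l).sum fun i a => a • v i) = z := by
        rw [Finsupp.sum_sub_index (by intro a b c; exact sub_smul _ _ _),
          Finsupp.sum_single_index (by simp), one_smul, ← e]
        rw [Finsupp.linearCombination_apply]
        abel
      rw [e2]; exact hz

/-- operators that shift indices up to lower terms preserve the leading indices -/
theorem LI_op [IsStrictTotalOrder Λ r] {v : ι → M} {I : Submodule F M} (T : M →ₗ[F] M)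
    (hT : ∀ x ∈ I, T x ∈ I) (σ : ι → ι)
    (hr : ∀ i j, r (key i) (key j) → r (key (σ i)) (key (σ j)))
    (hv : ∀ i, T (v i) - v (σ i) ∈ Submodule.span F (v '' {k | r (key k) (key (σ i))}) ⊔ I)
    {i : ι} (hi : i ∈ LI r key v I) : σ i ∈ LI r key v I := by
  rw [LI_iff] at hi ⊢
  set W := Submodule.span F (v '' {k | r (key k) (key (σ i))}) ⊔ I with hW
  have h1 : T (v i) ∈ W := by
    have h2 : Submodule.span F (v '' {k | r (key k) (key i)}) ⊔ I ≤ W.comap T := by
      apply sup_le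
      · rw [Submodule.span_le]
        rintro _ ⟨k, hk, rfl⟩
        show T (v k) ∈ W
        have hk' := hr _ _ hk
        rw [← sub_add_cancel (T (v k)) (v (σ k))]
        apply Submodule.add_mem
        · have h3 : Submodule.span F (v '' {j | r (key j) (key (σ k))}) ⊔ I ≤ W := by
            apply sup_le_sup_right
            apply Submodule.span_mono
            apply Set.image_mono
            intro j hj
            exact _root_.trans (r := r) hj hk'
          exact h3 (hv k)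
        · exact Submodule.mem_sup_left (Submodule.subset_span ⟨σ k, hk', rfl⟩)
      · intro x hx
        exact Submodule.mem_sup_right (hT x hx)
    exact h2 hi
  have h3 := Submodule.sub_mem _ h1 (hv i)
  rwa [sub_sub_cancel] at h3

/-- elimination -/
theorem LI_elim [IsStrictTotalOrder Λ r] {v : ι → M} {C N : Submodule F M} (hCN : C ≤ N)
    (B : Set ι) (hN : N ≤ C ⊔ Submodule.span F (v '' B)) {i : ι}
    (hi : ∀ k ∈ B, r (key k) (key i)) : i ∈ LI r key v N ↔ i ∈ LI r key v C := by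
  rw [LI_iff, LI_iff]
  constructor
  · intro h
    refine (sup_le le_sup_left (hN.trans (sup_le le_sup_right (le_sup_of_le_left ?_))) :
      _ ≤ _) h
    apply Submodule.span_mono
    apply Set.image_mono
    intro k hk
    exact hi k hk
  · intro h
    exact (sup_le_sup_left hCN _ : _ ≤ _) h

end abs

theorem up_closed {n : ℕ} (U : Set (Fin n → ℕ)) (hU : ∀ α ∈ U, ∀ i, α + Pi.single i 1 ∈ U) :
    ∀ α ∈ U, ∀ β, α ≤ β → β ∈ U := by
  intro α hα β hle
  obtain ⟨S, hS⟩ := dickson U hU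
  obtain ⟨γ, hγ, h⟩ := (hS α).mp hα
  exact (hS β).mpr ⟨γ, hγ, h.trans hle⟩

/-- Dickson for pairs -/
theorem dickson2 {n m : ℕ} (U : Set ((Fin n → ℕ) × (Fin m → ℕ)))
    (h1 : ∀ x ∈ U, ∀ i, (x.1 + Pi.single i 1, x.2) ∈ U)
    (h2 : ∀ x ∈ U, ∀ i, (x.1, x.2 + Pi.single i 1) ∈ U) :
    ∃ S : Finset ((Fin n → ℕ) × (Fin m → ℕ)), ∀ x, x ∈ U ↔ ∃ y ∈ S, y ≤ x := by
  have hup : ∀ x ∈ U, ∀ y, x ≤ y → y ∈ U := by
    rintro ⟨a, b⟩ hx ⟨c, d⟩ ⟨hac, hbd⟩
    have h3 : (c, b) ∈ U := up_closed {a | (a, b) ∈ U} (fun α hα i => h1 (α, b) hα i) a hx c hac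
    exact up_closed {b | (c, b) ∈ U} (fun α hα i => h2 (c, α) hα i) b h3 d hbd
  have hfin : {α | Minimal (· ∈ U) α}.Finite := by
    apply WellQuasiOrderedLE.finite_of_isAntichain
    exact setOfPred_minimal_antichain _
  refine ⟨hfin.toFinset, fun α => ⟨?_, ?_⟩⟩
  · intro hα
    obtain ⟨β, hβ, hm⟩ := exists_minimal_le_of_wellFoundedLT (· ∈ U) α hα
    exact ⟨β, by simpa using hm, hβ⟩
  · rintro ⟨β, hβ, hle⟩
    simp at hβ
    exact hup β hβ.prop α hle

noncomputable section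

variable {F : Type} [Field F] {K : Type} [Field K] [Algebra F K] {p : Fin 10 → K}

/-- indices of the multiples of the generators -/
abbrev IxE (k : ℕ) : Type := Fin k × ((Fin 10 → ℕ) × (Fin 3 → ℕ))

/-- the order of these indices -/
def keyE {k : ℕ} (x : IxE k) : Lex (Fin 10 → ℕ) ×ₗ (Fin k ×ₗ Lex (Fin 3 → ℕ)) :=
  toLex (toLex x.2.1, toLex (x.1, toLex x.2.2))

theorem keyE_inj {k : ℕ} : Function.Injective (keyE : IxE k → _) := by
  rintro ⟨a, b, c⟩ ⟨a', b', c'⟩ h
  simp only [keyE, EmbeddingLike.apply_eq_iff_eq, Prod.mk.injEq] at h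
  rw [h.1, h.2.1, h.2.2]

/-- the multiples of the generators -/
def vE (F : Type) [Field F] {K : Type} [Field K] [Algebra F K] (p : Fin 10 → K) {k : ℕ}
    (g : Fin k → Oct K) (x : IxE k) : Oct K := mon p x.2.1 • Lw F p (cl x.2.2) (g x.1)

/-- the span of all multiples -/
def VE (F : Type) [Field F] {K : Type} [Field K] [Algebra F K] (p : Fin 10 → K)
    (C : Submodule F (Oct K)) {k : ℕ} (g : Fin k → Oct K) : Submodule F (Oct K) :=
  C ⊔ Submodule.span F (Set.range (vE F p g))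

theorem mon_zero : mon p 0 = 1 := by simp [mon]

theorem VE_PC {C : Submodule F (Oct K)} (hC : PC p C) {k : ℕ} (g : Fin k → Oct K) :
    PC p (VE F p C g) := by
  intro i x hx
  obtain ⟨y, hy, z, hz, rfl⟩ := Submodule.mem_sup.mp hx
  rw [smul_add]
  apply add_mem
  · exact Submodule.mem_sup_left (hC i y hy)
  · clear hx
    induction hz using Submodule.span_induction with
    | mem x hx =>
      obtain ⟨⟨s, α, β⟩, rfl⟩ := hx
      apply Submodule.mem_sup_right
      apply Submodule.subset_span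
      refine ⟨(s, α + Pi.single i 1, β), ?_⟩
      show mon p (α + Pi.single i 1) • _ = iv p i • mon p α • _
      rw [← mon_add, mul_smul]
    | zero => rw [smul_zero]; exact zero_mem _
    | add x y _ _ hx hy => rw [smul_add]; exact add_mem hx hy
    | smul a x _ hx => rw [smul_comm]; exact Submodule.smul_mem _ _ hx

section E

variable {C N : Submodule F (Oct K)} {k : ℕ} {g : Fin k → Oct K}

theorem opL (hPC : PC p C) (hCN : C ≤ N)
    (htri : ∀ (s : Fin k) (β : Fin 3 → ℕ) (l : Fin 3),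
        fm p l * Lw F p (cl β) (g s) - Lw F p (cl (β + Pi.single l 1)) (g s) ∈
          C ⊔ Submodule.span F (Set.range fun x : {x : Fin k × (Fin 3 → ℕ) // x.1 < s} =>
            Lw F p (cl x.1.2) (g x.1.1)))
    (l : Fin 3) (x : IxE k) :
    LinearMap.mulLeft F (fm p l) (vE F p g x) - vE F p g (x.1, x.2.1, x.2.2 + Pi.single l 1) ∈
      Submodule.span F (vE F p g '' {y | keyE y < keyE (x.1, x.2.1, x.2.2 + Pi.single l 1)}) ⊔
        N := by
  obtain ⟨s, α, β⟩ := x
  obtain ⟨c, hc, z, hz, e⟩ := Submodule.mem_sup.mp (htri s β l)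
  have e2 : LinearMap.mulLeft F (fm p l) (vE F p g (s, α, β)) -
      vE F p g (s, α, β + Pi.single l 1) = mon p α • z + mon p α • c := by
    show fm p l * (mon p α • Lw F p (cl β) (g s)) - mon p α • _ = _
    rw [mul_smul_comm, ← smul_sub, ← smul_add, add_comm z c, e]
  rw [e2]
  apply Submodule.add_mem_sup
  · have h1 : ∀ z ∈ Submodule.span F (Set.range fun x : {x : Fin k × (Fin 3 → ℕ) // x.1 < s} =>
            Lw F p (cl x.1.2) (g x.1.1)), mon p α • z ∈ Submodule.span F (vE F p g ''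
            {y | keyE y < keyE (s, α, β + Pi.single l 1)}) := by
      intro z hz
      induction hz using Submodule.span_induction with
      | mem x hx =>
        obtain ⟨⟨⟨s', β'⟩, h⟩, rfl⟩ := hx
        apply Submodule.subset_span
        refine ⟨(s', α, β'), ?_, rfl⟩
        apply Prod.Lex.toLex_lt_toLex.mpr
        refine Or.inr ⟨rfl, Prod.Lex.toLex_lt_toLex.mpr (Or.inl h)⟩
      | zero => rw [smul_zero]; exact zero_mem _
      | add x y _ _ hx hy => rw [smul_add]; exact add_mem hx hy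
      | smul a x _ hx => rw [smul_comm]; exact Submodule.smul_mem _ _ hx
    exact h1 z hz
  · exact hCN (hPC.mon α hc)

theorem keyE_shiftL (l : Fin 3) (x y : IxE k) (h : keyE x < keyE y) :
    keyE (x.1, x.2.1, x.2.2 + Pi.single l 1) < keyE (y.1, y.2.1, y.2.2 + Pi.single l 1) := by
  rcases Prod.Lex.toLex_lt_toLex.mp h with h | ⟨h, h'⟩
  · exact Prod.Lex.toLex_lt_toLex.mpr (Or.inl h)
  · refine Prod.Lex.toLex_lt_toLex.mpr (Or.inr ⟨h, ?_⟩)
    rcases Prod.Lex.toLex_lt_toLex.mp h' with h | ⟨h, h''⟩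
    · exact Prod.Lex.toLex_lt_toLex.mpr (Or.inl h)
    · refine Prod.Lex.toLex_lt_toLex.mpr (Or.inr ⟨h, ?_⟩)
      exact add_lt_add_left h'' (toLex (Pi.single l 1))

theorem keyE_shiftX (i : Fin 10) (x y : IxE k) (h : keyE x < keyE y) :
    keyE (x.1, x.2.1 + Pi.single i 1, x.2.2) < keyE (y.1, y.2.1 + Pi.single i 1, y.2.2) := by
  rcases Prod.Lex.toLex_lt_toLex.mp h with h | ⟨h, h'⟩
  · refine Prod.Lex.toLex_lt_toLex.mpr (Or.inl ?_)
    exact add_lt_add_left h (toLex (Pi.single i 1))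
  · refine Prod.Lex.toLex_lt_toLex.mpr (Or.inr ⟨?_, h'⟩)
    have h3 : x.2.1 = y.2.1 := toLex.injective h
    show toLex (x.2.1 + Pi.single i 1) = toLex (y.2.1 + Pi.single i 1)
    rw [h3]

theorem keyE_base {x y : IxE k} (hx : x.2.1 = 0) (hy : y.2.1 ≠ 0) : keyE x < keyE y := by
  apply Prod.Lex.toLex_lt_toLex.mpr
  apply Or.inl
  show toLex x.2.1 < toLex y.2.1
  have h1 : toLex x.2.1 ≤ toLex y.2.1 := by
    rw [hx]
    exact Pi.toLex_monotone (fun i => Nat.zero_le _)
  refine lt_of_le_of_ne h1 ?_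
  intro h
  exact hy (by rw [← toLex.injective h, hx])


/-- a basis of the span of the multiples modulo the bimodule -/
theorem bas_E (hPC : PC p C) (hL : ∀ l, ∀ x ∈ C, fm p l * x ∈ C)
    (hNL : ∀ l, ∀ x ∈ N, fm p l * x ∈ N) (hCN : C ≤ N)
    (hN : N ≤ C ⊔ Submodule.span F (Set.range fun x : Fin k × (Fin 3 → ℕ) =>
      Lw F p (cl x.2) (g x.1)))
    (htri : ∀ (s : Fin k) (β : Fin 3 → ℕ) (l : Fin 3),
        fm p l * Lw F p (cl β) (g s) - Lw F p (cl (β + Pi.single l 1)) (g s) ∈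
          C ⊔ Submodule.span F (Set.range fun x : {x : Fin k × (Fin 3 → ℕ) // x.1 < s} =>
            Lw F p (cl x.1.2) (g x.1.1))) :
    ∃ (SN : Finset (Fin k × (Fin 3 → ℕ))) (SC : Finset (IxE k)),
      BS (VE F p C g) N (vE F p g)
        {x | (x.2.1 = 0 → ∀ y ∈ SN, ¬ (y.1 = x.1 ∧ y.2 ≤ x.2.2)) ∧
          (x.2.1 ≠ 0 → ∀ y ∈ SC, ¬ (y.1 = x.1 ∧ y.2 ≤ x.2))} := by
  classical
  let r : (Lex (Fin 10 → ℕ) ×ₗ (Fin k ×ₗ Lex (Fin 3 → ℕ))) → _ → Prop := (· < ·)
  have hNV : N ≤ VE F p C g := by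
    refine hN.trans (sup_le_sup_left ?_ _)
    rw [Submodule.span_le]
    rintro _ ⟨⟨s, β⟩, rfl⟩
    apply Submodule.subset_span
    refine ⟨(s, 0, β), ?_⟩
    show mon p 0 • Lw F p (cl β) (g s) = _
    rw [mon_zero, one_smul]
  have hB : BS (VE F p C g) N (vE F p g) (LI r keyE (vE F p g) N)ᶜ := by
    apply BS.of_LI r keyE wellFounded_lt keyE_inj
    · intro i; exact Submodule.mem_sup_right (Submodule.subset_span ⟨i, rfl⟩)
    · exact hNV
    · exact sup_le (hCN.trans le_sup_right) le_sup_left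
  have sL : ∀ (N' : Submodule F (Oct K)), C ≤ N' → (∀ l, ∀ x ∈ N', fm p l * x ∈ N') →
      ∀ (l : Fin 3) (x : IxE k), x ∈ LI r keyE (vE F p g) N' →
      (x.1, x.2.1, x.2.2 + Pi.single l 1) ∈ LI r keyE (vE F p g) N' := by
    intro N' h1 h3 l x hx
    exact LI_op r keyE (LinearMap.mulLeft F (fm p l)) (h3 l)
      (fun x : IxE k => (x.1, x.2.1, x.2.2 + Pi.single l 1)) (keyE_shiftL l)
      (opL hPC h1 htri l) hx
  have sX : ∀ (i : Fin 10) (x : IxE k), x ∈ LI r keyE (vE F p g) C →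
      (x.1, x.2.1 + Pi.single i 1, x.2.2) ∈ LI r keyE (vE F p g) C := by
    intro i x hx
    refine LI_op r keyE (LinearMap.lsmul K (Oct K) (iv p i) |>.restrictScalars F) (hPC i)
      (fun x : IxE k => (x.1, x.2.1 + Pi.single i 1, x.2.2)) (keyE_shiftX i) ?_ hx
    intro x
    have e : (LinearMap.lsmul K (Oct K) (iv p i) |>.restrictScalars F) (vE F p g x) =
        vE F p g (x.1, x.2.1 + Pi.single i 1, x.2.2) := by
      show iv p i • (mon p x.2.1 • Lw F p (cl x.2.2) (g x.1)) =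
        mon p (x.2.1 + Pi.single i 1) • Lw F p (cl x.2.2) (g x.1)
      rw [← mon_add, mul_smul]
    rw [e, sub_self]; exact zero_mem _
  have hSN : ∀ s : Fin k, ∃ S : Finset (Fin 3 → ℕ), ∀ β : Fin 3 → ℕ,
      (s, 0, β) ∈ LI r keyE (vE F p g) N ↔ ∃ y ∈ S, y ≤ β := by
    intro s
    exact dickson {β | (s, 0, β) ∈ LI r keyE (vE F p g) N}
      (fun β hβ l => sL N hCN hNL l (s, 0, β) hβ)
  have hSC : ∀ s : Fin k, ∃ S : Finset ((Fin 10 → ℕ) × (Fin 3 → ℕ)),
      ∀ x : (Fin 10 → ℕ) × (Fin 3 → ℕ),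
      (s, x) ∈ LI r keyE (vE F p g) C ↔ ∃ y ∈ S, y ≤ x := by
    intro s
    exact dickson2 {x | (s, x) ∈ LI r keyE (vE F p g) C}
      (fun x hx i => sX i (s, x) hx) (fun x hx i => sL C le_rfl hL i (s, x) hx)
  choose SN hSN using hSN
  choose SC hSC using hSC
  refine ⟨Finset.univ.biUnion fun s => (SN s).image fun β => (s, β),
    Finset.univ.biUnion fun s => (SC s).image fun β => (s, β), ?_⟩
  have mN : ∀ (s : Fin k) (β : Fin 3 → ℕ), (∀ y ∈ (Finset.univ.biUnion fun s =>
      (SN s).image fun β => (s, β)), ¬ (y.1 = s ∧ y.2 ≤ β)) ↔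
      (s, 0, β) ∉ LI r keyE (vE F p g) N := by
    intro s β
    rw [hSN s β]
    constructor
    · rintro h ⟨y, hy, hle⟩
      refine h (s, y) ?_ ⟨rfl, hle⟩
      simp only [Finset.mem_biUnion, Finset.mem_univ, true_and, Finset.mem_image]
      exact ⟨s, y, hy, rfl⟩
    · rintro h ⟨s', y⟩ hy ⟨h3, h4⟩
      simp only at h3 h4
      subst h3
      simp only [Finset.mem_biUnion, Finset.mem_univ, true_and, Finset.mem_image,
        Prod.mk.injEq] at hy
      obtain ⟨s'', y', hy', h5, h6⟩ := hy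
      subst h5
      subst h6
      exact h ⟨y', hy', h4⟩
  have mC : ∀ (s : Fin k) (β : (Fin 10 → ℕ) × (Fin 3 → ℕ)), (∀ y ∈ (Finset.univ.biUnion fun s =>
      (SC s).image fun β => (s, β)), ¬ (y.1 = s ∧ y.2 ≤ β)) ↔
      (s, β) ∉ LI r keyE (vE F p g) C := by
    intro s β
    rw [hSC s β]
    constructor
    · rintro h ⟨y, hy, hle⟩
      refine h (s, y) ?_ ⟨rfl, hle⟩
      simp only [Finset.mem_biUnion, Finset.mem_univ, true_and, Finset.mem_image]
      exact ⟨s, y, hy, rfl⟩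
    · rintro h ⟨s', y⟩ hy ⟨h3, h4⟩
      simp only at h3 h4
      subst h3
      simp only [Finset.mem_biUnion, Finset.mem_univ, true_and, Finset.mem_image,
        Prod.mk.injEq] at hy
      obtain ⟨s'', y', hy', h5, h6⟩ := hy
      subst h5
      subst h6
      exact h ⟨y', hy', h4⟩
  have hel : ∀ x : IxE k, x.2.1 ≠ 0 → (x ∈ LI r keyE (vE F p g) N ↔
      x ∈ LI r keyE (vE F p g) C) := by
    intro x hx
    refine LI_elim r keyE hCN {y | y.2.1 = 0} ?_ (fun y hy => keyE_base hy hx)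
    refine hN.trans (sup_le_sup_left ?_ _)
    rw [Submodule.span_le]
    rintro _ ⟨⟨s, β⟩, rfl⟩
    apply Submodule.subset_span
    refine ⟨(s, 0, β), rfl, ?_⟩
    show mon p 0 • Lw F p (cl β) (g s) = _
    rw [mon_zero, one_smul]
  have hset : {x : IxE k | (x.2.1 = 0 → ∀ y ∈ (Finset.univ.biUnion fun s =>
      (SN s).image fun β => (s, β)), ¬ (y.1 = x.1 ∧ y.2 ≤ x.2.2)) ∧
          (x.2.1 ≠ 0 → ∀ y ∈ (Finset.univ.biUnion fun s =>
      (SC s).image fun β => (s, β)), ¬ (y.1 = x.1 ∧ y.2 ≤ x.2))} =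
      (LI r keyE (vE F p g) N)ᶜ := by
    ext ⟨s, α, β⟩
    rw [Set.mem_ofPred_eq, Set.mem_compl_iff]
    by_cases h : α = 0
    · subst h
      simp only [forall_const, ne_eq, not_true_eq_false, false_implies, and_true]
      exact mN s β
    · simp only [h, false_implies, true_and, ne_eq, not_false_eq_true, forall_const]
      rw [mC s (α, β), hel (s, α, β) h]
  rw [hset]
  exact hB

end E

/-- the layer above a bimodule closed under the invariants -/
theorem bas_PC {N : Submodule F (Oct K)} (hPC : PC p N) (hN : N ≤ D3 F p) :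
    ∃ S : Finset (Fin 8 × (Fin 10 → ℕ)),
    BS (D3 F p) N (fun x : Fin 8 × (Fin 10 → ℕ) => mon p x.2 • dd p x.1)
      {x | ∀ y ∈ S, ¬ (y.1 = x.1 ∧ y.2 ≤ x.2)} := by
  let v : Fin 8 × (Fin 10 → ℕ) → Oct K := fun x => mon p x.2 • dd p x.1
  let key2 : Fin 8 × (Fin 10 → ℕ) → Fin 8 ×ₗ Lex (Fin 10 → ℕ) := fun x => toLex (x.1, toLex x.2)
  have key2_inj : Function.Injective key2 := by
    rintro ⟨a, b⟩ ⟨c, d⟩ h
    simp only [key2, EmbeddingLike.apply_eq_iff_eq, Prod.mk.injEq] at h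
    rw [h.1, h.2]
  let r : (Fin 8 ×ₗ Lex (Fin 10 → ℕ)) → (Fin 8 ×ₗ Lex (Fin 10 → ℕ)) → Prop := (· < ·)
  have hsh : ∀ (i : Fin 10) (x : Fin 8 × (Fin 10 → ℕ)), x ∈ LI r key2 v N →
      (x.1, x.2 + Pi.single i 1) ∈ LI r key2 v N := by
    intro i x hx
    refine LI_shift r key2 (fun x : Fin 8 × (Fin 10 → ℕ) => (x.1, x.2 + Pi.single i 1)) ?_ ?_ ?_ hx
    · rintro ⟨a, b⟩ ⟨c, d⟩ h
      simp only [Prod.mk.injEq, add_left_inj] at h
      rw [h.1, h.2]
    · rintro ⟨a, b⟩ ⟨c, d⟩ h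
      rcases (Prod.Lex.toLex_lt_toLex.mp h) with h | ⟨h, h'⟩
      · exact Prod.Lex.toLex_lt_toLex.mpr (Or.inl h)
      · refine Prod.Lex.toLex_lt_toLex.mpr (Or.inr ⟨h, ?_⟩)
        exact add_lt_add_left h' (toLex (Pi.single i 1))
    · intro c hc
      have e : (c.sum fun x a => a • v (x.1, x.2 + Pi.single i 1)) =
          iv p i • (c.sum fun x a => a • v x) := by
        rw [Finsupp.sum, Finsupp.sum, Finset.smul_sum]
        refine Finset.sum_congr rfl fun x _ => ?_
        show c x • mon p (x.2 + Pi.single i 1) • dd p x.1 = iv p i • c x • mon p x.2 • dd p x.1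
        rw [← mon_add, mul_smul, ← smul_comm (c x) (iv p i)]
      rw [e]
      exact hPC i _ hc
  have hU : ∀ s : Fin 8, ∃ S : Finset (Fin 10 → ℕ), ∀ α : Fin 10 → ℕ,
      (s, α) ∈ LI r key2 v N ↔ ∃ β ∈ S, β ≤ α := by
    intro s
    exact dickson {α | (s, α) ∈ LI r key2 v N} (fun α hα i => hsh i (s, α) hα)
  choose S hS using hU
  classical
  refine ⟨Finset.univ.biUnion fun s => (S s).image fun β => (s, β), ?_⟩
  have h1 : {x : Fin 8 × (Fin 10 → ℕ) | ∀ y ∈ (Finset.univ.biUnion fun s => (S s).image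
      fun β => (s, β)), ¬ (y.1 = x.1 ∧ y.2 ≤ x.2)} = (LI r key2 v N)ᶜ := by
    ext ⟨s, α⟩
    rw [Set.mem_compl_iff, hS s α, Set.mem_ofPred_eq]
    constructor
    · rintro h ⟨β, hβ, hle⟩
      refine h (s, β) ?_ ⟨rfl, hle⟩
      simp only [Finset.mem_biUnion, Finset.mem_univ, true_and, Finset.mem_image]
      exact ⟨s, β, hβ, rfl⟩
    · rintro h ⟨s', β⟩ hy ⟨h3, h4⟩
      simp only at h3 h4
      subst h3
      simp only [Finset.mem_biUnion, Finset.mem_univ, true_and, Finset.mem_image,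
        Prod.mk.injEq] at hy
      obtain ⟨s'', β', hβ', h5, h6⟩ := hy
      subst h5
      subst h6
      exact h ⟨β', hβ', h4⟩
  rw [h1]
  apply BS.of_LI r key2 wellFounded_lt key2_inj
  · intro x; exact Submodule.subset_span ⟨x, rfl⟩
  · exact hN
  · exact le_sup_left

/-- the layer of the scalar element -/
theorem bas_sh {f : NA F (Fin 3)} {N : Submodule F (Oct K)} (h2 : (2 : F) ≠ 0) (hN : Bim p N)
    (hFF : FF p f ≤ N) : ∃ S : Finset (Fin 3 → ℕ),
    BS (N ⊔ KK p f) N (fun β : Fin 3 → ℕ => mo3 p β • sh p f)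
      {x | ∀ y ∈ S, ¬ (y ≤ x)} := by
  let v : (Fin 3 → ℕ) → Oct K := fun β => mo3 p β • sh p f
  let r : Lex (Fin 3 → ℕ) → Lex (Fin 3 → ℕ) → Prop := (· < ·)
  have hsh : ∀ (i : Fin 3) (x : Fin 3 → ℕ), x ∈ LI r toLex v N →
      x + Pi.single i 1 ∈ LI r toLex v N := by
    intro i x hx
    refine LI_op r toLex ((2 : F) • LinearMap.mulLeft F (fm p i)) ?_
      (fun x : Fin 3 → ℕ => x + Pi.single i 1) ?_ ?_ hx
    · intro x hx
      exact Submodule.smul_mem _ _ (hN.l (fm_A3 i) hx)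
    · intro a b h
      exact add_lt_add_left h (toLex (Pi.single i 1))
    · intro β
      apply Submodule.mem_sup_right
      have e : ((2 : F) • LinearMap.mulLeft F (fm p i)) (v β) - v (β + Pi.single i 1) =
          -(mo3 p β • (iv p (i3 i) • sh p f - (2 : F) • (fm p i * sh p f))) := by
        show (2 : F) • (fm p i * (mo3 p β • sh p f)) - mo3 p (β + Pi.single i 1) • sh p f = _
        rw [← mo3_add, mul_smul_comm, mul_comm (iv p (i3 i)), mul_smul, smul_sub,
          ← smul_comm (2 : F) (mo3 p β)]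
        abel
      rw [e]
      exact neg_mem (hFF (F1_le_FF p f (mo3_smul F1_PC β (sh_T i))))
  obtain ⟨S, hS⟩ := dickson {α | α ∈ LI r toLex v N} (fun α hα i => hsh i α hα)
  refine ⟨S, ?_⟩
  have h1 : {x : Fin 3 → ℕ | ∀ y ∈ S, ¬ (y ≤ x)} = (LI r toLex v N)ᶜ := by
    ext α
    have := hS α
    rw [Set.mem_ofPred_eq] at this
    rw [Set.mem_compl_iff, this, Set.mem_ofPred_eq]
    push Not
    rfl
  have h2K : (2 : K) ≠ 0 := by
    intro h
    apply h2
    apply (algebraMap F K).injective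
    rw [map_ofNat, h, map_zero]
  rw [h1]
  apply BS.of_LI r toLex wellFounded_lt toLex.injective
  · intro β
    exact Submodule.mem_sup_right (mo3_smul (KK_PC h2K) β (subset_gen p (Or.inr rfl)))
  · exact le_sup_left
  · exact sup_le le_sup_right ((KK_span h2).trans (sup_le_sup_left hFF _))

end

end Pool.Agent.Helper120_Alt.R3
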