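import Pool.Agent.Helper120_Alt.R3.Gen3
import Pool.Agent.Helper895.AltArtin

set_option autoImplicit false

/-! The kernel of forgetting the brackets, for three letters. -/

namespace Pool.Agent.Helper120_Alt.R3

open Pool.Agent.Helper895.Alt

noncomputable section

variable {F : Type} [Field F]

/-- the letters -/
def ge (F : Type) [Field F] (i : Fin 3) : NA F (Fin 3) := MonoidAlgebra.single (FreeMagma.of i) 1

/-- the ideal of the alternative laws -/
def I0 (F : Type) [Field F] : Submodule F (NA F (Fin 3)) := idl F (alts F (Fin 3))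

section closure

/-- closure under multiplication by letters gives closure under multiplication -/
theorem closureG {C : Type} [NonUnitalNonAssocRing C] [AltRing C] (π : NA F (Fin 3) →ₙ+* C)
    (N : AddSubgroup C)
    (h : ∀ (l : Fin 3) (c : F), ∀ x ∈ N, π (MonoidAlgebra.single (FreeMagma.of l) c) * x ∈ N ∧
      x * π (MonoidAlgebra.single (FreeMagma.of l) c) ∈ N)
    (a : NA F (Fin 3)) : ∀ x ∈ N, π a * x ∈ N ∧ x * π a ∈ N := by
  have hm : ∀ (m : FreeMagma (Fin 3)) (c : F), ∀ x ∈ N, π (MonoidAlgebra.single m c) * x ∈ N ∧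
      x * π (MonoidAlgebra.single m c) ∈ N := by
    intro m
    induction m with
    | ih1 l => exact h l
    | ih2 a b ha hb =>
      intro c x hx
      have e : (MonoidAlgebra.single (a * b) c : NA F (Fin 3)) =
          MonoidAlgebra.single a c * MonoidAlgebra.single b 1 := by
        rw [MonoidAlgebra.single_mul_single, mul_one]
      rw [e, map_mul]
      have ha' := ha c
      have hb' := hb 1
      generalize π (MonoidAlgebra.single a c) = p at *
      generalize π (MonoidAlgebra.single b 1) = q at *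
      constructor
      · rw [mul_mul_l]
        exact add_mem (hb' _ (ha' x hx).1).1 (sub_mem
          (add_mem (ha' _ (hb' x hx).1).1 (ha' _ (hb' x hx).1).2)
          (hb' _ (add_mem (ha' x hx).1 (ha' x hx).2)).1)
      · rw [mul_mul_r]
        exact add_mem (ha' _ (hb' x hx).2).2 (sub_mem
          (add_mem (hb' _ (ha' x hx).2).1 (hb' _ (ha' x hx).2).2)
          (ha' _ (add_mem (hb' x hx).1 (hb' x hx).2)).2)
  induction a using MonoidAlgebra.induction_linear with
  | zero => intro x _; rw [map_zero, zero_mul, mul_zero]; exact ⟨zero_mem _, zero_mem _⟩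
  | add a b ha hb =>
    intro x hx
    rw [map_add, add_mul, mul_add]
    exact ⟨add_mem (ha x hx).1 (hb x hx).1, add_mem (ha x hx).2 (hb x hx).2⟩
  | single m c => exact hm m c

end closure

section quot

/-- two-sided ideal of the alternative laws -/
def I0t (F : Type) [Field F] : TwoSidedIdeal (NA F (Fin 3)) :=
  TwoSidedIdeal.mk' (I0 F : Set (NA F (Fin 3))) (Submodule.zero_mem _)
    (fun h h' => Submodule.add_mem _ h h') (fun h => Submodule.neg_mem _ h)
    (fun {x y} h => (idl_mul x y h).1) (fun {x y} h => (idl_mul y x h).2)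

theorem mem_I0t (x : NA F (Fin 3)) : x ∈ I0t F ↔ x ∈ I0 F := TwoSidedIdeal.mem_mk' _ _ _ _ _ _ _

/-- the free alternative algebra with three generators, as a ring -/
abbrev BQ (F : Type) [Field F] : Type := (I0t F).ringCon.Quotient

/-- the canonical map -/
def qm (F : Type) [Field F] : NA F (Fin 3) →ₙ+* BQ F where
  toFun := fun x => (x : (I0t F).ringCon.Quotient)
  map_mul' := fun _ _ => rfl
  map_zero' := rfl
  map_add' := fun _ _ => rfl

theorem qm_surj : Function.Surjective (qm F) := by
  rintro ⟨a⟩; exact ⟨a, rfl⟩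

theorem qm_eq (x y : NA F (Fin 3)) : qm F x = qm F y ↔ x - y ∈ I0 F := by
  show (x : (I0t F).ringCon.Quotient) = (y : (I0t F).ringCon.Quotient) ↔ _
  rw [RingCon.eq, TwoSidedIdeal.rel_iff, mem_I0t]

instance : AltRing (BQ F) where
  altl := by
    intro a b
    obtain ⟨a, rfl⟩ := qm_surj a
    obtain ⟨b, rfl⟩ := qm_surj b
    rw [← map_mul, ← map_mul, ← map_mul, ← map_mul, qm_eq]
    exact subset_idl _ ⟨a, b, Or.inl rfl⟩
  altr := by
    intro a b
    obtain ⟨a, rfl⟩ := qm_surj a
    obtain ⟨b, rfl⟩ := qm_surj b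
    rw [← map_mul, ← map_mul, ← map_mul, ← map_mul, qm_eq]
    exact subset_idl _ ⟨a, b, Or.inr rfl⟩

end quot

section sec3

variable {D : Submodule F (NA F (Fin 3))}

/-- congruence modulo an ideal containing the associators of the words -/
def Cg3 (D : Submodule F (NA F (Fin 3))) (a b : FreeMagma (Fin 3)) : Prop :=
  (MonoidAlgebra.single a 1 - MonoidAlgebra.single b 1 : NA F (Fin 3)) ∈ D

theorem Cg3.refl (a : FreeMagma (Fin 3)) : Cg3 D a a := by
  unfold Cg3; rw [sub_self]; exact Submodule.zero_mem _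

theorem Cg3.symm {a b : FreeMagma (Fin 3)} (h : Cg3 D a b) : Cg3 D b a := by
  unfold Cg3 at *
  rw [← neg_sub]; exact Submodule.neg_mem _ h

theorem Cg3.trans {a b c : FreeMagma (Fin 3)} (h : Cg3 D a b) (h' : Cg3 D b c) :
    Cg3 D a c := by
  unfold Cg3 at *
  have := Submodule.add_mem _ h h'
  rwa [sub_add_sub_cancel] at this

variable (hD : ∀ a : NA F (Fin 3), ∀ x ∈ D, a * x ∈ D ∧ x * a ∈ D)
  (hA : ∀ a b c : FreeMagma (Fin 3), Cg3 D ((a * b) * c) (a * (b * c)))
include hD

theorem Cg3.mul {a b c d : FreeMagma (Fin 3)} (h : Cg3 D a b) (h' : Cg3 D c d) :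
    Cg3 D (a * c) (b * d) := by
  unfold Cg3 at *
  have h1 := (hD (MonoidAlgebra.single c 1 : NA F (Fin 3)) _ h).2
  have h2 := (hD (MonoidAlgebra.single b 1 : NA F (Fin 3)) _ h').1
  rw [sub_mul, ← single_mul_single', ← single_mul_single'] at h1
  rw [mul_sub, ← single_mul_single', ← single_mul_single'] at h2
  have := Submodule.add_mem _ h1 h2
  rwa [sub_add_sub_cancel] at this

include hA

theorem cg3_lnl (a : FreeMagma (Fin 3)) (l : List (Fin 3)) : ∀ m : FreeMagma (Fin 3),
    Cg3 D (a * lnl m l) (lnl (a * m) l) := by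
  induction l with
  | nil => intro m; exact Cg3.refl _
  | cons x l ih =>
    intro m
    show Cg3 D (a * lnl (m * FreeMagma.of x) l) (lnl (a * m * FreeMagma.of x) l)
    refine (ih (m * FreeMagma.of x)).trans ?_
    have : ∀ (l : List (Fin 3)) (p q : FreeMagma (Fin 3)), Cg3 D p q →
        Cg3 D (lnl p l) (lnl q l) := by
      intro l
      induction l with
      | nil => intro p q h; exact h
      | cons y l ih => intro p q h; exact ih _ _ (Cg3.mul hD h (Cg3.refl _))
    exact this l _ _ (hA _ _ _).symm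

theorem cg3_ln_mul (u v : FreeSemigroup (Fin 3)) : Cg3 D (ln u * ln v) (ln (u * v)) := by
  have h1 : ln (u * v) = lnl (ln u * FreeMagma.of v.head) v.tail := by
    unfold ln lnl
    simp
  rw [h1]
  exact cg3_lnl hD hA (ln u) v.tail (FreeMagma.of v.head)

theorem cg3_flat (m : FreeMagma (Fin 3)) :
    Cg3 D m (ln (FreeMagma.toFreeSemigroup m)) := by
  induction m with
  | ih1 i => exact Cg3.refl _
  | ih2 x y hx hy =>
    rw [map_mul]
    exact (Cg3.mul hD hx hy).trans (cg3_ln_mul hD hA _ _)

/-- every polynomial is congruent to the left-normed form of its associative image -/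
theorem sub_sec_psi3 (g : NA F (Fin 3)) :
    g - sec F (Fin 3) (psi F (Fin 3) g) ∈ D := by
  induction g using MonoidAlgebra.induction_linear with
  | zero => simp
  | add a b ha hb =>
    rw [map_add, map_add, add_sub_add_comm]
    exact Submodule.add_mem _ ha hb
  | single m c =>
    rw [psi_single, sec_single, single_eq_smul m, single_eq_smul (ln _), ← smul_sub]
    exact Submodule.smul_mem _ _ (cg3_flat hD hA m)

end sec3

section ker

/-- iterated operators -/
def itX {B : Type} [NonUnitalNonAssocRing B] (e : Fin 3 → B) (L : List (Fin 10)) (v : B) : B :=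
  L.foldr (fun i v => opX e i v) v

/-- exponents as a list -/
def cl {n : ℕ} (α : Fin n → ℕ) : List (Fin n) :=
  (List.finRange n).flatMap fun i => List.replicate (α i) i

theorem prod_cl {M : Type} [CommMonoid M] {n : ℕ} (x : Fin n → M) (α : Fin n → ℕ) :
    ((cl α).map x).prod = ∏ i, x i ^ α i := by
  unfold cl
  rw [List.map_flatMap, List.flatMap_def, List.prod_flatten, List.map_map]
  have : (List.prod ∘ fun a => List.map x (List.replicate (α a) a)) = fun i => x i ^ α i := by
    funext i
    simp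
  rw [this, ← List.ofFn_eq_map, List.prod_ofFn]

/-- the standard elements of the kernel -/
def vNA (F : Type) [Field F] (x : Fin 8 × (Fin 10 → ℕ)) : NA F (Fin 3) :=
  Ls (ge F) x.1 (itX (ge F) (cl x.2) (asc (ge F 0) (ge F 1) (ge F 2)))

theorem map_itX {B C : Type} [NonUnitalNonAssocRing B] [NonUnitalNonAssocRing C]
    (φ : B →ₙ+* C) (e : Fin 3 → B) (L : List (Fin 10)) (v : B) :
    φ (itX e L v) = itX (fun j => φ (e j)) L (φ v) := by
  unfold itX
  induction L with
  | nil => rfl
  | cons i L ih =>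
    rw [List.foldr_cons, List.foldr_cons, ← ih]
    generalize List.foldr (fun i v => opX e i v) v L = y
    fin_cases i <;> simp [opX, T, N, U, tau]

theorem map_Ls' {B C : Type} [NonUnitalNonAssocRing B] [NonUnitalNonAssocRing C]
    (φ : B →ₙ+* C) (e : Fin 3 → B) (s : Fin 8) (v : B) :
    φ (Ls e s v) = Ls (fun j => φ (e j)) s (φ v) := by
  fin_cases s <;> simp [Ls]

theorem map_asc' {B C : Type} [NonUnitalNonAssocRing B] [NonUnitalNonAssocRing C]
    (φ : B →ₙ+* C) (x y z : B) : φ (asc x y z) = asc (φ x) (φ y) (φ z) := by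
  simp [asc]

theorem wmap_list {B : Type} [NonUnitalNonAssocRing B] [AltRing B] (e : Fin 3 → B)
    (L : List (Fin 10)) :
    wmap e (L.map fun i => (MvPolynomial.X i : MvPolynomial (Fin 10) ℤ)).prod =
      itX e L (asc (e 0) (e 1) (e 2)) := by
  induction L with
  | nil => exact wmap_one
  | cons i L ih =>
    rw [List.map_cons, List.prod_cons, mul_comm, wmap_mul_X, ih]
    rfl

/-- the letters of the free alternative algebra -/
def be (F : Type) [Field F] (i : Fin 3) : BQ F := qm F (ge F i)

theorem qm_vNA (s : Fin 8) (α : Fin 10 → ℕ) : qm F (vNA F (s, α)) =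
    Ls (be F) s (wmap (be F) (MvPolynomial.monomial (Finsupp.equivFunOnFinite.symm α) 1)) := by
  unfold vNA
  rw [map_Ls', map_itX, map_asc']
  have : (MvPolynomial.monomial (Finsupp.equivFunOnFinite.symm α) (1 : ℤ)) =
      ((cl α).map fun i => (MvPolynomial.X i : MvPolynomial (Fin 10) ℤ)).prod := by
    rw [prod_cl, MvPolynomial.monomial_eq]
    simp [Finsupp.prod_fintype]
  rw [this, wmap_list]
  rfl

theorem Ls_add {B : Type} [NonUnitalNonAssocRing B] (e : Fin 3 → B) (s : Fin 8) (x y : B) :
    Ls e s (x + y) = Ls e s x + Ls e s y := by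
  fin_cases s <;> simp [Ls, mul_add]

/-- `Ls` as an additive map -/
def LsH {B : Type} [NonUnitalNonAssocRing B] (e : Fin 3 → B) (s : Fin 8) : B →+ B :=
  AddMonoidHom.mk' (Ls e s) (Ls_add e s)

theorem PP_lift {y : BQ F} (hy : y ∈ PP (be F) (RW (be F))) :
    ∃ h ∈ Submodule.span F (Set.range (vNA F)), qm F h = y := by
  induction hy using AddSubgroup.closure_induction with
  | mem x hx =>
    obtain ⟨s, v, ⟨r, rfl⟩, rfl⟩ := hx
    refine ⟨∑ m ∈ r.support, (r.coeff m) • vNA F (s, fun i => m i), ?_, ?_⟩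
    · apply Submodule.sum_mem
      intro m _
      exact zsmul_mem (Submodule.subset_span (Set.mem_range_self _)) _
    · rw [map_sum]
      have h1 : Ls (be F) s (wmap (be F) r) = LsH (be F) s (wmap (be F) r) := rfl
      rw [h1]
      conv_rhs => rw [r.as_sum]
      rw [map_sum, map_sum]
      refine Finset.sum_congr rfl fun m _ => ?_
      rw [map_zsmul, qm_vNA]
      have h2 : (MvPolynomial.monomial m) (MvPolynomial.coeff m r) =
          (MvPolynomial.coeff m r) • (MvPolynomial.monomial m (1 : ℤ)) := by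
        rw [MvPolynomial.smul_monomial]; simp
      rw [h2, map_zsmul, map_zsmul]
      have h3 : Finsupp.equivFunOnFinite.symm (fun i => m i) = m := by
        ext i; simp
      rw [h3]
      rfl
  | zero => exact ⟨0, Submodule.zero_mem _, map_zero _⟩
  | add x y _ _ hx hy =>
    obtain ⟨a, ha, rfl⟩ := hx
    obtain ⟨b, hb, rfl⟩ := hy
    exact ⟨a + b, Submodule.add_mem _ ha hb, map_add _ _ _⟩
  | neg x _ hx =>
    obtain ⟨a, ha, rfl⟩ := hx
    exact ⟨-a, Submodule.neg_mem _ ha, map_neg _ _⟩

/-- the kernel of `psi` is spanned by the standard elements, modulo the alternative laws -/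
def DD (F : Type) [Field F] : Submodule F (NA F (Fin 3)) :=
  Submodule.span F (Set.range (vNA F)) ⊔ I0 F

theorem DD_of_qm {g : NA F (Fin 3)} (h : qm F g ∈ PP (be F) (RW (be F))) : g ∈ DD F := by
  obtain ⟨h, hh, he⟩ := PP_lift h
  have h1 : g - h ∈ I0 F := (qm_eq _ _).mp he.symm
  rw [← sub_add_cancel g h, add_comm]
  exact Submodule.add_mem_sup hh h1

theorem DD_letter (l : Fin 3) (c : F) {x : NA F (Fin 3)} (hx : x ∈ DD F) :
    MonoidAlgebra.single (FreeMagma.of l) c * x ∈ DD F ∧
      x * MonoidAlgebra.single (FreeMagma.of l) c ∈ DD F := by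
  have h0 : ∀ x ∈ I0 F, MonoidAlgebra.single (FreeMagma.of l) c * x ∈ DD F ∧
      x * MonoidAlgebra.single (FreeMagma.of l) c ∈ DD F := by
    intro x hx
    have := idl_mul (F := F) (MonoidAlgebra.single (FreeMagma.of l) c : NA F (Fin 3)) x hx
    exact ⟨Submodule.mem_sup_right this.1, Submodule.mem_sup_right this.2⟩
  have h1 : ∀ x ∈ Submodule.span F (Set.range (vNA F)),
      MonoidAlgebra.single (FreeMagma.of l) c * x ∈ DD F ∧
      x * MonoidAlgebra.single (FreeMagma.of l) c ∈ DD F := by
    intro x hx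
    induction hx using Submodule.span_induction with
    | mem x hx =>
      obtain ⟨⟨s, α⟩, rfl⟩ := hx
      have hP : qm F (vNA F (s, α)) ∈ PP (be F) (RW (be F)) := by
        rw [qm_vNA]
        exact PP.m s ⟨_, rfl⟩
      have e1 : (MonoidAlgebra.single (FreeMagma.of l) c : NA F (Fin 3)) = c • ge F l := by
        simp [ge]
      rw [e1, smul_mul_assoc, mul_smul_comm]
      constructor
      · apply Submodule.smul_mem
        apply DD_of_qm
        rw [map_mul]
        exact stable_RW.left l hP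
      · apply Submodule.smul_mem
        apply DD_of_qm
        rw [map_mul]
        exact stable_RW.right l hP
    | zero => rw [mul_zero, zero_mul]; exact ⟨zero_mem _, zero_mem _⟩
    | add x y _ _ hx hy =>
      rw [mul_add, add_mul]
      exact ⟨add_mem hx.1 hy.1, add_mem hx.2 hy.2⟩
    | smul a x _ hx =>
      rw [mul_smul_comm, smul_mul_assoc]
      exact ⟨Submodule.smul_mem _ _ hx.1, Submodule.smul_mem _ _ hx.2⟩
  obtain ⟨a, ha, b, hb, rfl⟩ := Submodule.mem_sup.mp hx
  rw [mul_add, add_mul]
  exact ⟨add_mem (h1 a ha).1 (h0 b hb).1, add_mem (h1 a ha).2 (h0 b hb).2⟩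

/-- the image in the free alternative algebra -/
def DQ (F : Type) [Field F] : AddSubgroup (BQ F) := (DD F).toAddSubgroup.map (qm F : _ →+ _)

theorem mem_DQ (g : NA F (Fin 3)) : qm F g ∈ DQ F ↔ g ∈ DD F := by
  constructor
  · rintro ⟨h, hh, he⟩
    have h1 : g - h ∈ I0 F := (qm_eq _ _).mp he.symm
    rw [← sub_add_cancel g h]
    exact add_mem (Submodule.mem_sup_right h1) hh
  · intro h
    exact ⟨g, h, rfl⟩

theorem DQ_id : IsId (DQ F) := by
  intro x p hp
  obtain ⟨a, rfl⟩ := qm_surj x
  refine closureG (qm F) (DQ F) ?_ a p hp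
  rintro l c _ ⟨h, hh, rfl⟩
  have := DD_letter l c hh
  constructor
  · exact ⟨_, this.1, map_mul (qm F) _ _⟩
  · exact ⟨_, this.2, map_mul (qm F) _ _⟩

theorem DD_mul (a : NA F (Fin 3)) {x : NA F (Fin 3)} (hx : x ∈ DD F) :
    a * x ∈ DD F ∧ x * a ∈ DD F := by
  rw [← mem_DQ, ← mem_DQ, map_mul, map_mul]
  exact DQ_id _ _ ((mem_DQ x).mpr hx)

theorem DD_asc (a b c : FreeMagma (Fin 3)) : Cg3 (DD F) ((a * b) * c) (a * (b * c)) := by
  have hw : ∀ m : FreeMagma (Fin 3), ∃ n, Wd (be F) n (qm F (MonoidAlgebra.single m 1)) := by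
    intro m
    induction m with
    | ih1 i => exact ⟨1, Wd.l i⟩
    | ih2 x y hx hy =>
      obtain ⟨n, hn⟩ := hx
      obtain ⟨n', hn'⟩ := hy
      refine ⟨n + n', ?_⟩
      rw [single_mul_single', map_mul]
      exact Wd.m hn hn'
  have h0 : asc (be F 0) (be F 1) (be F 2) ∈ DQ F := by
    have : asc (be F 0) (be F 1) (be F 2) = qm F (vNA F (0, fun _ => 0)) := by
      rw [qm_vNA]
      show _ = wmap (be F) _
      have : (MvPolynomial.monomial (Finsupp.equivFunOnFinite.symm (fun _ : Fin 10 => 0)) (1 : ℤ)) =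
          1 := by
        have h : (Finsupp.equivFunOnFinite.symm (fun _ : Fin 10 => 0) : Fin 10 →₀ ℕ) = 0 := by
          ext; simp
        rw [h]; rfl
      rw [this, wmap_one]
    rw [this, mem_DQ]
    exact Submodule.mem_sup_left (Submodule.subset_span ⟨_, rfl⟩)
  obtain ⟨na, ha⟩ := hw a
  obtain ⟨nb, hb⟩ := hw b
  obtain ⟨nc, hc⟩ := hw c
  have := artin_words DQ_id h0 _ _ _ _ _ _ _ ha hb hc rfl
  unfold asc at this
  rw [← map_mul, ← map_mul, ← map_mul, ← map_mul, ← map_sub, mem_DQ] at this
  unfold Cg3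
  rwa [single_mul_single', single_mul_single', single_mul_single', single_mul_single']

theorem sub_sec_DD (g : NA F (Fin 3)) : g - sec F (Fin 3) (psi F (Fin 3) g) ∈ DD F :=
  sub_sec_psi3 (fun a _ hx => DD_mul a hx) DD_asc g

theorem psi_I0 {g : NA F (Fin 3)} (h : g ∈ I0 F) : psi F (Fin 3) g = 0 := by
  have : I0 F ≤ LinearMap.ker (psi F (Fin 3) : NA F (Fin 3) →ₗ[F] AS F (Fin 3)) := by
    apply idl_le
    · intro x hx
      exact psi_alts hx
    · intro a x (hx : psi F (Fin 3) x = 0)
      constructor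
      · show psi F (Fin 3) (a * x) = 0
        rw [map_mul, hx, mul_zero]
      · show psi F (Fin 3) (x * a) = 0
        rw [map_mul, hx, zero_mul]
  exact this h

theorem psi_asc {C : Type} [NonUnitalRing C] (e : Fin 3 → C) (s : Fin 8) (L : List (Fin 10)) :
    Ls e s (itX e L (asc (e 0) (e 1) (e 2))) = 0 := by
  have h0 : asc (e 0) (e 1) (e 2) = 0 := by
    unfold asc; rw [mul_assoc, sub_self]
  rw [h0]
  have h1 : itX e L 0 = 0 := by
    unfold itX
    induction L with
    | nil => rfl
    | cons i L ih =>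
      rw [List.foldr_cons, ih]
      fin_cases i <;> simp [opX, T, N, U, tau]
  rw [h1]
  fin_cases s <;> simp [Ls]

theorem psi_vNA (x : Fin 8 × (Fin 10 → ℕ)) : psi F (Fin 3) (vNA F x) = 0 := by
  unfold vNA
  have h := map_Ls' (psi F (Fin 3) : NA F (Fin 3) →ₙ+* AS F (Fin 3)) (ge F) x.1
    (itX (ge F) (cl x.2) (asc (ge F 0) (ge F 1) (ge F 2)))
  rw [map_itX, map_asc', psi_asc] at h
  exact h

theorem mem_DD_iff (g : NA F (Fin 3)) : g ∈ DD F ↔ psi F (Fin 3) g = 0 := by
  constructor
  · intro h
    have : DD F ≤ LinearMap.ker (psi F (Fin 3) : NA F (Fin 3) →ₗ[F] AS F (Fin 3)) := by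
      apply sup_le
      · rw [Submodule.span_le]
        rintro _ ⟨x, rfl⟩
        exact psi_vNA x
      · intro x hx
        exact psi_I0 hx
    exact this h
  · intro h
    have := sub_sec_DD g
    rwa [h, map_zero, sub_zero] at this

end ker

end

end Pool.Agent.Helper120_Alt.R3
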