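import Pool.Agent.Helper120_Alt.R3.Oct3

set_option autoImplicit false

/-! A triple of octonions whose ten invariants are algebraically independent. -/

namespace Pool.Agent.Helper120_Alt.R3

open Pool.Agent.Helper895.Alt

noncomputable section

section polys

variable {R : Type} [CommRing R]

/-- first polynomial that must not vanish -/
def pA (X : Fin 10 → R) : R := 4 * X 3 - X 0 * X 0

/-- second polynomial that must not vanish -/
def pB (X : Fin 10 → R) : R :=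
  4 * pA X * X 4 - pA X * (X 1 * X 1) - (2 * X 6 - X 0 * X 1) ^ 2

/-- auxiliary polynomial -/
def pE (X : Fin 10 → R) : R :=
  pA X * (2 * X 8 - X 1 * X 2) - (2 * X 6 - X 0 * X 1) * (2 * X 7 - X 0 * X 2)

/-- auxiliary polynomial -/
def pH (X : Fin 10 → R) : R :=
  4 * pA X * X 9 - pA X * (X 0 * X 1 - (2 * X 6 - X 0 * X 1)) * X 2
    - X 0 * (2 * X 6 - X 0 * X 1) * (2 * X 7 - X 0 * X 2)
    - pA X * X 1 * (2 * X 7 - X 0 * X 2) - X 0 * pE X

/-- third polynomial that must not vanish -/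
def pC (X : Fin 10 → R) : R :=
  4 * pA X ^ 2 * pB X * X 5 - pA X ^ 2 * pB X * X 2 ^ 2
    - pA X * pB X * (2 * X 7 - X 0 * X 2) ^ 2 - pA X * pE X ^ 2 - pH X ^ 2

variable {S : Type} [CommRing S] (g : R →+* S)

theorem map_pA (X : Fin 10 → R) : pA (fun i => g (X i)) = g (pA X) := by
  have h4 : g 4 = 4 := map_ofNat g 4
  simp [pA, h4]

theorem map_pB (X : Fin 10 → R) : pB (fun i => g (X i)) = g (pB X) := by
  have h4 : g 4 = 4 := map_ofNat g 4
  have h2 : g 2 = 2 := map_ofNat g 2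
  simp [pB, map_pA, h4, h2]

theorem map_pE (X : Fin 10 → R) : pE (fun i => g (X i)) = g (pE X) := by
  have h2 : g 2 = 2 := map_ofNat g 2
  simp [pE, map_pA, h2]

theorem map_pH (X : Fin 10 → R) : pH (fun i => g (X i)) = g (pH X) := by
  have h4 : g 4 = 4 := map_ofNat g 4
  have h2 : g 2 = 2 := map_ofNat g 2
  simp [pH, map_pA, map_pE, h4, h2]

theorem map_pC (X : Fin 10 → R) : pC (fun i => g (X i)) = g (pC X) := by
  have h4 : g 4 = 4 := map_ofNat g 4
  have h2 : g 2 = 2 := map_ofNat g 2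
  simp [pC, map_pA, map_pE, map_pB, map_pH, h4, h2]

end polys

section solve

variable {K : Type} [Field K]

theorem pA_iv (p : Fin 10 → K) : pA (iv p) = 4 * p 1 ^ 2 := by
  simp only [pA, iv]; ring

theorem pB_iv (p : Fin 10 → K) : pB (iv p) = 16 * p 1 ^ 2 * p 4 ^ 2 := by
  simp only [pB, pA, iv]; ring

theorem pE_iv (p : Fin 10 → K) : pE (iv p) = 16 * p 1 ^ 2 * p 4 * p 7 := by
  simp only [pE, pA, iv]; ring

theorem pH_iv (p : Fin 10 → K) : pH (iv p) = 32 * p 1 ^ 3 * p 4 * p 8 := by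
  unfold pH
  rw [pA_iv, pE_iv]
  simp only [iv]; ring

theorem pC_iv (p : Fin 10 → K) : pC (iv p) = 1024 * p 1 ^ 6 * p 4 ^ 2 * p 9 ^ 2 := by
  unfold pC
  rw [pA_iv, pB_iv, pE_iv, pH_iv]
  simp only [iv]; ring

theorem solve [IsAlgClosed K] (h2 : (2 : K) ≠ 0) (X : Fin 10 → K) (hA : pA X ≠ 0)
    (hB : pB X ≠ 0) (hC : pC X ≠ 0) : ∃ p : Fin 10 → K, iv p = X ∧ p 1 ≠ 0 ∧ p 4 ≠ 0 ∧ p 9 ≠ 0 := by
  obtain ⟨a0, ha0⟩ : ∃ a0 : K, 2 * a0 = X 0 := ⟨X 0 / 2, by field_simp⟩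
  obtain ⟨b0, hb0⟩ : ∃ a0 : K, 2 * a0 = X 1 := ⟨X 1 / 2, by field_simp⟩
  obtain ⟨c0, hc0⟩ : ∃ a0 : K, 2 * a0 = X 2 := ⟨X 2 / 2, by field_simp⟩
  obtain ⟨a1, ha1⟩ := IsAlgClosed.exists_eq_mul_self (X 3 - a0 * a0)
  have e3 : a0 * a0 + a1 * a1 = X 3 := by linear_combination -ha1
  have ha1n : a1 ≠ 0 := by
    rintro rfl
    apply hA
    unfold pA
    rw [← e3, ← ha0]; ring
  obtain ⟨b1, hb1⟩ : ∃ b1 : K, 2 * (a0 * b0 + a1 * b1) = X 6 :=
    ⟨(X 6 / 2 - a0 * b0) / a1, by field_simp; ring⟩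
  obtain ⟨b2, hb2⟩ := IsAlgClosed.exists_eq_mul_self (X 4 - b0 * b0 - b1 * b1)
  have e4 : b0 * b0 + b1 * b1 + b2 * b2 = X 4 := by linear_combination -hb2
  have hb2n : b2 ≠ 0 := by
    rintro rfl
    apply hB
    unfold pB pA
    rw [← e3, ← e4, ← ha0, ← hb0, ← hb1]; ring
  obtain ⟨c1, hc1⟩ : ∃ c1 : K, 2 * (a0 * c0 + a1 * c1) = X 7 :=
    ⟨(X 7 / 2 - a0 * c0) / a1, by field_simp; ring⟩
  obtain ⟨c2, hc2⟩ : ∃ c2 : K, 2 * (b0 * c0 + b1 * c1 + b2 * c2) = X 8 :=
    ⟨(X 8 / 2 - b0 * c0 - b1 * c1) / b2, by field_simp; ring⟩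
  obtain ⟨c3, hc3⟩ : ∃ c3 : K, 2 * ((a0 * b0 - a1 * b1) * c0 + (a0 * b1 + a1 * b0) * c1
      + a0 * b2 * c2 + a1 * b2 * c3) = X 9 :=
    ⟨(X 9 / 2 - (a0 * b0 - a1 * b1) * c0 - (a0 * b1 + a1 * b0) * c1 - a0 * b2 * c2)
      / (a1 * b2), by field_simp; ring⟩
  obtain ⟨c4, hc4⟩ := IsAlgClosed.exists_eq_mul_self
    (X 5 - c0 * c0 - c1 * c1 - c2 * c2 - c3 * c3)
  have e5 : c0 * c0 + c1 * c1 + c2 * c2 + c3 * c3 + c4 * c4 = X 5 := by linear_combination -hc4
  let p : Fin 10 → K := fun i => match i with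
    | 0 => a0 | 1 => a1 | 2 => b0 | 3 => b1 | 4 => b2 | 5 => c0 | 6 => c1 | 7 => c2
    | 8 => c3 | 9 => c4
  have hp : iv p = X := by
    funext i
    fin_cases i
    · exact ha0
    · exact hb0
    · exact hc0
    · exact e3
    · exact e4
    · exact e5
    · exact hb1
    · exact hc1
    · exact hc2
    · exact hc3
  refine ⟨p, hp, ha1n, hb2n, ?_⟩
  intro h
  apply hC
  rw [← hp, pC_iv, h]; ring

end solve

/-- a field extension with a generic triple -/
theorem generic (F : Type) [Field F] (h2 : (2 : F) ≠ 0) :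
    ∃ (K : Type) (_ : Field K) (_ : Algebra F K) (p : Fin 10 → K),
      p 1 ≠ 0 ∧ p 4 ≠ 0 ∧ p 9 ≠ 0 ∧ (2 : K) ≠ 0 ∧
      LinearIndependent F (fun α : Fin 10 → ℕ => ∏ i, iv p i ^ α i) := by
  let P := MvPolynomial (Fin 10) F
  let K := AlgebraicClosure (FractionRing P)
  have hinj : Function.Injective (algebraMap P K) := by
    rw [IsScalarTower.algebraMap_eq P (FractionRing P) K]
    exact (algebraMap (FractionRing P) K).injective.comp (IsFractionRing.injective P _)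
  have h2K : (2 : K) ≠ 0 := by
    intro h
    apply h2
    have h1 : algebraMap P K (MvPolynomial.C 2) = algebraMap P K 0 := by
      rw [map_zero, ← h]
      have : (MvPolynomial.C 2 : P) = 2 := map_ofNat MvPolynomial.C 2
      rw [this]; exact map_ofNat _ 2
    have h3 := hinj h1
    rwa [MvPolynomial.C_eq_zero] at h3
  have key : ∀ (q : P), MvPolynomial.aeval (fun i : Fin 10 => if i = 3 ∨ i = 4 ∨ i = 9 then (1 : F)
      else 0) q ≠ 0 → algebraMap P K q ≠ 0 := by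
    intro q hq h
    apply hq
    have h3 : q = 0 := hinj (by rw [h, map_zero])
    rw [h3, map_zero]
  let X : Fin 10 → K := fun i => algebraMap P K (MvPolynomial.X i)
  have hA : pA X ≠ 0 := by
    rw [map_pA (algebraMap P K)]
    apply key
    have := map_pA (MvPolynomial.aeval (fun i : Fin 10 => if i = 3 ∨ i = 4 ∨ i = 9 then (1 : F)
      else 0) : P →ₐ[F] F).toRingHom (fun i => MvPolynomial.X i)
    simp only [AlgHom.toRingHom_eq_coe, RingHom.coe_coe, MvPolynomial.aeval_X] at this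
    rw [← this]
    simp [pA]
    have : (4 : F) = 2 * 2 := by norm_num
    rw [this]; exact mul_ne_zero h2 h2
  have hB : pB X ≠ 0 := by
    rw [map_pB (algebraMap P K)]
    apply key
    have := map_pB (MvPolynomial.aeval (fun i : Fin 10 => if i = 3 ∨ i = 4 ∨ i = 9 then (1 : F)
      else 0) : P →ₐ[F] F).toRingHom (fun i => MvPolynomial.X i)
    simp only [AlgHom.toRingHom_eq_coe, RingHom.coe_coe, MvPolynomial.aeval_X] at this
    rw [← this]
    simp [pB, pA]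
    have : (4 : F) = 2 * 2 := by norm_num
    rw [this]; exact mul_ne_zero h2 h2
  have hC : pC X ≠ 0 := by
    rw [map_pC (algebraMap P K)]
    apply key
    have := map_pC (MvPolynomial.aeval (fun i : Fin 10 => if i = 3 ∨ i = 4 ∨ i = 9 then (1 : F)
      else 0) : P →ₐ[F] F).toRingHom (fun i => MvPolynomial.X i)
    simp only [AlgHom.toRingHom_eq_coe, RingHom.coe_coe, MvPolynomial.aeval_X] at this
    rw [← this]
    simp [pC, pB, pA, pH, pE]
    have : (4 : F) = 2 * 2 := by norm_num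
    rw [this]; exact mul_ne_zero h2 h2
  obtain ⟨p, hp, p1, p4, p9⟩ := solve h2K X hA hB hC
  refine ⟨K, inferInstance, inferInstance, p, p1, p4, p9, h2K, ?_⟩
  have h3 : LinearIndependent F (fun m : Fin 10 →₀ ℕ => (MvPolynomial.monomial m (1 : F) : P)) := by
    have := (MvPolynomial.basisMonomials (Fin 10) F).linearIndependent
    rwa [MvPolynomial.coe_basisMonomials] at this
  have h4 := h3.map' (IsScalarTower.toAlgHom F P K).toLinearMap
    (LinearMap.ker_eq_bot.mpr hinj)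
  have h5 := h4.comp (Finsupp.equivFunOnFinite.symm : (Fin 10 → ℕ) ≃ (Fin 10 →₀ ℕ))
    (Equiv.injective _)
  have h6 : (fun α : Fin 10 → ℕ => ∏ i, iv p i ^ α i) =
      ((IsScalarTower.toAlgHom F P K).toLinearMap ∘ fun m : Fin 10 →₀ ℕ =>
        (MvPolynomial.monomial m (1 : F) : P)) ∘ (Finsupp.equivFunOnFinite.symm) := by
    funext α
    rw [hp]
    simp only [Function.comp_apply]
    show _ = algebraMap P K (MvPolynomial.monomial _ 1)
    rw [MvPolynomial.monomial_eq, map_mul]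
    simp [X, Finsupp.prod_fintype]
  rw [h6]
  exact h5

end

end Pool.Agent.Helper120_Alt.R3
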