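import Pool.Agent.Helper120_Alt.R3.Pt3

set_option autoImplicit false

/-! The octonionic part of the ideal generated by one element. -/

namespace Pool.Agent.Helper120_Alt.R3

open Pool.Agent.Helper895.Alt

noncomputable section

variable {F : Type} [Field F] {K : Type} [Field K] [Algebra F K] (p : Fin 10 → K)
  (f : NA F (Fin 3))

/-- products of the relator with the associator part -/
def S1 : Set (Oct K) := {y | ∃ d ∈ D3 F p, y = ph F p f * d ∨ y = d * ph F p f}

/-- associators with the relator -/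
def S2 : Set (Oct K) := {y | ∃ a b : NA F (Fin 3), y = asc (ph F p f) (ph F p a) (ph F p b)}

/-- the scalar element -/
def sh : Oct K := tr (ph F p f * om p) • one

/-- first ideal -/
def F1 : Submodule F (Oct K) := gen F p (S1 p f)

/-- first ideal with the scalar element -/
def K1 : Submodule F (Oct K) := gen F p (S1 p f ∪ {sh p f})

/-- the octonionic part of the ideal -/
def FF : Submodule F (Oct K) := gen F p (S1 p f ∪ S2 p f)

/-- the octonionic part of the ideal, with the scalar element -/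
def KK : Submodule F (Oct K) := gen F p (S1 p f ∪ S2 p f ∪ {sh p f})

theorem F1_le_K1 : F1 p f ≤ K1 p f := gen_mono p Set.subset_union_left
theorem F1_le_FF : F1 p f ≤ FF p f := gen_mono p Set.subset_union_left
theorem FF_le_KK : FF p f ≤ KK p f := gen_mono p Set.subset_union_left
theorem K1_le_KK : K1 p f ≤ KK p f := by
  apply gen_mono
  rintro x (hx | hx)
  · exact Or.inl (Or.inl hx)
  · exact Or.inr hx

variable {p f}

theorem S1_smul (i : Fin 10) {x : Oct K} (hx : x ∈ S1 p f) : iv p i • x ∈ S1 p f := by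
  obtain ⟨d, hd, rfl | rfl⟩ := hx
  · exact ⟨_, D3_PC p i d hd, Or.inl (by rw [mul_smul_comm])⟩
  · exact ⟨_, D3_PC p i d hd, Or.inr (by rw [smul_mul_assoc])⟩

theorem F1_PC : PC p (F1 p f) := fun i _ hx =>
  gen_smul p (gen_Bim p _) _ (fun _ hy => subset_gen p (S1_smul i hy)) hx

theorem T_F1 {d : Oct K} (hd : d ∈ D3 F p) : T (ph F p f) d ∈ F1 p f :=
  add_mem (subset_gen p ⟨d, hd, Or.inl rfl⟩) (subset_gen p ⟨d, hd, Or.inr rfl⟩)

theorem tr_om : tr (om p) = 0 := tr_asc _ _ _

theorem T_om : T (ph F p f) (om p) = tr (ph F p f) • om p + sh p f := by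
  rw [T_eq, tr_om]
  unfold sh
  simp

theorem fm_mem {N : Submodule F (Oct K)} (hN : Bim p N) (l : Fin 3) {x : Oct K} (hx : x ∈ N) :
    fm p l * x ∈ N ∧ x * fm p l ∈ N := by
  have := hN (ge F l) x hx
  rwa [ph_ge] at this

theorem fm2_mem {N : Submodule F (Oct K)} (hN : Bim p N) {x : Oct K} (hx : x ∈ N) :
    (fm p 0 * fm p 1) * x ∈ N ∧ x * (fm p 0 * fm p 1) ∈ N := by
  have := hN (ge F 0 * ge F 1) x hx
  rwa [map_mul, ph_ge, ph_ge] at this

theorem opX_mem {N : Submodule F (Oct K)} (hN : Bim p N) (i : Fin 10) {x : Oct K} (hx : x ∈ N) :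
    opX (fm p) i x ∈ N := by
  have l1 := fun l {x : Oct K} (hx : x ∈ N) => (fm_mem hN l hx).1
  have l2 := fun l {x : Oct K} (hx : x ∈ N) => (fm_mem hN l hx).2
  fin_cases i
  · exact add_mem (l1 _ hx) (l2 _ hx)
  · exact add_mem (l1 _ hx) (l2 _ hx)
  · exact add_mem (l1 _ hx) (l2 _ hx)
  · exact l1 _ (l2 _ hx)
  · exact l1 _ (l2 _ hx)
  · exact l1 _ (l2 _ hx)
  · exact add_mem (l1 _ (l2 _ hx)) (l1 _ (l2 _ hx))
  · exact add_mem (l1 _ (l2 _ hx)) (l1 _ (l2 _ hx))
  · exact add_mem (l1 _ (l2 _ hx)) (l1 _ (l2 _ hx))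
  · exact add_mem (fm2_mem hN (l2 _ hx)).1 (l1 _ (fm2_mem hN hx).2)

theorem opX_smul' (i : Fin 10) (c : K) (x : Oct K) :
    opX (fm p) i (c • x) = c • opX (fm p) i x := by
  fin_cases i <;> simp [opX, T, N, U, tau, mul_smul_comm, smul_mul_assoc]

theorem sh_diff (i : Fin 10) : iv p i • sh p f - opX (fm p) i (sh p f) ∈ F1 p f := by
  have h1 : sh p f = T (ph F p f) (om p) - tr (ph F p f) • om p := by
    rw [T_om]; abel
  have h2 : iv p i • sh p f - opX (fm p) i (sh p f) =
      T (ph F p f) (iv p i • om p) - opX (fm p) i (T (ph F p f) (om p)) := by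
    rw [h1]
    have h3 : opX (fm p) i (T (ph F p f) (om p) - tr (ph F p f) • om p) =
        opX (fm p) i (T (ph F p f) (om p)) - tr (ph F p f) • (iv p i • om p) := by
      rw [sub_eq_add_neg, opX_add, ← neg_smul, opX_smul', opX_om, neg_smul, ← sub_eq_add_neg]
    rw [h3]
    have h4 : T (ph F p f) (iv p i • om p) = iv p i • T (ph F p f) (om p) := by
      unfold T; rw [mul_smul_comm, smul_mul_assoc, smul_add]
    rw [h4, smul_sub, smul_comm (iv p i) (tr (ph F p f)) (om p)]
    abel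
  rw [h2]
  exact sub_mem (T_F1 (D3_PC p i _ (om_D3 p))) (opX_mem (gen_Bim p _) i (T_F1 (om_D3 p)))

theorem sh_smul_K1 (i : Fin 10) : iv p i • sh p f ∈ K1 p f := by
  have h1 : sh p f ∈ K1 p f := subset_gen p (Or.inr rfl)
  have h2 := opX_mem (gen_Bim p _ : Bim p (K1 p f)) i h1
  have h3 := F1_le_K1 p f (sh_diff i)
  have := add_mem h3 h2
  rwa [sub_add_cancel] at this

theorem K1_PC : PC p (K1 p f) := fun i _ hx =>
  gen_smul p (gen_Bim p _) _ (by
    rintro y (hy | rfl)
    · exact subset_gen p (Or.inl (S1_smul i hy))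
    · exact sh_smul_K1 i) hx

theorem Ls_mem {N : Submodule F (Oct K)} (hN : Bim p N) (s : Fin 8) {x : Oct K} (hx : x ∈ N) :
    Ls (fm p) s x ∈ N := by
  have l1 := fun l {x : Oct K} (hx : x ∈ N) => (fm_mem hN l hx).1
  fin_cases s
  · exact hx
  · exact l1 _ hx
  · exact l1 _ hx
  · exact l1 _ hx
  · exact l1 _ (l1 _ hx)
  · exact l1 _ (l1 _ hx)
  · exact l1 _ (l1 _ hx)
  · exact l1 _ (l1 _ (l1 _ hx))

theorem trf_D3 {d : Oct K} (hd : d ∈ D3 F p) : tr (ph F p f) • d ∈ K1 p f := by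
  induction hd using Submodule.span_induction with
  | mem x hx =>
    obtain ⟨⟨s, α⟩, rfl⟩ := hx
    show tr (ph F p f) • mon p α • dd p s ∈ K1 p f
    rw [smul_comm]
    apply K1_PC.mon
    unfold dd
    rw [← Ls_smul]
    apply Ls_mem (gen_Bim p _)
    have h1 : tr (ph F p f) • om p = T (ph F p f) (om p) - sh p f := by
      rw [T_om]; abel
    rw [h1]
    exact sub_mem (F1_le_K1 p f (T_F1 (om_D3 p))) (subset_gen p (Or.inr rfl))
  | zero => rw [smul_zero]; exact zero_mem _
  | add x y _ _ hx hy => rw [smul_add]; exact add_mem hx hy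
  | smul a x _ hx => rw [smul_comm]; exact Submodule.smul_mem _ _ hx

theorem tr_fd_K1 {d : Oct K} (hd : d ∈ D3 F p) : tr (ph F p f * d) • one ∈ K1 p f := by
  have h1 : tr (ph F p f * d) • one = T (ph F p f) d - tr (ph F p f) • d
      - ph F p f * (tr d • one) + tr (ph F p f) • (tr d • one) := by
    rw [T_eq, mul_smul_comm, mul_one', smul_smul, sub_smul]
    abel
  rw [h1]
  have h2 := tr_D3 p hd
  refine add_mem (sub_mem (sub_mem (F1_le_K1 p f (T_F1 hd)) (trf_D3 hd)) ?_) (trf_D3 h2)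
  exact F1_le_K1 p f (subset_gen p ⟨_, h2, Or.inl rfl⟩)

/-- scalars preserving `KK` -/
def St (p : Fin 10 → K) (f : NA F (Fin 3)) (k : K) : Prop := ∀ x ∈ KK p f, k • x ∈ KK p f

theorem tr_S2 (c : NA F (Fin 3)) {x : Oct K} (hx : x ∈ S2 p f) :
    tr (ph F p c) • x ∈ KK p f := by
  obtain ⟨a, b, rfl⟩ := hx
  have hv : asc (ph F p f) (ph F p a) (ph F p b) ∈ KK p f :=
    subset_gen p (Or.inl (Or.inr ⟨a, b, rfl⟩))
  have h1 := T_eq (ph F p c) (asc (ph F p f) (ph F p a) (ph F p b))
  rw [tr_asc, zero_smul, mul_zero, zero_sub, tr_asc_swap] at h1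
  have h2 : tr (ph F p c) • asc (ph F p f) (ph F p a) (ph F p b) =
      T (ph F p c) (asc (ph F p f) (ph F p a) (ph F p b)) +
        tr (ph F p f * asc (ph F p c) (ph F p a) (ph F p b)) • one := by
    rw [h1, neg_neg]; abel
  rw [h2]
  refine add_mem (add_mem ?_ ?_) (K1_le_KK p f (tr_fd_K1 (asc_D3 p c a b)))
  · exact (gen_Bim p _ c _ hv).1
  · exact (gen_Bim p _ c _ hv).2

theorem St_of {k : K} (h1 : ∀ x ∈ S1 p f, k • x ∈ KK p f) (h2 : ∀ x ∈ S2 p f, k • x ∈ KK p f)
    (h3 : k • sh p f ∈ KK p f) : St p f k := fun _ hx =>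
  gen_smul p (gen_Bim p _) _ (by
    rintro y ((hy | hy) | rfl)
    · exact h1 y hy
    · exact h2 y hy
    · exact h3) hx

theorem St_iv (i : Fin 10) (h : ∀ x ∈ S2 p f, iv p i • x ∈ KK p f) : St p f (iv p i) :=
  St_of (fun _ hx => F1_le_FF p f |>.trans (FF_le_KK p f) (subset_gen p (S1_smul i hx))) h
    (K1_le_KK p f (sh_smul_K1 i))

theorem S2_KK {x : Oct K} (hx : x ∈ S2 p f) : x ∈ KK p f := subset_gen p (Or.inl (Or.inr hx))

theorem KK_PC (h2 : (2 : K) ≠ 0) : PC p (KK p f) := by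
  obtain ⟨t0, t1, t2, t00, t11, t22, t01, t02, t12, t012⟩ := tr_fm p
  have e0 : St p f (iv p 0) := St_iv 0 fun x hx => by
    rw [← t0, ← ph_ge (F := F) p 0]; exact tr_S2 _ hx
  have e1 : St p f (iv p 1) := St_iv 1 fun x hx => by
    rw [← t1, ← ph_ge (F := F) p 1]; exact tr_S2 _ hx
  have e2 : St p f (iv p 2) := St_iv 2 fun x hx => by
    rw [← t2, ← ph_ge (F := F) p 2]; exact tr_S2 _ hx
  have q2 : ∀ (l : Fin 3) (i : Fin 10) (j : Fin 10), St p f (iv p i) →
      tr (fm p l * fm p l) = iv p i * iv p i - 2 * iv p j → St p f (iv p j) := by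
    intro l i j hi ht
    apply St_iv
    intro x hx
    have h3 : iv p j • x = (algebraMap F K 2⁻¹) • ((iv p i • (iv p i • x)) -
        tr (ph F p (ge F l * ge F l)) • x) := by
      rw [map_mul, ph_ge, ht, smul_smul, ← sub_smul, smul_smul]
      congr 1
      rw [map_inv₀, map_ofNat]
      field_simp
      ring
    rw [h3, algebraMap_smul']
    exact Submodule.smul_mem _ _ (sub_mem (hi _ (hi _ (S2_KK hx))) (tr_S2 _ hx))
  have q3 : ∀ (l m : Fin 3) (i i' j : Fin 10), St p f (iv p i) → St p f (iv p i') →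
      tr (fm p l * fm p m) = iv p i * iv p i' - iv p j → St p f (iv p j) := by
    intro l m i i' j hi hi' ht
    apply St_iv
    intro x hx
    have h3 : iv p j • x = (iv p i • (iv p i' • x)) -
        tr (ph F p (ge F l * ge F m)) • x := by
      rw [map_mul, ph_ge, ph_ge, ht, smul_smul, ← sub_smul]
      congr 1
      ring
    rw [h3]
    exact sub_mem (hi _ (hi' _ (S2_KK hx))) (tr_S2 _ hx)
  have e3 := q2 0 0 3 e0 t00
  have e4 := q2 1 1 4 e1 t11
  have e5 := q2 2 2 5 e2 t22
  have e6 := q3 0 1 0 1 6 e0 e1 t01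
  have e7 := q3 0 2 0 2 7 e0 e2 t02
  have e8 := q3 1 2 1 2 8 e1 e2 t12
  have e9 : St p f (iv p 9) := by
    apply St_iv
    intro x hx
    have h3 : iv p 9 • x = (iv p 0 • (iv p 1 • (iv p 2 • x))) - (iv p 6 • (iv p 2 • x)) -
        tr (ph F p ((ge F 0 * ge F 1) * ge F 2)) • x := by
      rw [map_mul, map_mul, ph_ge, ph_ge, ph_ge, t012, smul_smul, smul_smul, smul_smul,
        ← sub_smul, ← sub_smul]
      congr 1
      ring
    rw [h3]
    have h4 := e2 _ (S2_KK hx)
    exact sub_mem (sub_mem (e0 _ (e1 _ h4)) (e6 _ h4)) (tr_S2 _ hx)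
  intro i
  fin_cases i
  · exact e0
  · exact e1
  · exact e2
  · exact e3
  · exact e4
  · exact e5
  · exact e6
  · exact e7
  · exact e8
  · exact e9

theorem KK_le_D3 : KK p f ≤ D3 F p := by
  apply gen_le
  · rintro x ((⟨d, hd, rfl | rfl⟩ | ⟨a, b, rfl⟩) | rfl)
    · exact (D3_Bim p f d hd).1
    · exact (D3_Bim p f d hd).2
    · exact asc_D3 p f a b
    · exact tr_D3 p (D3_Bim p f _ (om_D3 p)).1
  · exact D3_Bim p

/-- the first three indices -/
def i3 (j : Fin 3) : Fin 10 := Fin.castLE (by omega) j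

/-- monomials in the traces -/
def mo3 (p : Fin 10 → K) (β : Fin 3 → ℕ) : K := ∏ j, iv p (i3 j) ^ β j

theorem mo3_add (p : Fin 10 → K) (j : Fin 3) (β : Fin 3 → ℕ) :
    iv p (i3 j) * mo3 p β = mo3 p (β + Pi.single j 1) := by
  unfold mo3
  simp only [Pi.add_apply, pow_add, Finset.prod_mul_distrib]
  rw [mul_comm]
  congr 1
  rw [Finset.prod_eq_single j]
  · simp
  · intro k _ hk
    rw [Pi.single_eq_of_ne hk, pow_zero]
  · intro h; exact absurd (Finset.mem_univ j) h

theorem mo3_smul {N : Submodule F (Oct K)} (h : PC p N) (β : Fin 3 → ℕ)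
    {x : Oct K} (hx : x ∈ N) : mo3 p β • x ∈ N := by
  unfold mo3
  rw [← prod_cl]
  induction cl β with
  | nil => simpa using hx
  | cons i L ih =>
    rw [List.map_cons, List.prod_cons, mul_smul]
    exact h _ _ ih

theorem opX_T (l : Fin 3) (x : Oct K) : opX (fm p) (i3 l) x = T (fm p l) x := by
  fin_cases l <;> rfl

theorem sh_T (l : Fin 3) : iv p (i3 l) • sh p f - (2 : F) • (fm p l * sh p f) ∈ F1 p f := by
  have h := sh_diff (p := p) (f := f) (i3 l)
  rw [opX_T] at h
  have h1 : T (fm p l) (sh p f) = (2 : F) • (fm p l * sh p f) := by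
    unfold T sh
    rw [mul_smul_comm, smul_mul_assoc, mul_one', one_mul', two_smul]
  rwa [h1] at h

theorem sh_comm (x : Oct K) : x * sh p f = sh p f * x := by
  unfold sh
  rw [mul_smul_comm, smul_mul_assoc, mul_one', one_mul']

/-- the multiples of the scalar element span the larger part -/
theorem KK_span (h2 : (2 : F) ≠ 0) : KK p f ≤
    Submodule.span F (Set.range fun β : Fin 3 → ℕ => mo3 p β • sh p f) ⊔ FF p f := by
  have hspan : ∀ (l : Fin 3) (x : Oct K),
      x ∈ Submodule.span F (Set.range fun β : Fin 3 → ℕ => mo3 p β • sh p f) →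
      fm p l * x ∈ Submodule.span F (Set.range fun β : Fin 3 → ℕ => mo3 p β • sh p f) ⊔ FF p f ∧
      x * fm p l ∈ Submodule.span F (Set.range fun β : Fin 3 → ℕ => mo3 p β • sh p f) ⊔
        FF p f := by
    intro l x hx
    induction hx using Submodule.span_induction with
    | mem x hx =>
      obtain ⟨β, rfl⟩ := hx
      have h1 : fm p l * (mo3 p β • sh p f) ∈
          Submodule.span F (Set.range fun β : Fin 3 → ℕ => mo3 p β • sh p f) ⊔ FF p f := by
        have h3 : fm p l * (mo3 p β • sh p f) = (2⁻¹ : F) • (mo3 p (β + Pi.single l 1) • sh p f -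
            mo3 p β • (iv p (i3 l) • sh p f - (2 : F) • (fm p l * sh p f))) := by
          rw [← mo3_add, mul_comm (iv p (i3 l)), mul_smul, ← smul_sub, sub_sub_cancel,
            ← smul_comm (2 : F) (mo3 p β), smul_smul, inv_mul_cancel₀ h2, one_smul,
            mul_smul_comm]
        rw [h3]
        apply Submodule.smul_mem
        apply sub_mem
        · exact Submodule.mem_sup_left (Submodule.subset_span ⟨_, rfl⟩)
        · exact Submodule.mem_sup_right (F1_le_FF p f (mo3_smul F1_PC β (sh_T l)))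
      refine ⟨h1, ?_⟩
      have h4 : (mo3 p β • sh p f) * fm p l = fm p l * (mo3 p β • sh p f) := by
        rw [mul_smul_comm, smul_mul_assoc, sh_comm]
      rw [h4]; exact h1
    | zero => rw [mul_zero, zero_mul]; exact ⟨zero_mem _, zero_mem _⟩
    | add x y _ _ hx hy =>
      rw [mul_add, add_mul]
      exact ⟨add_mem hx.1 hy.1, add_mem hx.2 hy.2⟩
    | smul a x _ hx =>
      rw [mul_smul_comm, smul_mul_assoc]
      exact ⟨Submodule.smul_mem _ _ hx.1, Submodule.smul_mem _ _ hx.2⟩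
  apply gen_le
  · rintro x (hx | rfl)
    · exact Submodule.mem_sup_right (subset_gen p hx)
    · apply Submodule.mem_sup_left
      apply Submodule.subset_span
      refine ⟨0, ?_⟩
      simp [mo3]
  · intro a x hx
    refine closureG (ph F p : NA F (Fin 3) →ₙ+* Oct K) (Submodule.span F (Set.range
      fun β : Fin 3 → ℕ => mo3 p β • sh p f) ⊔ FF p f).toAddSubgroup ?_ a x hx
    intro l c x hx
    obtain ⟨y, hy, z, hz, rfl⟩ := Submodule.mem_sup.mp hx
    have e1 : (ph F p : NA F (Fin 3) →ₙ+* Oct K) (MonoidAlgebra.single (FreeMagma.of l) c) =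
        c • fm p l := ph_letter p l c
    rw [e1, smul_mul_assoc, mul_smul_comm, mul_add, add_mul]
    have h1 := hspan l y hy
    have h3 := fm_mem (gen_Bim p _ : Bim p (FF p f)) l hz
    exact ⟨Submodule.smul_mem _ _ (add_mem h1.1 (Submodule.mem_sup_right h3.1)),
      Submodule.smul_mem _ _ (add_mem h1.2 (Submodule.mem_sup_right h3.2))⟩

/-- multiplying combinations of multiples of the scalar element by a trace -/
theorem FF_shift (l : Fin 3) (c : (Fin 3 → ℕ) →₀ F)
    (h : (c.sum fun β a => a • mo3 p β • sh p f) ∈ FF p f) :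
    (c.sum fun β a => a • mo3 p (β + Pi.single l 1) • sh p f) ∈ FF p f := by
  have h1 : (c.sum fun β a => a • mo3 p (β + Pi.single l 1) • sh p f) =
      (c.sum fun β a => a • mo3 p β • (iv p (i3 l) • sh p f - (2 : F) • (fm p l * sh p f))) +
      (2 : F) • (fm p l * (c.sum fun β a => a • mo3 p β • sh p f)) := by
    rw [Finsupp.sum, Finsupp.sum, Finsupp.sum, Finset.mul_sum, Finset.smul_sum,
      ← Finset.sum_add_distrib]
    refine Finset.sum_congr rfl fun β _ => ?_
    rw [← mo3_add, mul_smul_comm, mul_smul_comm, smul_comm (2 : F) (c β), ← smul_add]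
    congr 1
    rw [smul_comm (2 : F) (mo3 p β), ← smul_add, sub_add_cancel, mul_comm, mul_smul]
  rw [h1]
  apply add_mem
  · apply Submodule.sum_mem
    intro β _
    apply Submodule.smul_mem
    exact F1_le_FF p f (mo3_smul F1_PC β (sh_T l))
  · apply Submodule.smul_mem
    exact (fm_mem (gen_Bim p _ : Bim p (FF p f)) l h).1

end

end Pool.Agent.Helper120_Alt.R3
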