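import Pool.Agent.Helper120_Alt.Artin
import Pool.Agent.Helper895.AltEval

set_option autoImplicit false

/-! Octonions over a field `K`, as an algebra over a subfield `R`: trace identities and a generic
triple. -/

namespace Pool.Agent.Helper120_Alt.R3

open Pool.Agent.Helper895.Alt

noncomputable section

section mod

variable {R K : Type} [Field R] [Field K] [Algebra R K]

instance : SMul R (Oct K) := ⟨fun r x => ⟨r • x.x0, r • x.x1, r • x.x2, r • x.x3, r • x.x4,
  r • x.x5, r • x.x6, r • x.x7⟩⟩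

theorem smul_def' (r : R) (x : Oct K) : r • x = ⟨r • x.x0, r • x.x1, r • x.x2, r • x.x3,
  r • x.x4, r • x.x5, r • x.x6, r • x.x7⟩ := rfl

instance : Module R (Oct K) where
  one_smul x := by simp [smul_def']
  mul_smul r s x := by simp [smul_def', mul_smul]
  smul_zero r := by simp [smul_def', Oct.zero_def]
  smul_add r x y := by simp [smul_def', Oct.add_def]
  add_smul r s x := by simp [smul_def', Oct.add_def, add_smul]
  zero_smul x := by simp [smul_def', Oct.zero_def]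

instance : IsScalarTower R (Oct K) (Oct K) where
  smul_assoc r x y := by
    simp only [smul_def', smul_eq_mul, Oct.mul_def, Oct.mk.injEq, Algebra.smul_def]
    refine ⟨?_, ?_, ?_, ?_, ?_, ?_, ?_, ?_⟩ <;> ring

instance : SMulCommClass R (Oct K) (Oct K) where
  smul_comm r x y := by
    simp only [smul_def', smul_eq_mul, Oct.mul_def, Oct.mk.injEq, Algebra.smul_def]
    refine ⟨?_, ?_, ?_, ?_, ?_, ?_, ?_, ?_⟩ <;> ring

theorem algebraMap_smul' (r : R) (x : Oct K) : (algebraMap R K r) • x = r • x := by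
  simp [smul_def', Algebra.smul_def]

instance : SMulCommClass R K (Oct K) where
  smul_comm r k x := by
    simp only [smul_def', smul_eq_mul, Oct.mk.injEq, Algebra.smul_def]
    refine ⟨?_, ?_, ?_, ?_, ?_, ?_, ?_, ?_⟩ <;> ring

end mod

section tr

variable {K : Type} [Field K]

/-- the trace -/
def tr (x : Oct K) : K := 2 * x.x0

/-- the unit element -/
def one : Oct K := ⟨1, 0, 0, 0, 0, 0, 0, 0⟩

theorem tr_add (x y : Oct K) : tr (x + y) = tr x + tr y := by
  simp [tr, Oct.add_def, mul_add]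

theorem tr_smul (c : K) (x : Oct K) : tr (c • x) = c * tr x := by
  simp only [tr, smul_def', smul_eq_mul]; ring

theorem tr_sub (x y : Oct K) : tr (x - y) = tr x - tr y := by
  simp [tr, Oct.sub_def, mul_sub]

theorem one_mul' (x : Oct K) : one * x = x := by
  simp [one, Oct.mul_def]

theorem mul_one' (x : Oct K) : x * one = x := by
  simp [one, Oct.mul_def]

theorem T_eq (a b : Oct K) :
    T a b = tr a • b + tr b • a - (tr a * tr b - tr (a * b)) • one := by
  simp only [T, tr, one, smul_def', smul_eq_mul, Oct.mul_def, Oct.add_def, Oct.sub_def,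
    Oct.mk.injEq]
  refine ⟨?_, ?_, ?_, ?_, ?_, ?_, ?_, ?_⟩ <;> ring

theorem tr_comm (a b : Oct K) : tr (a * b) = tr (b * a) := by
  simp only [tr, Oct.mul_def]; ring

theorem tr_assoc (a b c : Oct K) : tr ((a * b) * c) = tr (a * (b * c)) := by
  simp only [tr, Oct.mul_def]; ring

theorem tr_asc_swap (c f a b : Oct K) : tr (c * asc f a b) = -tr (f * asc c a b) := by
  have h1 : tr (c * asc f a b) = tr ((c * (f * a)) * b) - tr ((c * f) * (a * b)) := by
    unfold asc
    rw [mul_sub, tr_sub, ← tr_assoc c (f * a) b, ← tr_assoc c f (a * b)]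
  have h2 : tr (f * asc c a b) = tr ((f * (c * a)) * b) - tr ((f * c) * (a * b)) := by
    unfold asc
    rw [mul_sub, tr_sub, ← tr_assoc f (c * a) b, ← tr_assoc f c (a * b)]
  have h3 : c * (f * a) + f * (c * a) = (c * f + f * c) * a := by
    have h := asc_swap12 c f a
    unfold asc at h
    rw [add_mul]
    linear_combination (norm := abel) -h
  have h4 : tr ((c * (f * a)) * b) + tr ((f * (c * a)) * b) =
      tr ((c * f) * (a * b)) + tr ((f * c) * (a * b)) := by
    rw [← tr_add, ← add_mul, h3, tr_assoc, add_mul, tr_add]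
  rw [h1, h2]
  linear_combination h4

theorem tr_asc (f a b : Oct K) : tr (asc f a b) = 0 := by
  unfold asc
  rw [tr_sub, tr_assoc, sub_self]

/-- a ten parameter family of triples of octonions -/
def fm (p : Fin 10 → K) : Fin 3 → Oct K
  | 0 => ⟨p 0, p 1, 0, 0, 0, 0, 0, 0⟩
  | 1 => ⟨p 2, p 3, p 4, 0, 0, 0, 0, 0⟩
  | 2 => ⟨p 5, p 6, p 7, p 8, p 9, 0, 0, 0⟩

/-- the invariants of the family -/
def iv (p : Fin 10 → K) : Fin 10 → K
  | 0 => 2 * p 0
  | 1 => 2 * p 2
  | 2 => 2 * p 5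
  | 3 => p 0 * p 0 + p 1 * p 1
  | 4 => p 2 * p 2 + p 3 * p 3 + p 4 * p 4
  | 5 => p 5 * p 5 + p 6 * p 6 + p 7 * p 7 + p 8 * p 8 + p 9 * p 9
  | 6 => 2 * (p 0 * p 2 + p 1 * p 3)
  | 7 => 2 * (p 0 * p 5 + p 1 * p 6)
  | 8 => 2 * (p 2 * p 5 + p 3 * p 6 + p 4 * p 7)
  | 9 => 2 * ((p 0 * p 2 - p 1 * p 3) * p 5 + (p 0 * p 3 + p 1 * p 2) * p 6
      + p 0 * p 4 * p 7 + p 1 * p 4 * p 8)

/-- multiples of the last unit -/
def yk (t : K) : Oct K := ⟨0, 0, 0, 0, 0, 0, 0, t⟩

theorem opX_fm (p : Fin 10 → K) (i : Fin 10) (t : K) :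
    opX (fm p) i (yk t) = iv p i • yk t := by
  fin_cases i <;>
  · simp only [opX, T, N, U, tau, fm, yk, iv, smul_def', smul_eq_mul, Oct.mul_def, Oct.add_def,
      Oct.mk.injEq]
    refine ⟨?_, ?_, ?_, ?_, ?_, ?_, ?_, ?_⟩ <;> ring

theorem asc_fm (p : Fin 10 → K) :
    asc (fm p 0) (fm p 1) (fm p 2) = yk (2 * p 1 * p 4 * p 9) := by
  simp only [asc, fm, yk, Oct.mul_def, Oct.sub_def, Oct.mk.injEq]
  refine ⟨?_, ?_, ?_, ?_, ?_, ?_, ?_, ?_⟩ <;> ring

/-- linear independence -/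
theorem indep_fm (p : Fin 10 → K) (h1 : p 1 ≠ 0) (h4 : p 4 ≠ 0) (h9 : p 9 ≠ 0)
    (t : Fin 8 → K) (h : ∑ s, Ls (fm p) s (yk (t s)) = 0) (s : Fin 8) : t s = 0 := by
  simp only [Fin.sum_univ_eight, Ls, fm, yk, Oct.mul_def, Oct.add_def, Oct.zero_def,
    Oct.mk.injEq] at h
  obtain ⟨e0, e1, e2, e3, e4, e5, e6, e7⟩ := h
  have t7 : t 7 = 0 := by
    have : p 1 * p 4 * p 9 * t 7 = 0 := by linear_combination -e0
    simpa [h1, h4, h9] using this
  rw [t7] at e1 e2 e3 e4 e5 e6 e7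
  have t6 : t 6 = 0 := by
    have : p 4 * p 9 * t 6 = 0 := by linear_combination e1
    simpa [h4, h9] using this
  rw [t6] at e2 e3 e4 e5 e6 e7
  have t5 : t 5 = 0 := by
    have : p 1 * p 9 * t 5 = 0 := by linear_combination -e2
    simpa [h1, h9] using this
  rw [t5] at e3 e4 e5 e6 e7
  have t3 : t 3 = 0 := by
    have : p 9 * t 3 = 0 := by linear_combination e3
    simpa [h9] using this
  rw [t3] at e4 e5 e6 e7
  have t4 : t 4 = 0 := by
    have : p 1 * p 4 * t 4 = 0 := by linear_combination e4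
    simpa [h1, h4] using this
  rw [t4] at e5 e6 e7
  have t2 : t 2 = 0 := by
    have : p 4 * t 2 = 0 := by linear_combination -e5
    simpa [h4] using this
  rw [t2] at e6 e7
  have t1 : t 1 = 0 := by
    have : p 1 * t 1 = 0 := by linear_combination e6
    simpa [h1] using this
  rw [t1] at e7
  have t0 : t 0 = 0 := by linear_combination e7
  fin_cases s <;> assumption

/-- traces of the standard products -/
theorem tr_Ls (p : Fin 10 → K) (t : K) (s : Fin 8) (hs : s ≠ 7) :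
    tr (Ls (fm p) s (yk t)) = 0 := by
  fin_cases s
  all_goals first
    | exact absurd rfl hs
    | (simp only [Ls, fm, yk, tr, Oct.mul_def]; ring)

theorem tr_Ls7 (p : Fin 10 → K) :
    tr (Ls (fm p) 7 (yk (2 * p 1 * p 4 * p 9))) • one =
      yk (2 * p 1 * p 4 * p 9) * yk (2 * p 1 * p 4 * p 9) := by
  simp only [Ls, fm, yk, tr, one, smul_def', smul_eq_mul, Oct.mul_def, Oct.mk.injEq]
  refine ⟨?_, ?_, ?_, ?_, ?_, ?_, ?_, ?_⟩ <;> ring

/-- traces of short products in terms of the invariants -/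
theorem tr_fm (p : Fin 10 → K) : tr (fm p 0) = iv p 0 ∧ tr (fm p 1) = iv p 1 ∧
    tr (fm p 2) = iv p 2 ∧
    tr (fm p 0 * fm p 0) = iv p 0 * iv p 0 - 2 * iv p 3 ∧
    tr (fm p 1 * fm p 1) = iv p 1 * iv p 1 - 2 * iv p 4 ∧
    tr (fm p 2 * fm p 2) = iv p 2 * iv p 2 - 2 * iv p 5 ∧
    tr (fm p 0 * fm p 1) = iv p 0 * iv p 1 - iv p 6 ∧
    tr (fm p 0 * fm p 2) = iv p 0 * iv p 2 - iv p 7 ∧
    tr (fm p 1 * fm p 2) = iv p 1 * iv p 2 - iv p 8 ∧
    tr ((fm p 0 * fm p 1) * fm p 2) = (iv p 0 * iv p 1 - iv p 6) * iv p 2 - iv p 9 := by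
  simp only [fm, tr, iv, Oct.mul_def]
  refine ⟨?_, ?_, ?_, ?_, ?_, ?_, ?_, ?_, ?_, ?_⟩ <;> first | trivial | ring

end tr

end

end Pool.Agent.Helper120_Alt.R3
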