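import Pool.Agent.Helper120_Alt.R3.K3
import Pool.Agent.Helper120_Alt.R3.Lin3
import Pool.Agent.Helper120_Alt.Comp1

set_option autoImplicit false

/-! The ideal generated by an element whose leading word does not overlap itself. -/

namespace Pool.Agent.Helper120_Alt.R3

open Pool.Agent.Helper895.Alt

noncomputable section

variable {F : Type} [Field F] {K : Type} [Field K] [Algebra F K] (p : Fin 10 → K)
  (f : NA F (Fin 3))

theorem closureNA (S : Submodule F (NA F (Fin 3))) (h0 : I0 F ≤ S)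
    (h : ∀ l, ∀ x ∈ S, ge F l * x ∈ S ∧ x * ge F l ∈ S) (a : NA F (Fin 3)) {x : NA F (Fin 3)}
    (hx : x ∈ S) : a * x ∈ S ∧ x * a ∈ S := by
  let Q : AddSubgroup (BQ F) := S.toAddSubgroup.map (qm F : _ →+ _)
  have hQ : ∀ g, qm F g ∈ Q ↔ g ∈ S := by
    intro g
    constructor
    · rintro ⟨h, hh, he⟩
      have h1 : g - h ∈ I0 F := (qm_eq _ _).mp he.symm
      rw [← sub_add_cancel g h]
      exact add_mem (h0 h1) hh
    · intro h
      exact ⟨g, h, rfl⟩
  have := closureG (qm F) Q (by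
    rintro l c _ ⟨y, hy, rfl⟩
    have h1 := h l y hy
    have e1 : (MonoidAlgebra.single (FreeMagma.of l) c : NA F (Fin 3)) = c • ge F l := by
      simp [ge]
    rw [e1]
    show qm F (c • ge F l) * qm F y ∈ Q ∧ qm F y * qm F (c • ge F l) ∈ Q
    rw [← map_mul, ← map_mul, smul_mul_assoc, mul_smul_comm, hQ, hQ]
    exact ⟨Submodule.smul_mem _ _ h1.1, Submodule.smul_mem _ _ h1.2⟩) a (qm F x) ((hQ x).mpr hx)
  rwa [← map_mul, ← map_mul, hQ, hQ] at this

/-- the part of the ideal without brackets-free image -/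
def JJ : Submodule F (NA F (Fin 3)) :=
  LinearMap.ker (psi F (Fin 3) : NA F (Fin 3) →ₗ[F] AS F (Fin 3)) ⊓
    (FF p f).comap (ph F p : NA F (Fin 3) →ₗ[F] Oct K)

theorem mem_JJ (g : NA F (Fin 3)) : g ∈ JJ p f ↔ psi F (Fin 3) g = 0 ∧ ph F p g ∈ FF p f :=
  Iff.rfl

theorem JJ_mul (a : NA F (Fin 3)) {x : NA F (Fin 3)} (hx : x ∈ JJ p f) :
    a * x ∈ JJ p f ∧ x * a ∈ JJ p f := by
  rw [mem_JJ] at hx
  rw [mem_JJ, mem_JJ, map_mul, map_mul, map_mul, map_mul, hx.1, mul_zero, zero_mul]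
  have := (gen_Bim p _ : Bim p (FF p f)) a _ hx.2
  exact ⟨⟨rfl, this.1⟩, ⟨rfl, this.2⟩⟩

theorem I0_le_JJ : I0 F ≤ JJ p f := by
  intro x hx
  rw [mem_JJ, psi_I0 hx, ph_I0 p hx]
  exact ⟨rfl, zero_mem _⟩

/-- elements behaving as nuclear elements -/
def Nn : Submodule F (NA F (Fin 3)) where
  carrier := {g | (∀ a b : NA F (Fin 3), asc (ph F p g) (ph F p a) (ph F p b) ∈ FF p f) ∧
    ∀ d ∈ D3 F p, ph F p g * d ∈ FF p f ∧ d * ph F p g ∈ FF p f}
  zero_mem' := by
    refine ⟨fun a b => ?_, fun d _ => ?_⟩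
    · rw [map_zero]; unfold asc; simp
    · rw [map_zero, zero_mul, mul_zero]; exact ⟨zero_mem _, zero_mem _⟩
  add_mem' := by
    rintro x y ⟨h1, h2⟩ ⟨h3, h4⟩
    refine ⟨fun a b => ?_, fun d hd => ?_⟩
    · rw [map_add, asc_add1]; exact add_mem (h1 a b) (h3 a b)
    · rw [map_add, add_mul, mul_add]
      exact ⟨add_mem (h2 d hd).1 (h4 d hd).1, add_mem (h2 d hd).2 (h4 d hd).2⟩
  smul_mem' := by
    rintro c x ⟨h1, h2⟩
    refine ⟨fun a b => ?_, fun d hd => ?_⟩
    · have : asc (ph F p (c • x)) (ph F p a) (ph F p b) =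
          c • asc (ph F p x) (ph F p a) (ph F p b) := by
        rw [map_smul]; unfold asc
        rw [smul_mul_assoc, smul_mul_assoc, smul_mul_assoc, smul_sub]
      rw [this]; exact Submodule.smul_mem _ _ (h1 a b)
    · rw [map_smul, smul_mul_assoc, mul_smul_comm]
      exact ⟨Submodule.smul_mem _ _ (h2 d hd).1, Submodule.smul_mem _ _ (h2 d hd).2⟩

theorem f_Nn : f ∈ Nn p f := by
  refine ⟨fun a b => subset_gen p (Or.inr ⟨a, b, rfl⟩), fun d hd => ?_⟩
  exact ⟨subset_gen p (Or.inl ⟨d, hd, Or.inl rfl⟩), subset_gen p (Or.inl ⟨d, hd, Or.inr rfl⟩)⟩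

variable {p f}

theorem Nn_mul (a : NA F (Fin 3)) {x : NA F (Fin 3)} (hx : x ∈ Nn p f) :
    a * x ∈ Nn p f ∧ x * a ∈ Nn p f := by
  obtain ⟨h1, h2⟩ := hx
  have hB : ∀ a : NA F (Fin 3), ∀ x ∈ FF p f, ph F p a * x ∈ FF p f ∧ x * ph F p a ∈ FF p f :=
    gen_Bim p _
  have hfK : ∀ b c : NA F (Fin 3), fK (ph F p a) (ph F p x) (ph F p b) (ph F p c) ∈ FF p f := by
    intro b c
    rw [← fK_shift2 (ph F p a) (ph F p x) (ph F p b) (ph F p c)]
    unfold fK
    rw [← map_mul, asc_cyc (ph F p x) (ph F p (b * c)) (ph F p a),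
      asc_cyc (ph F p x) (ph F p b) (ph F p a), asc_cyc (ph F p x) (ph F p c) (ph F p a)]
    exact sub_mem (sub_mem (h1 _ _) (hB c _ (h1 _ _)).1) (hB b _ (h1 _ _)).2
  have hD : ∀ d ∈ D3 F p, ∀ b, asc (ph F p x) d (ph F p b) ∈ FF p f := by
    intro d hd b
    obtain ⟨k, _, rfl⟩ := (mem_D3 p d).mp hd
    exact h1 k b
  constructor
  · refine ⟨fun b c => ?_, fun d hd => ?_⟩
    · rw [map_mul]
      have e : asc (ph F p a * ph F p x) (ph F p b) (ph F p c) =
          fK (ph F p a) (ph F p x) (ph F p b) (ph F p c) +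
          ph F p x * asc (ph F p a) (ph F p b) (ph F p c) +
          asc (ph F p x) (ph F p b) (ph F p c) * ph F p a := by
        unfold fK; abel
      rw [e]
      exact add_mem (add_mem (hfK b c) (h2 _ (asc_D3 p a b c)).1) (hB a _ (h1 b c)).2
    · rw [map_mul]
      have h3 := h2 d hd
      have h4 := D3_Bim p a d hd
      constructor
      · have e : (ph F p a * ph F p x) * d = ph F p a * (ph F p x * d) +
            asc (ph F p a) (ph F p x) d := by unfold asc; abel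
        rw [e, ← asc_cyc (ph F p a) (ph F p x) d]
        exact add_mem (hB a _ h3.1).1 (hD d hd a)
      · have e : d * (ph F p a * ph F p x) = (d * ph F p a) * ph F p x -
            asc d (ph F p a) (ph F p x) := by unfold asc; abel
        rw [e, asc_cyc (ph F p x) d (ph F p a)]
        exact sub_mem (h2 _ h4.2).2 (hD d hd a)
  · refine ⟨fun b c => ?_, fun d hd => ?_⟩
    · rw [map_mul]
      have e : asc (ph F p x * ph F p a) (ph F p b) (ph F p c) =
          fK (ph F p x) (ph F p a) (ph F p b) (ph F p c) +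
          ph F p a * asc (ph F p x) (ph F p b) (ph F p c) +
          asc (ph F p a) (ph F p b) (ph F p c) * ph F p x := by
        unfold fK; abel
      rw [e, fK_swap12]
      exact add_mem (add_mem (neg_mem (hfK b c)) (hB a _ (h1 b c)).1) (h2 _ (asc_D3 p a b c)).2
    · rw [map_mul]
      have h3 := h2 d hd
      have h4 := D3_Bim p a d hd
      constructor
      · have e : (ph F p x * ph F p a) * d = ph F p x * (ph F p a * d) +
            asc (ph F p x) (ph F p a) d := by unfold asc; abel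
        rw [e, asc_swap23 (ph F p x) d (ph F p a)]
        exact add_mem (h2 _ h4.1).1 (neg_mem (hD d hd a))
      · have e : d * (ph F p x * ph F p a) = (d * ph F p x) * ph F p a -
            asc d (ph F p x) (ph F p a) := by unfold asc; abel
        rw [e, asc_swap12 (ph F p x) d (ph F p a)]
        exact sub_mem (hB a _ h3.2).2 (neg_mem (hD d hd a))

theorem Nn_asc {x : NA F (Fin 3)} (hx : x ∈ Nn p f) (a b : NA F (Fin 3)) :
    asc x a b ∈ JJ p f ∧ asc a x b ∈ JJ p f ∧ asc a b x ∈ JJ p f := by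
  have h0 : ∀ x y z : NA F (Fin 3), psi F (Fin 3) (asc x y z) = 0 := by
    intro x y z
    unfold asc
    rw [map_sub, map_mul, map_mul, map_mul, map_mul, mul_assoc, sub_self]
  rw [mem_JJ, mem_JJ, mem_JJ, ph_asc, ph_asc, ph_asc]
  refine ⟨⟨h0 _ _ _, hx.1 a b⟩, ⟨h0 _ _ _, ?_⟩, ⟨h0 _ _ _, ?_⟩⟩
  · rw [asc_swap12 (ph F p x) (ph F p a)]; exact neg_mem (hx.1 a b)
  · rw [asc_cyc (ph F p x) (ph F p a) (ph F p b)]; exact hx.1 a b

theorem Nn_D {x k : NA F (Fin 3)} (hx : x ∈ Nn p f) (hk : psi F (Fin 3) k = 0) :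
    x * k ∈ JJ p f ∧ k * x ∈ JJ p f := by
  rw [mem_JJ, mem_JJ, map_mul, map_mul, map_mul, map_mul, hk, mul_zero, zero_mul]
  have := hx.2 _ ((mem_D3 p _).mpr ⟨k, hk, rfl⟩)
  exact ⟨⟨rfl, this.1⟩, ⟨rfl, this.2⟩⟩

/-- left multiplications by the letters of a word -/
def Lm (F : Type) [Field F] : List (Fin 3) → (NA F (Fin 3) →ₗ[F] NA F (Fin 3))
  | [] => LinearMap.id
  | i :: P => (LinearMap.mulLeft F (ge F i)) ∘ₗ Lm F P

/-- right multiplications by the letters of a word -/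
def Rm (F : Type) [Field F] : List (Fin 3) → (NA F (Fin 3) →ₗ[F] NA F (Fin 3))
  | [] => LinearMap.id
  | i :: Q => Rm F Q ∘ₗ (LinearMap.mulRight F (ge F i))

theorem Lm_cons (i : Fin 3) (P : List (Fin 3)) (x : NA F (Fin 3)) :
    Lm F (i :: P) x = ge F i * Lm F P x := rfl

theorem Rm_cons (i : Fin 3) (Q : List (Fin 3)) (x : NA F (Fin 3)) :
    Rm F (i :: Q) x = Rm F Q (x * ge F i) := rfl

theorem Lm_append (P P' : List (Fin 3)) (x : NA F (Fin 3)) :
    Lm F (P ++ P') x = Lm F P (Lm F P' x) := by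
  induction P with
  | nil => rfl
  | cons i P ih => rw [List.cons_append, Lm_cons, Lm_cons, ih]

theorem Rm_append (Q Q' : List (Fin 3)) (x : NA F (Fin 3)) :
    Rm F (Q ++ Q') x = Rm F Q' (Rm F Q x) := by
  induction Q generalizing x with
  | nil => rfl
  | cons i Q ih => rw [List.cons_append, Rm_cons, Rm_cons, ih]

theorem Lm_mem {S : Submodule F (NA F (Fin 3))} (h : ∀ a : NA F (Fin 3), ∀ x ∈ S,
    a * x ∈ S ∧ x * a ∈ S) (P : List (Fin 3)) {x : NA F (Fin 3)} (hx : x ∈ S) : Lm F P x ∈ S := by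
  induction P with
  | nil => exact hx
  | cons i P ih => exact (h _ _ ih).1

theorem Rm_mem {S : Submodule F (NA F (Fin 3))} (h : ∀ a : NA F (Fin 3), ∀ x ∈ S,
    a * x ∈ S ∧ x * a ∈ S) (Q : List (Fin 3)) {x : NA F (Fin 3)} (hx : x ∈ S) : Rm F Q x ∈ S := by
  induction Q generalizing x with
  | nil => exact hx
  | cons i Q ih => exact ih (h _ _ hx).2

/-- congruence -/
def Eqv (p : Fin 10 → K) (f x y : NA F (Fin 3)) : Prop := x - y ∈ JJ p f

theorem Eqv.refl (x : NA F (Fin 3)) : Eqv p f x x := by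
  unfold Eqv; rw [sub_self]; exact zero_mem _

theorem Eqv.symm {x y : NA F (Fin 3)} (h : Eqv p f x y) : Eqv p f y x := by
  unfold Eqv at *; rw [← neg_sub]; exact neg_mem h

theorem Eqv.trans {x y z : NA F (Fin 3)} (h : Eqv p f x y) (h' : Eqv p f y z) :
    Eqv p f x z := by
  unfold Eqv at *
  have := add_mem h h'
  rwa [sub_add_sub_cancel] at this

theorem Eqv.mulL {x y : NA F (Fin 3)} (h : Eqv p f x y) (a : NA F (Fin 3)) :
    Eqv p f (a * x) (a * y) := by
  unfold Eqv at *; rw [← mul_sub]; exact (JJ_mul p f a h).1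

theorem Eqv.mulR {x y : NA F (Fin 3)} (h : Eqv p f x y) (a : NA F (Fin 3)) :
    Eqv p f (x * a) (y * a) := by
  unfold Eqv at *; rw [← sub_mul]; exact (JJ_mul p f a h).2

theorem Eqv.Lm {x y : NA F (Fin 3)} (h : Eqv p f x y) (P : List (Fin 3)) :
    Eqv p f (Lm F P x) (Lm F P y) := by
  unfold Eqv at *; rw [← map_sub]; exact Lm_mem (fun a _ hx => JJ_mul p f a hx) P h

theorem Eqv.Rm {x y : NA F (Fin 3)} (h : Eqv p f x y) (P : List (Fin 3)) :
    Eqv p f (Rm F P x) (Rm F P y) := by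
  unfold Eqv at *; rw [← map_sub]; exact Rm_mem (fun a _ hx => JJ_mul p f a hx) P h

theorem Eqv.asc1 {x : NA F (Fin 3)} (hx : x ∈ Nn p f) (a b : NA F (Fin 3)) :
    Eqv p f ((x * a) * b) (x * (a * b)) := (Nn_asc hx a b).1

theorem Eqv.asc2 {x : NA F (Fin 3)} (hx : x ∈ Nn p f) (a b : NA F (Fin 3)) :
    Eqv p f ((a * x) * b) (a * (x * b)) := (Nn_asc hx a b).2.1

theorem Eqv.asc3 {x : NA F (Fin 3)} (hx : x ∈ Nn p f) (a b : NA F (Fin 3)) :
    Eqv p f ((a * b) * x) (a * (b * x)) := (Nn_asc hx a b).2.2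

theorem mul_Rm {x : NA F (Fin 3)} (hx : x ∈ Nn p f) (Q : List (Fin 3)) (y : NA F (Fin 3)) :
    Eqv p f (x * Rm F Q y) (Rm F Q (x * y)) := by
  induction Q generalizing y with
  | nil => exact Eqv.refl _
  | cons i Q ih =>
    rw [Rm_cons, Rm_cons]
    exact (ih (y * ge F i)).trans ((Eqv.asc1 hx y (ge F i)).symm.Rm Q)

theorem mul_Rm' {x : NA F (Fin 3)} (a : NA F (Fin 3)) (hx : x ∈ Nn p f) (Q : List (Fin 3)) :
    Eqv p f (a * Rm F Q x) (Rm F Q (a * x)) := by
  induction Q generalizing x with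
  | nil => exact Eqv.refl _
  | cons i Q ih =>
    rw [Rm_cons, Rm_cons]
    exact (ih (Nn_mul (ge F i) hx).2).trans ((Eqv.asc2 hx a (ge F i)).symm.Rm Q)

theorem Rm_mul {x : NA F (Fin 3)} (hx : x ∈ Nn p f) (V : List (Fin 3)) (y : NA F (Fin 3)) :
    Eqv p f (Rm F V y * x) (y * Lm F V x) := by
  induction V generalizing y with
  | nil => exact Eqv.refl _
  | cons i V ih =>
    rw [Rm_cons, Lm_cons]
    exact (ih (y * ge F i)).trans
      (Eqv.asc3 (Lm_mem (fun a _ hx => Nn_mul a hx) V hx) y (ge F i))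

theorem Lm_mul {x : NA F (Fin 3)} (hx : x ∈ Nn p f) (P : List (Fin 3)) (y : NA F (Fin 3)) :
    Eqv p f (Lm F P y * x) (Lm F P (y * x)) := by
  induction P with
  | nil => exact Eqv.refl _
  | cons i P ih =>
    rw [Lm_cons, Lm_cons]
    exact (Eqv.asc3 hx (ge F i) (Lm F P y)).trans (ih.mulL (ge F i))

/-- left-normed word -/
def lw (F : Type) [Field F] : List (Fin 3) → NA F (Fin 3)
  | [] => 0
  | i :: W => Rm F W (ge F i)

theorem mul_lw {x : NA F (Fin 3)} (hx : x ∈ Nn p f) {W : List (Fin 3)} (hW : W ≠ []) :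
    Eqv p f (x * lw F W) (Rm F W x) := by
  cases W with
  | nil => exact absurd rfl hW
  | cons i W => exact mul_Rm hx W (ge F i)

theorem lw_mul {x : NA F (Fin 3)} (hx : x ∈ Nn p f) {W : List (Fin 3)} (hW : W ≠ []) :
    Eqv p f (lw F W * x) (Lm F W x) := by
  cases W with
  | nil => exact absurd rfl hW
  | cons i W => exact Rm_mul hx W (ge F i)

/-- coefficients of the associative image, indexed by lists -/
def chi (F : Type) [Field F] : NA F (Fin 3) →ₗ[F] (List (Fin 3) →₀ F) :=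
  (Finsupp.lmapDomain F F lets) ∘ₗ
    ((MonoidAlgebra.coeffLinearEquiv F : MonoidAlgebra F (FreeSemigroup (Fin 3)) ≃ₗ[F]
      (FreeSemigroup (Fin 3) →₀ F)) : AS F (Fin 3) →ₗ[F] (FreeSemigroup (Fin 3) →₀ F)) ∘ₗ
    (psi F (Fin 3) : NA F (Fin 3) →ₗ[F] AS F (Fin 3))

end

end Pool.Agent.Helper120_Alt.R3
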