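import Pool.Agent.Helper120_Alt.R3.Ov3

set_option autoImplicit false

/-! Normal forms in the ideal. -/

namespace Pool.Agent.Helper120_Alt.R3

open Pool.Agent.Helper895.Alt

noncomputable section

variable {F : Type} [Field F]

theorem chi_single (m : FreeMagma (Fin 3)) (c : F) :
    chi F (MonoidAlgebra.single m c) =
      Finsupp.single (lets (FreeMagma.toFreeSemigroup m)) c := by
  show Finsupp.mapDomain lets (psi F (Fin 3) (MonoidAlgebra.single m c)).coeff = _
  rw [psi_single, MonoidAlgebra.coeff_single, Finsupp.mapDomain_single]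

theorem lets_inj : Function.Injective (lets : FreeSemigroup (Fin 3) → List (Fin 3)) := by
  rintro ⟨a, b⟩ ⟨c, d⟩ h
  simp only [lets, List.cons.injEq] at h
  rw [h.1, h.2]

theorem chi_eq_zero (g : NA F (Fin 3)) : chi F g = 0 ↔ psi F (Fin 3) g = 0 := by
  constructor
  · intro h
    have h1 : Finsupp.mapDomain lets (psi F (Fin 3) g).coeff = Finsupp.mapDomain lets 0 := by
      rw [Finsupp.mapDomain_zero]; exact h
    have h2 := Finsupp.mapDomain_injective lets_inj h1
    exact MonoidAlgebra.coeff_eq_zero.mp h2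
  · intro h
    show Finsupp.mapDomain lets (psi F (Fin 3) g).coeff = 0
    rw [h, MonoidAlgebra.coeff_zero, Finsupp.mapDomain_zero]

theorem chi_ge_mul (i : Fin 3) (g : NA F (Fin 3)) :
    chi F (ge F i * g) = (chi F g).mapDomain (fun W => i :: W) := by
  induction g using MonoidAlgebra.induction_linear with
  | zero => simp
  | add a b ha hb => rw [mul_add, map_add, ha, hb, map_add, Finsupp.mapDomain_add]
  | single m c =>
    unfold ge
    rw [MonoidAlgebra.single_mul_single, chi_single, chi_single, Finsupp.mapDomain_single,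
      map_mul, lets_mul, one_mul]
    congr 1

theorem chi_mul_ge (i : Fin 3) (g : NA F (Fin 3)) :
    chi F (g * ge F i) = (chi F g).mapDomain (fun W => W ++ [i]) := by
  induction g using MonoidAlgebra.induction_linear with
  | zero => simp
  | add a b ha hb => rw [add_mul, map_add, ha, hb, map_add, Finsupp.mapDomain_add]
  | single m c =>
    unfold ge
    rw [MonoidAlgebra.single_mul_single, chi_single, chi_single, Finsupp.mapDomain_single,
      map_mul, lets_mul, mul_one]
    congr 1

theorem chi_Lm (P : List (Fin 3)) (g : NA F (Fin 3)) :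
    chi F (Lm F P g) = (chi F g).mapDomain (fun W => P ++ W) := by
  induction P with
  | nil =>
    have : (fun W : List (Fin 3) => [] ++ W) = id := rfl
    rw [this, Finsupp.mapDomain_id]; rfl
  | cons i P ih =>
    rw [Lm_cons, chi_ge_mul, ih, ← Finsupp.mapDomain_comp]
    rfl

theorem chi_Rm (Q : List (Fin 3)) (g : NA F (Fin 3)) :
    chi F (Rm F Q g) = (chi F g).mapDomain (fun W => W ++ Q) := by
  induction Q generalizing g with
  | nil =>
    have : (fun W : List (Fin 3) => W ++ []) = id := by funext W; simp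
    rw [this, Finsupp.mapDomain_id]; rfl
  | cons i Q ih =>
    rw [Rm_cons, ih, chi_mul_ge, ← Finsupp.mapDomain_comp]
    congr 1
    funext W
    simp

theorem chi_lw {W : List (Fin 3)} (hW : W ≠ []) : chi F (lw F W) = Finsupp.single W 1 := by
  cases W with
  | nil => exact absurd rfl hW
  | cons i W =>
    show chi F (Rm F W (ge F i)) = _
    rw [chi_Rm]
    unfold ge
    rw [chi_single, Finsupp.mapDomain_single]
    simp [lets]

theorem chi_nil (g : NA F (Fin 3)) : chi F g [] = 0 := by
  show Finsupp.mapDomain lets (psi F (Fin 3) g).coeff [] = 0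
  apply Finsupp.mapDomain_of_notMem_range
  rintro ⟨w, hw⟩
  simp [lets] at hw

theorem ne_nil_of_chi {g : NA F (Fin 3)} {W : List (Fin 3)} (h : chi F g W ≠ 0) : W ≠ [] := by
  rintro rfl
  exact h (chi_nil g)

theorem chi_sum_lw (g : NA F (Fin 3)) :
    chi F ((chi F g).sum fun W c => c • lw F W) = chi F g := by
  rw [Finsupp.sum, map_sum]
  conv_rhs => rw [← Finsupp.sum_single (chi F g)]
  rw [Finsupp.sum]
  refine Finset.sum_congr rfl fun W hW => ?_
  rw [map_smul, chi_lw (ne_nil_of_chi (Finsupp.mem_support_iff.mp hW)), Finsupp.smul_single,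
    smul_eq_mul, mul_one]

theorem psi_sub_lw (g : NA F (Fin 3)) :
    psi F (Fin 3) (g - (chi F g).sum fun W c => c • lw F W) = 0 := by
  rw [← chi_eq_zero, map_sub, chi_sum_lw, sub_self]

variable {K : Type} [Field K] [Algebra F K] {p : Fin 10 → K} {f : NA F (Fin 3)}

/-- combinations with the coefficients of the relator -/
def us (f : NA F (Fin 3)) (g : List (Fin 3) → NA F (Fin 3)) : NA F (Fin 3) :=
  (chi F f).sum fun W c => c • g W

theorem us_Eqv {g h : List (Fin 3) → NA F (Fin 3)} (H : ∀ W, W ≠ [] → Eqv p f (g W) (h W)) :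
    Eqv p f (us f g) (us f h) := by
  unfold Eqv us
  rw [Finsupp.sum, Finsupp.sum, ← Finset.sum_sub_distrib]
  apply Submodule.sum_mem
  intro W hW
  rw [← smul_sub]
  exact Submodule.smul_mem _ _ (H W (ne_nil_of_chi (Finsupp.mem_support_iff.mp hW)))

theorem mul_us (x : NA F (Fin 3)) (g : List (Fin 3) → NA F (Fin 3)) :
    x * us f g = us f fun W => x * g W := by
  unfold us
  rw [Finsupp.sum, Finset.mul_sum, Finsupp.sum]
  simp only [mul_smul_comm]

theorem us_mul (x : NA F (Fin 3)) (g : List (Fin 3) → NA F (Fin 3)) :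
    us f g * x = us f fun W => g W * x := by
  unfold us
  rw [Finsupp.sum, Finset.sum_mul, Finsupp.sum]
  simp only [smul_mul_assoc]

theorem map_us (T : NA F (Fin 3) →ₗ[F] NA F (Fin 3)) (g : List (Fin 3) → NA F (Fin 3)) :
    T (us f g) = us f fun W => T (g W) := by
  unfold us
  rw [Finsupp.sum, map_sum, Finsupp.sum]
  simp only [map_smul]

/-- the products of the relator with words -/
def G (f : NA F (Fin 3)) (P Q : List (Fin 3)) : NA F (Fin 3) := Rm F Q (Lm F P f)

theorem G_Nn (P Q : List (Fin 3)) : G f P Q ∈ Nn p f :=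
  Rm_mem (fun a _ hx => Nn_mul a hx) Q (Lm_mem (fun a _ hx => Nn_mul a hx) P (f_Nn p f))

theorem mul_f {x : NA F (Fin 3)} (hx : x ∈ Nn p f) :
    Eqv p f (x * f) (us f fun W => Rm F W x) := by
  have h1 : Eqv p f (x * f) (x * us f (lw F)) := by
    unfold Eqv
    rw [← mul_sub]
    exact (Nn_D hx (psi_sub_lw f)).1
  rw [mul_us] at h1
  exact h1.trans (us_Eqv fun W hW => mul_lw hx hW)

theorem G_mul_f (P V : List (Fin 3)) :
    Eqv p f (G f P V * f) (us f fun W => Lm F (P ++ W ++ V) f) := by
  have h0 : psi F (Fin 3) (Rm F V (Lm F P (f - us f (lw F)))) = 0 := by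
    rw [← chi_eq_zero, chi_Rm, chi_Lm]
    have : chi F (f - us f (lw F)) = 0 := by
      rw [chi_eq_zero]; exact psi_sub_lw f
    rw [this]; simp
  have h1 : Eqv p f (G f P V * f) (Rm F V (Lm F P (us f (lw F))) * f) := by
    unfold Eqv G
    rw [← sub_mul, ← map_sub, ← map_sub]
    exact (Nn_D (f_Nn p f) h0).2
  rw [map_us, map_us, us_mul] at h1
  refine h1.trans (us_Eqv fun W hW => ?_)
  refine (Rm_mul (f_Nn p f) V _).trans ?_
  have h2 : Lm F V f ∈ Nn p f := Lm_mem (fun a _ hx => Nn_mul a hx) V (f_Nn p f)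
  refine (Lm_mul h2 P _).trans ?_
  refine ((lw_mul h2 hW).Lm P).trans ?_
  rw [List.append_assoc, Lm_append, Lm_append]
  exact Eqv.refl _

/-- moving the relator to the right -/
theorem star (P V Q : List (Fin 3)) :
    Eqv p f (us f fun W => G f P (V ++ W ++ Q)) (us f fun W => G f (P ++ W ++ V) Q) := by
  have h0 : G f P V ∈ Nn p f := G_Nn P V
  have h1 := ((mul_f h0).symm.trans (G_mul_f P V)).Rm Q
  rw [map_us, map_us] at h1
  have h2 : (fun W => Rm F Q (Rm F W (G f P V))) = fun W => G f P (V ++ W ++ Q) := by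
    funext W
    unfold G
    rw [Rm_append, Rm_append]
  rw [h2] at h1
  exact h1

theorem JJ_sub {p : Fin 10 → K} {f : NA F (Fin 3)} (x : NA F (Fin 3)) {y : NA F (Fin 3)} {S : Submodule F (NA F (Fin 3))}
    (hS : JJ p f ≤ S) (h : Eqv p f x y) (hy : y ∈ S) : x ∈ S := by
  rw [← sub_add_cancel x y]
  exact add_mem (hS h) hy

/-- the span of the normal products -/
def Sn (p : Fin 10 → K) (f : NA F (Fin 3)) (m0 : List (Fin 3)) : Submodule F (NA F (Fin 3)) :=
  Submodule.span F (Set.range fun x : {x : List (Fin 3) × List (Fin 3) // ¬ m0 <:+: x.2} =>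
    G f x.1.1 x.1.2) ⊔ JJ p f

/-- hypotheses on the leading word -/
structure Lead (f : NA F (Fin 3)) (lt : List (Fin 3) → List (Fin 3) → Prop)
    (m0 : List (Fin 3)) : Prop where
  wf : WellFounded lt
  comp : ∀ a b c d : List (Fin 3), lt a b → lt (c ++ a ++ d) (c ++ b ++ d)
  lead : chi F f m0 ≠ 0
  low : ∀ W, chi F f W ≠ 0 → W ≠ m0 → lt W m0
  no : ∀ a b c : List (Fin 3), m0 = a ++ b → m0 = b ++ c → b = [] ∨ a = []

variable {lt : List (Fin 3) → List (Fin 3) → Prop} {m0 : List (Fin 3)}

theorem G_Sn (h : Lead f lt m0) (T : List (Fin 3)) : ∀ (n : ℕ) (P Q : List (Fin 3)),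
    Q.length = n → P ++ m0 ++ Q = T → G f P Q ∈ Sn p f m0 := by
  induction T using h.wf.induction with
  | _ T ihT =>
    intro n
    induction n using Nat.strong_induction_on with
    | _ n ihn =>
      intro P Q hn hT
      by_cases hQ : m0 <:+: Q
      · obtain ⟨V, Q', rfl⟩ := hQ
        have e : G f P (V ++ m0 ++ Q') = (chi F f m0)⁻¹ •
            ((us f fun W => G f P (V ++ W ++ Q')) -
              (((chi F f).erase m0).sum fun W c => c • G f P (V ++ W ++ Q'))) := by
          have h1 : (us f fun W => G f P (V ++ W ++ Q')) =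
              chi F f m0 • G f P (V ++ m0 ++ Q') +
              (((chi F f).erase m0).sum fun W c => c • G f P (V ++ W ++ Q')) := by
            unfold us
            rw [Finsupp.add_sum_erase' (chi F f) m0 (fun W c => c • G f P (V ++ W ++ Q'))]
            intro j; exact zero_smul _ _
          rw [h1, add_sub_cancel_right, smul_smul, inv_mul_cancel₀ h.lead, one_smul]
        rw [e]
        apply Submodule.smul_mem
        apply Submodule.sub_mem
        · apply JJ_sub _ le_sup_right (star P V Q')
          apply Submodule.sum_mem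
          intro W hW
          apply Submodule.smul_mem
          rw [Finsupp.mem_support_iff] at hW
          by_cases hWm : W = m0
          · subst hWm
            refine ihn Q'.length ?_ _ _ rfl ?_
            · have := List.length_pos_of_ne_nil (ne_nil_of_chi hW)
              rw [← hn]; simp; omega
            · rw [← hT]; simp
          · refine ihT (P ++ W ++ V ++ m0 ++ Q') ?_ _ _ _ rfl rfl
            have := h.comp W m0 P (V ++ m0 ++ Q') (h.low W hW hWm)
            rw [← hT]
            simpa using this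
        · apply Submodule.sum_mem
          intro W hW
          apply Submodule.smul_mem
          rw [Finsupp.mem_support_iff] at hW
          have hWm : W ≠ m0 := by
            rintro rfl
            rw [Finsupp.erase_same] at hW
            exact hW rfl
          rw [Finsupp.erase_ne hWm] at hW
          refine ihT (P ++ m0 ++ (V ++ W ++ Q')) ?_ _ _ _ rfl rfl
          have := h.comp W m0 (P ++ m0 ++ V) Q' (h.low W hW hWm)
          rw [← hT]
          simpa using this
      · exact Submodule.mem_sup_left (Submodule.subset_span ⟨⟨(P, Q), hQ⟩, rfl⟩)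

theorem G_Sn' (h : Lead f lt m0) (P Q : List (Fin 3)) : G f P Q ∈ Sn p f m0 :=
  G_Sn h _ _ P Q rfl rfl

theorem Sn_mul (h : Lead f lt m0) (a : NA F (Fin 3)) {x : NA F (Fin 3)} (hx : x ∈ Sn p f m0) :
    a * x ∈ Sn p f m0 ∧ x * a ∈ Sn p f m0 := by
  refine closureNA (Sn p f m0) ((I0_le_JJ p f).trans le_sup_right) ?_ a hx
  intro l x hx
  have h1 : ∀ x ∈ Submodule.span F (Set.range
      fun x : {x : List (Fin 3) × List (Fin 3) // ¬ m0 <:+: x.2} => G f x.1.1 x.1.2),
      ge F l * x ∈ Sn p f m0 ∧ x * ge F l ∈ Sn p f m0 := by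
    intro x hx
    induction hx using Submodule.span_induction with
    | mem x hx =>
      obtain ⟨⟨⟨P, Q⟩, hQ⟩, rfl⟩ := hx
      constructor
      · have h2 : Eqv p f (ge F l * G f P Q) (G f (l :: P) Q) :=
          mul_Rm' (ge F l) (Lm_mem (fun a _ hx => Nn_mul a hx) P (f_Nn p f)) Q
        exact JJ_sub _ le_sup_right h2 (G_Sn' h _ _)
      · have h2 : G f P Q * ge F l = G f P (Q ++ [l]) := by
          unfold G; rw [Rm_append]; rfl
        show G f P Q * ge F l ∈ _
        rw [h2]; exact G_Sn' h _ _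
    | zero => rw [mul_zero, zero_mul]; exact ⟨zero_mem _, zero_mem _⟩
    | add x y _ _ hx hy =>
      rw [mul_add, add_mul]
      exact ⟨add_mem hx.1 hy.1, add_mem hx.2 hy.2⟩
    | smul a x _ hx =>
      rw [mul_smul_comm, smul_mul_assoc]
      exact ⟨Submodule.smul_mem _ _ hx.1, Submodule.smul_mem _ _ hx.2⟩
  obtain ⟨y, hy, z, hz, rfl⟩ := Submodule.mem_sup.mp hx
  rw [mul_add, add_mul]
  have h2 := JJ_mul p f (ge F l) hz
  exact ⟨add_mem (h1 y hy).1 (Submodule.mem_sup_right h2.1),
    add_mem (h1 y hy).2 (Submodule.mem_sup_right h2.2)⟩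

theorem ideal_le_Sn (h : Lead f lt m0) : altIdeal F (Fin 3) {f} ≤ Sn p f m0 := by
  apply idl_le
  · rintro x (hx | hx)
    · exact Submodule.mem_sup_right (I0_le_JJ p f (subset_idl _ hx))
    · rw [Set.mem_singleton_iff] at hx
      subst hx
      exact G_Sn' h [] []
  · intro a x hx
    exact Sn_mul h a hx

/-- the words are determined by their decompositions -/
theorem key_inj (hno : ∀ a b c : List (Fin 3), m0 = a ++ b → m0 = b ++ c → b = [] ∨ a = [])
    {P Q P' Q' : List (Fin 3)} (hQ' : ¬ m0 <:+: Q')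
    (h : P ++ m0 ++ Q = P' ++ m0 ++ Q') (hle : Q.length ≤ Q'.length) : P = P' ∧ Q = Q' := by
  rw [List.append_assoc, List.append_assoc] at h
  obtain ⟨D, hD, hD'⟩ : ∃ D, P = P' ++ D ∧ m0 ++ Q' = D ++ (m0 ++ Q) := by
    rcases List.append_eq_append_iff.mp h with ⟨a, ha, hb⟩ | ⟨c, hc, hd⟩
    · refine ⟨[], ?_, ?_⟩
      · have h1 := congrArg List.length hb
        simp at h1
        have : a = [] := by
          apply List.eq_nil_of_length_eq_zero; omega
        rw [ha, this]; simp
      · have h1 := congrArg List.length hb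
        simp at h1
        have : a = [] := by
          apply List.eq_nil_of_length_eq_zero; omega
        rw [this] at hb
        simpa using hb.symm
    · exact ⟨c, hc, hd⟩
  by_cases hDn : D = []
  · subst hDn
    refine ⟨by simpa using hD, ?_⟩
    simpa using hD'.symm
  · exfalso
    rcases List.append_eq_append_iff.mp hD' with ⟨a, ha, hb⟩ | ⟨c, hc, hd⟩
    · -- D = m0 ++ a
      apply hQ'
      rw [hb]
      exact ⟨a, Q, by simp⟩
    · -- m0 = D ++ c, m0 ++ Q = c ++ Q'
      rcases List.append_eq_append_iff.mp hd with ⟨b, hb1, hb2⟩ | ⟨b, hb1, hb2⟩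
      · have h1 := congrArg List.length hb1
        have h2 := congrArg List.length hc
        have h3 := List.length_pos_of_ne_nil hDn
        simp at h1 h2
        omega
      · rcases hno D c b hc hb1 with h1 | h1
        · subst h1
          apply hQ'
          simp at hb1
          rw [hb2, hb1]
          exact ⟨[], Q, by simp⟩
        · exact hDn h1

/-- the leading word of a combination of normal products -/
theorem lead_comb [IsStrictTotalOrder (List (Fin 3)) lt] (h : Lead f lt m0)
    (c : {x : List (Fin 3) × List (Fin 3) // ¬ m0 <:+: x.2} →₀ F) (hc : c ≠ 0) :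
    ∃ T : List (Fin 3), m0 <:+: T ∧
      chi F (c.sum fun x a => a • G f x.1.1 x.1.2) T ≠ 0 ∧
      ∀ T', chi F (c.sum fun x a => a • G f x.1.1 x.1.2) T' ≠ 0 → T' ≠ T → lt T' T := by
  have hk : Function.Injective
      (fun x : {x : List (Fin 3) × List (Fin 3) // ¬ m0 <:+: x.2} => x.1.1 ++ m0 ++ x.1.2) := by
    rintro ⟨⟨P, Q⟩, hQ⟩ ⟨⟨P', Q'⟩, hQ'⟩ he
    simp only at he
    rcases le_total Q.length Q'.length with hle | hle
    · have := key_inj h.no hQ' he hle
      simp [this.1, this.2]
    · have := key_inj h.no hQ he.symm hle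
      simp [this.1, this.2]
  obtain ⟨i, hi, hmax⟩ := exists_top lt _ hk hc
  have hG : ∀ (P Q T : List (Fin 3)), chi F (G f P Q) T ≠ 0 → T ≠ P ++ m0 ++ Q →
      lt T (P ++ m0 ++ Q) := by
    intro P Q T hT hne
    unfold G at hT
    rw [chi_Rm, chi_Lm, ← Finsupp.mapDomain_comp] at hT
    by_cases hr : T ∈ Set.range ((fun W => W ++ Q) ∘ fun W => P ++ W)
    · obtain ⟨W, rfl⟩ := hr
      have hinj : Function.Injective ((fun W => W ++ Q) ∘ fun W => P ++ W) := by
        intro a b hab
        simpa using hab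
      rw [Finsupp.mapDomain_apply hinj] at hT
      apply h.comp
      apply h.low W hT
      rintro rfl
      exact hne rfl
    · exact absurd (Finsupp.mapDomain_of_notMem_range _ _ hr) hT
  have hG0 : ∀ (P Q : List (Fin 3)), chi F (G f P Q) (P ++ m0 ++ Q) = chi F f m0 := by
    intro P Q
    unfold G
    rw [chi_Rm, chi_Lm, ← Finsupp.mapDomain_comp]
    have hinj : Function.Injective ((fun W => W ++ Q) ∘ fun W => P ++ W) := by
      intro a b hab
      simpa using hab
    exact Finsupp.mapDomain_apply hinj _ m0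
  have hsum : ∀ T, chi F (c.sum fun x a => a • G f x.1.1 x.1.2) T =
      c.sum fun x a => a * chi F (G f x.1.1 x.1.2) T := by
    intro T
    rw [Finsupp.sum, map_sum, Finsupp.finsetSum_apply, Finsupp.sum]
    simp
  refine ⟨i.1.1 ++ m0 ++ i.1.2, ⟨_, _, rfl⟩, ?_, ?_⟩
  · rw [hsum, Finsupp.sum, Finset.sum_eq_single i]
    · rw [hG0]; exact mul_ne_zero hi h.lead
    · intro j hj hji
      rw [Finsupp.mem_support_iff] at hj
      by_contra h0
      have h1 := right_ne_zero_of_mul h0
      have h2 := hmax j hj hji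
      by_cases h3 : i.1.1 ++ m0 ++ i.1.2 = j.1.1 ++ m0 ++ j.1.2
      · exact hji (hk h3.symm)
      · exact asymm (r := lt) h2 (hG _ _ _ h1 h3)
    · intro hi'
      exact absurd (Finsupp.mem_support_iff.mpr hi) hi'
  · intro T' hT' hne
    rw [hsum, Finsupp.sum] at hT'
    obtain ⟨j, hj, hj'⟩ := Finset.exists_ne_zero_of_sum_ne_zero hT'
    rw [Finsupp.mem_support_iff] at hj
    have h1 := right_ne_zero_of_mul hj'
    by_cases hji : j = i
    · subst hji
      exact hG _ _ _ h1 hne
    · have h2 := hmax j hj hji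
      by_cases h3 : T' = j.1.1 ++ m0 ++ j.1.2
      · rw [h3]; exact h2
      · exact _root_.trans (r := lt) (hG _ _ _ h1 h3) h2

/-- elements of the ideal without associative part -/
theorem ideal_JJ [IsStrictTotalOrder (List (Fin 3)) lt] (h : Lead f lt m0) {g : NA F (Fin 3)}
    (hg : g ∈ altIdeal F (Fin 3) {f}) (h0 : psi F (Fin 3) g = 0) : g ∈ JJ p f := by
  obtain ⟨y, hy, z, hz, rfl⟩ := Submodule.mem_sup.mp (ideal_le_Sn (p := p) h hg)
  obtain ⟨c, rfl⟩ := Finsupp.mem_span_range_iff_exists_finsupp.mp hy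
  by_cases hc : c = 0
  · subst hc
    rw [Finsupp.sum_zero_index, zero_add]
    exact hz
  · exfalso
    obtain ⟨T, _, hT, _⟩ := lead_comb h c hc
    apply hT
    rw [← chi_eq_zero, map_add, (chi_eq_zero z).mpr hz.1, add_zero] at h0
    rw [h0]; rfl

/-- leading words of elements of the ideal contain the leading word of the relator -/
theorem ideal_lead [IsStrictTotalOrder (List (Fin 3)) lt] (p : Fin 10 → K) (h : Lead f lt m0)
    {g : NA F (Fin 3)} (hg : g ∈ altIdeal F (Fin 3) {f}) {T : List (Fin 3)}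
    (hT : chi F g T ≠ 0) (hm : ∀ T', chi F g T' ≠ 0 → T' ≠ T → lt T' T) : m0 <:+: T := by
  obtain ⟨y, hy, z, hz, rfl⟩ := Submodule.mem_sup.mp (ideal_le_Sn (p := p) h hg)
  obtain ⟨c, rfl⟩ := Finsupp.mem_span_range_iff_exists_finsupp.mp hy
  rw [map_add, (chi_eq_zero z).mpr hz.1, add_zero] at hT hm
  by_cases hc : c = 0
  · subst hc
    rw [Finsupp.sum_zero_index, map_zero] at hT
    exact absurd rfl hT
  · obtain ⟨T0, h0, hT0, hm0⟩ := lead_comb h c hc
    by_cases he : T0 = T
    · rw [← he]; exact h0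
    · exact absurd (hm T0 hT0 he) (asymm (r := lt) (hm0 T hT (Ne.symm he)))

end

end Pool.Agent.Helper120_Alt.R3
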