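import Pool.Agent.Helper120_Alt.R3.Free3

set_option autoImplicit false

/-! The generic point of the free alternative algebra with three generators. -/

namespace Pool.Agent.Helper120_Alt.R3

open Pool.Agent.Helper895.Alt

noncomputable section

variable {F : Type} [Field F] {K : Type} [Field K] [Algebra F K]

instance : IsScalarTower F K (Oct K) where
  smul_assoc r k x := by
    simp only [smul_def', smul_eq_mul, Oct.mk.injEq, Algebra.smul_def]
    refine ⟨?_, ?_, ?_, ?_, ?_, ?_, ?_, ?_⟩ <;> ring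

/-- monomials in the invariants -/
def mon (p : Fin 10 → K) (α : Fin 10 → ℕ) : K := ∏ i, iv p i ^ α i

/-- a generic point -/
structure Gp (F : Type) [Field F] {K : Type} [Field K] [Algebra F K] (p : Fin 10 → K) : Prop where
  h1 : p 1 ≠ 0
  h4 : p 4 ≠ 0
  h9 : p 9 ≠ 0
  h2 : (2 : F) ≠ 0
  h2K : (2 : K) ≠ 0
  li : LinearIndependent F (mon p)

/-- the evaluation -/
def ph (F : Type) [Field F] {K : Type} [Field K] [Algebra F K] (p : Fin 10 → K) :
    NA F (Fin 3) →ₙₐ[F] Oct K :=
  MonoidAlgebra.liftMagma F (FreeMagma.lift (fm p))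

theorem ph_ge (p : Fin 10 → K) (i : Fin 3) : ph F p (ge F i) = fm p i := by
  simp [ph, ge]

theorem ph_letter (p : Fin 10 → K) (i : Fin 3) (c : F) :
    ph F p (MonoidAlgebra.single (FreeMagma.of i) c) = c • fm p i := by
  rw [single_eq_smul, map_smul]
  congr 1
  exact ph_ge p i

theorem ph_asc (p : Fin 10 → K) (x y z : NA F (Fin 3)) :
    ph F p (asc x y z) = asc (ph F p x) (ph F p y) (ph F p z) := by
  simp [asc]

theorem ph_I0 (p : Fin 10 → K) {g : NA F (Fin 3)} (h : g ∈ I0 F) : ph F p g = 0 := by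
  have : I0 F ≤ LinearMap.ker (ph F p : NA F (Fin 3) →ₗ[F] Oct K) := by
    apply idl_le
    · rintro x ⟨a, b, rfl | rfl⟩
      · show ph F p (a * a * b - a * (a * b)) = 0
        rw [map_sub, map_mul, map_mul, map_mul, map_mul, AltRing.altl, sub_self]
      · show ph F p (b * a * a - b * (a * a)) = 0
        rw [map_sub, map_mul, map_mul, map_mul, map_mul, AltRing.altr, sub_self]
    · intro a x (hx : ph F p x = 0)
      constructor
      · show ph F p (a * x) = 0
        rw [map_mul, hx, mul_zero]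
      · show ph F p (x * a) = 0
        rw [map_mul, hx, zero_mul]
  exact this h

/-- the basic associator -/
def om (p : Fin 10 → K) : Oct K := asc (fm p 0) (fm p 1) (fm p 2)

/-- the eight basic elements -/
def dd (p : Fin 10 → K) (s : Fin 8) : Oct K := Ls (fm p) s (om p)

theorem om_eq (p : Fin 10 → K) : om p = yk (2 * p 1 * p 4 * p 9) := asc_fm p

theorem opX_om (p : Fin 10 → K) (i : Fin 10) : opX (fm p) i (om p) = iv p i • om p := by
  rw [om_eq]; exact opX_fm p i _

theorem smul_yk (c t : K) : c • yk t = yk (c * t) := by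
  simp [yk, smul_def']

theorem itX_yk (p : Fin 10 → K) (L : List (Fin 10)) (t : K) :
    itX (fm p) L (yk t) = (L.map (iv p)).prod • yk t := by
  induction L with
  | nil => simp [itX]
  | cons i L ih =>
    show opX (fm p) i (itX (fm p) L (yk t)) = _
    rw [ih, List.map_cons, List.prod_cons, mul_smul, smul_yk, opX_fm]

theorem Ls_smul (e : Fin 3 → Oct K) (s : Fin 8) (c : K) (v : Oct K) :
    Ls e s (c • v) = c • Ls e s v := by
  fin_cases s <;> simp [Ls, mul_smul_comm]

theorem ph_vNA (p : Fin 10 → K) (s : Fin 8) (α : Fin 10 → ℕ) :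
    ph F p (vNA F (s, α)) = mon p α • dd p s := by
  have h := map_Ls' (ph F p : NA F (Fin 3) →ₙ+* Oct K) (ge F) s
    (itX (ge F) (cl α) (asc (ge F 0) (ge F 1) (ge F 2)))
  rw [map_itX, map_asc'] at h
  have h2 : (fun j => (ph F p : NA F (Fin 3) →ₙ+* Oct K) (ge F j)) = fm p := by
    funext j; exact ph_ge p j
  rw [h2] at h
  have h3 : ∀ j, (ph F p : NA F (Fin 3) →ₙ+* Oct K) (ge F j) = fm p j := fun j => ph_ge p j
  rw [h3, h3, h3, asc_fm, itX_yk, prod_cl, Ls_smul] at h
  unfold dd
  rw [om_eq]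
  exact h

theorem li_dd {p : Fin 10 → K} (hp : Gp F p) : LinearIndependent K (dd p) := by
  rw [Fintype.linearIndependent_iff]
  intro g hg s
  have h0 : (2 * p 1 * p 4 * p 9) ≠ 0 :=
    mul_ne_zero (mul_ne_zero (mul_ne_zero hp.h2K hp.h1) hp.h4) hp.h9
  have h : ∑ s, Ls (fm p) s (yk (g s * (2 * p 1 * p 4 * p 9))) = 0 := by
    rw [← hg]
    refine Finset.sum_congr rfl fun s _ => ?_
    rw [← smul_yk, Ls_smul]
    unfold dd
    rw [om_eq]
  have := indep_fm p hp.h1 hp.h4 hp.h9 _ h s
  exact (mul_eq_zero.mp this).resolve_right h0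

theorem li_all {p : Fin 10 → K} (hp : Gp F p) :
    LinearIndependent F (fun x : Fin 8 × (Fin 10 → ℕ) => mon p x.2 • dd p x.1) := by
  have h := linearIndependent_smul hp.li (li_dd hp)
  have := h.comp (fun x : Fin 8 × (Fin 10 → ℕ) => (x.2, x.1)) (by
    rintro ⟨a, b⟩ ⟨c, d⟩ h
    simp only [Prod.mk.injEq] at h ⊢
    exact ⟨h.2, h.1⟩)
  exact this

/-- the evaluation is faithful on the kernel of `psi` -/
theorem mem_I0_iff {p : Fin 10 → K} (hp : Gp F p) (g : NA F (Fin 3)) :
    g ∈ I0 F ↔ psi F (Fin 3) g = 0 ∧ ph F p g = 0 := by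
  constructor
  · intro h; exact ⟨psi_I0 h, ph_I0 p h⟩
  · rintro ⟨h, h'⟩
    rw [← mem_DD_iff] at h
    obtain ⟨a, ha, b, hb, rfl⟩ := Submodule.mem_sup.mp h
    rw [map_add, ph_I0 p hb, add_zero] at h'
    obtain ⟨l, rfl⟩ := Finsupp.mem_span_range_iff_exists_finsupp.mp ha
    have h2 : Finsupp.linearCombination F
        (fun x : Fin 8 × (Fin 10 → ℕ) => mon p x.2 • dd p x.1) l = 0 := by
      rw [← h', Finsupp.linearCombination_apply, Finsupp.sum, Finsupp.sum, map_sum]
      refine Finset.sum_congr rfl fun x _ => ?_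
      rw [map_smul, ph_vNA]
    have h3 := linearIndependent_iff.mp (li_all hp) l h2
    rw [h3, Finsupp.sum_zero_index, zero_add]
    exact hb

/-- the image of the kernel of `psi` -/
def D3 (F : Type) [Field F] {K : Type} [Field K] [Algebra F K] (p : Fin 10 → K) :
    Submodule F (Oct K) :=
  Submodule.span F (Set.range fun x : Fin 8 × (Fin 10 → ℕ) => mon p x.2 • dd p x.1)

theorem mem_D3 (p : Fin 10 → K) (d : Oct K) :
    d ∈ D3 F p ↔ ∃ g : NA F (Fin 3), psi F (Fin 3) g = 0 ∧ ph F p g = d := by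
  constructor
  · intro hd
    obtain ⟨l, rfl⟩ := Finsupp.mem_span_range_iff_exists_finsupp.mp hd
    refine ⟨l.sum fun x c => c • vNA F x, ?_, ?_⟩
    · rw [Finsupp.sum, map_sum]
      apply Finset.sum_eq_zero
      intro x _
      rw [map_smul, psi_vNA, smul_zero]
    · rw [Finsupp.sum, map_sum, Finsupp.sum]
      refine Finset.sum_congr rfl fun x _ => ?_
      rw [map_smul, ph_vNA]
  · rintro ⟨g, hg, rfl⟩
    rw [← mem_DD_iff] at hg
    obtain ⟨a, ha, b, hb, rfl⟩ := Submodule.mem_sup.mp hg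
    rw [map_add, ph_I0 p hb, add_zero]
    obtain ⟨l, rfl⟩ := Finsupp.mem_span_range_iff_exists_finsupp.mp ha
    rw [Finsupp.sum, map_sum]
    apply Submodule.sum_mem
    intro x _
    rw [map_smul]
    apply Submodule.smul_mem
    apply Submodule.subset_span
    exact ⟨x, (ph_vNA p x.1 x.2).symm⟩

/-- closed under the invariants -/
def PC (p : Fin 10 → K) (N : Submodule F (Oct K)) : Prop := ∀ i, ∀ x ∈ N, iv p i • x ∈ N

theorem PC.mon {p : Fin 10 → K} {N : Submodule F (Oct K)} (h : PC p N) (α : Fin 10 → ℕ)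
    {x : Oct K} (hx : x ∈ N) : mon p α • x ∈ N := by
  unfold R3.mon
  rw [← prod_cl]
  induction cl α with
  | nil => simpa using hx
  | cons i L ih =>
    rw [List.map_cons, List.prod_cons, mul_smul]
    exact h i _ ih

theorem mon_add (p : Fin 10 → K) (i : Fin 10) (α : Fin 10 → ℕ) :
    iv p i * mon p α = mon p (α + Pi.single i 1) := by
  unfold mon
  simp only [Pi.add_apply, pow_add, Finset.prod_mul_distrib]
  rw [mul_comm]
  congr 1
  rw [Finset.prod_eq_single i]
  · simp
  · intro j _ hj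
    rw [Pi.single_eq_of_ne hj, pow_zero]
  · intro h; exact absurd (Finset.mem_univ i) h

theorem D3_PC (p : Fin 10 → K) : PC p (D3 F p) := by
  intro i x hx
  induction hx using Submodule.span_induction with
  | mem x hx =>
    obtain ⟨⟨s, α⟩, rfl⟩ := hx
    apply Submodule.subset_span
    refine ⟨(s, α + Pi.single i 1), ?_⟩
    show mon p (α + Pi.single i 1) • dd p s = iv p i • mon p α • dd p s
    rw [← mon_add, mul_smul]
  | zero => rw [smul_zero]; exact zero_mem _
  | add x y _ _ hx hy => rw [smul_add]; exact add_mem hx hy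
  | smul a x _ hx => rw [smul_comm]; exact Submodule.smul_mem _ _ hx

/-- closed under multiplication by the algebra -/
def Bim (p : Fin 10 → K) (N : Submodule F (Oct K)) : Prop :=
  ∀ a : NA F (Fin 3), ∀ x ∈ N, ph F p a * x ∈ N ∧ x * ph F p a ∈ N

theorem D3_Bim (p : Fin 10 → K) : Bim p (D3 F p) := by
  intro a x hx
  obtain ⟨g, hg, rfl⟩ := (mem_D3 p x).mp hx
  rw [mem_D3, mem_D3]
  exact ⟨⟨a * g, by rw [map_mul, hg, mul_zero], map_mul _ _ _⟩,
    ⟨g * a, by rw [map_mul, hg, zero_mul], map_mul _ _ _⟩⟩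

theorem asc_D3 (p : Fin 10 → K) (a b c : NA F (Fin 3)) :
    asc (ph F p a) (ph F p b) (ph F p c) ∈ D3 F p := by
  rw [mem_D3]
  refine ⟨asc a b c, ?_, ph_asc p a b c⟩
  unfold asc
  rw [map_sub, map_mul, map_mul, map_mul, map_mul, mul_assoc, sub_self]

theorem om_D3 (p : Fin 10 → K) : om p ∈ D3 F p := by
  have := asc_D3 p (ge F 0) (ge F 1) (ge F 2)
  rwa [ph_ge, ph_ge, ph_ge] at this

theorem tr_D3 (p : Fin 10 → K) {d : Oct K} (hd : d ∈ D3 F p) : tr d • one ∈ D3 F p := by
  induction hd using Submodule.span_induction with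
  | mem x hx =>
    obtain ⟨⟨s, α⟩, rfl⟩ := hx
    show tr (mon p α • dd p s) • one ∈ D3 F p
    rw [tr_smul, mul_smul]
    apply (D3_PC p).mon
    by_cases hs : s = 7
    · subst hs
      have h1 : tr (dd p 7) • one = om p * om p := by
        unfold dd
        rw [om_eq]
        exact tr_Ls7 p
      rw [h1]
      obtain ⟨g, hg, he⟩ := (mem_D3 (F := F) p (om p)).mp (om_D3 p)
      have := ((D3_Bim p) g (om p) (om_D3 p)).1
      rwa [he] at this
    · have h1 : tr (dd p s) = 0 := by
        unfold dd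
        rw [om_eq]
        exact tr_Ls p _ s hs
      rw [h1, zero_smul]
      exact zero_mem _
  | zero =>
    have : tr (0 : Oct K) = 0 := by simp [tr, Oct.zero_def]
    rw [this, zero_smul]; exact zero_mem _
  | add x y _ _ hx hy => rw [tr_add, add_smul]; exact add_mem hx hy
  | smul a x _ hx =>
    have : tr (a • x) = a • tr x := by
      rw [← algebraMap_smul', tr_smul, Algebra.smul_def]
    rw [this, smul_assoc]
    exact Submodule.smul_mem _ _ hx

/-- the submodule closed under multiplication generated by a set -/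
def gen (F : Type) [Field F] {K : Type} [Field K] [Algebra F K] (p : Fin 10 → K)
    (S : Set (Oct K)) : Submodule F (Oct K) :=
  sInf {N : Submodule F (Oct K) | S ⊆ N ∧ Bim p N}

theorem subset_gen (p : Fin 10 → K) {S : Set (Oct K)} {x : Oct K} (hx : x ∈ S) :
    x ∈ gen F p S := by
  unfold gen
  rw [Submodule.mem_sInf]
  intro N hN
  exact hN.1 hx

theorem gen_Bim (p : Fin 10 → K) (S : Set (Oct K)) : Bim p (gen F p S) := by
  intro a x hx
  unfold gen at *
  rw [Submodule.mem_sInf] at *
  rw [Submodule.mem_sInf]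
  exact ⟨fun N hN => (hN.2 a x (hx N hN)).1, fun N hN => (hN.2 a x (hx N hN)).2⟩

theorem gen_le (p : Fin 10 → K) {S : Set (Oct K)} {N : Submodule F (Oct K)} (h : S ⊆ N)
    (hN : Bim p N) : gen F p S ≤ N := sInf_le ⟨h, hN⟩

theorem gen_mono (p : Fin 10 → K) {S S' : Set (Oct K)} (h : S ⊆ S') : gen F p S ≤ gen F p S' :=
  gen_le p (fun _ hx => subset_gen p (h hx)) (gen_Bim p S')

/-- scalars preserving the generators preserve the submodule -/
theorem gen_smul (p : Fin 10 → K) {S : Set (Oct K)} {N : Submodule F (Oct K)} (hN : Bim p N)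
    (k : K) (h : ∀ x ∈ S, k • x ∈ N) {x : Oct K} (hx : x ∈ gen F p S) : k • x ∈ N := by
  let N' : Submodule F (Oct K) :=
    { carrier := {x | k • x ∈ N}
      zero_mem' := by show k • (0 : Oct K) ∈ N; rw [smul_zero]; exact zero_mem _
      add_mem' := fun {a b} (ha : k • a ∈ N) (hb : k • b ∈ N) => by
        show k • (a + b) ∈ N
        rw [smul_add]; exact add_mem ha hb
      smul_mem' := fun c x (hx : k • x ∈ N) => by
        show k • (c • x) ∈ N
        rw [smul_comm]; exact Submodule.smul_mem _ _ hx }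
  have : gen F p S ≤ N' := by
    apply gen_le
    · exact h
    · intro a x (hx : k • x ∈ N)
      constructor
      · show k • (ph F p a * x) ∈ N
        rw [← mul_smul_comm]; exact (hN a _ hx).1
      · show k • (x * ph F p a) ∈ N
        rw [← smul_mul_assoc]; exact (hN a _ hx).2
  exact this hx

end

end Pool.Agent.Helper120_Alt.R3
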