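import Pool.Agent.Helper120_Alt.R3.Cpt4
import Pool.Agent.Helper120_Alt.R3.Bas4

set_option autoImplicit false

/-! Raw polynomials: products, contexts, and the spanning family of the ideal. -/

namespace Pool.Agent.Helper120_Alt.R3

open Pool.Agent.Helper895.Alt

noncomputable section

/-- one step of the reading of a word in Polish notation -/
def stepT : Option (Fin 3) → List (FreeMagma (Fin 3)) → List (FreeMagma (Fin 3))
  | some x, st => FreeMagma.of x :: st
  | none, a :: b :: st => (a * b) :: st
  | none, st => st

/-- the tree of a word in Polish notation (with a default for ill-formed words) -/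
def parse (m : Pw) : FreeMagma (Fin 3) := (m.foldr stepT []).headD (FreeMagma.of 0)

/-- one step of the normalization of a word in Polish notation -/
def stepP (o : Option (Fin 3)) (st : List Pw) : List Pw :=
  Option.casesOn o (List.casesOn st st fun a t => List.casesOn t st fun b t' =>
    (none :: (a ++ b)) :: t') fun x => [some x] :: st

/-- normalization of a word in Polish notation -/
def rep (m : Pw) : Pw := ((m.foldr stepP []).head?).getD [some 0]

theorem step_map (o : Option (Fin 3)) (st : List (FreeMagma (Fin 3))) :
    (stepT o st).map pol = stepP o (st.map pol) := by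
  cases o with
  | some x => rfl
  | none =>
    cases st with
    | nil => rfl
    | cons a t =>
      cases t with
      | nil => rfl
      | cons b t => rfl

theorem foldr_map (m : Pw) : (m.foldr stepT []).map pol = m.foldr stepP [] := by
  induction m with
  | nil => rfl
  | cons o m ih => rw [List.foldr_cons, step_map, ih]; rfl

theorem pol_parse (m : Pw) : pol (parse m) = rep m := by
  unfold parse rep
  rw [← foldr_map]
  cases m.foldr stepT [] <;> rfl

theorem foldr_pol (t : FreeMagma (Fin 3)) : ∀ st, (pol t).foldr stepT st = t :: st := by
  induction t with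
  | ih1 x => intro st; rfl
  | ih2 a b ha hb =>
    intro st
    show (none :: (pol a ++ pol b)).foldr stepT st = _
    rw [List.foldr_cons, List.foldr_append, hb, ha]
    rfl

theorem parse_pol (t : FreeMagma (Fin 3)) : parse (pol t) = t := by
  unfold parse
  rw [foldr_pol]
  rfl

theorem parse_eq_iff (a b : Pw) : parse a = parse b ↔ rep a = rep b := by
  rw [← pol_parse, ← pol_parse]
  constructor
  · intro h; rw [h]
  · intro h
    have := congrArg parse h
    rwa [parse_pol, parse_pol] at this

theorem primrec_rep : Primrec rep := by
  have h1 : Primrec₂ stepP := by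
    have e1 : Primrec₂ (fun (w : Option (Fin 3) × List Pw) (y : Pw × List Pw) =>
        (List.casesOn y.2 w.2 fun b t' => (none :: (y.1 ++ b)) :: t' : List Pw)) := by
      have e2 : Primrec₂ (fun (z : (Option (Fin 3) × List Pw) × (Pw × List Pw))
          (u : Pw × List Pw) => (none :: (z.2.1 ++ u.1)) :: u.2) := by
        refine Primrec.list_cons.comp (Primrec.list_cons.comp (Primrec.const none)
          (Primrec.list_append.comp ?_ ?_)) ?_
        · exact Primrec.fst.comp (Primrec.snd.comp Primrec.fst)
        · exact Primrec.fst.comp Primrec.snd
        · exact Primrec.snd.comp Primrec.snd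
      exact Primrec.list_casesOn (Primrec.snd.comp Primrec.snd)
        (Primrec.snd.comp Primrec.fst) e2
    have e3 : Primrec (fun (w : Option (Fin 3) × List Pw) =>
        (List.casesOn w.2 w.2 fun a t => List.casesOn t w.2 fun b t' =>
          (none :: (a ++ b)) :: t' : List Pw)) :=
      Primrec.list_casesOn Primrec.snd Primrec.snd e1
    have e4 : Primrec₂ (fun (w : Option (Fin 3) × List Pw) (x : Fin 3) =>
        ([some x] :: w.2 : List Pw)) := by
      refine Primrec.list_cons.comp (Primrec.list_cons.comp
        (Primrec.option_some.comp Primrec.snd) (Primrec.const [])) ?_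
      exact Primrec.snd.comp Primrec.fst
    exact Primrec.option_casesOn Primrec.fst e3 e4
  have h2 : Primrec (fun m : Pw => m.foldr stepP []) :=
    Primrec.list_foldr (f := fun m : Pw => m) (g := fun _ => ([] : List Pw))
      (h := fun _ x => stepP x.1 x.2) Primrec.id (Primrec.const [])
      (h1.comp (Primrec.fst.comp Primrec.snd) (Primrec.snd.comp Primrec.snd)).to₂
  exact Primrec.option_getD.comp (Primrec.list_head?.comp h2) (Primrec.const [some 0])

/-- product of words -/
def mP (a b : Pw) : Pw := none :: (rep a ++ rep b)

theorem parse_mP (a b : Pw) : parse (mP a b) = parse a * parse b := by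
  have : mP a b = pol (parse a * parse b) := by
    unfold mP
    rw [← pol_parse, ← pol_parse]
    rfl
  rw [this, parse_pol]

theorem primrec_mP : Primrec₂ mP :=
  Primrec.list_cons.comp (Primrec.const none)
    (Primrec.list_append.comp (primrec_rep.comp Primrec.fst) (primrec_rep.comp Primrec.snd))

/-- contexts -/
abbrev Cx : Type := List (Bool × Pw)

/-- a word in a context -/
def cxw (c : Cx) (m : Pw) : Pw := c.foldr (fun x m => bif x.1 then mP x.2 m else mP m x.2) m

theorem primrec_cxw : Primrec₂ cxw := by
  refine Primrec.list_foldr (f := fun x : Cx × Pw => x.1) (g := fun x => x.2)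
    (h := fun _ y => bif y.1.1 then mP y.1.2 y.2 else mP y.2 y.1.2) Primrec.fst Primrec.snd ?_
  have e1 : Primrec (fun z : (Cx × Pw) × ((Bool × Pw) × Pw) => z.2.1.1) :=
    Primrec.fst.comp (Primrec.fst.comp Primrec.snd)
  have e2 : Primrec (fun z : (Cx × Pw) × ((Bool × Pw) × Pw) => z.2.1.2) :=
    Primrec.snd.comp (Primrec.fst.comp Primrec.snd)
  have e3 : Primrec (fun z : (Cx × Pw) × ((Bool × Pw) × Pw) => z.2.2) :=
    Primrec.snd.comp Primrec.snd
  exact Primrec.cond e1 (primrec_mP.comp e2 e3) (primrec_mP.comp e3 e2)

variable {F : Type} [Field F]

/-- a raw polynomial in a context -/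
def cx (c : Cx) (L : Raw F) : Raw F := L.map fun x => (x.1, cxw c x.2)

/-- the monomial of a word -/
def tM (F : Type) [Field F] (m : Pw) : NA F (Fin 3) := MonoidAlgebra.single (parse m) 1

/-- the operator of a context -/
def CX (F : Type) [Field F] : Cx → (NA F (Fin 3) →ₗ[F] NA F (Fin 3))
  | [] => LinearMap.id
  | x :: c => (bif x.1 then LinearMap.mulLeft F (tM F x.2) else LinearMap.mulRight F (tM F x.2))
      ∘ₗ CX F c

theorem single_cxw (c : Cx) (m : Pw) (r : F) :
    (MonoidAlgebra.single (parse (cxw c m)) r : NA F (Fin 3)) =
      CX F c (MonoidAlgebra.single (parse m) r) := by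
  induction c with
  | nil => rfl
  | cons x c ih =>
    obtain ⟨b, a⟩ := x
    cases b
    · have e : cxw ((false, a) :: c) m = mP (cxw c m) a := rfl
      rw [e, parse_mP]
      show _ = CX F c (MonoidAlgebra.single (parse m) r) * tM F a
      rw [← ih]
      unfold tM
      rw [MonoidAlgebra.single_mul_single, mul_one]
    · have e : cxw ((true, a) :: c) m = mP a (cxw c m) := rfl
      rw [e, parse_mP]
      show _ = tM F a * CX F c (MonoidAlgebra.single (parse m) r)
      rw [← ih]
      unfold tM
      rw [MonoidAlgebra.single_mul_single, one_mul]

theorem Val_cx (c : Cx) (L : Raw F) : Val parse (cx c L) = CX F c (Val parse L) := by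
  induction L with
  | nil => rw [Val_nil, map_zero]; rfl
  | cons x L ih =>
    show Val parse ((x.1, cxw c x.2) :: cx c L) = _
    rw [Val_cons, Val_cons, map_add, ih, single_cxw]

/-- the raw form of the first linearized law -/
def t1R (F : Type) [Field F] (a b c : Pw) : Raw F :=
  [(1, mP (mP a b) c), (-1, mP a (mP b c)), (1, mP (mP b a) c), (-1, mP b (mP a c))]

/-- the raw form of the second linearized law -/
def t2R (F : Type) [Field F] (a b c : Pw) : Raw F :=
  [(1, mP (mP c a) b), (-1, mP c (mP a b)), (1, mP (mP c b) a), (-1, mP c (mP b a))]

theorem single_mP (a b : Pw) (r : F) :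
    (MonoidAlgebra.single (parse (mP a b)) r : NA F (Fin 3)) = r • (tM F a * tM F b) := by
  rw [parse_mP]
  unfold tM
  rw [MonoidAlgebra.single_mul_single, one_mul]
  simp

theorem tM_mP (a b : Pw) : tM F (mP a b) = tM F a * tM F b := by
  unfold tM
  rw [parse_mP, MonoidAlgebra.single_mul_single, one_mul]

theorem Val_t1R (a b c : Pw) : Val parse (t1R F a b c) =
    asc (tM F a) (tM F b) (tM F c) + asc (tM F b) (tM F a) (tM F c) := by
  unfold t1R asc
  rw [Val_cons, Val_cons, Val_cons, Val_cons, Val_nil, single_mP, single_mP, single_mP, single_mP,
    tM_mP, tM_mP, tM_mP, tM_mP, one_smul, one_smul, neg_one_smul, neg_one_smul]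
  abel

theorem Val_t2R (a b c : Pw) : Val parse (t2R F a b c) =
    asc (tM F c) (tM F a) (tM F b) + asc (tM F c) (tM F b) (tM F a) := by
  unfold t2R asc
  rw [Val_cons, Val_cons, Val_cons, Val_cons, Val_nil, single_mP, single_mP, single_mP, single_mP,
    tM_mP, tM_mP, tM_mP, tM_mP, one_smul, one_smul, neg_one_smul, neg_one_smul]
  abel

/-- the raw spanning family of the ideal of the relator -/
def Hr (fr : Raw F) (k : Cx × Option (Bool × (Pw × (Pw × Pw)))) : Raw F :=
  cx k.1 (Option.casesOn k.2 fr fun y => bif y.1 then t1R F y.2.1 y.2.2.1 y.2.2.2
    else t2R F y.2.1 y.2.2.1 y.2.2.2)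

theorem asc_alt1 (a b : NA F (Fin 3)) : asc a a b ∈ I0 F := subset_idl _ ⟨a, b, Or.inl rfl⟩

theorem asc_alt2 (a b : NA F (Fin 3)) : asc b a a ∈ I0 F := subset_idl _ ⟨a, b, Or.inr rfl⟩

theorem asc_lin1 (a b c : NA F (Fin 3)) : asc a b c + asc b a c ∈ I0 F := by
  have h := asc_alt1 (a + b) c
  rw [asc_add1, asc_add2, asc_add2] at h
  have e : asc a b c + asc b a c = (asc a a c + asc a b c + (asc b a c + asc b b c)) -
      asc a a c - asc b b c := by abel
  rw [e]
  exact sub_mem (sub_mem h (asc_alt1 a c)) (asc_alt1 b c)

theorem asc_lin2 (a b c : NA F (Fin 3)) : asc c a b + asc c b a ∈ I0 F := by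
  have h := asc_alt2 (a + b) c
  rw [asc_add2, asc_add3, asc_add3] at h
  have e : asc c a b + asc c b a = (asc c a a + asc c a b + (asc c b a + asc c b b)) -
      asc c a a - asc c b b := by abel
  rw [e]
  exact sub_mem (sub_mem h (asc_alt2 a c)) (asc_alt2 b c)

theorem CX_mem {f : NA F (Fin 3)} (c : Cx) {x : NA F (Fin 3)} (hx : x ∈ If f) :
    CX F c x ∈ If f := by
  induction c with
  | nil => exact hx
  | cons y c ih =>
    obtain ⟨b, a⟩ := y
    cases b
    · exact (If_mul _ ih).2
    · exact (If_mul _ ih).1

theorem asc_smul1 (r : F) (a b c : NA F (Fin 3)) : asc (r • a) b c = r • asc a b c := by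
  unfold asc; simp only [smul_mul_assoc, smul_sub]
theorem asc_smul2 (r : F) (a b c : NA F (Fin 3)) : asc a (r • b) c = r • asc a b c := by
  unfold asc; simp only [smul_mul_assoc, mul_smul_comm, smul_sub]
theorem asc_smul3 (r : F) (a b c : NA F (Fin 3)) : asc a b (r • c) = r • asc a b c := by
  unfold asc; simp only [mul_smul_comm, smul_sub]

theorem single_tM (m : FreeMagma (Fin 3)) (r : F) :
    (MonoidAlgebra.single m r : NA F (Fin 3)) = r • tM F (pol m) := by
  unfold tM
  rw [parse_pol]
  simp

/-- the raw family spans the ideal -/
theorem If_span (h2 : (2 : F) ≠ 0) (fr : Raw F) :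
    If (Val parse fr) = Submodule.span F (Set.range fun k => Val parse (Hr fr k)) := by
  apply le_antisymm
  · set S := Submodule.span F (Set.range fun k => Val parse (Hr fr k)) with hS
    have hmul : ∀ a : NA F (Fin 3), ∀ x ∈ S, a * x ∈ S ∧ x * a ∈ S := by
      intro a x hx
      induction a using MonoidAlgebra.induction_linear with
      | zero => rw [zero_mul, mul_zero]; exact ⟨zero_mem _, zero_mem _⟩
      | add a b ha hb =>
        rw [add_mul, mul_add]
        exact ⟨add_mem ha.1 hb.1, add_mem ha.2 hb.2⟩
      | single m r =>
        rw [single_tM, smul_mul_assoc, mul_smul_comm]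
        suffices h : tM F (pol m) * x ∈ S ∧ x * tM F (pol m) ∈ S from
          ⟨Submodule.smul_mem _ _ h.1, Submodule.smul_mem _ _ h.2⟩
        induction hx using Submodule.span_induction with
        | mem x hx =>
          obtain ⟨⟨c, k⟩, rfl⟩ := hx
          constructor
          · apply Submodule.subset_span
            refine ⟨((true, pol m) :: c, k), ?_⟩
            show Val parse (Hr fr ((true, pol m) :: c, k)) = tM F (pol m) * Val parse (Hr fr (c, k))
            unfold Hr
            rw [Val_cx, Val_cx]
            rfl
          · apply Submodule.subset_span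
            refine ⟨((false, pol m) :: c, k), ?_⟩
            show Val parse (Hr fr ((false, pol m) :: c, k)) =
              Val parse (Hr fr (c, k)) * tM F (pol m)
            unfold Hr
            rw [Val_cx, Val_cx]
            rfl
        | zero => rw [mul_zero, zero_mul]; exact ⟨zero_mem _, zero_mem _⟩
        | add x y _ _ hx hy =>
          rw [mul_add, add_mul]
          exact ⟨add_mem hx.1 hy.1, add_mem hx.2 hy.2⟩
        | smul a x _ hx =>
          rw [mul_smul_comm, smul_mul_assoc]
          exact ⟨Submodule.smul_mem _ _ hx.1, Submodule.smul_mem _ _ hx.2⟩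
    have hl1 : ∀ a b c : NA F (Fin 3), asc a b c + asc b a c ∈ S := by
      intro a b c
      induction a using MonoidAlgebra.induction_linear with
      | zero => unfold asc; simp
      | add a a' ha ha' =>
        have e : asc (a + a') b c + asc b (a + a') c = (asc a b c + asc b a c) +
            (asc a' b c + asc b a' c) := by rw [asc_add1, asc_add2]; abel
        rw [e]; exact add_mem ha ha'
      | single m r =>
        rw [single_tM, asc_smul1, asc_smul2, ← smul_add]
        apply Submodule.smul_mem
        induction b using MonoidAlgebra.induction_linear with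
        | zero => unfold asc; simp
        | add a a' ha ha' =>
          have e : asc (tM F (pol m)) (a + a') c + asc (a + a') (tM F (pol m)) c =
              (asc (tM F (pol m)) a c + asc a (tM F (pol m)) c) +
              (asc (tM F (pol m)) a' c + asc a' (tM F (pol m)) c) := by
            rw [asc_add1, asc_add2]; abel
          rw [e]; exact add_mem ha ha'
        | single m' r' =>
          rw [single_tM, asc_smul1, asc_smul2, ← smul_add]
          apply Submodule.smul_mem
          induction c using MonoidAlgebra.induction_linear with
          | zero => unfold asc; simp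
          | add a a' ha ha' =>
            rw [asc_add3, asc_add3, add_add_add_comm]; exact add_mem ha ha'
          | single m'' r'' =>
            rw [single_tM, asc_smul3, asc_smul3, ← smul_add]
            apply Submodule.smul_mem
            apply Submodule.subset_span
            refine ⟨([], some (true, (pol m, (pol m', pol m'')))), ?_⟩
            show Val parse (Hr fr ([], some (true, (pol m, (pol m', pol m''))))) = _
            unfold Hr
            rw [Val_cx]
            exact Val_t1R _ _ _
    have hl2 : ∀ a b c : NA F (Fin 3), asc c a b + asc c b a ∈ S := by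
      intro a b c
      induction a using MonoidAlgebra.induction_linear with
      | zero => unfold asc; simp
      | add a a' ha ha' =>
        have e : asc c (a + a') b + asc c b (a + a') = (asc c a b + asc c b a) +
            (asc c a' b + asc c b a') := by rw [asc_add3, asc_add2]; abel
        rw [e]; exact add_mem ha ha'
      | single m r =>
        rw [single_tM, asc_smul3, asc_smul2, ← smul_add]
        apply Submodule.smul_mem
        induction b using MonoidAlgebra.induction_linear with
        | zero => unfold asc; simp
        | add a a' ha ha' =>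
          have e : asc c (tM F (pol m)) (a + a') + asc c (a + a') (tM F (pol m)) =
              (asc c (tM F (pol m)) a + asc c a (tM F (pol m))) +
              (asc c (tM F (pol m)) a' + asc c a' (tM F (pol m))) := by
            rw [asc_add3, asc_add2]; abel
          rw [e]; exact add_mem ha ha'
        | single m' r' =>
          rw [single_tM, asc_smul3, asc_smul2, ← smul_add]
          apply Submodule.smul_mem
          induction c using MonoidAlgebra.induction_linear with
          | zero => unfold asc; simp
          | add a a' ha ha' =>
            rw [asc_add1, asc_add1, add_add_add_comm]; exact add_mem ha ha'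
          | single m'' r'' =>
            rw [single_tM, asc_smul1, asc_smul1, ← smul_add]
            apply Submodule.smul_mem
            apply Submodule.subset_span
            refine ⟨([], some (false, (pol m, (pol m', pol m'')))), ?_⟩
            show Val parse (Hr fr ([], some (false, (pol m, (pol m', pol m''))))) = _
            unfold Hr
            rw [Val_cx]
            exact Val_t2R _ _ _
    have half : ∀ x : NA F (Fin 3), x + x ∈ S → x ∈ S := by
      intro x hx
      have : x = (2⁻¹ : F) • (x + x) := by
        rw [← two_smul F x, smul_smul, inv_mul_cancel₀ h2, one_smul]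
      rw [this]; exact Submodule.smul_mem _ _ hx
    apply idl_le
    · rintro x (⟨a, b, rfl | rfl⟩ | hx)
      · exact half _ (hl1 a a b)
      · exact half _ (hl2 a a b)
      · rw [Set.mem_singleton_iff] at hx
        subst hx
        apply Submodule.subset_span
        refine ⟨([], none), ?_⟩
        show Val parse (Hr fr ([], none)) = _
        unfold Hr
        rw [Val_cx]
        rfl
    · exact hmul
  · rw [Submodule.span_le]
    rintro _ ⟨⟨c, k⟩, rfl⟩
    show Val parse (Hr fr (c, k)) ∈ If (Val parse fr)
    unfold Hr
    rw [Val_cx]
    apply CX_mem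
    cases k with
    | none => exact f_If
    | some y =>
      obtain ⟨b, a1, a2, a3⟩ := y
      cases b
      · exact I0_le_If (by
          show Val parse (t2R F a1 a2 a3) ∈ _
          rw [Val_t2R]; exact asc_lin2 _ _ _)
      · exact I0_le_If (by
          show Val parse (t1R F a1 a2 a3) ∈ _
          rw [Val_t1R]; exact asc_lin1 _ _ _)

end

end Pool.Agent.Helper120_Alt.R3
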