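import Pool.Agent.Helper120_Alt.R3.Raw4
import Pool.Agent.Helper120_Alt.R3.Asm3
import Pool.Agent.Helper120_Alt.R3.Cpt5

set_option autoImplicit false

/-! Raw forms of the basis elements. -/

namespace Pool.Agent.Helper120_Alt.R3

open Pool.Agent.Helper895.Alt

noncomputable section

variable {F : Type} [Field F]

/-- raw multiple of the basic associator, with the coefficient and its opposite -/
def wRc (c c' : F) : Raw F :=
  [(c, mP (mP [some 0] [some 1]) [some 2]), (c', mP [some 0] (mP [some 1] [some 2]))]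

theorem Val_wRc (c : F) : Val parse (wRc c (-c)) = c • asc (ge F 0) (ge F 1) (ge F 2) := by
  unfold wRc asc
  rw [Val_cons, Val_cons, Val_nil, single_mP, single_mP, tM_mP, tM_mP, tM_letter, tM_letter,
    tM_letter, neg_smul, smul_sub]
  abel

theorem opX_smulF (i : Fin 10) (c : F) (v : NA F (Fin 3)) :
    opX (ge F) i (c • v) = c • opX (ge F) i v := by
  fin_cases i <;> simp only [opX, T, N, U, tau, mul_smul_comm, smul_mul_assoc, smul_add]

theorem itX_smulF (l : List (Fin 10)) (c : F) (v : NA F (Fin 3)) :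
    itX (ge F) l (c • v) = c • itX (ge F) l v := by
  induction l with
  | nil => rfl
  | cons i l ih =>
    show opX (ge F) i (itX (ge F) l (c • v)) = _
    rw [ih, opX_smulF]; rfl

theorem Ls_smulF (s : Fin 8) (c : F) (v : NA F (Fin 3)) :
    Ls (ge F) s (c • v) = c • Ls (ge F) s v := by
  fin_cases s <;> simp only [Ls, mul_smul_comm]

/-- raw combinations -/
def cmR (E : List ((F × F) × (Fin 8 × (Fin 10 → ℕ)))) (α : Fin 10 → ℕ) : Raw F :=
  E.flatMap fun e => cx (lsC e.2.1) (itR (cl (e.2.2 + α)) (wRc e.1.1 e.1.2))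

/-- adding the opposite coefficients -/
def dbl (E : List (F × (Fin 8 × (Fin 10 → ℕ)))) : List ((F × F) × (Fin 8 × (Fin 10 → ℕ))) :=
  E.map fun e => ((e.1, -e.1), e.2)

theorem Val_cmR (E : List (F × (Fin 8 × (Fin 10 → ℕ)))) (α : Fin 10 → ℕ) :
    Val parse (cmR (dbl E) α) = cmN E α := by
  unfold cmR dbl cmN
  induction E with
  | nil => rfl
  | cons e E ih =>
    rw [List.map_cons, List.flatMap_cons, Val_append, ih, List.map_cons, List.sum_cons]
    congr 1
    rw [Val_lsR, Val_itR, Val_wRc, itX_smulF, Ls_smulF]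
    rfl

/-- contexts of left multiplications -/
def lwC (l : List (Fin 3)) : Cx := l.map fun i => (true, [some i])

theorem CX_lwC (l : List (Fin 3)) (x : NA F (Fin 3)) : CX F (lwC l) x = Lm F l x := by
  induction l with
  | nil => rfl
  | cons i l ih =>
    show tM F [some i] * CX F (lwC l) x = ge F i * Lm F l x
    rw [ih, tM_letter]

/-- raw multiples of the generators -/
def vER {k : ℕ} (G : Fin k → List ((F × F) × (Fin 8 × (Fin 10 → ℕ)))) (x : IxE k) : Raw F :=
  cx (lwC (cl x.2.2)) (cmR (G x.1) x.2.1)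

theorem Val_vER {k : ℕ} (G : Fin k → List (F × (Fin 8 × (Fin 10 → ℕ)))) (x : IxE k) :
    Val parse (vER (fun s => dbl (G s)) x) = vEN G x := by
  unfold vER vEN
  rw [Val_cx, CX_lwC, Val_cmR]

/-- raw basis elements -/
def vJR {k : ℕ} (G : Fin k → List ((F × F) × (Fin 8 × (Fin 10 → ℕ)))) (sr : Raw F) :
    IxJ k → Raw F := Sum.elim (vR F) (Sum.elim (vER G) (vSR sr))

theorem Val_vJR {k : ℕ} (G : Fin k → List (F × (Fin 8 × (Fin 10 → ℕ)))) (sr : Raw F)
    (x : IxJ k) : Val parse (vJR (fun s => dbl (G s)) sr x) = vJ G (Val parse sr) x := by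
  rcases x with x | (x | β)
  · exact Val_vR x
  · exact Val_vER G x
  · exact Val_vSR sr β

section comp

variable [Primcodable F]

theorem primrec_itR2 {α : Type} [Primcodable α] {l : α → List (Fin 10)} (hl : Primrec l)
    {L : α → Raw F} (hL : Primrec L) : Primrec fun a => itR (l a) (L a) := by
  refine Primrec.list_foldr (f := l) (g := L) (h := fun _ y => opR y.1 y.2) hl hL ?_
  have e1 : Primrec (fun z : α × (Fin 10 × Raw F) => opC z.2.1) :=
    (Primrec.dom_finite opC).comp (Primrec.fst.comp Primrec.snd)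
  exact Primrec.list_flatMap e1 (primrec_cx.comp Primrec.snd
    (Primrec.snd.comp (Primrec.snd.comp Primrec.fst)))

theorem primrec_wRc : Primrec (fun c : F × F => wRc c.1 c.2) := by
  unfold wRc
  refine Primrec.list_cons.comp ?_ (primrec_sing ?_)
  · exact Primrec.fst.pair (Primrec.const _)
  · exact Primrec.snd.pair (Primrec.const _)

theorem primrec_addF {n : ℕ} : Primrec₂ (fun a b : Fin n → ℕ => a + b) := by
  have h : Primrec₂ (fun (z : (Fin n → ℕ) × (Fin n → ℕ)) (i : Fin n) => (z.1 + z.2) i) := by
    show Primrec₂ (fun (z : (Fin n → ℕ) × (Fin n → ℕ)) (i : Fin n) => z.1 i + z.2 i)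
    exact Primrec.nat_add.comp
      (Primrec.fin_app.comp (Primrec.fst.comp Primrec.fst) Primrec.snd)
      (Primrec.fin_app.comp (Primrec.snd.comp Primrec.fst) Primrec.snd)
  exact Primrec.fin_curry.mpr h

theorem primrec_vER {k : ℕ} (G : Fin k → List ((F × F) × (Fin 8 × (Fin 10 → ℕ)))) :
    Primrec (vER G) := by
  unfold vER
  have e1 : Primrec (fun x : IxE k => lwC (cl x.2.2)) := by
    unfold lwC
    refine Primrec.list_map (primrec_cl.comp (Primrec.snd.comp Primrec.snd)) ?_
    exact (Primrec.const true).pair (primrec_sing (Primrec.option_some.comp Primrec.snd))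
  have e2 : Primrec (fun x : IxE k => cmR (G x.1) x.2.1) := by
    unfold cmR
    refine Primrec.list_flatMap ((Primrec.dom_finite G).comp Primrec.fst) ?_
    refine primrec_cx.comp ?_ ?_
    · exact (Primrec.dom_finite lsC).comp (Primrec.fst.comp (Primrec.snd.comp Primrec.snd))
    · refine primrec_itR2 (primrec_cl.comp (primrec_addF.comp ?_ ?_)) ?_
      · exact Primrec.snd.comp (Primrec.snd.comp Primrec.snd)
      · exact Primrec.fst.comp (Primrec.snd.comp Primrec.fst)
      · exact primrec_wRc.comp (Primrec.fst.comp Primrec.snd)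
  exact primrec_cx.comp e1 e2

theorem primrec_vJR {k : ℕ} (G : Fin k → List ((F × F) × (Fin 8 × (Fin 10 → ℕ))))
    (sr : Raw F) : Primrec (vJR G sr) := by
  have e1 : Primrec (vR F) := by
    unfold vR
    exact primrec_cx.comp ((Primrec.dom_finite lsC).comp Primrec.fst)
      (primrec_itR (primrec_cl.comp Primrec.snd) _)
  have e2 : Primrec (vSR sr) := by
    unfold vSR
    exact primrec_itR (Primrec.list_map primrec_cl
      ((Primrec.dom_finite i3).comp Primrec.snd).to₂) _
  have e3 : Primrec (Sum.elim (vER G) (vSR sr)) := by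
    have := Primrec.sumCasesOn (f := fun z : IxE k ⊕ (Fin 3 → ℕ) => z)
      (g := fun _ k => vER G k) (h := fun _ i => vSR sr i) Primrec.id
      ((primrec_vER G).comp Primrec.snd).to₂ (e2.comp Primrec.snd).to₂
    refine this.of_eq ?_
    rintro (k | i) <;> rfl
  have := Primrec.sumCasesOn (f := fun z : IxJ k => z)
      (g := fun _ k => vR F k) (h := fun _ i => Sum.elim (vER G) (vSR sr) i) Primrec.id
      (e1.comp Primrec.snd).to₂ (e3.comp Primrec.snd).to₂
  refine this.of_eq ?_
  rintro (k | i) <;> rfl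

end comp

section ok

variable {k : ℕ}

/-- the set of indices, as a Boolean function -/
def okJ (S2 : List (Fin 8 × (Fin 10 → ℕ))) (SN : List (Fin k × (Fin 3 → ℕ)))
    (SC : List (IxE k)) (S3 : List (Fin 3 → ℕ)) (x : IxJ k) : Bool :=
  Sum.casesOn x (fun z => S2.all fun a => !(decide (a.1 = z.1) && leq a.2 z.2)) fun y =>
    Sum.casesOn y (fun z => bif leq z.2.1 0 then
      (SN.all fun a => !(decide (a.1 = z.1) && leq a.2 z.2.2)) else
      (SC.all fun a => !(decide (a.1 = z.1) && (leq a.2.1 z.2.1 && leq a.2.2 z.2.2))))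
      fun z => S3.all fun a => !(leq a z)

theorem okJ_iff (S2 : Finset (Fin 8 × (Fin 10 → ℕ))) (SN : Finset (Fin k × (Fin 3 → ℕ)))
    (SC : Finset (IxE k)) (S3 : Finset (Fin 3 → ℕ)) :
    {x : IxJ k | okJ S2.toList SN.toList SC.toList S3.toList x = true} =
      okS S2 SN SC S3 := by
  ext x
  rcases x with ⟨s, α⟩ | (⟨s, α, β⟩ | β)
  · have h1 : (Sum.inl (s, α) : IxJ k) ∈ okS S2 SN SC S3 ↔
        ∀ y ∈ S2, ¬ (y.1 = s ∧ y.2 ≤ α) := by
      constructor
      · rintro (⟨z, hz, h⟩ | ⟨z, _, h⟩)
        · simp only [Sum.inl.injEq] at h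
          subst h
          exact hz
        · exact absurd h (by simp)
      · intro h
        exact Or.inl ⟨(s, α), h, rfl⟩
    rw [h1, Set.mem_ofPred_eq]
    simp only [okJ, List.all_eq_true, Finset.mem_toList, Bool.not_eq_true', Bool.and_eq_false_iff,
      decide_eq_false_iff_not]
    refine forall₂_congr fun y _ => ?_
    rw [← leq_iff, Bool.eq_false_iff]
    tauto
  · have h1 : (Sum.inr (Sum.inl (s, α, β)) : IxJ k) ∈ okS S2 SN SC S3 ↔
        (α = 0 → ∀ y ∈ SN, ¬ (y.1 = s ∧ y.2 ≤ β)) ∧
          (α ≠ 0 → ∀ y ∈ SC, ¬ (y.1 = s ∧ y.2 ≤ (α, β))) := by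
      constructor
      · rintro (⟨z, _, h⟩ | ⟨z, (⟨w, hw, rfl⟩ | ⟨w, _, rfl⟩), h⟩)
        · exact absurd h (by simp)
        · simp only [Sum.inr.injEq, Sum.inl.injEq] at h
          subst h
          exact hw
        · exact absurd h (by simp)
      · intro h
        exact Or.inr ⟨_, Or.inl ⟨(s, α, β), h, rfl⟩, rfl⟩
    rw [h1, Set.mem_ofPred_eq]
    have h0 : leq α 0 = true ↔ α = 0 := by
      rw [leq_iff]
      constructor
      · intro h; funext i; exact Nat.le_zero.mp (h i)
      · intro h; rw [h]
    by_cases hα : α = 0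
    · have h3 : leq α 0 = true := h0.mpr hα
      simp only [okJ, h3, cond_true, List.all_eq_true, Finset.mem_toList, Bool.not_eq_true',
        Bool.and_eq_false_iff, decide_eq_false_iff_not]
      simp only [hα, forall_const, ne_eq, not_true_eq_false, false_implies, and_true]
      refine forall₂_congr fun y _ => ?_
      rw [← leq_iff, Bool.eq_false_iff]
      tauto
    · have h3 : leq α 0 = false := by
        rw [Bool.eq_false_iff]
        intro h; exact hα (h0.mp h)
      simp only [okJ, h3, cond_false, List.all_eq_true, Finset.mem_toList, Bool.not_eq_true',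
        Bool.and_eq_false_iff, decide_eq_false_iff_not]
      simp only [hα, false_implies, true_and, ne_eq, not_false_eq_true, forall_const]
      refine forall₂_congr fun y _ => ?_
      have h4 : y.2 ≤ (α, β) ↔ leq y.2.1 α = true ∧ leq y.2.2 β = true := by
        rw [leq_iff, leq_iff]; exact Prod.le_def
      rw [h4, Bool.eq_false_iff, Bool.eq_false_iff]
      tauto
  · have h1 : (Sum.inr (Sum.inr β) : IxJ k) ∈ okS S2 SN SC S3 ↔ ∀ y ∈ S3, ¬ (y ≤ β) := by
      constructor
      · rintro (⟨z, _, h⟩ | ⟨z, (⟨w, _, rfl⟩ | ⟨w, hw, rfl⟩), h⟩)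
        · exact absurd h (by simp)
        · exact absurd h (by simp)
        · simp only [Sum.inr.injEq] at h
          subst h
          exact hw
      · intro h
        exact Or.inr ⟨_, Or.inr ⟨β, h, rfl⟩, rfl⟩
    rw [h1, Set.mem_ofPred_eq]
    simp [okJ, ← leq_iff]

theorem comp_okJ (S2 : List (Fin 8 × (Fin 10 → ℕ))) (SN : List (Fin k × (Fin 3 → ℕ)))
    (SC : List (IxE k)) (S3 : List (Fin 3 → ℕ)) : Computable (okJ S2 SN SC S3) := by
  have e4 : Computable (fun z : Fin 8 × (Fin 10 → ℕ) =>
      S2.all fun a => !(decide (a.1 = z.1) && leq a.2 z.2)) := by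
    refine comp_all (Computable.const S2) ?_
    have h1 : Computable (fun w : (Fin 8 × (Fin 10 → ℕ)) × (Fin 8 × (Fin 10 → ℕ)) =>
        decide (w.2.1 = w.1.1)) :=
      comp_eq (Computable.fst.comp Computable.snd) (Computable.fst.comp Computable.fst)
    have h2 : Computable (fun w : (Fin 8 × (Fin 10 → ℕ)) × (Fin 8 × (Fin 10 → ℕ)) =>
        leq w.2.2 w.1.2) :=
      comp_leq.comp (Computable.snd.comp Computable.snd) (Computable.snd.comp Computable.fst)
    exact Primrec.not.to_comp.comp (Primrec.and.to_comp.comp h1 h2)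
  have e5 : Computable (fun z : Fin 3 → ℕ => S3.all fun a => !(leq a z)) := by
    refine comp_all (Computable.const S3) ?_
    exact Primrec.not.to_comp.comp (comp_leq.comp Computable.snd Computable.fst)
  have e7 : Computable (fun z : IxE k =>
      (SN.all fun a => !(decide (a.1 = z.1) && leq a.2 z.2.2))) := by
    refine comp_all (Computable.const SN) ?_
    have h1 : Computable (fun w : IxE k × (Fin k × (Fin 3 → ℕ)) =>
        decide (w.2.1 = w.1.1)) :=
      comp_eq (Computable.fst.comp Computable.snd) (Computable.fst.comp Computable.fst)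
    have h2 : Computable (fun w : IxE k × (Fin k × (Fin 3 → ℕ)) =>
        leq w.2.2 w.1.2.2) :=
      comp_leq.comp (Computable.snd.comp Computable.snd)
        (Computable.snd.comp (Computable.snd.comp Computable.fst))
    exact Primrec.not.to_comp.comp (Primrec.and.to_comp.comp h1 h2)
  have e8 : Computable (fun z : IxE k =>
      (SC.all fun a => !(decide (a.1 = z.1) && (leq a.2.1 z.2.1 && leq a.2.2 z.2.2)))) := by
    refine comp_all (Computable.const SC) ?_
    have h1 : Computable (fun w : IxE k × IxE k =>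
        decide (w.2.1 = w.1.1)) :=
      comp_eq (Computable.fst.comp Computable.snd) (Computable.fst.comp Computable.fst)
    have h2 : Computable (fun w : IxE k × IxE k => leq w.2.2.1 w.1.2.1) :=
      comp_leq.comp (Computable.fst.comp (Computable.snd.comp Computable.snd))
        (Computable.fst.comp (Computable.snd.comp Computable.fst))
    have h3 : Computable (fun w : IxE k × IxE k => leq w.2.2.2 w.1.2.2) :=
      comp_leq.comp (Computable.snd.comp (Computable.snd.comp Computable.snd))
        (Computable.snd.comp (Computable.snd.comp Computable.fst))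
    exact Primrec.not.to_comp.comp (Primrec.and.to_comp.comp h1
      (Primrec.and.to_comp.comp h2 h3))
  have e9 : Computable (fun z : IxE k => bif leq z.2.1 0 then
      (SN.all fun a => !(decide (a.1 = z.1) && leq a.2 z.2.2)) else
      (SC.all fun a => !(decide (a.1 = z.1) && (leq a.2.1 z.2.1 && leq a.2.2 z.2.2)))) :=
    Computable.cond (comp_leq.comp (Computable.fst.comp Computable.snd)
      (Computable.const 0)) e7 e8
  have e6 : Computable₂ (fun (_ : IxJ k) (y : IxE k ⊕ (Fin 3 → ℕ)) =>
      (Sum.casesOn y (fun z => bif leq z.2.1 0 then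
      (SN.all fun a => !(decide (a.1 = z.1) && leq a.2 z.2.2)) else
      (SC.all fun a => !(decide (a.1 = z.1) && (leq a.2.1 z.2.1 && leq a.2.2 z.2.2))))
      fun z => S3.all fun a => !(leq a z) : Bool)) :=
    Computable.sumCasesOn Computable.snd (e9.comp Computable.snd).to₂
      (e5.comp Computable.snd).to₂
  exact Computable.sumCasesOn Computable.id (e4.comp Computable.snd).to₂ e6

end ok

end

end Pool.Agent.Helper120_Alt.R3
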