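import Pool.Agent.Helper120_Alt.R3.Cor4

set_option autoImplicit false

/-! Spanning families of finitely generated bimodules modulo the core. -/

namespace Pool.Agent.Helper120_Alt.R3

open Pool.Agent.Helper895.Alt

noncomputable section

variable {F : Type} [Field F] {K : Type} [Field K] [Algebra F K] {p : Fin 10 → K}
  {I : Submodule F (Oct K)}

/-- iterated left multiplications by letters -/
def Lw (F : Type) [Field F] {K : Type} [Field K] [Algebra F K] (p : Fin 10 → K) :
    List (Fin 3) → (Oct K →ₗ[F] Oct K)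
  | [] => LinearMap.id
  | i :: l => LinearMap.mulLeft F (fm p i) ∘ₗ Lw F p l

theorem Lw_cons (i : Fin 3) (l : List (Fin 3)) (x : Oct K) :
    Lw F p (i :: l) x = fm p i * Lw F p l x := rfl

theorem Lw_smulK (k : K) (l : List (Fin 3)) (x : Oct K) :
    Lw F p l (k • x) = k • Lw F p l x := by
  induction l with
  | nil => rfl
  | cons i l ih => rw [Lw_cons, ih, mul_smul_comm, Lw_cons]

theorem count_cl {n : ℕ} (α : Fin n → ℕ) (i : Fin n) : (cl α).count i = α i := by
  unfold cl
  rw [List.count_flatMap, ← List.ofFn_eq_map, List.sum_ofFn]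
  simp [List.count_replicate]

theorem cl_perm {n : ℕ} (α : Fin n → ℕ) (i : Fin n) :
    List.Perm (i :: cl α) (cl (α + Pi.single i 1)) := by
  rw [List.perm_iff_count]
  intro j
  rw [count_cl, List.count_cons, count_cl]
  by_cases h : i = j
  · subst h; simp
  · simp [h, Ne.symm h]

theorem swap_eq (x y n : Oct K) : x * (y * n) - y * (x * n) = cm x y * n - 2 • asc n x y := by
  have e1 : asc y x n = -asc x y n := asc_swap12 _ _ _
  have e : x * (y * n) - y * (x * n) = cm x y * n - asc x y n + asc y x n := by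
    unfold cm asc; simp only [sub_mul]; abel
  rw [e, e1, asc_cyc n x y]; abel

theorem Bim_of_letters {N : Submodule F (Oct K)}
    (h : ∀ l, ∀ x ∈ N, fm p l * x ∈ N ∧ x * fm p l ∈ N) : Bim p N := by
  intro a x hx
  refine closureG (ph F p : NA F (Fin 3) →ₙ+* Oct K) N.toAddSubgroup ?_ a x hx
  intro l c x hx
  have e1 : (ph F p : NA F (Fin 3) →ₙ+* Oct K) (MonoidAlgebra.single (FreeMagma.of l) c) =
      c • fm p l := ph_letter p l c
  rw [e1, smul_mul_assoc, mul_smul_comm]
  have h1 := h l x hx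
  exact ⟨Submodule.smul_mem _ _ h1.1, Submodule.smul_mem _ _ h1.2⟩

theorem Zc_Lw (hI : Bim p I) (l : List (Fin 3)) {z : Oct K} (hz : z ∈ Zc F p I) :
    Lw F p l z ∈ Zc F p I := by
  induction l with
  | nil => exact hz
  | cons i l ih => exact Zc_l hI (fm_A3 i) ih

theorem I_Lw (hI : Bim p I) (l : List (Fin 3)) {z : Oct K} (hz : z ∈ I) :
    Lw F p l z ∈ I := by
  induction l with
  | nil => exact hz
  | cons i l ih => exact hI.l (fm_A3 i) ih

theorem Zc_perm (hI : Bim p I) {l l' : List (Fin 3)} (h : List.Perm l l') {z : Oct K}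
    (hz : z ∈ Zc F p I) : Lw F p l z - Lw F p l' z ∈ core F p I := by
  induction h with
  | nil => rw [sub_self]; exact zero_mem _
  | cons i _ ih =>
    rw [Lw_cons, Lw_cons, ← mul_sub]
    exact (core_Bim hI).l (fm_A3 i) ih
  | swap x y l =>
    have hn := Zc_Lw hI l hz
    rw [Lw_cons, Lw_cons, Lw_cons, Lw_cons, swap_eq]
    have h1 := hn.2 _ (fm_A3 y) _ (fm_A3 x)
    exact sub_mem h1.2.2 (nsmul_mem h1.1 2)
  | trans _ _ ih1 ih2 =>
    have := add_mem ih1 ih2
    rwa [sub_add_sub_cancel] at this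

/-- the span of the multiples of some elements, with the core -/
def Ws (F : Type) [Field F] {K : Type} [Field K] [Algebra F K] (p : Fin 10 → K)
    (I : Submodule F (Oct K)) {a : ℕ} (g : Fin a → Oct K) : Submodule F (Oct K) :=
  core F p I ⊔ Submodule.span F (Set.range fun x : Fin a × (Fin 3 → ℕ) =>
    Lw F p (cl x.2) (g x.1))

theorem core_le_Ws {a : ℕ} (g : Fin a → Oct K) : core F p I ≤ Ws F p I g := le_sup_left

theorem mem_Ws {a : ℕ} (g : Fin a → Oct K) (s : Fin a) (β : Fin 3 → ℕ) :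
    Lw F p (cl β) (g s) ∈ Ws F p I g :=
  Submodule.mem_sup_right (Submodule.subset_span ⟨(s, β), rfl⟩)

theorem gen_mem_Ws {a : ℕ} (g : Fin a → Oct K) (s : Fin a) : g s ∈ Ws F p I g := by
  have := mem_Ws (F := F) (p := p) (I := I) g s 0
  have e : cl (0 : Fin 3 → ℕ) = [] := by simp [cl]
  rwa [e] at this

section W

variable {a : ℕ} {g : Fin a → Oct K}

theorem Ws_le_Zc (hI : Bim p I) (hg : ∀ s, g s ∈ Zc F p I) : Ws F p I g ≤ Zc F p I := by
  apply sup_le (core_le_Zc hI)
  rw [Submodule.span_le]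
  rintro _ ⟨x, rfl⟩
  exact Zc_Lw hI _ (hg _)

theorem Ws_l (hI : Bim p I) (hg : ∀ s, g s ∈ Zc F p I) (l : Fin 3) {x : Oct K}
    (hx : x ∈ Ws F p I g) : fm p l * x ∈ Ws F p I g := by
  obtain ⟨y, hy, z, hz, rfl⟩ := Submodule.mem_sup.mp hx
  rw [mul_add]
  apply add_mem
  · exact core_le_Ws g ((core_Bim hI).l (fm_A3 l) hy)
  · clear hx
    induction hz using Submodule.span_induction with
    | mem x hx =>
      obtain ⟨⟨s, β⟩, rfl⟩ := hx
      show fm p l * Lw F p (cl β) (g s) ∈ _
      rw [← Lw_cons, ← sub_add_cancel (Lw F p (l :: cl β) (g s))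
        (Lw F p (cl (β + Pi.single l 1)) (g s))]
      exact add_mem (core_le_Ws g (Zc_perm hI (cl_perm β l) (hg s))) (mem_Ws g _ _)
    | zero => rw [mul_zero]; exact zero_mem _
    | add x y _ _ hx hy => rw [mul_add]; exact add_mem hx hy
    | smul a x _ hx => rw [mul_smul_comm]; exact Submodule.smul_mem _ _ hx

/-- the three kinds of discrepancies of the multiples of an element -/
theorem Ws_disc (h2 : (2 : F) ≠ 0) (hI : Bim p I) (hg : ∀ s, g s ∈ Zc F p I) {y : Oct K}
    (hy : y ∈ I) (h : ∀ i j, cm (fm p i) y ∈ Ws F p I g ∧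
      asc y (fm p i) (fm p j) ∈ Ws F p I g ∧ cm (fm p i) (fm p j) * y ∈ Ws F p I g)
    (l : List (Fin 3)) : ∀ i j, cm (fm p i) (Lw F p l y) ∈ Ws F p I g ∧
      asc (Lw F p l y) (fm p i) (fm p j) ∈ Ws F p I g ∧
      cm (fm p i) (fm p j) * Lw F p l y ∈ Ws F p I g := by
  induction l with
  | nil => exact h
  | cons r l ih =>
    intro i j
    have hn := I_Lw hI l hy
    rw [Lw_cons]
    generalize Lw F p l y = n at *
    have hW := core_le_Ws (F := F) (p := p) (I := I) g
    refine ⟨?_, ?_, ?_⟩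
    · rw [cm_neg, cm_mul]
      have h1 : fm p r * cm n (fm p i) ∈ Ws F p I g := by
        rw [cm_neg, mul_neg]
        exact neg_mem (Ws_l hI hg r (ih i j).1)
      have h3 : asc (fm p r) n (fm p i) ∈ Ws F p I g := by
        rw [asc_swap12 n (fm p r)]
        exact neg_mem (ih r i).2.1
      exact neg_mem (add_mem (add_mem h1 (ih r i).2.2) (nsmul_mem h3 3))
    · rw [← sub_add_cancel (asc (fm p r * n) (fm p i) (fm p j))
        (fm p r * asc n (fm p i) (fm p j))]
      exact add_mem (hW (k2 h2 hI (fm_A3 r) hn (fm_A3 i) (fm_A3 j)))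
        (Ws_l hI hg r (ih i j).2.1)
    · rw [← sub_add_cancel (cm (fm p i) (fm p j) * (fm p r * n))
        (fm p r * (cm (fm p i) (fm p j) * n))]
      exact add_mem (hW (k6 h2 hI (fm_A3 r) hn (fm_A3 i) (fm_A3 j)))
        (Ws_l hI hg r (ih i j).2.2)

theorem Ws_perm (h2 : (2 : F) ≠ 0) (hI : Bim p I) (hg : ∀ s, g s ∈ Zc F p I) {y : Oct K}
    (hy : y ∈ I) (h : ∀ i j, cm (fm p i) y ∈ Ws F p I g ∧
      asc y (fm p i) (fm p j) ∈ Ws F p I g ∧ cm (fm p i) (fm p j) * y ∈ Ws F p I g)
    {l l' : List (Fin 3)} (hl : List.Perm l l') : Lw F p l y - Lw F p l' y ∈ Ws F p I g := by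
  induction hl with
  | nil => rw [sub_self]; exact zero_mem _
  | cons i _ ih =>
    rw [Lw_cons, Lw_cons, ← mul_sub]
    exact Ws_l hI hg i ih
  | swap x y' l =>
    rw [Lw_cons, Lw_cons, Lw_cons, Lw_cons, swap_eq]
    have h1 := Ws_disc h2 hI hg hy h l y' x
    exact sub_mem h1.2.2 (nsmul_mem h1.2.1 2)
  | trans _ _ ih1 ih2 =>
    have := add_mem ih1 ih2
    rwa [sub_add_sub_cancel] at this

end W

/-- finitely generated bimodules are spanned by finitely many families modulo the core -/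
theorem gens (h2 : (2 : F) ≠ 0) (hI : Bim p I) {b : ℕ} (y : Fin b → Oct K)
    (hy : ∀ t, y t ∈ I)
    (hgen : ∀ N : Submodule F (Oct K), Bim p N → (∀ t, y t ∈ N) → core F p I ≤ N → I ≤ N) :
    ∃ (k : ℕ) (g : Fin k → Oct K), (∀ s, g s ∈ I) ∧ I ≤ Ws F p I g ∧
      ∀ (s : Fin k) (β : Fin 3 → ℕ) (l : Fin 3),
        fm p l * Lw F p (cl β) (g s) - Lw F p (cl (β + Pi.single l 1)) (g s) ∈
          core F p I ⊔ Submodule.span F (Set.range fun x : {x : Fin k × (Fin 3 → ℕ) // x.1 < s} =>
            Lw F p (cl x.1.2) (g x.1.1)) := by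
  let e := Fintype.equivFin (Fin b × Fin 3 × Fin 3 × Fin 3)
  let η : Fin b × Fin 3 × Fin 3 × Fin 3 → Oct K := fun t =>
    match t.2.2.2 with
    | 0 => cm (fm p t.2.1) (y t.1)
    | 1 => asc (y t.1) (fm p t.2.1) (fm p t.2.2.1)
    | 2 => cm (fm p t.2.1) (fm p t.2.2.1) * y t.1
  let g1 : Fin (Fintype.card (Fin b × Fin 3 × Fin 3 × Fin 3)) → Oct K := fun s => η (e.symm s)
  have hη : ∀ t, η t ∈ Zc F p I := by
    rintro ⟨t, i, j, r⟩
    fin_cases r
    · exact I_cm h2 hI (fm_A3 i) (hy t)
    · exact I_asc h2 hI (fm_A3 i) (fm_A3 j) (hy t)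
    · exact I_s h2 hI (fm_A3 i) (fm_A3 j) (hy t)
  have hg1 : ∀ s, g1 s ∈ Zc F p I := fun s => hη _
  have hmem : ∀ t, η t ∈ Ws F p I g1 := by
    intro t
    have := gen_mem_Ws (F := F) (p := p) (I := I) g1 (e t)
    simpa [g1] using this
  have hd : ∀ t i j, cm (fm p i) (y t) ∈ Ws F p I g1 ∧
      asc (y t) (fm p i) (fm p j) ∈ Ws F p I g1 ∧ cm (fm p i) (fm p j) * y t ∈ Ws F p I g1 :=
    fun t i j => ⟨hmem (t, i, j, 0), hmem (t, i, j, 1), hmem (t, i, j, 2)⟩
  let g := Fin.append g1 y
  have hgI : ∀ s, g s ∈ I := by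
    intro s
    refine Fin.addCases (fun s => ?_) (fun s => ?_) s
    · show Fin.append g1 y _ ∈ I
      rw [Fin.append_left]; exact Zc_le (hg1 s)
    · show Fin.append g1 y _ ∈ I
      rw [Fin.append_right]; exact hy s
  have hW : Ws F p I g1 ≤ Ws F p I g := by
    apply sup_le le_sup_left
    rw [Submodule.span_le]
    rintro _ ⟨⟨s, β⟩, rfl⟩
    have := mem_Ws (F := F) (p := p) (I := I) g (Fin.castAdd b s) β
    have e1 : g (Fin.castAdd b s) = g1 s := Fin.append_left _ _ _
    rwa [e1] at this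
  have htri : ∀ (s : Fin (Fintype.card (Fin b × Fin 3 × Fin 3 × Fin 3) + b)) (β : Fin 3 → ℕ)
      (l : Fin 3), fm p l * Lw F p (cl β) (g s) - Lw F p (cl (β + Pi.single l 1)) (g s) ∈
        core F p I ⊔ Submodule.span F (Set.range fun x : {x : Fin (Fintype.card
          (Fin b × Fin 3 × Fin 3 × Fin 3) + b) × (Fin 3 → ℕ) // x.1 < s} =>
            Lw F p (cl x.1.2) (g x.1.1)) := by
    intro s β l
    refine Fin.addCases (fun s => ?_) (fun s => ?_) s
    · apply Submodule.mem_sup_left
      have e1 : g (Fin.castAdd b s) = g1 s := Fin.append_left _ _ _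
      rw [e1, ← Lw_cons]
      exact Zc_perm hI (cl_perm β l) (hg1 s)
    · have e1 : g (Fin.natAdd _ s) = y s := Fin.append_right _ _ _
      rw [e1, ← Lw_cons]
      have h3 := Ws_perm h2 hI hg1 (hy s) (hd s) (cl_perm β l)
      refine (sup_le le_sup_left ?_ : Ws F p I g1 ≤ _) h3
      rw [Submodule.span_le]
      rintro _ ⟨⟨s', β'⟩, rfl⟩
      apply Submodule.mem_sup_right
      apply Submodule.subset_span
      refine ⟨⟨(Fin.castAdd b s', β'), ?_⟩, ?_⟩
      · exact Fin.lt_def.mpr (lt_of_lt_of_le s'.isLt (Nat.le_add_right _ _))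
      · show Lw F p (cl β') (g (Fin.castAdd b s')) = Lw F p (cl β') (g1 s')
        have e2 : g (Fin.castAdd b s') = g1 s' := Fin.append_left _ _ _
        rw [e2]
  refine ⟨_, g, hgI, ?_, htri⟩
  apply hgen
  · apply Bim_of_letters
    intro l x hx
    have hl : fm p l * x ∈ Ws F p I g := by
      obtain ⟨y', hy', z, hz, rfl⟩ := Submodule.mem_sup.mp hx
      rw [mul_add]
      apply add_mem
      · exact core_le_Ws g ((core_Bim hI).l (fm_A3 l) hy')
      · clear hx
        induction hz using Submodule.span_induction with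
        | mem x hx =>
          obtain ⟨⟨s, β⟩, rfl⟩ := hx
          show fm p l * Lw F p (cl β) (g s) ∈ _
          rw [← sub_add_cancel (fm p l * Lw F p (cl β) (g s))
            (Lw F p (cl (β + Pi.single l 1)) (g s))]
          refine add_mem ?_ (mem_Ws g _ _)
          refine (sup_le le_sup_left ?_ : _ ≤ Ws F p I g) (htri s β l)
          rw [Submodule.span_le]
          rintro _ ⟨x, rfl⟩
          exact mem_Ws g _ _
        | zero => rw [mul_zero]; exact zero_mem _
        | add x y _ _ hx hy => rw [mul_add]; exact add_mem hx hy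
        | smul a x _ hx => rw [mul_smul_comm]; exact Submodule.smul_mem _ _ hx
    refine ⟨hl, ?_⟩
    have hc : cm (fm p l) x ∈ Ws F p I g := by
      clear hl
      obtain ⟨y', hy', z, hz, rfl⟩ := Submodule.mem_sup.mp hx
      rw [cm_add]
      apply add_mem
      · exact core_le_Ws g ((core_Bim hI).c (fm_A3 l) hy')
      · clear hx
        induction hz using Submodule.span_induction with
        | mem x hx =>
          obtain ⟨⟨s, β⟩, rfl⟩ := hx
          show cm (fm p l) (Lw F p (cl β) (g s)) ∈ _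
          refine Fin.addCases (fun s => ?_) (fun s => ?_) s
          · have e1 : g (Fin.castAdd b s) = g1 s := Fin.append_left _ _ _
            rw [e1]
            have h3 := Zc_Lw hI (cl β) (hg1 s)
            exact core_le_Ws g (h3.2 _ (fm_A3 l) _ (fm_A3 l)).2.1
          · have e1 : g (Fin.natAdd _ s) = y s := Fin.append_right _ _ _
            rw [e1]
            exact hW (Ws_disc h2 hI hg1 (hy s) (hd s) (cl β) l l).1
        | zero =>
          have : cm (fm p l) (0 : Oct K) = 0 := by unfold cm; simp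
          rw [this]; exact zero_mem _
        | add x y _ _ hx hy => rw [cm_add]; exact add_mem hx hy
        | smul a x _ hx =>
          have : cm (fm p l) (a • x) = a • cm (fm p l) x := by
            unfold cm; rw [mul_smul_comm, smul_mul_assoc, smul_sub]
          rw [this]; exact Submodule.smul_mem _ _ hx
    have e1 : x * fm p l = fm p l * x - cm (fm p l) x := by unfold cm; abel
    rw [e1]
    exact sub_mem hl hc
  · intro t
    have := gen_mem_Ws (F := F) (p := p) (I := I) g (Fin.natAdd _ t)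
    have e1 : g (Fin.natAdd _ t) = y t := Fin.append_right _ _ _
    rwa [e1] at this
  · exact core_le_Ws g

end

end Pool.Agent.Helper120_Alt.R3
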